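import Pool.Agent.Lib.MP_a7588a_co.Defs

set_option autoImplicit false

namespace Pool.Agent.CT

open Real

/-! ### orientation identities -/

theorem ori_cyc (a b c : Pt) : ori a b c = ori b c a := by
  simp only [ori, cross, Prod.fst_sub, Prod.snd_sub]; ring

theorem ori_cyc' (a b c : Pt) : ori a b c = ori c a b := by
  simp only [ori, cross, Prod.fst_sub, Prod.snd_sub]; ring

theorem ori_swap (a b c : Pt) : ori a b c = - ori a c b := by
  simp only [ori, cross, Prod.fst_sub, Prod.snd_sub]; ring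

theorem ori_swap' (a b c : Pt) : ori a b c = - ori b a c := by
  simp only [ori, cross, Prod.fst_sub, Prod.snd_sub]; ring

theorem ori_swap'' (a b c : Pt) : ori a b c = - ori c b a := by
  simp only [ori, cross, Prod.fst_sub, Prod.snd_sub]; ring

@[simp] theorem ori_self_left (a b : Pt) : ori a a b = 0 := by simp [ori, cross]
@[simp] theorem ori_self_mid (a b : Pt) : ori a b a = 0 := by simp [ori, cross]
@[simp] theorem ori_self_right (a b : Pt) : ori a b b = 0 := by
  simp only [ori, cross, Prod.fst_sub, Prod.snd_sub]; ring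

theorem ori_sum (a b c y : Pt) : ori a b y + ori b c y + ori c a y = ori a b c := by
  simp only [ori, cross, Prod.fst_sub, Prod.snd_sub]; ring

theorem ne_of_ori {a b c : Pt} (h : ori a b c ≠ 0) : a ≠ b ∧ a ≠ c ∧ b ≠ c := by
  refine ⟨?_, ?_, ?_⟩ <;> rintro rfl <;> simp at h

theorem cross_sub_eq (a b p q : Pt) : cross (b - a) (q - p) = ori a b q - ori a b p := by
  simp only [ori, cross, Prod.fst_sub, Prod.snd_sub]; ring

/-! ### directions of vectors -/

theorem DirV.ne_zero {u : Pt} {l : ℝ} (h : DirV u l) : u ≠ 0 := by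
  obtain ⟨r, hr, rfl⟩ := h
  intro h0
  have h1 : r * cos l = 0 := congrArg Prod.fst h0
  have h2 : r * sin l = 0 := congrArg Prod.snd h0
  have h3 : cos l = 0 := by simpa [hr.ne'] using h1
  have h4 : sin l = 0 := by simpa [hr.ne'] using h2
  have := sin_sq_add_cos_sq l
  rw [h3, h4] at this; norm_num at this

theorem dirV_exists {u : Pt} (h : u ≠ 0) : ∃ l, DirV u l := by
  set z : ℂ := ⟨u.1, u.2⟩ with hz
  have hz0 : z ≠ 0 := by
    intro h0
    apply h
    have h1 : u.1 = 0 := congrArg Complex.re h0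
    have h2 : u.2 = 0 := congrArg Complex.im h0
    exact Prod.ext h1 h2
  have hn : 0 < ‖z‖ := norm_pos_iff.mpr hz0
  refine ⟨z.arg, ‖z‖, hn, ?_⟩
  rw [Complex.cos_arg hz0, Complex.sin_arg]
  have e1 : z.re = u.1 := rfl
  have e2 : z.im = u.2 := rfl
  rw [e1, e2]
  ext
  · simp only; field_simp
  · simp only; field_simp

theorem DirV.add_int {u : Pt} {l : ℝ} (h : DirV u l) (n : ℤ) : DirV u (l + n * (2 * π)) := by
  obtain ⟨r, hr, h⟩ := h
  exact ⟨r, hr, by rw [cos_add_int_mul_two_pi, sin_add_int_mul_two_pi]; exact h⟩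

theorem DirV.neg {u : Pt} {l : ℝ} (h : DirV u l) : DirV (-u) (l + π) := by
  obtain ⟨r, hr, rfl⟩ := h
  exact ⟨r, hr, by simp [cos_add_pi, sin_add_pi]⟩

theorem DirV.unique {u : Pt} {l m : ℝ} (h : DirV u l) (h' : DirV u m) :
    ∃ n : ℤ, m = l + n * (2 * π) := by
  obtain ⟨r, hr, h⟩ := h
  obtain ⟨s, hs, h'⟩ := h'
  have h1 : r * cos l = s * cos m := by
    have := congrArg Prod.fst (h.symm.trans h'); simpa using this
  have h2 : r * sin l = s * sin m := by
    have := congrArg Prod.snd (h.symm.trans h'); simpa using this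
  have hrs : r = s := by
    have e1 := sin_sq_add_cos_sq l
    have e2 := sin_sq_add_cos_sq m
    have : r ^ 2 = s ^ 2 := by
      calc r ^ 2 = (r * sin l) ^ 2 + (r * cos l) ^ 2 := by nlinarith
        _ = (s * sin m) ^ 2 + (s * cos m) ^ 2 := by rw [h1, h2]
        _ = s ^ 2 := by nlinarith
    exact (pow_left_inj₀ hr.le hs.le two_ne_zero).mp this
  subst hrs
  have hc : cos l = cos m := mul_left_cancel₀ hr.ne' h1
  have hsn : sin l = sin m := mul_left_cancel₀ hr.ne' h2
  have : cos (m - l) = 1 := by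
    rw [cos_sub, ← hc, ← hsn]; nlinarith [sin_sq_add_cos_sq l]
  obtain ⟨n, hn⟩ := (cos_eq_one_iff _).mp this
  exact ⟨n, by linarith⟩

theorem cross_eq {u v : Pt} {l m : ℝ} (h : DirV u l) (h' : DirV v m) :
    ∃ r : ℝ, 0 < r ∧ cross u v = r * sin (m - l) := by
  obtain ⟨r, hr, rfl⟩ := h
  obtain ⟨s, hs, rfl⟩ := h'
  exact ⟨r * s, mul_pos hr hs, by simp only [cross, sin_sub]; ring⟩

theorem cross_pos_of {u v : Pt} {l m : ℝ} (h : DirV u l) (h' : DirV v m) (h1 : l < m)
    (h2 : m < l + π) : 0 < cross u v := by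
  obtain ⟨r, hr, e⟩ := cross_eq h h'
  rw [e]; exact mul_pos hr (sin_pos_of_pos_of_lt_pi (by linarith) (by linarith))

theorem cross_nonneg_of {u v : Pt} {l m : ℝ} (h : DirV u l) (h' : DirV v m) (h1 : l ≤ m)
    (h2 : m ≤ l + π) : 0 ≤ cross u v := by
  obtain ⟨r, hr, e⟩ := cross_eq h h'
  rw [e]; exact mul_nonneg hr.le (sin_nonneg_of_nonneg_of_le_pi (by linarith) (by linarith))

theorem cross_neg_of {u v : Pt} {l m : ℝ} (h : DirV u l) (h' : DirV v m) (h1 : l - π < m)
    (h2 : m < l) : cross u v < 0 := by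
  have := cross_pos_of h' h h2 (by linarith)
  simp only [cross] at *; linarith

theorem cross_nonpos_of {u v : Pt} {l m : ℝ} (h : DirV u l) (h' : DirV v m) (h1 : l - π ≤ m)
    (h2 : m ≤ l) : cross u v ≤ 0 := by
  have := cross_nonneg_of h' h h2 (by linarith)
  simp only [cross] at *; linarith

/-! ### directions between points -/

theorem Dir.ne {a b : Pt} {l : ℝ} (h : Dir a b l) : a ≠ b := by
  rintro rfl; exact DirV.ne_zero h (sub_self _)

theorem dir_exists {a b : Pt} (h : a ≠ b) : ∃ l, Dir a b l :=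
  dirV_exists (sub_ne_zero.mpr h.symm)

theorem Dir.add_int {a b : Pt} {l : ℝ} (h : Dir a b l) (n : ℤ) : Dir a b (l + n * (2 * π)) :=
  DirV.add_int h n

theorem Dir.add2 {a b : Pt} {l : ℝ} (h : Dir a b l) : Dir a b (l + 2 * π) := by
  simpa using h.add_int 1

theorem Dir.sub2 {a b : Pt} {l : ℝ} (h : Dir a b l) : Dir a b (l - 2 * π) := by
  have := h.add_int (-1)
  have e : l + ((-1 : ℤ) : ℝ) * (2 * π) = l - 2 * π := by push_cast; ring
  rwa [e] at this

theorem Dir.rev {a b : Pt} {l : ℝ} (h : Dir a b l) : Dir b a (l + π) := by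
  have := DirV.neg h
  simpa [Dir] using this

theorem Dir.rev' {a b : Pt} {l : ℝ} (h : Dir a b l) : Dir b a (l - π) := by
  have := h.rev.sub2
  have e : l + π - 2 * π = l - π := by ring
  rwa [e] at this

theorem Dir.congr {a b : Pt} {l m : ℝ} (h : Dir a b l) (e : l = m) : Dir a b m := e ▸ h

theorem Dir.unique {a b : Pt} {l m : ℝ} (h : Dir a b l) (h' : Dir a b m) :
    ∃ n : ℤ, m = l + n * (2 * π) := DirV.unique h h'

theorem Dir.gap {a b : Pt} {l m : ℝ} (h : Dir a b l) (h' : Dir a b m) (hlt : l < m) :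
    l + 2 * π ≤ m := by
  obtain ⟨n, rfl⟩ := h.unique h'
  have hp := pi_pos
  have : (0 : ℝ) < n := by
    by_contra hn
    push Not at hn
    nlinarith
  have h1 : (1 : ℝ) ≤ n := by exact_mod_cast (show (1 : ℤ) ≤ n from by exact_mod_cast this)
  nlinarith

theorem Dir.le_of {a b : Pt} {l m : ℝ} (h : Dir a b l) (h' : Dir a b m) (hlt : m < l + 2 * π) :
    m ≤ l := by
  by_contra hc
  push Not at hc
  linarith [h.gap h' hc]

theorem Dir.eq_of {a b : Pt} {l m : ℝ} (h : Dir a b l) (h' : Dir a b m) (h1 : m < l + 2 * π)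
    (h2 : l < m + 2 * π) : l = m :=
  le_antisymm (h'.le_of h h2) (h.le_of h' h1)

theorem dir_window {a b : Pt} (h : a ≠ b) (c : ℝ) : ∃ l, Dir a b l ∧ c ≤ l ∧ l < c + 2 * π := by
  obtain ⟨l, hl⟩ := dir_exists h
  have hp : 0 < 2 * π := by positivity
  refine ⟨l + (-⌊(l - c) / (2 * π)⌋ : ℤ) * (2 * π), hl.add_int _, ?_, ?_⟩
  · have := Int.floor_le ((l - c) / (2 * π))
    rw [le_div_iff₀ hp] at this
    push_cast; linarith
  · have := Int.lt_floor_add_one ((l - c) / (2 * π))
    rw [div_lt_iff₀ hp] at this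
    push_cast; linarith

theorem dir_window' {a b : Pt} (h : a ≠ b) (c : ℝ) : ∃ l, Dir a b l ∧ c < l ∧ l ≤ c + 2 * π := by
  obtain ⟨l, hl, h1, h2⟩ := dir_window h c
  rcases h1.eq_or_lt with rfl | h1
  · exact ⟨_, hl.add2, by linarith [pi_pos], le_rfl⟩
  · exact ⟨l, hl, h1, h2.le⟩

theorem ori_pos_of {a b c : Pt} {l m : ℝ} (h : Dir a b l) (h' : Dir a c m) (h1 : l < m)
    (h2 : m < l + π) : 0 < ori a b c := cross_pos_of h h' h1 h2

theorem ori_neg_of {a b c : Pt} {l m : ℝ} (h : Dir a b l) (h' : Dir a c m) (h1 : l - π < m)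
    (h2 : m < l) : ori a b c < 0 := cross_neg_of h h' h1 h2

theorem ori_nonneg_of {a b c : Pt} {l m : ℝ} (h : Dir a b l) (h' : Dir a c m) (h1 : l ≤ m)
    (h2 : m ≤ l + π) : 0 ≤ ori a b c := cross_nonneg_of h h' h1 h2

theorem ori_nonpos_of {a b c : Pt} {l m : ℝ} (h : Dir a b l) (h' : Dir a c m) (h1 : l - π ≤ m)
    (h2 : m ≤ l) : ori a b c ≤ 0 := cross_nonpos_of h h' h1 h2

/-- if `c` is left of `a → b`, the direction to `c` avoids `[l - π, l]` -/
theorem pos_lo {a b c : Pt} {l m : ℝ} (ho : 0 < ori a b c) (h : Dir a b l) (h' : Dir a c m)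
    (h1 : l - π ≤ m) : l < m := by
  by_contra hc
  push Not at hc
  linarith [ori_nonpos_of h h' h1 hc]

/-- if `c` is left of `a → b`, the direction to `c` avoids `[l + π, l + 2π]` -/
theorem pos_hi {a b c : Pt} {l m : ℝ} (ho : 0 < ori a b c) (h : Dir a b l) (h' : Dir a c m)
    (h1 : m ≤ l + 2 * π) : m < l + π := by
  by_contra hc
  push Not at hc
  linarith [ori_nonpos_of h.add2 h' (by linarith) h1]

/-- if `c` is right of `a → b`, the direction to `c` avoids `[l, l + π]` -/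
theorem neg_hi {a b c : Pt} {l m : ℝ} (ho : ori a b c < 0) (h : Dir a b l) (h' : Dir a c m)
    (h1 : m ≤ l + π) : m < l := by
  by_contra hc
  push Not at hc
  linarith [ori_nonneg_of h h' hc h1]

theorem neg_lo {a b c : Pt} {l m : ℝ} (ho : ori a b c < 0) (h : Dir a b l) (h' : Dir a c m)
    (h1 : l ≤ m) : l + π < m := by
  by_contra hc
  push Not at hc
  linarith [ori_nonneg_of h h' h1 hc]

theorem exists_dir_pos {a b c : Pt} {l : ℝ} (ho : 0 < ori a b c) (h : Dir a b l) :
    ∃ m, Dir a c m ∧ l < m ∧ m < l + π := by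
  obtain ⟨m, hm, h1, h2⟩ := dir_window (ne_of_ori ho.ne').2.1 l
  exact ⟨m, hm, pos_lo ho h hm (by linarith [pi_pos]), pos_hi ho h hm h2.le⟩

theorem exists_dir_neg {a b c : Pt} {l : ℝ} (ho : ori a b c < 0) (h : Dir a b l) :
    ∃ m, Dir a c m ∧ l - π < m ∧ m < l := by
  obtain ⟨m, hm, h1, h2⟩ := dir_window (ne_of_ori ho.ne).2.1 l
  exact ⟨m - 2 * π, hm.sub2, by linarith [neg_lo ho h hm h1], by linarith⟩

/-- version for two different base points: `p` left of (or on) and `q` right of the line `a → b` -/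
theorem cross_dir_neg {a b p q : Pt} {l m : ℝ} (ho : ori a b q < ori a b p) (h : Dir a b l)
    (h' : Dir p q m) : ¬ (l ≤ m ∧ m ≤ l + π) := by
  rintro ⟨h1, h2⟩
  have := cross_nonneg_of h h' h1 h2
  rw [cross_sub_eq] at this; linarith

theorem cross_dir_pos {a b p q : Pt} {l m : ℝ} (ho : ori a b p < ori a b q) (h : Dir a b l)
    (h' : Dir p q m) : ¬ (l - π ≤ m ∧ m ≤ l) := by
  rintro ⟨h1, h2⟩
  have := cross_nonpos_of h h' h1 h2
  rw [cross_sub_eq] at this; linarith

/-! ### windows -/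

theorem InW.mono {v w : Pt} {L U L' U' : ℝ} (h : InW v L U w) (h1 : L' ≤ L) (h2 : U ≤ U') :
    InW v L' U' w := by
  obtain ⟨l, hl, a, b⟩ := h
  exact ⟨l, hl, by linarith, by linarith⟩

theorem inW_trans {v a b c : Pt} {L : ℝ} (ha : InW v L (L + π) a) (hb : InW v L (L + π) b)
    (hc : InW v L (L + π) c) (h1 : 0 < ori v a b) (h2 : 0 < ori v b c) : 0 < ori v a c := by
  obtain ⟨la, da, a1, a2⟩ := ha
  obtain ⟨lb, db, b1, b2⟩ := hb
  obtain ⟨lc, dc, c1, c2⟩ := hc
  have e1 := pos_lo h1 da db (by linarith)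
  have e2 := pos_lo h2 db dc (by linarith)
  exact ori_pos_of da dc (by linarith) (by linarith)

/-! ### views -/

theorem vlt.ne {V : Pt → ℝ} {a b : Pt} (h : vlt V a b) : a ≠ b := by
  obtain ⟨l, hl, -⟩ := h; exact hl.ne

theorem vlt_iff_inW {V : Pt → ℝ} {a b : Pt} : vlt V a b ↔ InW a (V a) (V a + π) b := Iff.rfl

theorem vlt_congr {V W : Pt → ℝ} {a b : Pt} (e : V a = W a) (h : vlt V a b) : vlt W a b := by
  obtain ⟨l, hl, h1, h2⟩ := h
  exact ⟨l, hl, e ▸ h1, e ▸ h2⟩

theorem vlt_shift {V W : Pt → ℝ} {a b : Pt} (n : ℤ) (e : W a = V a + n * (2 * π))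
    (h : vlt V a b) : vlt W a b := by
  obtain ⟨l, hl, h1, h2⟩ := h
  exact ⟨l + n * (2 * π), hl.add_int n, by linarith, by linarith⟩

theorem vlt_of_sees {V : Pt → ℝ} {a b : Pt} {l : ℝ} (h : Dir a b l) (hs : Sees V a l) :
    vlt V a b := ⟨l, h, hs.2, by linarith [hs.1]⟩

namespace IsView

variable {X : Finset Pt} {V : Pt → ℝ}

theorem iff' (hV : IsView X V) {a b : Pt} (ha : a ∈ X) (hb : b ∈ X) {l : ℝ} (h : Dir a b l) :
    l < V a ↔ l < V b := by
  have h1 := hV.iff a ha b hb l h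
  have h2 := hV.ne a ha b hb l h
  constructor
  · intro h3
    by_contra h4
    push Not at h4
    have := h1.mpr (lt_of_le_of_ne h4 h2.2)
    linarith
  · intro h3
    by_contra h4
    push Not at h4
    have := h1.mp (lt_of_le_of_ne h4 h2.1)
    linarith

/-- the window condition can be read at either endpoint -/
theorem sees_iff (hV : IsView X V) {a b : Pt} (ha : a ∈ X) (hb : b ∈ X) {l : ℝ} (h : Dir a b l) :
    Sees V a l ↔ Sees V b l := by
  have h1 := hV.iff a ha b hb l h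
  have h2 := hV.iff' hb ha h.rev'
  unfold Sees
  rw [h1, h2]

theorem born_iff (hV : IsView X V) {a b : Pt} (ha : a ∈ X) (hb : b ∈ X) {l : ℝ} (h : Dir a b l) :
    l - π < V a ↔ l - π < V b := (hV.iff' hb ha h.rev').symm

/-- `a < b` read at `b`: the direction `b → a` lies in `(V b - π, V b)` -/
theorem vlt_iff_back (hV : IsView X V) {a b : Pt} (ha : a ∈ X) (hb : b ∈ X) :
    vlt V a b ↔ InW b (V b - π) (V b) a := by
  constructor
  · rintro ⟨l, hl, h1, h2⟩
    have := (hV.sees_iff ha hb hl).mp ⟨by linarith, h1⟩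
    exact ⟨l - π, hl.rev', by linarith [this.2], this.1⟩
  · rintro ⟨m, hm, h1, h2⟩
    have := (hV.sees_iff ha hb hm.rev).mpr ⟨by linarith, by linarith⟩
    exact vlt_of_sees hm.rev this

theorem asymm (hV : IsView X V) {a b : Pt} (ha : a ∈ X) (hb : b ∈ X) (h : vlt V a b) :
    ¬ vlt V b a := fun h' => (hV.trans a ha b hb a ha h h').ne rfl

theorem total (hV : IsView X V) {a b : Pt} (ha : a ∈ X) (hb : b ∈ X) (hab : a ≠ b) :
    vlt V a b ∨ vlt V b a := by
  obtain ⟨l, hl, h1, h2⟩ := dir_window hab (V a - π)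
  have n1 := (hV.ne a ha b hb l hl).1
  have n2 := (hV.ne b hb a ha _ hl.rev).2
  rcases lt_or_gt_of_ne n1 with h3 | h3
  · exact Or.inl ⟨l, hl, h3, by linarith⟩
  · right
    rw [hV.vlt_iff_back hb ha]
    refine ⟨l, hl, lt_of_le_of_ne h1 ?_, h3⟩
    intro e; apply n2; linarith

theorem mono (hV : IsView X V) {Y : Finset Pt} (h : Y ⊆ X) : IsView Y V :=
  ⟨fun a ha b hb => hV.ne a (h ha) b (h hb), fun a ha b hb => hV.iff a (h ha) b (h hb),
    fun a ha b hb c hc => hV.trans a (h ha) b (h hb) c (h hc)⟩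

theorem shift (hV : IsView X V) {W : Pt → ℝ} (n : ℤ) (e : ∀ x ∈ X, W x = V x + n * (2 * π)) :
    IsView X W := by
  have key : ∀ {a b : Pt} {l : ℝ}, Dir a b l → Dir a b (l - n * (2 * π)) := by
    intro a b l h
    have := h.add_int (-n)
    exact this.congr (by push_cast; ring)
  refine ⟨fun a ha b hb l hl => ?_, fun a ha b hb l hl => ?_, fun a ha b hb c hc h1 h2 => ?_⟩
  · have := hV.ne a ha b hb _ (key hl)
    rw [e a ha, e b hb]
    exact ⟨fun h => this.1 (by linarith), fun h => this.2 (by linarith)⟩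
  · have := hV.iff a ha b hb _ (key hl)
    rw [e a ha, e b hb]
    constructor
    · intro h; have := this.mp (by linarith); linarith
    · intro h; have := this.mpr (by linarith); linarith
  · have h1' : vlt V a b := vlt_shift (-n) (by rw [e a ha]; push_cast; ring) h1
    have h2' : vlt V b c := vlt_shift (-n) (by rw [e b hb]; push_cast; ring) h2
    exact vlt_shift n (e a ha) (hV.trans a ha b hb c hc h1' h2')

end IsView

namespace Sys

variable {X : Finset Pt} {K : ℕ} {V : ℤ → Pt → ℝ}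

theorem le (h : Sys X K V) {i j : ℤ} (hij : i ≤ j) {x : Pt} (hx : x ∈ X) : V i x ≤ V j x := by
  induction j, hij using Int.leInduction with
  | base => exact le_rfl
  | succ j _ ih => exact ih.trans (h.mono j x hx)

theorem per_int (h : Sys X K V) (i n : ℤ) {x : Pt} (hx : x ∈ X) :
    V (i + K * n) x = V i x + n * (2 * π) := by
  induction n using Int.induction_on with
  | zero => simp
  | succ n ih =>
    have := h.per (i + K * n) x hx
    rw [show i + K * ((n : ℤ) + 1) = i + K * n + K by ring, this, ih]; push_cast; ring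
  | pred n ih =>
    have := h.per (i + K * (-(n : ℤ) - 1)) x hx
    rw [show i + K * (-(n : ℤ) - 1) + K = i + K * (-(n : ℤ)) by ring, ih] at this
    push_cast at this ⊢; linarith

theorem per_sub (h : Sys X K V) (i : ℤ) {x : Pt} (hx : x ∈ X) :
    V (i - K) x = V i x - 2 * π := by
  have := h.per (i - K) x hx
  rw [sub_add_cancel] at this; linarith

theorem vlt_per (h : Sys X K V) (i n : ℤ) {a b : Pt} (ha : a ∈ X) (hv : vlt (V i) a b) :
    vlt (V (i + K * n)) a b := vlt_shift n (h.per_int i n ha) hv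

/-- visibility is convex in the position -/
theorem sees_between (h : Sys X K V) {i j k : ℤ} (hij : i ≤ j) (hjk : j ≤ k) {a : Pt} (ha : a ∈ X)
    {l : ℝ} (h1 : l - π < V i a) (h2 : V k a < l) : Sees (V j) a l :=
  ⟨h1.trans_le (h.le hij ha), (h.le hjk ha).trans_lt h2⟩

theorem restrict (h : Sys X K V) {Y : Finset Pt} (hY : Y ⊆ X) : Sys Y K V :=
  ⟨fun i => (h.view i).mono hY, fun i x hx => h.mono i x (hY hx), fun i x hx => h.per i x (hY hx)⟩

end Sys

theorem per_int {α : Type*} {v : ℤ → α} {K : ℕ} (h : ∀ i, v (i + K) = v i) (i n : ℤ) :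
    v (i + K * n) = v i := by
  induction n using Int.induction_on with
  | zero => simp
  | succ n ih => rw [show i + K * ((n : ℤ) + 1) = i + K * n + K by ring, h, ih]
  | pred n ih =>
    have := h (i + K * (-(n : ℤ) - 1))
    rw [show i + K * (-(n : ℤ) - 1) + K = i + K * (-(n : ℤ)) by ring, ih] at this
    exact this.symm

theorem exists_divmod {K : ℤ} (hK : 0 < K) (j : ℤ) : ∃ q r : ℤ, j = r + K * q ∧ 0 ≤ r ∧ r < K :=
  ⟨j / K, j % K, (Int.emod_add_mul_ediv j K).symm, Int.emod_nonneg _ hK.ne', Int.emod_lt_of_pos _ hK⟩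

theorem emod_of {K r : ℤ} (q : ℤ) (h0 : 0 ≤ r) (h1 : r < K) : (r + K * q) % K = r := by
  rw [Int.add_mul_emod_self_left, Int.emod_eq_of_lt h0 h1]

theorem ediv_of {K r : ℤ} (q : ℤ) (h0 : 0 ≤ r) (h1 : r < K) : (r + K * q) / K = q := by
  have hK : K ≠ 0 := by omega
  rw [Int.add_mul_ediv_left _ _ hK, Int.ediv_eq_zero_of_lt h0 h1, zero_add]

/-! ### signed angles -/

theorem GP.gen {X : Finset Pt} (h : GP X) {y : Pt} (hy : y ∈ X) : Gen y X :=
  fun a ha b hb hab hay hby => h y hy a ha b hb hay.symm hby.symm hab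

theorem GP.mono {X Y : Finset Pt} (h : GP X) (hY : Y ⊆ X) : GP Y :=
  fun a ha b hb c hc => h a (hY ha) b (hY hb) c (hY hc)

theorem pang_of_nonpos {y a b : Pt} (h : ori y a b ≤ 0) : pang y a b = 0 := by
  unfold pang
  rw [dif_neg]
  rintro ⟨t, -, -, h3, -⟩
  linarith

theorem pang_spec {y a b : Pt} (h : 0 < ori y a b) :
    0 < pang y a b ∧ pang y a b < π ∧ ∀ l, Dir y a l → Dir y b (l + pang y a b) := by
  have hex : ∃ t, 0 < t ∧ t < π ∧ 0 < ori y a b ∧ ∀ l, Dir y a l → Dir y b (l + t) := by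
    obtain ⟨l, hl⟩ := dir_exists (ne_of_ori h.ne').1
    obtain ⟨m, hm, h1, h2⟩ := exists_dir_pos h hl
    refine ⟨m - l, by linarith, by linarith, h, fun l' hl' => ?_⟩
    obtain ⟨n, rfl⟩ := hl.unique hl'
    exact (hm.add_int n).congr (by ring)
  unfold pang
  rw [dif_pos hex]
  obtain ⟨h1, h2, -, h4⟩ := hex.choose_spec
  exact ⟨h1, h2, h4⟩

theorem del_anti (y : Pt) : Anti (del y) := fun a b => by unfold del; ring

theorem del_of_zero {y a b : Pt} (h : ori y a b = 0) : del y a b = 0 := by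
  unfold del
  rw [pang_of_nonpos h.le, pang_of_nonpos (by rw [ori_swap, h]; simp), sub_self]

@[simp] theorem del_left (y b : Pt) : del y y b = 0 := del_of_zero (by simp)
@[simp] theorem del_right (y a : Pt) : del y a y = 0 := del_of_zero (by simp)
@[simp] theorem del_self (y a : Pt) : del y a a = 0 := del_of_zero (by simp)

theorem del_pos {y a b : Pt} (h : 0 < ori y a b) :
    0 < del y a b ∧ del y a b < π ∧ ∀ l, Dir y a l → Dir y b (l + del y a b) := by
  have e : del y a b = pang y a b := by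
    unfold del; rw [pang_of_nonpos (a := b) (b := a) (by rw [ori_swap]; linarith), sub_zero]
  rw [e]; exact pang_spec h

theorem del_neg {y a b : Pt} (h : ori y a b < 0) :
    -π < del y a b ∧ del y a b < 0 ∧ ∀ l, Dir y a l → Dir y b (l + del y a b) := by
  have h' : 0 < ori y b a := by rw [ori_swap]; linarith
  obtain ⟨h1, h2, h3⟩ := del_pos h'
  have e := del_anti y a b
  refine ⟨by linarith, by linarith, fun l hl => ?_⟩
  obtain ⟨m, hm⟩ := dir_exists (ne_of_ori h'.ne').1
  obtain ⟨n, hn⟩ := (h3 m hm).unique hl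
  exact (hm.add_int n).congr (by rw [hn, e]; ring)

theorem del_dir {y a b : Pt} (h : ori y a b ≠ 0) {l : ℝ} (hl : Dir y a l) :
    Dir y b (l + del y a b) := by
  rcases lt_or_gt_of_ne h with h | h
  · exact (del_neg h).2.2 l hl
  · exact (del_pos h).2.2 l hl

theorem del_lt (y a b : Pt) : -π < del y a b ∧ del y a b < π := by
  have hp := pi_pos
  rcases lt_trichotomy (ori y a b) 0 with h | h | h
  · have := del_neg h; exact ⟨this.1, by linarith [this.2.1]⟩
  · rw [del_of_zero h]; exact ⟨by linarith, hp⟩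
  · have := del_pos h; exact ⟨by linarith [this.1], this.2.1⟩

theorem Gen.del_dir {y : Pt} {X : Finset Pt} (hg : Gen y X) {a b : Pt} (ha : a ∈ X) (hb : b ∈ X)
    (hby : b ≠ y) {l : ℝ} (hl : Dir y a l) : Dir y b (l + del y a b) := by
  by_cases hab : a = b
  · subst hab; simpa using hl
  · exact CT.del_dir (hg a ha b hb hab hl.ne.symm hby) hl

theorem del_eq {y a b : Pt} {l m : ℝ} (hl : Dir y a l) (hm : Dir y b m) (h1 : l - π < m)
    (h2 : m < l + π) : del y a b = m - l := by
  have hp := pi_pos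
  rcases lt_trichotomy l m with h | h | h
  · obtain ⟨e1, e2, e3⟩ := del_pos (ori_pos_of hl hm h h2)
    have := (e3 l hl).eq_of hm (by linarith) (by linarith)
    linarith
  · subst h
    have : ori y a b = 0 :=
      le_antisymm (ori_nonpos_of hl hm (by linarith) le_rfl) (ori_nonneg_of hl hm le_rfl (by linarith))
    rw [del_of_zero this]; ring
  · obtain ⟨e1, e2, e3⟩ := del_neg (ori_neg_of hl hm h1 h)
    have := (e3 l hl).eq_of hm (by linarith) (by linarith)
    linarith

theorem tri_ang_inside {y a b c : Pt} (h1 : 0 < ori a b y) (h2 : 0 < ori b c y)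
    (h3 : 0 < ori c a y) : del y a b + del y b c + del y c a = 2 * π := by
  have hp := pi_pos
  rw [ori_cyc'] at h1 h2 h3
  obtain ⟨a1, a2, a3⟩ := del_pos h1
  obtain ⟨b1, b2, b3⟩ := del_pos h2
  obtain ⟨c1, c2, c3⟩ := del_pos h3
  obtain ⟨l, hl⟩ := dir_exists (ne_of_ori h1.ne').1
  have h4 := c3 _ (b3 _ (a3 l hl))
  have h5 := hl.gap h4 (by linarith)
  have h6 := hl.add2.le_of h4 (by linarith)
  linarith

theorem tri_ang_out_aux {y a b c : Pt} (h : 0 < ori a b c) (h1 : ori a b y < 0)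
    (h2 : ori b c y ≠ 0) (h3 : ori c a y ≠ 0) : del y a b + del y b c + del y c a = 0 := by
  have hp := pi_pos
  have hs := ori_sum a b c y
  rw [ori_cyc' a b y] at h1 hs
  rw [ori_cyc' b c y] at h2 hs
  rw [ori_cyc' c a y] at h3 hs
  obtain ⟨a1, a2, a3⟩ := del_neg h1
  obtain ⟨l, hl⟩ := dir_exists (ne_of_ori h1.ne).1
  have h4 := del_dir h3 (del_dir h2 (a3 l hl))
  have b0 := del_lt y b c
  have c0 := del_lt y c a
  have hlo : -(2 * π) < del y a b + del y b c + del y c a := by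
    rcases lt_or_gt_of_ne h2 with h2 | h2
    · have h3' : 0 < ori y c a := by linarith
      linarith [(del_pos h3').1]
    · linarith [(del_pos h2).1]
  have := hl.eq_of h4 (by linarith) (by linarith)
  linarith

theorem tri_ang_outside {y a b c : Pt} (h : 0 < ori a b c) (h1 : ori a b y ≠ 0)
    (h2 : ori b c y ≠ 0) (h3 : ori c a y ≠ 0)
    (hn : ¬ (0 < ori a b y ∧ 0 < ori b c y ∧ 0 < ori c a y)) :
    del y a b + del y b c + del y c a = 0 := by
  rcases lt_or_gt_of_ne h1 with h1' | h1'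
  · exact tri_ang_out_aux h h1' h2 h3
  rcases lt_or_gt_of_ne h2 with h2' | h2'
  · have := tri_ang_out_aux (by rwa [ori_cyc] at h) h2' h3 h1
    linarith
  rcases lt_or_gt_of_ne h3 with h3' | h3'
  · have := tri_ang_out_aux (by rwa [ori_cyc'] at h) h3' h1 h2
    linarith
  exact absurd ⟨h1', h2', h3'⟩ hn

theorem tri_ang_nonneg {y : Pt} {X : Finset Pt} (hg : Gen y X) {a b c : Pt} (ha : a ∈ X)
    (hb : b ∈ X) (hc : c ∈ X) (h : 0 < ori a b c) :
    0 ≤ del y a b + del y b c + del y c a := by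
  obtain ⟨n1, n2, n3⟩ := ne_of_ori h.ne'
  by_cases e1 : a = y
  · subst e1; simpa using (del_pos h).1.le
  by_cases e2 : b = y
  · subst e2; simpa using (del_pos (by rwa [ori_cyc] at h)).1.le
  by_cases e3 : c = y
  · subst e3; simpa using (del_pos (by rwa [ori_cyc'] at h)).1.le
  have g1 : ori a b y ≠ 0 := by rw [ori_cyc']; exact hg a ha b hb n1 e1 e2
  have g2 : ori b c y ≠ 0 := by rw [ori_cyc']; exact hg b hb c hc n3 e2 e3
  have g3 : ori c a y ≠ 0 := by rw [ori_cyc']; exact hg c hc a ha n2.symm e3 e1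
  by_cases hin : 0 < ori a b y ∧ 0 < ori b c y ∧ 0 < ori c a y
  · rw [tri_ang_inside hin.1 hin.2.1 hin.2.2]; positivity
  · rw [tri_ang_outside h g1 g2 g3 hin]

end Pool.Agent.CT
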