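import Pool.Agent.Lib.MP_a7588a_co.Radial

/-! Block BRIDGE: general position and hull vertices in Mathlib terms. -/

set_option autoImplicit false

namespace Pool.Agent.CT

open Real

theorem gp_ok : GPStmt := by
  intro S hS a ha b hb c hc hab hac hbc h0
  refine hS a ha b hb c hc hab hac hbc ?_
  rw [collinear_iff_of_mem (p₀ := a) (by simp)]
  refine ⟨b - a, ?_⟩
  simp only [ori, cross, Prod.fst_sub, Prod.snd_sub] at h0
  intro y hy
  simp only [Set.mem_insert_iff, Set.mem_singleton_iff] at hy
  rcases hy with rfl | rfl | rfl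
  · exact ⟨0, by simp⟩
  · exact ⟨1, by simp⟩
  · by_cases h1 : b.1 - a.1 = 0
    · have h2 : b.2 - a.2 ≠ 0 := fun h2 =>
        hab (Prod.ext (by linarith) (by linarith))
      refine ⟨(y.2 - a.2) / (b.2 - a.2), Prod.ext ?_ ?_⟩
      · simp only [vadd_eq_add, Prod.fst_add, Prod.smul_fst, Prod.fst_sub, smul_eq_mul]
        field_simp
        linarith
      · simp only [vadd_eq_add, Prod.snd_add, Prod.smul_snd, Prod.snd_sub, smul_eq_mul]
        field_simp
        ring
    · refine ⟨(y.1 - a.1) / (b.1 - a.1), Prod.ext ?_ ?_⟩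
      · simp only [vadd_eq_add, Prod.fst_add, Prod.smul_fst, Prod.fst_sub, smul_eq_mul]
        field_simp
        ring
      · simp only [vadd_eq_add, Prod.snd_add, Prod.smul_snd, Prod.snd_sub, smul_eq_mul]
        field_simp
        linarith

/-- the scalar product of `y - p` with `b - p` -/
def bridge_dot (p b y : Pt) : ℝ := (y.1 - p.1) * (b.1 - p.1) + (y.2 - p.2) * (b.2 - p.2)

theorem bridge_convex (p b : Pt) :
    Convex ℝ {y : Pt | 0 < ori p b y ∨ (ori p b y = 0 ∧ 0 < bridge_dot p b y)} := by
  intro y hy z hz s t hs ht hst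
  have e1 : ori p b (s • y + t • z) = s * ori p b y + t * ori p b z := by
    have : t = 1 - s := by linarith
    subst this
    simp only [ori, cross, Prod.fst_sub, Prod.snd_sub, Prod.fst_add, Prod.snd_add, Prod.smul_fst,
      Prod.smul_snd, smul_eq_mul]
    ring
  have e2 : bridge_dot p b (s • y + t • z) = s * bridge_dot p b y + t * bridge_dot p b z := by
    have : t = 1 - s := by linarith
    subst this
    simp only [bridge_dot, Prod.fst_add, Prod.snd_add, Prod.smul_fst, Prod.smul_snd, smul_eq_mul]
    ring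
  simp only [Set.mem_ofPred_eq] at hy hz ⊢
  rw [e1, e2]
  rcases hs.eq_or_lt with rfl | hs'
  · have : t = 1 := by linarith
    subst this
    simpa using hz
  rcases ht.eq_or_lt with rfl | ht'
  · have : s = 1 := by linarith
    subst this
    simpa using hy
  rcases hy with hy | ⟨hy, hy'⟩ <;> rcases hz with hz | ⟨hz, hz'⟩
  · exact Or.inl (by positivity)
  · exact Or.inl (by rw [hz, mul_zero, add_zero]; positivity)
  · exact Or.inl (by rw [hy, mul_zero, zero_add]; positivity)
  · exact Or.inr ⟨by rw [hy, hz]; ring, by positivity⟩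

theorem bridge_ok : BridgeStmt := by
  intro S hS h2 p hp
  constructor
  · intro hn
    have hfin : ((S : Set Pt) \ {p}).Finite := S.finite_toSet.subset Set.sdiff_subset
    obtain ⟨f, u, hf1, hf2⟩ := geometric_hahn_banach_point_closed (convex_convexHull ℝ _)
      (hfin.isCompact_convexHull ℝ).isClosed hn
    have hlin : ∀ v : Pt, f v = f (1, 0) * v.1 + f (0, 1) * v.2 := fun v => by
      have : v = v.1 • ((1, 0) : Pt) + v.2 • ((0, 1) : Pt) := by ext <;> simp
      conv_lhs => rw [this, map_add, map_smul, map_smul]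
      simp only [smul_eq_mul]
      ring
    have hpos : ∀ y ∈ S, y ≠ p → 0 < ori p (p + (f (0, 1), -f (1, 0))) y := fun y hy hyp => by
      have h1 := hf2 y (subset_convexHull ℝ _ ⟨hy, hyp⟩)
      rw [hlin] at h1 hf1
      simp only [ori, cross, add_sub_cancel_left, Prod.fst_sub, Prod.snd_sub]
      linarith
    have hne : ∃ y ∈ S, y ≠ p := Finset.exists_mem_ne h2 p
    obtain ⟨y₀, hy₀, hy₀p⟩ := hne
    obtain ⟨L, hL⟩ := dir_exists (ne_of_ori (hpos y₀ hy₀ hy₀p).ne').1
    obtain ⟨b, l, hb, -⟩ := exists_out_of_window hS hp (L := L)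
      (fun y hy hyp => exists_dir_pos (hpos y hy hyp) hL) ⟨y₀, hy₀, hy₀p⟩
    exact ⟨b, hb.1⟩
  · rintro ⟨b, -, -, hpb, h⟩ hm
    have := convexHull_min (t := {y : Pt | 0 < ori p b y ∨ (ori p b y = 0 ∧ 0 < bridge_dot p b y)})
      ?_ (bridge_convex p b) hm
    · simp [ori, cross, bridge_dot] at this
    · rintro y ⟨hy, hyp⟩
      by_cases e : y = b
      · subst e
        refine Or.inr ⟨by simp only [ori, cross]; ring, ?_⟩
        have : y.1 - p.1 ≠ 0 ∨ y.2 - p.2 ≠ 0 := by
          by_contra hc
          push Not at hc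
          exact hpb (Prod.ext (by linarith [hc.1]) (by linarith [hc.2]))
        rcases this with h1 | h1
        · have := mul_self_pos.2 h1
          have := mul_self_nonneg (y.2 - p.2)
          unfold bridge_dot
          linarith
        · have := mul_self_pos.2 h1
          have := mul_self_nonneg (y.1 - p.1)
          unfold bridge_dot
          linarith
      · exact Or.inl (h y hy hyp e)

end Pool.Agent.CT
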