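import Pool.Agent.Lib.MP_a7588a_co.W

/-! Block statements for the two-layer theorem on compatible triangulations. -/

set_option autoImplicit false

namespace Pool.Agent.CT

open Real

/-- hull vertex -/
def IsHV (X : Finset Pt) (a : Pt) : Prop := ∃ b, HE X a b

open Classical in
noncomputable def triS (t : T3) : Finset Pt := {t.1, t.2.1, t.2.2}

open Classical in
noncomputable def inner (S : Finset Pt) : Finset Pt := S.filter fun p => ¬ IsHV S p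

open Classical in
noncomputable def del1 (X : Finset Pt) (w : Pt) : Finset Pt := X.erase w

/-- ENUM -/
def EnumStmt : Prop := ∀ X : Finset Pt, GP X → 2 ≤ X.card →
  ∃ (n : ℕ) (h : ℤ → Pt) (D : ℤ → ℝ), HullEnum X n h D ∧ {a | IsHV X a}.ncard = n

/-- ENUM -/
def SortedStmt : Prop := ∀ (X : Finset Pt) (n : ℕ) (h : ℤ → Pt) (D : ℤ → ℝ), HullEnum X n h D →
  (∀ i j, h i = h j → (n : ℤ) ∣ i - j) ∧ (∀ i, D (i + 1) ≤ D i + π) ∧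
  ∀ i j k : ℤ, i < j → j < k → k < i + n → 0 < ori (h i) (h j) (h k)

/-- BRIDGE -/
def GPStmt : Prop := ∀ S : Finset Pt,
  (∀ a ∈ S, ∀ b ∈ S, ∀ c ∈ S, a ≠ b → a ≠ c → b ≠ c → ¬ Collinear ℝ ({a, b, c} : Set Pt)) → GP S

/-- BRIDGE -/
def BridgeStmt : Prop := ∀ S : Finset Pt, GP S → 2 ≤ S.card → ∀ p ∈ S,
  (p ∉ convexHull ℝ ((S : Set Pt) \ {p}) ↔ IsHV S p)

/-- COVER -/
def CoverStmt : Prop := ∀ (S : Finset Pt) (n : ℕ) (h : ℤ → Pt) (D : ℤ → ℝ) (L : List T3),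
  GP S → 3 ≤ S.card → HullEnum S n h D →
  (∀ t ∈ L, t.1 ∈ S ∧ t.2.1 ∈ S ∧ t.2.2 ∈ S ∧ 0 < ori t.1 t.2.1 t.2.2) → BdL L h n →
  (∀ x ∈ S, ∃ t ∈ L, T3.mem x t) →
  (∀ t ∈ L, ∀ p ∈ S, p ∈ convexHull ℝ (triS t : Set Pt) → p ∈ triS t) ∧
  (∀ t ∈ L, ∀ t' ∈ L, triS t ≠ triS t' →
    interior (convexHull ℝ (triS t : Set Pt)) ∩ interior (convexHull ℝ (triS t' : Set Pt)) = ∅) ∧
  (⋃ t ∈ L, convexHull ℝ (triS t : Set Pt)) = convexHull ℝ (S : Set Pt)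

/-- the inner problem when the first set is in convex position -/
def TT2 : Prop := ∀ (X Y : Finset Pt) (K : ℕ) (VP VQ : ℤ → Pt → ℝ), X.Nonempty →
  X.card = Y.card → GP X → GP Y → CP X → Sys X K VP → Sys Y K VQ → Feas X K VP → Feas Y K VQ →
  Sol X Y K VP VQ

/-- TOP (the hypothesis on the inner sets is abstract) -/
def TopStmt : Prop := ∀ (S₁ S₂ : Finset Pt) (n : ℕ) (h₁ h₂ : ℤ → Pt) (D₁ D₂ : ℤ → ℝ),
  GP S₁ → GP S₂ → 3 ≤ S₁.card → S₁.card = S₂.card → HullEnum S₁ n h₁ D₁ → HullEnum S₂ n h₂ D₂ →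
  (inner S₁).card = (inner S₂).card →
  (∀ (K : ℕ) (VP VQ : ℤ → Pt → ℝ), (inner S₁).Nonempty → Sys (inner S₁) K VP →
    Sys (inner S₂) K VQ → Feas (inner S₁) K VP → Feas (inner S₂) K VQ →
    Sol (inner S₁) (inner S₂) K VP VQ) →
  ∃ (φ : Pt → Pt) (L : List T3), Set.BijOn φ (S₁ : Set Pt) (S₂ : Set Pt) ∧ (∀ i, φ (h₁ i) = h₂ i) ∧
    PosL S₁ φ L ∧ BdL L h₁ n ∧ ∀ x ∈ S₁, ∃ t ∈ L, T3.mem x t

/-- TOPSYS: the views from the hull vertices, each repeated `M` times -/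
def TopSysStmt : Prop := ∀ (S : Finset Pt) (n : ℕ) (h : ℤ → Pt) (D : ℤ → ℝ) (M : ℕ),
  GP S → 3 ≤ S.card → HullEnum S n h D → 0 < M → (inner S).card ≤ M →
  ∃ V : ℤ → Pt → ℝ, Sys (inner S) (M * n) V ∧ Feas (inner S) (M * n) V ∧
    ∀ j, ∀ a ∈ inner S, ∀ b ∈ inner S, vlt (V j) a b → 0 < ori a (h (j / M)) b

/-- DROP -/
def DropStmt : Prop := ∀ (X Y : Finset Pt) (K : ℕ) (VP VQ : ℤ → Pt → ℝ) (p : ℤ), 0 < K →
  Sys X (K + 1) VP → Sys Y (K + 1) VQ → Avoid X (K + 1) VP p → Avoid Y (K + 1) VQ p →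
  ∃ WP WQ : ℤ → Pt → ℝ, Sys X K WP ∧ Sys Y K WQ ∧ Feas X K WP ∧ Feas Y K WQ ∧
    (Sol X Y K WP WQ → Sol X Y (K + 1) VP VQ)

/-- DROP -/
def ShiftStmt : Prop := ∀ (X : Finset Pt) (K : ℕ) (V : ℤ → Pt → ℝ) (s : ℤ),
  (Sys X K V → Sys X K fun i => V (i + s)) ∧ (Feas X K V → Feas X K fun i => V (i + s)) ∧
  (∀ p, Avoid X K (fun i => V (i + s)) p → Avoid X K V (p + s)) ∧
  (∀ p n : ℤ, Avoid X K V p → Avoid X K V (p + K * n)) ∧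
  ∀ (Y : Finset Pt) (W : ℤ → Pt → ℝ),
    Sol X Y K (fun i => V (i + s)) (fun i => W (i + s)) → Sol X Y K V W

/-- CONV: counting, and the tight convex case -/
def ConvStmt : Prop := ∀ (X : Finset Pt) (K : ℕ) (V : ℤ → Pt → ℝ), GP X → 2 ≤ X.card →
  Sys X K V → Feas X K V →
  2 ≤ K ∧ ((∀ p, ¬ Avoid X K V p) → K ≤ X.card) ∧ (CP X → X.card ≤ K) ∧
  (CP X → K = X.card → ∃ (h : ℤ → Pt) (D : ℤ → ℝ), HullEnum X K h D ∧ FP X K V h ∧ Nec X V h)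

/-- SET: choice of the vertex to be promoted -/
def SetStmt : Prop := ∀ (X : Finset Pt) (K : ℕ) (V : ℤ → Pt → ℝ), GP X → 2 ≤ K → Sys X K V →
  Feas X K V → (¬ Avoid X K V (-2) ∨ ¬ Avoid X K V (-1)) →
  ∃ w wm wp Di Do μ R, PData X K V w wm wp Di Do μ R

/-- PSYS -/
def PSysStmt : Prop := ∀ (X : Finset Pt) (K N : ℕ) (V : ℤ → Pt → ℝ) (w wm wp : Pt) (Di Do : ℝ)
  (μ : Pt → ℝ → ℤ) (R : Pt → ℝ), PData X K V w wm wp Di Do μ R → 0 < N →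
  Sys (del1 X w) (K - 2 + N) (promV V R K N)

/-- PFEAS -/
def PFeasStmt : Prop := ∀ (X : Finset Pt) (K N : ℕ) (V : ℤ → Pt → ℝ) (w wm wp : Pt) (Di Do : ℝ)
  (μ : Pt → ℝ → ℤ) (R : Pt → ℝ), PData X K V w wm wp Di Do μ R → X.card ≤ N →
  Feas (del1 X w) (K - 2 + N) (promV V R K N)

/-- PLIFT: lifting a walk through a promotion -/
def PLiftStmt : Prop := ∀ (X : Finset Pt) (K N : ℕ) (V : ℤ → Pt → ℝ) (w wm wp : Pt) (Di Do : ℝ)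
  (μ : Pt → ℝ → ℤ) (R : Pt → ℝ) (v : ℤ → Pt), PData X K V w wm wp Di Do μ R → 0 < N →
  Sys (del1 X w) (K - 2 + N) (promV V R K N) →
  (¬ Avoid X K V (-2) ∨ ¬ Avoid X K V (-1)) →
  (∀ i, v i ∈ del1 X w) → (∀ i, v (i + (K - 2 + N : ℕ)) = v i) →
  (∀ i, v i ≠ v (i + 1) → vlt (promV V R K N i) (v i) (v (i + 1))) →
  Nec (del1 X w) (promV V R K N) v →
  (∀ i, promW v w K i ≠ promW v w K (i + 1) → vlt (V i) (promW v w K i) (promW v w K (i + 1))) ∧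
    Nec X V (promW v w K)

/-- PROM -/
def PromStmt : Prop := ∀ (X Y : Finset Pt) (K : ℕ) (VP VQ : ℤ → Pt → ℝ), GP X → GP Y → 2 ≤ K →
  X.card = Y.card → Sys X K VP → Sys Y K VQ → Feas X K VP → Feas Y K VQ →
  (¬ Avoid X K VP (-2) ∨ ¬ Avoid X K VP (-1)) → (¬ Avoid Y K VQ (-2) ∨ ¬ Avoid Y K VQ (-1)) →
  ∃ w ∈ X, ∃ x ∈ Y, ∃ (K' : ℕ) (WP WQ : ℤ → Pt → ℝ), Sys (del1 X w) K' WP ∧ Sys (del1 Y x) K' WQ ∧
    Feas (del1 X w) K' WP ∧ Feas (del1 Y x) K' WQ ∧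
    (Sol (del1 X w) (del1 Y x) K' WP WQ → Sol X Y K VP VQ)

/-- INIT -/
def InitStmt : Prop := ∀ (X : Finset Pt) (U : ℤ → Pt → ℝ), GP X → 3 ≤ X.card →
  Sys X X.card U → Feas X X.card U →
  ∃ (v : ℤ → Pt) (τ : ℤ → ℤ), (∀ j, τ j ≤ τ (j + 1)) ∧ (∀ j, τ (j + X.card) = τ j + X.card) ∧
    (∀ j, j ≤ τ j) ∧ FP X X.card (fun j => U (τ j)) v ∧ TriL (win v 0 X.card)

/-- NEC -/
def NecStmt : Prop := ∀ (X : Finset Pt) (U : ℤ → Pt → ℝ) (v : ℤ → Pt), GP X → 3 ≤ X.card →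
  FP X X.card U v → TriL (win v 0 X.card) → Nec X U v

/-- WALL -/
def WallStmt : Prop := ∀ (X : Finset Pt) (U : ℤ → Pt → ℝ), GP X → 3 ≤ X.card →
  Sys X X.card U → Feas X X.card U →
  ∃ v : ℤ → Pt, FP X X.card U v ∧ TriL (win v 0 X.card)

/-- TIGHT: the case `K = |X|` with `X` in convex position -/
def TightStmt : Prop := ∀ (X Y : Finset Pt) (VP VQ : ℤ → Pt → ℝ), 2 ≤ X.card →
  X.card = Y.card → GP X → GP Y → CP X → Sys X X.card VP → Sys Y X.card VQ → Feas X X.card VP →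
  Feas Y X.card VQ → Sol X Y X.card VP VQ

end Pool.Agent.CT
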