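import Pool.Agent.Lib.MP_a7588a_co.Radial

/-! Block CONV: counting of positions, and the tight convex case. -/

set_option autoImplicit false

namespace Pool.Agent.CT

open Real

theorem conv_add {g : ℤ → ℤ} (hg : ∀ i, g i < g (i + 1)) (i : ℤ) (j : ℕ) : g i + j ≤ g (i + j) := by
  induction j with
  | zero => simp
  | succ j ih =>
    have := hg (i + j)
    push_cast
    rw [← add_assoc i]
    omega

theorem conv_lin {g : ℤ → ℤ} (hg : ∀ i, g (i + 1) = g i + 1) (i : ℤ) : g i = i + g 0 := by
  induction i using Int.induction_on with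
  | zero => simp
  | succ i ih => rw [hg, ih]; ring
  | pred i ih =>
    have := hg (-(i : ℤ) - 1)
    rw [sub_add_cancel, ih] at this
    omega

theorem conv_shift {X : Finset Pt} {n : ℕ} {h : ℤ → Pt} {D : ℤ → ℝ} (e : HullEnum X n h D) (c : ℤ) :
    HullEnum X n (fun j => h (j - c)) fun j => D (j - c) where
  le i := by
    have := e.le (i - c)
    rwa [show i - c + 1 = i + 1 - c by ring] at this
  mono i j hij := e.mono (by omega)
  perh i := by
    have := e.perh (i - c)
    rwa [show i - c + n = i + n - c by ring] at this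
  perD i := by
    have := e.perD (i - c)
    rwa [show i - c + n = i + n - c by ring] at this
  all a b l hl := by
    obtain ⟨i, h1, h2⟩ := e.all a b l hl
    exact ⟨i + c, by simpa using h1, by simpa using h2⟩

theorem conv_ok (hE : EnumStmt) (hS : SortedStmt) : ConvStmt := by
  intro X K V hX h2 hV hF
  obtain ⟨μ, hμ⟩ := hF
  obtain ⟨n, h, D, e, hn⟩ := hE X hX h2
  have g1 : ∀ i, μ (h i) (D i) < μ (h (i + 1)) (D (i + 1)) := fun i =>
    hμ.mono _ _ _ _ _ _ (e.le i) (e.le (i + 1)) (e.mono (by omega))
  have g2 : ∀ i, μ (h (i + n)) (D (i + n)) = μ (h i) (D i) + K := fun i => by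
    rw [e.perh, e.perD, hμ.per _ _ _ (e.le i)]
  have g3 := conv_add (g := fun i => μ (h i) (D i)) g1
  have nK : n ≤ K := by
    have := g3 0 n
    have := g2 0
    omega
  have n2 : 2 ≤ n := by
    by_contra k
    have : n = 0 ∨ n = 1 := by omega
    rcases this with rfl | rfl
    · have := e.perD 0
      simp only [Nat.cast_zero, add_zero] at this
      linarith [pi_pos]
    · exact (e.le 0).ne (e.perh 0).symm
  have nX : n ≤ X.card := by
    rw [← hn, ← Set.ncard_coe_finset]
    exact Set.ncard_le_ncard (fun a ⟨b, hb⟩ => hb.1) X.finite_toSet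
  have cp : CP X → n = X.card := fun c => by
    rw [← hn, ← Set.ncard_coe_finset]
    congr 1
    exact Set.ext fun a => ⟨fun ⟨b, hb⟩ => hb.1, fun ha => c a ha h2⟩
  refine ⟨n2.trans nK, fun hA => ?_, fun c => cp c ▸ nK, fun c hK => ?_⟩
  · have s : ∀ i, μ (h (i + 1)) (D (i + 1)) = μ (h i) (D i) + 1 := fun i => by
      have := hA (μ (h i) (D i) + 1)
      simp only [Avoid, not_exists, not_and, not_forall, not_not] at this
      obtain ⟨a, b, l, hl, k⟩ := this μ hμ
      obtain ⟨j, rfl, rfl⟩ := e.all a b l hl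
      have h1 : i < j := e.mono.lt_iff_lt.1 (hμ.lt_of (e.le i) (e.le j) (by omega))
      have h3 := hμ.mono_le (e.le (i + 1)) (e.le j) (e.mono.monotone (by omega))
      have := g1 i
      omega
    have a := conv_lin (g := fun i => μ (h i) (D i)) s (0 + n)
    have b := g2 0
    omega
  · obtain rfl : n = K := by rw [cp c, hK]
    have s : ∀ i, μ (h (i + 1)) (D (i + 1)) = μ (h i) (D i) + 1 := fun i => by
      obtain ⟨m, rfl⟩ : ∃ m, n = m + 1 := ⟨n - 1, by omega⟩
      have a := g3 (i + 1) m
      have b := g2 i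
      have := g1 i
      push_cast at b
      rw [show i + ((m : ℤ) + 1) = i + 1 + m by ring] at b
      omega
    have t := conv_lin (g := fun i => μ (h i) (D i)) s
    have e' := conv_shift e (μ (h 0) (D 0))
    have u : ∀ j, μ (h (j - μ (h 0) (D 0))) (D (j - μ (h 0) (D 0))) = j := fun j => by
      have := t (j - μ (h 0) (D 0))
      omega
    refine ⟨_, _, e', ⟨hV, fun i => (e'.le i).ha, e'.perh, (hS X n _ _ e').1, fun i => ?_⟩, μ,
      fun a l => μ a l + 1, ?_, ?_, fun _ _ _ _ => by omega, ?_, ?_⟩
    · have := hμ.sees _ _ _ (e'.le i)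
      rw [u] at this
      exact vlt_of_sees (e'.le i).2 this
    · intro a b l hl
      obtain ⟨j, rfl, rfl⟩ := e'.all a b l hl
      rw [u]
    · intro a b l hl
      obtain ⟨j, rfl, rfl⟩ := e'.all a b l hl
      rw [u]
      exact ((e'.le j).unique hl).2
    · intro a b l hl j h1 h3 _
      obtain rfl : j = μ a l := by omega
      exact hμ.sees a b l hl
    · intro a b l a' b' l' hl hl' k
      exact hμ.mono _ _ _ _ _ _ hl hl' k

end Pool.Agent.CT
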