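import Pool.Agent.Lib.MP_a7588a_co.Radial

/-! A positive chain whose boundary is the hull is a triangulation. -/

set_option autoImplicit false

namespace Pool.Agent.CT

open Real Set Filter Topology

/-- strictly inside the triangle -/
def coverSI (t : T3) (y : Pt) : Prop :=
  0 < ori t.1 t.2.1 y ∧ 0 < ori t.2.1 t.2.2 y ∧ 0 < ori t.2.2 t.1 y

/-- on no line through two points of `S` -/
def coverG (S : Finset Pt) : Set Pt := {y | ∀ a ∈ S, ∀ b ∈ S, a ≠ b → ori a b y ≠ 0}

theorem cover_cont (a b : Pt) : Continuous fun y => ori a b y := by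
  unfold ori cross; fun_prop

theorem cover_half {A : Set Pt} {a b y : Pt} (h : ∀ x ∈ A, 0 ≤ ori a b x)
    (hy : y ∈ convexHull ℝ A) : 0 ≤ ori a b y := by
  refine convexHull_min (t := {y | 0 ≤ ori a b y}) h (fun x hx z hz s t hs ht hst => ?_) hy
  have e : ori a b (s • x + t • z) = s * ori a b x + t * ori a b z := by
    simp only [ori, cross, Prod.fst_sub, Prod.snd_sub, Prod.fst_add, Prod.snd_add, Prod.smul_fst,
      Prod.smul_snd, smul_eq_mul]
    linear_combination ((b.1 - a.1) * a.2 - (b.2 - a.2) * a.1) * hst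
  rw [mem_ofPred_eq, e]
  exact add_nonneg (mul_nonneg hs hx) (mul_nonneg ht hz)

theorem cover_mem_triS {t : T3} {x : Pt} : x ∈ triS t ↔ T3.mem x t := by
  simp [triS, T3.mem]

theorem cover_weak {t : T3} (h : 0 < ori t.1 t.2.1 t.2.2) {y : Pt}
    (hy : y ∈ convexHull ℝ (triS t : Set Pt)) :
    0 ≤ ori t.1 t.2.1 y ∧ 0 ≤ ori t.2.1 t.2.2 y ∧ 0 ≤ ori t.2.2 t.1 y := by
  have h1 := h
  have h2 := h
  rw [ori_cyc] at h1
  rw [ori_cyc'] at h2
  refine ⟨cover_half ?_ hy, cover_half ?_ hy, cover_half ?_ hy⟩ <;> intro x hx <;>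
    rcases cover_mem_triS.mp hx with rfl | rfl | rfl <;> first | positivity | simp

theorem cover_in_hull {t : T3} {y : Pt} (hy : coverSI t y) :
    y ∈ convexHull ℝ (triS t : Set Pt) := by
  obtain ⟨a, b, c⟩ := t
  obtain ⟨h1, h2, h3⟩ := hy
  simp only at h1 h2 h3
  have hs := ori_sum a b c y
  have hp : 0 < ori a b c := by linarith
  refine mem_convexHull_of_exists_fintype
    ![ori b c y / ori a b c, ori c a y / ori a b c, ori a b y / ori a b c] ![a, b, c]
    (fun i => ?_) ?_ (fun i => ?_) ?_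
  · fin_cases i <;> simp <;> positivity
  · simp only [Fin.sum_univ_three, Matrix.cons_val_zero, Matrix.cons_val_one, Matrix.cons_val]
    field_simp
    linarith
  · fin_cases i <;> simp [triS]
  · simp only [Fin.sum_univ_three, Matrix.cons_val_zero, Matrix.cons_val_one, Matrix.cons_val]
    ext <;> simp only [Prod.fst_add, Prod.snd_add, Prod.smul_fst, Prod.smul_snd, smul_eq_mul] <;>
      field_simp <;> simp only [ori, cross, Prod.fst_sub, Prod.snd_sub] <;> ring

theorem cover_in_int {t : T3} {y : Pt} (hy : coverSI t y) :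
    y ∈ interior (convexHull ℝ (triS t : Set Pt)) :=
  interior_maximal (t := {y | coverSI t y}) (fun _ => cover_in_hull)
    ((isOpen_lt continuous_const (cover_cont _ _)).inter
      ((isOpen_lt continuous_const (cover_cont _ _)).inter
        (isOpen_lt continuous_const (cover_cont _ _)))) hy

theorem cover_int_ne {t : T3} (h : 0 < ori t.1 t.2.1 t.2.2) :
    (interior (convexHull ℝ (triS t : Set Pt))).Nonempty := by
  refine ⟨(1 / 3 : ℝ) • (t.1 + t.2.1 + t.2.2), cover_in_int ?_⟩
  simp only [coverSI, ori, cross, Prod.fst_sub, Prod.snd_sub, Prod.fst_add, Prod.snd_add,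
    Prod.smul_fst, Prod.smul_snd, smul_eq_mul] at h ⊢
  refine ⟨?_, ?_, ?_⟩ <;> linarith

theorem cover_dense_line {a b : Pt} (hab : a ≠ b) : Dense {y | ori a b y ≠ 0} := by
  intro y
  by_cases hy : ori a b y = 0
  swap
  · exact subset_closure hy
  have hc : Tendsto (fun s : ℝ => y + s • (-(b.2 - a.2), b.1 - a.1)) (𝓝[>] 0) (𝓝 y) := by
    have : Continuous fun s : ℝ => y + s • (-(b.2 - a.2), b.1 - a.1) := by fun_prop
    simpa using (this.tendsto 0).mono_left nhdsWithin_le_nhds
  refine mem_closure_of_tendsto hc (eventually_mem_nhdsWithin.mono fun s hs => ?_)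
  have e : ori a b (y + s • (-(b.2 - a.2), b.1 - a.1)) =
      ori a b y + s * ((b.1 - a.1) ^ 2 + (b.2 - a.2) ^ 2) := by
    simp only [ori, cross, Prod.fst_sub, Prod.snd_sub, Prod.fst_add, Prod.snd_add, Prod.smul_fst,
      Prod.smul_snd, smul_eq_mul]
    ring
  rw [mem_ofPred_eq, e, hy, zero_add]
  refine mul_ne_zero (ne_of_gt hs) fun h0 => hab (Prod.ext ?_ ?_) <;>
    nlinarith [sq_nonneg (b.1 - a.1), sq_nonneg (b.2 - a.2)]

theorem cover_dense (S : Finset Pt) : Dense (coverG S) := by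
  have h := dense_biInter_of_isOpen (S := {q : Pt × Pt | q.1 ∈ S ∧ q.2 ∈ S ∧ q.1 ≠ q.2})
    (f := fun q => {y | ori q.1 q.2 y ≠ 0})
    (fun q _ => isOpen_ne_fun (cover_cont _ _) continuous_const)
    (((S.finite_toSet.prod S.finite_toSet).subset fun q hq => ⟨hq.1, hq.2.1⟩).countable)
    fun q hq => cover_dense_line hq.2.2
  exact h.mono fun y hy a ha b hb hab => mem_iInter₂.mp hy (a, b) ⟨ha, hb, hab⟩

theorem cover_wind {S : Finset Pt} {n : ℕ} {h : ℤ → Pt} {D : ℤ → ℝ} (H : HullEnum S n h D)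
    (hD : ∀ i, D (i + 1) ≤ D i + π) {y : Pt} (hy : ∀ i, 0 < ori (h i) (h (i + 1)) y) :
    ∑ i ∈ Finset.range n, del y (h i) (h ((i : ℤ) + 1)) = 2 * π := by
  have hp := pi_pos
  have hβ : ∀ i, ∃ β, Dir y (h i) β ∧ D i - π < β ∧ β < D i := fun i => by
    obtain ⟨m, h1, h2, h3⟩ := exists_dir_pos (hy i) (H.le i).2
    exact ⟨m - π, h1.rev', by linarith, by linarith⟩
  choose β h1 h2 h3 using hβ
  have h4 : ∀ i, del y (h i) (h (i + 1)) = β (i + 1) - β i := fun i => by
    obtain ⟨m, m1, m2, m3⟩ := exists_dir_pos (by rw [ori_cyc]; exact hy i) (h1 i)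
    have := H.mono (lt_add_one i)
    have e : m = β (i + 1) := m1.eq_of (h1 _) (by linarith [h3 (i + 1), hD i, h2 i])
      (by linarith [h2 (i + 1), h3 i])
    exact del_eq (h1 i) (h1 _) (by linarith) (by linarith)
  have h5 : β n = β 0 + 2 * π := by
    have e1 := H.perh 0
    have e2 := H.perD 0
    rw [zero_add] at e1 e2
    exact (e1 ▸ h1 n).eq_of (h1 0).add2 (by linarith [h2 n, h3 0]) (by linarith [h3 n, h2 0])
  have h6 := Finset.sum_range_sub (fun i : ℕ => β i) n
  simp only [h4]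
  push_cast at h6
  linarith

theorem cover_two {L : List T3} {f : T3 → ℝ} (hf : ∀ t ∈ L, 0 ≤ f t) {t t' : T3} (ht : t ∈ L)
    (ht' : t' ∈ L) (hne : t ≠ t') : f t + f t' ≤ (L.map f).sum := by
  classical
  rw [((List.perm_cons_erase ht).map f).sum_eq, List.map_cons, List.sum_cons]
  refine add_le_add le_rfl (List.single_le_sum (fun x hx => ?_) _
    (List.mem_map_of_mem ((List.mem_erase_of_ne hne.symm).mpr ht')))
  obtain ⟨s, hs, rfl⟩ := List.mem_map.mp hx
  exact hf s (List.mem_of_mem_erase hs)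

theorem cover_ok : SortedStmt → CoverStmt := by
  intro hsort S n h D L hS h3 H hL hB hU
  obtain ⟨-, hD, -⟩ := hsort S n h D H
  have hp := pi_pos
  have hsub : ∀ t ∈ L, convexHull ℝ (triS t : Set Pt) ⊆ convexHull ℝ (S : Set Pt) :=
    fun t ht => convexHull_mono fun x hx => by
      obtain ⟨a, b, c, -⟩ := hL t ht
      rcases cover_mem_triS.mp hx with rfl | rfl | rfl <;> assumption
  have hterm : ∀ y ∈ coverG S, ∀ t ∈ L,
      (coverSI t y ∧ bd (del y) t = 2 * π) ∨ (¬ coverSI t y ∧ bd (del y) t = 0) := by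
    intro y hy t ht
    obtain ⟨a, b, c, ho⟩ := hL t ht
    obtain ⟨n1, n2, n3⟩ := ne_of_ori ho.ne'
    by_cases hi : coverSI t y
    · exact Or.inl ⟨hi, tri_ang_inside hi.1 hi.2.1 hi.2.2⟩
    · exact Or.inr ⟨hi, tri_ang_outside ho (hy _ a _ b n1) (hy _ b _ c n3) (hy _ c _ a n2.symm) hi⟩
  have hsum : ∀ y ∈ coverG S, y ∈ convexHull ℝ (S : Set Pt) →
      (L.map (bd (del y))).sum = 2 * π := by
    intro y hy hy'
    rw [hB _ (del_anti y)]
    refine cover_wind H hD fun i => lt_of_le_of_ne (cover_half (fun x hx => ?_) hy')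
      (hy _ (H.le i).ha _ (H.le i).hb (H.le i).ne).symm
    by_cases e1 : x = h i
    · simp [e1]
    by_cases e2 : x = h (i + 1)
    · simp [e2]
    exact ((H.le i).1.2.2.2 x hx e1 e2).le
  have hdis : ∀ t ∈ L, ∀ t' ∈ L, triS t ≠ triS t' →
      interior (convexHull ℝ (triS t : Set Pt)) ∩ interior (convexHull ℝ (triS t' : Set Pt)) = ∅ := by
    intro t ht t' ht' hne
    by_contra hc
    obtain ⟨y, ⟨y1, y2⟩, hy⟩ := (cover_dense S).inter_open_nonempty _
      (isOpen_interior.inter isOpen_interior) (nonempty_iff_ne_empty.mpr hc)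
    have hin : ∀ s ∈ L, y ∈ convexHull ℝ (triS s : Set Pt) → bd (del y) s = 2 * π := by
      intro s hs hys
      obtain ⟨a, b, c, ho⟩ := hL s hs
      obtain ⟨n1, n2, n3⟩ := ne_of_ori ho.ne'
      obtain ⟨w1, w2, w3⟩ := cover_weak ho hys
      exact tri_ang_inside (w1.lt_of_ne (hy _ a _ b n1).symm) (w2.lt_of_ne (hy _ b _ c n3).symm)
        (w3.lt_of_ne (hy _ c _ a n2.symm).symm)
    have := cover_two (f := bd (del y))
      (fun s hs => by rcases hterm y hy s hs with e | e <;> linarith [e.2]) ht ht'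
      fun e => hne (e ▸ rfl)
    rw [hin t ht (interior_subset y1), hin t' ht' (interior_subset y2),
      hsum y hy (hsub t ht (interior_subset y1))] at this
    linarith
  refine ⟨fun t ht p hpS hpt => ?_, hdis, subset_antisymm (iUnion₂_subset hsub) ?_⟩
  · by_contra hn
    obtain ⟨t', ht', hp'⟩ := hU p hpS
    obtain ⟨a, b, c, ho⟩ := hL t ht
    obtain ⟨n1, n2, n3⟩ := ne_of_ori ho.ne'
    obtain ⟨w1, w2, w3⟩ := cover_weak ho hpt
    rw [cover_mem_triS, T3.mem] at hn
    push Not at hn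
    obtain ⟨q1, q2, q3⟩ := hn
    have hi : coverSI t p := ⟨w1.lt_of_ne (hS _ a _ b _ hpS n1 q1.symm q2.symm).symm,
      w2.lt_of_ne (hS _ b _ c _ hpS n3 q2.symm q3.symm).symm,
      w3.lt_of_ne (hS _ c _ a _ hpS n2.symm q3.symm q1.symm).symm⟩
    have hcl : p ∈ closure (interior (convexHull ℝ (triS t' : Set Pt))) := by
      rw [(convex_convexHull ℝ _).closure_interior_eq_closure_of_nonempty_interior
        (cover_int_ne (hL t' ht').2.2.2)]
      exact subset_closure (subset_convexHull ℝ _ (cover_mem_triS.mpr hp'))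
    refine (mem_closure_iff.mp hcl _ isOpen_interior (cover_in_int hi)).ne_empty
      (hdis t ht t' ht' fun e => ?_)
    rw [← cover_mem_triS, ← e, cover_mem_triS] at hp'
    rcases hp' with e | e | e <;> contradiction
  · obtain ⟨x, hx⟩ : S.Nonempty := Finset.card_pos.mp (by omega)
    obtain ⟨t0, ht0, -⟩ := hU x hx
    have hcl : IsClosed (⋃ t ∈ L, convexHull ℝ (triS t : Set Pt)) :=
      (List.finite_toSet L).isClosed_biUnion fun t _ =>
        (triS t).finite_toSet.isClosed_convexHull ℝ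
    refine subset_closure.trans ?_
    rw [← (convex_convexHull ℝ _).closure_interior_eq_closure_of_nonempty_interior
      ((cover_int_ne (hL t0 ht0).2.2.2).mono (interior_mono (hsub t0 ht0)))]
    refine closure_minimal (((cover_dense S).open_subset_closure_inter isOpen_interior).trans
      (closure_minimal ?_ hcl)) hcl
    rintro y ⟨y1, hy⟩
    by_contra hn
    have h0 : (L.map (bd (del y))).sum = 0 := List.sum_eq_zero fun z hz => by
      obtain ⟨s, hs, rfl⟩ := List.mem_map.mp hz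
      rcases hterm y hy s hs with e | e
      · exact absurd (mem_iUnion₂.mpr ⟨s, hs, cover_in_hull e.1⟩) hn
      · exact e.2
    linarith [hsum y hy (interior_subset y1)]

end Pool.Agent.CT
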