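import Pool.Agent.Lib.MP_a7588a_co.Radial

/-! Blocks DROP: dropping an avoidable view; shifting the labels. -/

set_option autoImplicit false

namespace Pool.Agent.CT

open Real

structure DropMaps (K : ℕ) (p : ℤ) (σ ρ : ℤ → ℤ) : Prop where
  mono : StrictMono σ
  perS : ∀ j, σ (j + K) = σ j + ((K + 1 : ℕ) : ℤ)
  perR : ∀ i, ρ (i + ((K + 1 : ℕ) : ℤ)) = ρ i + K
  inv : ∀ j, ρ (σ j) = j
  skip : ∀ i n, i = p + ((K + 1 : ℕ) : ℤ) * n → ρ (i + 1) = ρ i
  keep : ∀ i, (∀ n, i ≠ p + ((K + 1 : ℕ) : ℤ) * n) → ρ (i + 1) = ρ i + 1 ∧ σ (ρ i) = i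
  base : ∀ r : ℤ, 0 ≤ r → r ≤ K → ρ (p + 1 + r) = r

theorem drop_maps {K : ℕ} (hK : 0 < K) (p : ℤ) : ∃ σ ρ, DropMaps K p σ ρ := by
  have hK' : (0 : ℤ) < K := by exact_mod_cast hK
  have hs : ∀ q r : ℤ, 0 ≤ r → r < K → (r + K * q) / K = q := fun q r h0 h1 => ediv_of q h0 h1
  have hr : ∀ q r : ℤ, 0 ≤ r → r ≤ K → (r + (K + 1) * q) / (K + 1) = q := fun q r h0 h1 =>
    ediv_of q h0 (by omega)
  refine ⟨fun j => p + 1 + j + j / K, fun i => i - p - 1 - (i - p - 1) / (K + 1), ?_, ?_, ?_, ?_,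
    ?_, ?_, ?_⟩
  · intro a b h
    have := Int.ediv_le_ediv hK' h.le
    beta_reduce
    omega
  · intro j
    have := Int.add_mul_ediv_left j 1 hK'.ne'
    rw [mul_one] at this
    push_cast
    omega
  · intro i
    have := Int.add_mul_ediv_left (i - p - 1) 1 (show (K : ℤ) + 1 ≠ 0 by omega)
    push_cast
    rw [show i + (K + 1) - p - 1 = i - p - 1 + (K + 1) * 1 by ring, this]
    ring
  · intro j
    obtain ⟨q, r, rfl, r0, r1⟩ := exists_divmod hK' j
    rw [hs q r r0 r1, show p + 1 + (r + K * q) + q - p - 1 = r + (K + 1) * q by ring,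
      hr q r r0 r1.le]
    ring
  · rintro i n rfl
    push_cast
    rw [show p + (K + 1) * n + 1 - p - 1 = 0 + (K + 1) * n by ring, hr n 0 le_rfl hK'.le,
      show p + (K + 1) * n - p - 1 = K + (K + 1) * (n - 1) by ring, hr _ K hK'.le le_rfl]
    ring
  · intro i hi
    obtain ⟨q, r, e, r0, r1⟩ := exists_divmod (K := (K : ℤ) + 1) (by omega) (i - p - 1)
    have r2 : r < K := by
      by_contra h
      refine hi (q + 1) ?_
      push_cast
      have : r = K := by omega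
      linear_combination e + this
    rw [show i + 1 - p - 1 = r + 1 + (K + 1) * q by linear_combination e, e, hr q r r0 r2.le,
      hr q (r + 1) (by omega) (by omega),
      show r + (K + 1) * q - q = r + K * q by ring, hs q r r0 r2]
    constructor
    · ring
    · linear_combination -e
  · intro r r0 r1
    have := hr 0 r r0 r1
    rw [mul_zero, add_zero] at this
    rw [show p + 1 + r - p - 1 = r by ring, this, sub_zero]

namespace DropMaps

variable {K : ℕ} {p : ℤ} {σ ρ : ℤ → ℤ} {X : Finset Pt} {V : ℤ → Pt → ℝ}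

theorem sys (h : DropMaps K p σ ρ) (hS : Sys X (K + 1) V) : Sys X K fun j => V (σ j) :=
  ⟨fun _ => hS.view _, fun j _ hx => hS.le (h.mono (lt_add_one j)).le hx,
    fun j x hx => by rw [h.perS, hS.per _ x hx]⟩

theorem feas (h : DropMaps K p σ ρ) (hA : Avoid X (K + 1) V p) : Feas X K fun j => V (σ j) := by
  obtain ⟨μ, hμ, hp⟩ := hA
  have h1 : ∀ a b l, LE X a b l → σ (ρ (μ a l)) = μ a l := fun a b l hl =>
    (h.keep _ fun n e => hp a b _ ⟨hl.1, hl.2.add_int (-n)⟩ (by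
      rw [hμ.per_int hl, e]; ring)).2
  refine ⟨fun a l => ρ (μ a l), fun a b l hl => ?_, fun a b l a' b' l' hl hl' hlt => ?_,
    fun a b l hl => ?_⟩
  · rw [hμ.per a b l hl, h.perR]
  · refine h.mono.lt_iff_lt.1 ?_
    rw [h1 a b l hl, h1 a' b' l' hl']
    exact hμ.mono _ _ _ _ _ _ hl hl' hlt
  · rw [h1 a b l hl]
    exact hμ.sees a b l hl

theorem step (h : DropMaps K p σ ρ) {v : ℤ → Pt} {i : ℤ} (hi : v (ρ i) ≠ v (ρ (i + 1))) :
    ρ (i + 1) = ρ i + 1 ∧ σ (ρ i) = i :=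
  h.keep i fun n e => hi (by rw [h.skip i n e])

theorem nec (h : DropMaps K p σ ρ) {v : ℤ → Pt} (hN : Nec X (fun j => V (σ j)) v) :
    Nec X V fun i => v (ρ i) := by
  obtain ⟨ι, κ, hN⟩ := hN
  refine ⟨fun a l => σ (ι a l), fun a l => σ (κ a l), fun a b l hl => ?_, fun a b l hl => ?_,
    fun a b l hl => h.mono.monotone (hN.le a b l hl), fun a b l hl j h1 h2 h3 => ?_,
    fun a b l a' b' l' hl hl' hlt => h.mono.monotone (hN.ord a b l a' b' l' hl hl' hlt)⟩
  · rw [h.inv, hN.start a b l hl]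
  · rw [h.inv, hN.stop a b l hl]
  · obtain ⟨e1, e2⟩ := h.step h3
    have h4 := hN.sees a b l hl (ρ j) (h.mono.le_iff_le.1 (by rwa [e2]))
      (h.mono.lt_iff_lt.1 (by rwa [e2])) (by rwa [← e1])
    rwa [e2] at h4

end DropMaps

theorem drop_ok : DropStmt := by
  intro X Y K VP VQ p hK hP hQ aP aQ
  obtain ⟨σ, ρ, h⟩ := drop_maps hK p
  refine ⟨fun j => VP (σ j), fun j => VQ (σ j), h.sys hP, h.sys hQ, h.feas aP, h.feas aQ, ?_⟩
  rintro ⟨φ, v, L, hs⟩
  have hper : ∀ i, v (ρ (i + ((K + 1 : ℕ) : ℤ))) = v (ρ i) := fun i => by rw [h.perR, hs.per]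
  refine ⟨φ, fun i => v (ρ i), L, hs.bij, fun i => hs.mem _, hper, fun i hi => ?_, fun i hi => ?_,
    hs.pos, fun f hf => ?_, fun x hx => ?_, h.nec hs.necP, h.nec hs.necQ⟩
  · obtain ⟨e1, e2⟩ := h.step hi
    have h1 := hs.stepP (ρ i) (by rwa [← e1])
    rwa [e2, ← e1] at h1
  · obtain ⟨e1, e2⟩ := h.step hi
    have h1 := hs.stepQ (ρ i) (by rwa [← e1])
    rwa [e2, ← e1] at h1
  · rw [hs.bdry f hf, ← sum_period_shift f (v := fun i => v (ρ i)) hper (p + 1),
      Finset.sum_range_succ, h.skip (p + 1 + K) 1 (by push_cast; ring), hf.self, add_zero]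
    refine Finset.sum_congr rfl fun j hj => ?_
    have hj' : (j : ℤ) < K := by exact_mod_cast Finset.mem_range.1 hj
    rw [h.base j (by omega) hj'.le, add_assoc (p + 1), h.base (j + 1) (by omega) (by omega)]
  · rcases hs.used x hx with ⟨i, hi⟩ | h1
    · exact Or.inl ⟨σ i, by rw [h.inv, hi]⟩
    · exact Or.inr h1

theorem shift_nec {X : Finset Pt} {V : ℤ → Pt → ℝ} {s : ℤ} {v : ℤ → Pt}
    (hN : Nec X (fun i => V (i + s)) v) : Nec X V fun i => v (i - s) := by
  obtain ⟨ι, κ, hN⟩ := hN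
  refine ⟨fun a l => ι a l + s, fun a l => κ a l + s, fun a b l hl => ?_, fun a b l hl => ?_,
    fun a b l hl => by linarith [hN.le a b l hl], fun a b l hl j h1 h2 h3 => ?_,
    fun a b l a' b' l' hl hl' hlt => by linarith [hN.ord a b l a' b' l' hl hl' hlt]⟩
  · rw [add_sub_cancel_right, hN.start a b l hl]
  · rw [add_sub_cancel_right, hN.stop a b l hl]
  · have h4 := hN.sees a b l hl (j - s) (by omega) (by omega) (by rwa [sub_add_eq_add_sub])
    rwa [sub_add_cancel] at h4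

theorem shift_ok : ShiftStmt := by
  intro X K V s
  refine ⟨fun h => ⟨fun _ => h.view _, fun i x hx => ?_, fun i x hx => ?_⟩, ?_, ?_, ?_, ?_⟩
  · rw [add_right_comm]
    exact h.mono _ x hx
  · rw [add_right_comm]
    exact h.per _ x hx
  · rintro ⟨μ, hμ⟩
    refine ⟨fun a l => μ a l - s, fun a b l hl => ?_, fun a b l a' b' l' hl hl' hlt => ?_,
      fun a b l hl => ?_⟩
    · rw [hμ.per a b l hl]; ring
    · linarith [hμ.mono _ _ _ _ _ _ hl hl' hlt]
    · rw [sub_add_cancel]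
      exact hμ.sees a b l hl
  · rintro p ⟨μ, hμ, hp⟩
    refine ⟨fun a l => μ a l + s, ⟨fun a b l hl => ?_, fun a b l a' b' l' hl hl' hlt => ?_,
      fun a b l hl => hμ.sees a b l hl⟩, fun a b l hl e => hp a b l hl (add_right_cancel e)⟩
    · rw [hμ.per a b l hl]; ring
    · linarith [hμ.mono _ _ _ _ _ _ hl hl' hlt]
  · rintro p n ⟨μ, hμ, hp⟩
    exact ⟨μ, hμ, fun a b l hl e => hp a b _ ⟨hl.1, hl.2.add_int (-n)⟩ (by
      rw [hμ.per_int hl, e]; ring)⟩
  · rintro Y W ⟨φ, v, L, hs⟩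
    refine ⟨φ, fun i => v (i - s), L, hs.bij, fun i => hs.mem _, fun i => ?_, fun i hi => ?_,
      fun i hi => ?_, hs.pos, fun f hf => ?_, fun x hx => ?_, shift_nec hs.necP,
      shift_nec hs.necQ⟩
    · rw [← sub_add_eq_add_sub, hs.per]
    · have h1 := hs.stepP (i - s) (by rwa [sub_add_eq_add_sub])
      rwa [sub_add_cancel, sub_add_eq_add_sub] at h1
    · have h1 := hs.stepQ (i - s) (by rwa [sub_add_eq_add_sub])
      rwa [sub_add_cancel, sub_add_eq_add_sub] at h1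
    · rw [hs.bdry f hf, ← sum_period_shift f hs.per (-s)]
      refine Finset.sum_congr rfl fun j _ => ?_
      congr 2 <;> ring
    · rcases hs.used x hx with ⟨i, hi⟩ | h1
      · exact Or.inl ⟨i + s, by rw [add_sub_cancel_right, hi]⟩
      · exact Or.inr h1

end Pool.Agent.CT
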