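import Mathlib

/-! Definitions for the compatible triangulation project (MP_a7588a_co). -/

set_option autoImplicit false

namespace Pool.Agent.CT

open Real

abbrev Pt := ℝ × ℝ

def cross (u v : Pt) : ℝ := u.1 * v.2 - u.2 * v.1

/-- twice the signed area; positive iff `c` is to the left of the directed line `a → b` -/
def ori (a b c : Pt) : ℝ := cross (b - a) (c - a)

/-- `l` is a (lifted) direction angle of the nonzero vector `u` -/
def DirV (u : Pt) (l : ℝ) : Prop := ∃ r : ℝ, 0 < r ∧ u = (r * cos l, r * sin l)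

def Dir (a b : Pt) (l : ℝ) : Prop := DirV (b - a) l

def GP (X : Finset Pt) : Prop :=
  ∀ a ∈ X, ∀ b ∈ X, ∀ c ∈ X, a ≠ b → a ≠ c → b ≠ c → ori a b c ≠ 0

/-- `y` lies on no line through two points of `X` different from `y` -/
def Gen (y : Pt) (X : Finset Pt) : Prop :=
  ∀ a ∈ X, ∀ b ∈ X, a ≠ b → a ≠ y → b ≠ y → ori y a b ≠ 0

/-- `V a` is the lifted direction from `a` to the viewpoint; `vlt V a b` says the viewpoint is on the
right of `a → b`. -/
def vlt (V : Pt → ℝ) (a b : Pt) : Prop := ∃ l, Dir a b l ∧ V a < l ∧ l < V a + π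

structure IsView (X : Finset Pt) (V : Pt → ℝ) : Prop where
  ne : ∀ a ∈ X, ∀ b ∈ X, ∀ l, Dir a b l → V a ≠ l ∧ V b ≠ l
  iff : ∀ a ∈ X, ∀ b ∈ X, ∀ l, Dir a b l → (V a < l ↔ V b < l)
  trans : ∀ a ∈ X, ∀ b ∈ X, ∀ c ∈ X, vlt V a b → vlt V b c → vlt V a c

/-- counterclockwise hull edge -/
def HE (X : Finset Pt) (a b : Pt) : Prop :=
  a ∈ X ∧ b ∈ X ∧ a ≠ b ∧ ∀ y ∈ X, y ≠ a → y ≠ b → 0 < ori a b y

/-- lifted hull edge -/
def LE (X : Finset Pt) (a b : Pt) (l : ℝ) : Prop := HE X a b ∧ Dir a b l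

def Sees (V : Pt → ℝ) (a : Pt) (l : ℝ) : Prop := l - π < V a ∧ V a < l

structure Sys (X : Finset Pt) (K : ℕ) (V : ℤ → Pt → ℝ) : Prop where
  view : ∀ i, IsView X (V i)
  mono : ∀ i, ∀ x ∈ X, V i x ≤ V (i + 1) x
  per : ∀ i, ∀ x ∈ X, V (i + K) x = V i x + 2 * π

structure IsFeas (X : Finset Pt) (K : ℕ) (V : ℤ → Pt → ℝ) (μ : Pt → ℝ → ℤ) : Prop where
  per : ∀ a b l, LE X a b l → μ a (l + 2 * π) = μ a l + K
  mono : ∀ a b l a' b' l', LE X a b l → LE X a' b' l' → l < l' → μ a l < μ a' l'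
  sees : ∀ a b l, LE X a b l → Sees (V (μ a l)) a l

def Feas (X : Finset Pt) (K : ℕ) (V : ℤ → Pt → ℝ) : Prop := ∃ μ, IsFeas X K V μ

def Avoid (X : Finset Pt) (K : ℕ) (V : ℤ → Pt → ℝ) (p : ℤ) : Prop :=
  ∃ μ, IsFeas X K V μ ∧ ∀ a b l, LE X a b l → μ a l ≠ p

structure IsNec (X : Finset Pt) (V : ℤ → Pt → ℝ) (v : ℤ → Pt) (ι κ : Pt → ℝ → ℤ) : Prop where
  start : ∀ a b l, LE X a b l → v (ι a l) = a
  stop : ∀ a b l, LE X a b l → v (κ a l) = b
  le : ∀ a b l, LE X a b l → ι a l ≤ κ a l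
  sees : ∀ a b l, LE X a b l → ∀ j, ι a l ≤ j → j < κ a l → v j ≠ v (j + 1) → Sees (V j) a l
  ord : ∀ a b l a' b' l', LE X a b l → LE X a' b' l' → l < l' → κ a l ≤ ι a' l'

def Nec (X : Finset Pt) (V : ℤ → Pt → ℝ) (v : ℤ → Pt) : Prop := ∃ ι κ, IsNec X V v ι κ

def Anti (f : Pt → Pt → ℝ) : Prop := ∀ a b, f a b = - f b a

abbrev T3 := Pt × Pt × Pt

def bd (f : Pt → Pt → ℝ) (t : T3) : ℝ := f t.1 t.2.1 + f t.2.1 t.2.2 + f t.2.2 t.1

def T3.mem (x : Pt) (t : T3) : Prop := x = t.1 ∨ x = t.2.1 ∨ x = t.2.2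

/-- the triangles of `L` have corners in `X` and are positively oriented, also after applying `φ` -/
def PosL (X : Finset Pt) (φ : Pt → Pt) (L : List T3) : Prop :=
  ∀ t ∈ L, t.1 ∈ X ∧ t.2.1 ∈ X ∧ t.2.2 ∈ X ∧ 0 < ori t.1 t.2.1 t.2.2 ∧
    0 < ori (φ t.1) (φ t.2.1) (φ t.2.2)

/-- the boundary of the chain `L` is the closed walk `v 0, …, v K` -/
def BdL (L : List T3) (v : ℤ → Pt) (K : ℕ) : Prop :=
  ∀ f, Anti f → (L.map (bd f)).sum = ∑ i ∈ Finset.range K, f (v i) (v ((i : ℤ) + 1))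

structure IsSol (X Y : Finset Pt) (K : ℕ) (VP VQ : ℤ → Pt → ℝ)
    (φ : Pt → Pt) (v : ℤ → Pt) (L : List T3) : Prop where
  bij : Set.BijOn φ (X : Set Pt) (Y : Set Pt)
  mem : ∀ i, v i ∈ X
  per : ∀ i, v (i + K) = v i
  stepP : ∀ i, v i ≠ v (i + 1) → vlt (VP i) (v i) (v (i + 1))
  stepQ : ∀ i, v i ≠ v (i + 1) → vlt (VQ i) (φ (v i)) (φ (v (i + 1)))
  pos : PosL X φ L
  bdry : BdL L v K
  used : ∀ x ∈ X, (∃ i, v i = x) ∨ ∃ t ∈ L, T3.mem x t
  necP : Nec X VP v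
  necQ : Nec Y VQ (fun i => φ (v i))

def Sol (X Y : Finset Pt) (K : ℕ) (VP VQ : ℤ → Pt → ℝ) : Prop :=
  ∃ φ v L, IsSol X Y K VP VQ φ v L

/-- convex position -/
def CP (X : Finset Pt) : Prop := ∀ a ∈ X, 2 ≤ X.card → ∃ b, HE X a b

/-- enumeration of the lifted hull edges -/
structure HullEnum (X : Finset Pt) (n : ℕ) (h : ℤ → Pt) (D : ℤ → ℝ) : Prop where
  le : ∀ i, LE X (h i) (h (i + 1)) (D i)
  mono : StrictMono D
  perh : ∀ i, h (i + n) = h i
  perD : ∀ i, D (i + n) = D i + 2 * π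
  all : ∀ a b l, LE X a b l → ∃ i, h i = a ∧ D i = l

/-! ### polygons as lists -/

/-- the closed polygon `a, N, b` can be cut into positively oriented triangles -/
inductive Tri : Pt → List Pt → Pt → Prop
  | nil (a b : Pt) : Tri a [] b
  | node {a c b : Pt} {A B : List Pt} : Tri a A c → Tri c B b → 0 < ori a c b →
      Tri a (A ++ c :: B) b

def TriL (l : List Pt) : Prop := ∃ a N b, l = a :: (N ++ [b]) ∧ Tri a N b

def psum (f : Pt → Pt → ℝ) : List Pt → ℝ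
  | a :: b :: l => f a b + psum f (b :: l)
  | _ => 0

def csum (f : Pt → Pt → ℝ) (l : List Pt) : ℝ := psum f (l ++ l.take 1)

open Classical in
noncomputable def pang (y a b : Pt) : ℝ :=
  if h : ∃ t, 0 < t ∧ t < π ∧ 0 < ori y a b ∧ ∀ l, Dir y a l → Dir y b (l + t) then h.choose else 0

/-- signed angle at `y` from `a` to `b` (zero if collinear) -/
noncomputable def del (y a b : Pt) : ℝ := pang y a b - pang y b a

noncomputable def cang (y : Pt) (l : List Pt) : ℝ := csum (del y) l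

def Chain (U : ℤ → Pt → ℝ) : ℤ → List Pt → Prop
  | i, a :: b :: l => vlt (U i) a b ∧ Chain U (i + 1) (b :: l)
  | _, _ => True

def win (v : ℤ → Pt) (s : ℤ) (n : ℕ) : List Pt := (List.range n).map (fun j : ℕ => v (s + j))

/-- valid polygon given as a periodic function -/
structure FP (X : Finset Pt) (n : ℕ) (U : ℤ → Pt → ℝ) (v : ℤ → Pt) : Prop where
  sys : Sys X n U
  mem : ∀ i, v i ∈ X
  per : ∀ i, v (i + n) = v i
  inj : ∀ i j, v i = v j → (n : ℤ) ∣ i - j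
  step : ∀ i, vlt (U i) (v i) (v (i + 1))

/-- valid polygon given as a list, edge number `k` seen from view `i + k` -/
structure LP (X : Finset Pt) (K : ℕ) (U : ℤ → Pt → ℝ) (i : ℤ) (l : List Pt) : Prop where
  sys : Sys X K U
  mem : ∀ x ∈ l, x ∈ X
  nodup : l.Nodup
  len : l.length ≤ K
  chain : Chain U i (l ++ l.take 1)

/-! ### slot states -/

abbrev Seg := Pt × List Pt

def flat (S : List Seg) : List Pt := S.flatMap (fun s => s.1 :: s.2)

def fsts (S : List Seg) : List Pt := S.map Prod.fst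

def hd : List Seg → Pt → Pt
  | [], v => v
  | s :: _, _ => s.1

/-- last element of `r :: fsts S` -/
def lst : Pt → List Seg → Pt
  | r, [] => r
  | _, s :: S => lst s.1 S

def Pieces : List Seg → Pt → Prop
  | [], _ => True
  | s :: S, v => Tri s.1 s.2 (hd S v) ∧ Pieces S v

def Conc : List Pt → Prop
  | a :: b :: c :: l => ori a b c < 0 ∧ Conc (b :: c :: l)
  | _ => True

/-- geometric slot state: polygon `v :: M ++ flat S`, interior point `r`, path `v, …, r` -/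
structure Geo (r v : Pt) (M : List Pt) (S : List Seg) : Prop where
  main : Tri r (fsts S ++ v :: M) (hd S v)
  pieces : Pieces S v
  conc : Conc (r :: (fsts S ++ [v]))

/-- state after re-fanning at `v`: polygon `v :: M ++ flat S ++ [u]` -/
structure Pre (r v u : Pt) (M : List Pt) (S : List Seg) : Prop where
  main : Tri r (fsts S ++ v :: M) (hd S u)
  pieces : Pieces S u
  conc : Conc (r :: (fsts S ++ [u]))
  tri : 0 < ori (lst r S) u v

/-- direction from `v` to `w` lies in the window `(L, U)` -/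
def InW (v : Pt) (L U : ℝ) (w : Pt) : Prop := ∃ l, Dir v w l ∧ L < l ∧ l < U

/-! ### promotion -/

noncomputable def promV (V : ℤ → Pt → ℝ) (R : Pt → ℝ) (K N : ℕ) (j : ℤ) (x : Pt) : ℝ :=
  (if j % ((K - 2 + N : ℕ) : ℤ) < (K : ℤ) - 2 then
      min (max (V (j % ((K - 2 + N : ℕ) : ℤ)) x) (R x)) (R x + 2 * π)
    else R x + 2 * π) + 2 * π * ((j / ((K - 2 + N : ℕ) : ℤ) : ℤ) : ℝ)

def promW (v : ℤ → Pt) (w : Pt) (K : ℕ) (i : ℤ) : Pt :=
  if i % (K : ℤ) = (K : ℤ) - 1 then w else v (i % (K : ℤ))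

/-- data for promoting the hull vertex `w` at the junction of positions `-2` and `-1` -/
structure PData (X : Finset Pt) (K : ℕ) (V : ℤ → Pt → ℝ) (w wm wp : Pt) (Di Do : ℝ)
    (μ : Pt → ℝ → ℤ) (R : Pt → ℝ) : Prop where
  gp : GP X
  sys : Sys X K V
  two : 2 ≤ K
  ein : LE X wm w Di
  eout : LE X w wp Do
  lt : Di < Do
  le : Do ≤ Di + π
  sin : Sees (V (-2)) wm Di
  sout : Sees (V (-1)) w Do
  feas : IsFeas X K V μ
  muin : μ wm Di ≤ -2
  muout : -1 ≤ μ w Do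
  rad : ∀ y ∈ X, y ≠ w → Dir y w (R y) ∧ Do - π ≤ R y ∧ R y ≤ Di

end Pool.Agent.CT
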