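import Pool.Agent.Lib.MP_a7588a_co.Radial

/-! Enumeration of the lifted hull edges. -/

set_option autoImplicit false

namespace Pool.Agent.CT

open Real

theorem enum_per (T : Finset ℝ) {n : ℕ} (hn : T.card = n) (h0 : 0 < n) {c : ℝ}
    (hT : ∀ t ∈ T, 0 ≤ t ∧ t < c) : ∃ D : ℤ → ℝ, StrictMono D ∧ (∀ i, D (i + n) = D i + c) ∧
      ∀ l, (∃ i, D i = l) ↔ ∃ t ∈ T, ∃ q : ℤ, l = t + q * c := by
  have hz : (0 : ℤ) < n := by exact_mod_cast h0
  have hb : ∀ i : ℤ, (i % n).toNat < n := fun i => by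
    have := Int.emod_lt_of_pos i hz
    omega
  have hm := fun i : ℤ => hT _ (T.orderEmbOfFin_mem hn ⟨_, hb i⟩)
  have hc : 0 < c := (hm 0).1.trans_lt (hm 0).2
  refine ⟨fun i => T.orderEmbOfFin hn ⟨_, hb i⟩ + (i / n : ℤ) * c, fun i j hij => ?_, fun i => ?_,
    fun l => ⟨fun ⟨i, hi⟩ => ⟨_, T.orderEmbOfFin_mem hn _, _, hi.symm⟩, ?_⟩⟩
  · rcases (Int.ediv_le_ediv hz hij.le).eq_or_lt with e | e
    · have h1 := Int.emod_add_mul_ediv i n
      have h2 := Int.emod_add_mul_ediv j n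
      have h3 := Int.emod_nonneg i hz.ne'
      rw [e] at h1
      have : (⟨_, hb i⟩ : Fin n) < ⟨_, hb j⟩ := by
        rw [Fin.mk_lt_mk]; omega
      simp only [e]
      linarith [(T.orderEmbOfFin hn).strictMono this]
    · have : ((i / n : ℤ) : ℝ) + 1 ≤ (j / n : ℤ) := by exact_mod_cast e
      nlinarith [(hm i).2, (hm j).1]
  · simp only [Int.add_emod_right, Int.add_ediv_of_dvd_right (dvd_refl (n : ℤ)),
      Int.ediv_self hz.ne']
    push_cast; ring
  · rintro ⟨t, ht, q, rfl⟩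
    obtain ⟨r, rfl⟩ : t ∈ Set.range (T.orderEmbOfFin hn) := by rwa [T.range_orderEmbOfFin]
    have h1 : ((r : ℕ) : ℤ) < n := by exact_mod_cast r.2
    refine ⟨(r : ℕ) + n * q, ?_⟩
    simp only [emod_of q (Int.natCast_nonneg _) h1, ediv_of q (Int.natCast_nonneg _) h1,
      Int.toNat_natCast]

theorem enum_edge {X : Finset Pt} (hX : GP X) (h2 : 2 ≤ X.card) : ∃ a b, HE X a b := by
  obtain ⟨a, ha, hmin⟩ := X.exists_min_image (fun p => toLex p) (Finset.card_pos.1 (by omega))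
  have h1 : ∀ y ∈ X, y ≠ a → ∃ m, Dir a y m ∧ π / 2 - π < m ∧ m ≤ π / 2 := by
    intro y hy hya
    rcases Prod.Lex.toLex_le_toLex.1 (hmin y hy) with h | ⟨h, h'⟩
    · have hd : Dir a (a.1, a.2 + 1) (π / 2) := ⟨1, one_pos, by ext <;> simp⟩
      obtain ⟨m, hm, m1, m2⟩ := exists_dir_neg (c := y) (by simpa [ori, cross] using h) hd
      exact ⟨m, hm, m1, m2.le⟩
    · refine ⟨π / 2, ⟨y.2 - a.2, sub_pos.2 (h'.lt_of_ne fun e => hya (Prod.ext h e).symm), ?_⟩,
        by linarith [pi_pos], le_rfl⟩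
      ext <;> simp [h]
  choose! m hm using h1
  obtain ⟨b, hb, -⟩ := exists_out_of_spread hX ha m (fun y hy h => (hm y hy h).1)
    (fun y hy h y' hy' h' => by linarith [(hm y hy h).2.2, (hm y' hy' h').2.1])
    (Finset.exists_mem_ne (by omega) a)
  exact ⟨a, b, hb.1⟩

theorem enum_ok : EnumStmt := by
  classical
  intro X hX h2
  have h1 : ∀ a, IsHV X a → ∃ l, (∃ b, LE X a b l) ∧ 0 ≤ l ∧ l < 2 * π := fun a ⟨b, hb⟩ => by
    obtain ⟨l, hl, l1, l2⟩ := hb.exists_le 0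
    exact ⟨l, ⟨b, hl⟩, l1, by linarith⟩
  choose! g hg using h1
  have hV : {a | IsHV X a} = (X.filter (IsHV X) : Set Pt) := by
    ext a
    simp only [Set.mem_ofPred_eq, Finset.coe_filter]
    exact ⟨fun h => ⟨h.choose_spec.1, h⟩, fun h => h.2⟩
  have hc : ((X.filter (IsHV X)).image g).card = (X.filter (IsHV X)).card := by
    refine Finset.card_image_of_injOn fun a ha a' ha' e => ?_
    obtain ⟨b, hb⟩ := (hg a (Finset.mem_filter.1 ha).2).1
    obtain ⟨b', hb'⟩ := (hg a' (Finset.mem_filter.1 ha').2).1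
    exact (hb.unique (e ▸ hb')).1
  obtain ⟨a₀, b₀, h0⟩ := enum_edge hX h2
  obtain ⟨D, hD, hp, hl⟩ := enum_per _ hc (Finset.card_pos.2
    ⟨a₀, Finset.mem_filter.2 ⟨h0.1, b₀, h0⟩⟩) (c := 2 * π) fun t ht => by
      obtain ⟨a, ha, rfl⟩ := Finset.mem_image.1 ht
      exact (hg a (Finset.mem_filter.1 ha).2).2
  have h3 : ∀ i, ∃ a b, LE X a b (D i) := fun i => by
    obtain ⟨t, ht, q, e⟩ := (hl _).1 ⟨i, rfl⟩
    obtain ⟨a, ha, rfl⟩ := Finset.mem_image.1 ht
    obtain ⟨b, hb⟩ := (hg a (Finset.mem_filter.1 ha).2).1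
    exact ⟨a, b, e ▸ hb.add_int q⟩
  choose h h' hh using h3
  have hall : ∀ a b l, LE X a b l → ∃ i, h i = a ∧ D i = l := fun a b l hab => by
    obtain ⟨b', hb'⟩ := (hg a ⟨b, hab.1⟩).1
    obtain ⟨q, e⟩ := hb'.same_start hab
    obtain ⟨i, rfl⟩ := (hl l).2 ⟨_, Finset.mem_image_of_mem g
      (Finset.mem_filter.2 ⟨hab.ha, b, hab.1⟩), q, e⟩
    exact ⟨i, ((hh i).unique hab).1, rfl⟩
  refine ⟨_, h, D, ⟨fun i => ?_, hD, fun i => ?_, hp, hall⟩, by rw [hV, Set.ncard_coe_finset]⟩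
  · obtain ⟨c, l', e1, e2, e3⟩ := (hh i).next hX
    obtain ⟨j, e4, rfl⟩ := hall _ _ _ e1
    have e5 := hD.le_iff_le.1 ((hh i).consec e1 e3 (hh (i + 1)) (hD (by omega)))
    have e6 := hD.lt_iff_lt.1 e2
    obtain rfl : j = i + 1 := by omega
    exact e4 ▸ hh i
  · exact ((hh _).unique (hp i ▸ (hh i).add2)).1

theorem enum_perD {D : ℤ → ℝ} {n : ℕ} {c : ℝ} (h : ∀ i, D (i + n) = D i + c) (i q : ℤ) :
    D (i + n * q) = D i + q * c := by
  induction q using Int.induction_on with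
  | zero => simp
  | succ q ih => rw [mul_add, mul_one, ← add_assoc, h, ih]; push_cast; ring
  | pred q ih =>
    have := h (i + n * (-(q : ℤ) - 1))
    rw [show i + n * (-(q : ℤ) - 1) + n = i + n * (-(q : ℤ)) by ring, ih] at this
    push_cast at this ⊢
    linarith

theorem sorted_ok : SortedStmt := by
  intro X n h D H
  have h1 : ∀ i j : ℤ, h i = h j → (n : ℤ) ∣ i - j := fun i j e => by
    obtain ⟨q, hq⟩ := (H.le j).same_start (e ▸ H.le i)
    rw [← enum_perD H.perD] at hq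
    exact ⟨q, by rw [H.mono.injective hq]; ring⟩
  have h2 : ∀ i j : ℤ, i < j → j < i + n → h i ≠ h j := fun i j e1 e2 e => by
    have := Int.le_of_dvd (by omega) (h1 j i e.symm)
    omega
  have h3 : ∀ i j : ℤ, i < j → j + 1 < i + n → 0 < ori (h i) (h j) (h (j + 1)) := by
    intro i j e1 e2
    rw [ori_cyc]
    exact (H.le j).1.2.2.2 _ (H.le i).ha (h2 i j e1 (by omega)) (h2 i (j + 1) (by omega) e2)
  refine ⟨h1, fun i => ?_, fun i j k hij hjk hk => ?_⟩
  · obtain ⟨m, hm, m1, m2⟩ := (H.le i).exists_dir' (H.le (i + 1)).hb (H.le (i + 1)).ne.symm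
    obtain ⟨j, -, rfl⟩ := H.all _ _ _ ⟨(H.le (i + 1)).1, hm⟩
    exact (H.mono.monotone (H.mono.lt_iff_lt.1 m1)).trans m2
  · induction k, hjk using Int.leInduction with
    | base => exact h3 i j hij hk
    | succ k hjk ih =>
      obtain ⟨a, ha, a1, a2⟩ := (H.le i).exists_dir (H.le j).ha (h2 i j hij (by omega)).symm
      obtain ⟨b, hb, b1, b2⟩ := (H.le i).exists_dir (H.le k).ha (h2 i k (by omega) (by omega)).symm
      obtain ⟨c, hc, c1, c2⟩ := (H.le i).exists_dir (H.le (k + 1)).ha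
        (h2 i (k + 1) (by omega) hk).symm
      have e1 := pos_lo (ih (by omega)) ha hb (by linarith)
      have e2 := pos_lo (h3 i k (by omega) hk) hb hc (by linarith)
      exact ori_pos_of ha hc (by linarith) (by linarith)

end Pool.Agent.CT
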