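import Pool.Agent.Lib.MP_a7588a_co.Radial

/-! Re-fanning a triangulated polygon at a vertex. -/

set_option autoImplicit false

namespace Pool.Agent.CT

open Real

variable {X : Finset Pt}

@[simp] theorem flat_nil : flat [] = [] := rfl
@[simp] theorem flat_cons (s : Seg) (S : List Seg) : flat (s :: S) = s.1 :: (s.2 ++ flat S) := by
  simp [flat]
@[simp] theorem flat_append (S T : List Seg) : flat (S ++ T) = flat S ++ flat T := by simp [flat]
@[simp] theorem fsts_nil : fsts [] = [] := rfl
@[simp] theorem fsts_cons (s : Seg) (S : List Seg) : fsts (s :: S) = s.1 :: fsts S := rfl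
@[simp] theorem fsts_append (S T : List Seg) : fsts (S ++ T) = fsts S ++ fsts T := by simp [fsts]
@[simp] theorem hd_nil (v : Pt) : hd [] v = v := rfl
@[simp] theorem hd_cons (s : Seg) (S : List Seg) (v : Pt) : hd (s :: S) v = s.1 := rfl
@[simp] theorem lst_nil (r : Pt) : lst r [] = r := rfl
@[simp] theorem lst_cons (r : Pt) (s : Seg) (S : List Seg) : lst r (s :: S) = lst s.1 S := rfl
@[simp] theorem pieces_nil (v : Pt) : Pieces [] v := trivial
@[simp] theorem pieces_cons (s : Seg) (S : List Seg) (v : Pt) :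
    Pieces (s :: S) v ↔ Tri s.1 s.2 (hd S v) ∧ Pieces S v := Iff.rfl
@[simp] theorem conc_cons3 (a b c : Pt) (l : List Pt) :
    Conc (a :: b :: c :: l) ↔ ori a b c < 0 ∧ Conc (b :: c :: l) := Iff.rfl
@[simp] theorem conc_two (a b : Pt) : Conc [a, b] := trivial
@[simp] theorem conc_one (a : Pt) : Conc [a] := trivial

theorem hd_append (S T : List Seg) (v : Pt) : hd (S ++ T) v = hd S (hd T v) := by
  cases S <;> simp

theorem lst_append (r : Pt) (S T : List Seg) : lst r (S ++ T) = lst (lst r S) T := by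
  induction S generalizing r with
  | nil => rfl
  | cons s S ih => simp [ih]

theorem pieces_append (S T : List Seg) (v : Pt) :
    Pieces (S ++ T) v ↔ Pieces S (hd T v) ∧ Pieces T v := by
  induction S with
  | nil => simp
  | cons s S ih => simp [ih, hd_append, and_assoc]

theorem fsts_hd (S : List Seg) (u : Pt) : ∃ T, fsts S ++ [u] = hd S u :: T := by
  cases S with
  | nil => exact ⟨[], rfl⟩
  | cons s S => exact ⟨fsts S ++ [u], rfl⟩

theorem flat_hd (S : List Seg) (u : Pt) : ∃ T, flat S ++ [u] = hd S u :: T := by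
  cases S with
  | nil => exact ⟨[], rfl⟩
  | cons s S => exact ⟨s.2 ++ flat S ++ [u], by simp⟩

theorem fsts_lst (r : Pt) (S : List Seg) : ∃ F, r :: fsts S = F ++ [lst r S] := by
  induction S generalizing r with
  | nil => exact ⟨[], rfl⟩
  | cons s S ih =>
    obtain ⟨F, hF⟩ := ih s.1
    exact ⟨r :: F, by simp [hF]⟩

theorem fsts_sub (S : List Seg) : ∀ x ∈ fsts S, x ∈ flat S := by
  induction S with
  | nil => simp
  | cons s S ih =>
    intro x hx
    simp only [fsts_cons, flat_cons, List.mem_cons, List.mem_append] at hx ⊢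
    rcases hx with h | h
    · exact Or.inl h
    · exact Or.inr (Or.inr (ih x h))

theorem hd_mem (S : List Seg) (u : Pt) : hd S u ∈ fsts S ++ [u] := by
  cases S <;> simp

theorem lst_mem (r : Pt) (S : List Seg) : lst r S ∈ r :: fsts S := by
  obtain ⟨F, hF⟩ := fsts_lst r S
  rw [hF]; simp

theorem Conc.tail {a : Pt} {l : List Pt} (h : Conc (a :: l)) : Conc l := by
  match l, h with
  | [], _ => trivial
  | [_], _ => trivial
  | _ :: _ :: _, h => exact h.2

theorem conc_mid (r : Pt) (S : List Seg) (g n : Pt) (T : List Pt) :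
    Conc (r :: (fsts S ++ g :: n :: T)) ↔
      Conc (r :: (fsts S ++ [g])) ∧ ori (lst r S) g n < 0 ∧ Conc (g :: n :: T) := by
  induction S generalizing r with
  | nil => simp
  | cons s S ih =>
    have := ih s.1
    cases S with
    | nil => simp
    | cons t S =>
      simp only [fsts_cons, List.cons_append, conc_cons3, lst_cons] at this ⊢
      rw [this, and_assoc]

theorem Conc.suffix {A l : List Pt} (h : Conc (A ++ l)) : Conc l := by
  induction A with
  | nil => exact h
  | cons a A ih => exact ih h.tail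

/-! ### angle bookkeeping -/

def pcs (f : Pt → Pt → ℝ) : List Seg → Pt → ℝ
  | [], _ => 0
  | s :: S, v => csum f (s.1 :: (s.2 ++ [hd S v])) + pcs f S v

theorem pcs_append (f : Pt → Pt → ℝ) (S T : List Seg) (v : Pt) :
    pcs f (S ++ T) v = pcs f S (hd T v) + pcs f T v := by
  induction S with
  | nil => simp [pcs]
  | cons s S ih => simp only [List.cons_append, pcs, ih, hd_append]; ring

theorem psum_flat {f : Pt → Pt → ℝ} (hf : Anti f) (S : List Seg) (v : Pt) :
    psum f (flat S ++ [v]) = pcs f S v + psum f (fsts S ++ [v]) := by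
  induction S with
  | nil => simp [pcs]
  | cons s S ih =>
    obtain ⟨T, hT⟩ := flat_hd S v
    obtain ⟨T', hT'⟩ := fsts_hd S v
    simp only [flat_cons, fsts_cons, List.cons_append, List.append_assoc, pcs, csum_close]
    rw [hT, hT', psum_cons_append, psum_cons2, ← hT, ← hT', ih]
    linarith [hf s.1 (hd S v)]

theorem geo_csum {f : Pt → Pt → ℝ} (hf : Anti f) (r v : Pt) (M : List Pt) (S : List Seg) :
    csum f (v :: (M ++ flat S)) =
      csum f (r :: ((fsts S ++ v :: M) ++ [hd S v])) + pcs f S v := by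
  obtain ⟨T, hT⟩ := flat_hd S v
  obtain ⟨T', hT'⟩ := fsts_hd S v
  have e1 := psum_flat hf S v
  have e2 := psum_cons_append f v M (hd S v) T
  have e3 := psum_cons_append f r (fsts S) v (M ++ [hd S v])
  rw [csum_cons, csum_close, List.append_assoc, List.append_assoc, hT, List.cons_append, e2, e3,
    ← hT, e1, hT', psum_cons2]
  linarith [hf r (hd S v)]

theorem geo_cang (y r v : Pt) (M : List Pt) (S : List Seg) :
    cang y (v :: (M ++ flat S)) =
      cang y (r :: ((fsts S ++ v :: M) ++ [hd S v])) + pcs (del y) S v :=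
  geo_csum (del_anti y) r v M S

theorem pcs_nonneg {y : Pt} (hg : Gen y X) {S : List Seg} {v : Pt} (h : Pieces S v)
    (hm : ∀ x ∈ flat S ++ [v], x ∈ X) : 0 ≤ pcs (del y) S v := by
  induction S with
  | nil => simp [pcs]
  | cons s S ih =>
    obtain ⟨T, hT⟩ := flat_hd S v
    have h1 : hd S v ∈ flat S ++ [v] := by rw [hT]; simp
    have := h.1.cang_nonneg hg fun x hx => hm x (by
      simp only [flat_cons, List.cons_append, List.append_assoc, List.mem_cons, List.mem_append,
        List.not_mem_nil, or_false] at hx h1 ⊢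
      rcases hx with rfl | hx | rfl <;> tauto)
    have h2 := ih h.2 fun x hx => hm x (by simp at hx ⊢; tauto)
    unfold cang at this
    simp only [pcs]; linarith

theorem pcs_pos {y : Pt} (hg : Gen y X) {S : List Seg} {v : Pt} (h : Pieces S v)
    (hm : ∀ x ∈ flat S ++ [v], x ∈ X) (hy : y ∈ flat S) (hn : y ∉ fsts S) :
    0 < pcs (del y) S v := by
  induction S with
  | nil => simp at hy
  | cons s S ih =>
    obtain ⟨T, hT⟩ := flat_hd S v
    have h1 : hd S v ∈ flat S ++ [v] := by rw [hT]; simp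
    have hm1 : ∀ x ∈ s.1 :: (s.2 ++ [hd S v]), x ∈ X := fun x hx => hm x (by
      simp only [flat_cons, List.cons_append, List.append_assoc, List.mem_cons, List.mem_append,
        List.not_mem_nil, or_false] at hx h1 ⊢
      rcases hx with rfl | hx | rfl <;> tauto)
    have hm2 : ∀ x ∈ flat S ++ [v], x ∈ X := fun x hx => hm x (by simp at hx ⊢; tauto)
    simp only [fsts_cons, flat_cons, List.mem_cons, List.mem_append, not_or] at hy hn
    have e1 := h.1.cang_nonneg hg hm1
    have e2 := pcs_nonneg hg h.2 hm2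
    unfold cang at e1
    simp only [pcs]
    rcases hy with hy | hy | hy
    · exact absurd hy hn.1
    · have := h.1.triL.cang_pos hg hm1 (by simp [hy]) (by
        have := List.length_pos_of_mem hy
        simp; omega)
      unfold cang at this
      linarith
    · linarith [ih h.2 hm2 hy hn.2]

theorem main_mem {r v : Pt} {M : List Pt} {S : List Seg}
    (hm : ∀ x ∈ r :: v :: (M ++ flat S), x ∈ X) :
    ∀ x ∈ r :: ((fsts S ++ v :: M) ++ [hd S v]), x ∈ X := by
  intro x hx
  have h1 := fsts_sub S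
  have h2 := hd_mem S v
  refine hm x ?_
  simp only [List.mem_cons, List.mem_append, List.not_mem_nil, or_false] at hx h2 ⊢
  rcases hx with h | (h | h | h) | rfl
  · tauto
  · have := h1 x h; tauto
  · tauto
  · tauto
  · rcases h2 with h | h
    · have := h1 _ h; tauto
    · tauto

theorem Geo.cang_pos (hX : GP X) {r v : Pt} {M : List Pt} {S : List Seg} (h : Geo r v M S)
    (hm : ∀ x ∈ r :: v :: (M ++ flat S), x ∈ X) {y : Pt} (hy : y ∈ r :: v :: (M ++ flat S)) :
    0 < cang y (v :: (M ++ flat S)) := by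
  have hg := hX.gen (hm y hy)
  have hm2 : ∀ x ∈ flat S ++ [v], x ∈ X := fun x hx => hm x (by simp at hx ⊢; tauto)
  rw [geo_cang y r]
  by_cases h1 : y ∈ r :: ((fsts S ++ v :: M) ++ [hd S v])
  · have := h.main.triL.cang_pos hg (main_mem hm) h1 (by simp; omega)
    linarith [pcs_nonneg hg h.pieces hm2]
  · have := h.main.cang_nonneg hg (main_mem hm)
    have := pcs_pos hg h.pieces hm2 (by simp at h1 hy; tauto) (by simp at h1; tauto)
    linarith

/-! ### fans -/

def Fanned (v : Pt) : List Pt → Prop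
  | a :: b :: l => 0 < ori v a b ∧ Fanned v (b :: l)
  | _ => True

@[simp] theorem fanned_cons2 (v a b : Pt) (l : List Pt) :
    Fanned v (a :: b :: l) ↔ 0 < ori v a b ∧ Fanned v (b :: l) := Iff.rfl
@[simp] theorem fanned_one (v a : Pt) : Fanned v [a] := trivial

theorem Fanned.tail {v a : Pt} {l : List Pt} (h : Fanned v (a :: l)) : Fanned v l := by
  match l, h with
  | [], _ => trivial
  | _ :: _, h => exact h.2

theorem Fanned.suffix {v : Pt} {A l : List Pt} (h : Fanned v (A ++ l)) : Fanned v l := by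
  induction A with
  | nil => exact h
  | cons a A ih => exact ih h.tail

theorem Fanned.tri {v x : Pt} {F : List Pt} (h : Fanned v (x :: F)) : Tri x F v := by
  induction F generalizing x with
  | nil => exact Tri.nil _ _
  | cons y F ih => exact Tri.cons (ih h.2) (by rw [← ori_cyc]; exact h.1)

theorem Fanned.last {v x u : Pt} {S : List Seg} (h : Fanned v (x :: (fsts S ++ [u]))) :
    Fanned v (x :: fsts S) ∧ 0 < ori v (lst x S) u := by
  induction S generalizing x with
  | nil => exact ⟨trivial, h.1⟩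
  | cons s S ih => exact ⟨⟨h.1, (ih h.2).1⟩, (ih h.2).2⟩

theorem Fanned.head {v x : Pt} {L0 : ℝ} {F : List Pt} (h : Fanned v (x :: F))
    (hw : ∀ g ∈ x :: F, InW v L0 (L0 + π) g) : ∀ y ∈ F, 0 < ori v x y := by
  induction F generalizing x with
  | nil => simp
  | cons z F ih =>
    intro y hy
    rcases List.mem_cons.mp hy with rfl | hy
    · exact h.1
    · exact inW_trans (hw x (by simp)) (hw z (by simp)) (hw y (by simp [hy])) h.1
        (ih h.2 (fun g hg => hw g (List.mem_cons_of_mem _ hg)) y hy)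

theorem prepend (hX : GP X) {v u x : Pt} {L0 : ℝ} (hx : x ∈ X) (wx : InW v L0 (L0 + π) x)
    (S : List Seg) : ∀ A, Pieces S u → Conc (fsts S ++ [u]) → Fanned v (fsts S ++ [u]) →
      (∀ g ∈ fsts S ++ [u], g ∈ X ∧ InW v L0 (L0 + π) g) → Tri x A (hd S u) →
      0 < ori v x (hd S u) → ∃ T S', S = T ++ S' ∧ Tri x (A ++ flat T) (hd S' u) ∧
        Conc (x :: (fsts S' ++ [u])) ∧ 0 < ori v x (hd S' u) := by
  induction S with
  | nil => intro A _ _ _ _ h1 h2; exact ⟨[], [], rfl, by simpa using h1, trivial, h2⟩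
  | cons s S ih =>
    intro A hp hc hf hw h1 h2
    obtain ⟨T, hT⟩ := fsts_hd S u
    have hmem : hd S u ∈ fsts (s :: S) ++ [u] := by
      simp only [fsts_cons, List.cons_append, hT]; simp
    have hf' : 0 < ori v s.1 (hd S u) := by
      simp only [fsts_cons, List.cons_append, hT] at hf; exact hf.1
    have h3 : 0 < ori v x (hd S u) :=
      inW_trans wx (hw s.1 (by simp)).2 (hw _ hmem).2 h2 hf'
    have hne := hX x hx s.1 (hw s.1 (by simp)).1 _ (hw _ hmem).1 (ne_of_ori h2.ne').2.2
      (ne_of_ori h3.ne').2.2 (ne_of_ori hf'.ne').2.2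
    rcases lt_or_gt_of_ne hne with h4 | h4
    · refine ⟨[], s :: S, rfl, by simpa using h1, ?_, h2⟩
      simp only [fsts_cons, List.cons_append, hT] at hc ⊢
      exact ⟨h4, hc⟩
    · obtain ⟨T', S', e, i1, i2, i3⟩ := ih (A ++ s.1 :: s.2) hp.2 hc.tail hf.tail
        (fun g hg => hw g (List.mem_cons_of_mem _ hg)) (Tri.node h1 hp.1 h4) h3
      exact ⟨s :: T', S', by simp [e], by simpa using i1, i2, i3⟩

/-- fan data at `v` ending in `u` -/
structure FanD (X : Finset Pt) (v u : Pt) (L0 U1 : ℝ) (S : List Seg) : Prop where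
  pieces : Pieces S u
  conc : Conc (fsts S ++ [u])
  fan : Fanned v (fsts S ++ [u])
  win : ∀ g ∈ fsts S, g ∈ X ∧ InW v L0 U1 g

theorem FanD.all {v u : Pt} {L0 U1 : ℝ} {S : List Seg} (h : FanD X v u L0 U1 S) (hU : U1 ≤ L0 + π)
    (hu : u ∈ X) (wu : InW v L0 (L0 + π) u) :
    ∀ g ∈ fsts S ++ [u], g ∈ X ∧ InW v L0 (L0 + π) g := by
  intro g hg
  rcases List.mem_append.mp hg with hg | hg
  · exact ⟨(h.win g hg).1, (h.win g hg).2.mono le_rfl hU⟩
  · obtain rfl := List.mem_singleton.mp hg
    exact ⟨hu, wu⟩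

theorem FanD.prepend (hX : GP X) {v u x : Pt} {L0 U1 : ℝ} {S : List Seg} (h : FanD X v u L0 U1 S)
    (hU : U1 ≤ L0 + π) (hu : u ∈ X) (wu : InW v L0 (L0 + π) u) (hx : x ∈ X) (wx : InW v L0 U1 x)
    {A : List Pt} (h1 : Tri x A (hd S u)) (h2 : 0 < ori v x (hd S u)) :
    ∃ T S', S = T ++ S' ∧ FanD X v u L0 U1 ((x, A ++ flat T) :: S') := by
  obtain ⟨T, S', rfl, i1, i2, i3⟩ := CT.prepend hX hx (wx.mono le_rfl hU) S A h.pieces h.conc h.fan
    (h.all hU hu wu) h1 h2
  refine ⟨T, S', rfl, ⟨i1, ((pieces_append _ _ _).mp h.pieces).2⟩, i2, ?_, ?_⟩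
  · obtain ⟨T', hT'⟩ := fsts_hd S' u
    have := h.fan
    rw [fsts_append, List.append_assoc] at this
    have := this.suffix
    simp only [fsts_cons, List.cons_append, hT'] at this ⊢
    exact ⟨i3, this⟩
  · intro g hg
    rcases List.mem_cons.mp hg with rfl | hg
    · exact ⟨hx, wx⟩
    · exact h.win g (by rw [fsts_append]; exact List.mem_append_right _ hg)

theorem fan_aux (hX : GP X) {x v : Pt} {L : List Pt} (h : Tri x L v) {u : Pt} {S0 : List Seg}
    {L0 U1 : ℝ} (hU : U1 ≤ L0 + π) (hu : u ∈ X) :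
    v ∈ X → InW v L0 (L0 + π) u → FanD X v u L0 U1 S0 → (∀ y ∈ x :: L, y ∈ X) →
    ∀ A, x :: L = A ++ [hd S0 u] → ∀ lx, Dir v x lx → L0 < lx →
      lx + cang v (x :: (L ++ [v])) < U1 →
      ∃ S', hd S' u = x ∧ flat S' = A ++ flat S0 ∧ FanD X v u L0 U1 S' := by
  induction h with
  | nil a b =>
    intro _ _ h0 _ A e _ _ _ _
    cases A with
    | nil => exact ⟨S0, by simpa using e.symm, by simp, h0⟩
    | cons a' A => simp at e
  | @node a c b A1 B h1 h2 ho _ ih2 =>
    intro hv wu h0 hm A e lx dx l1 l2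
    have hg := hX.gen hv
    have ho' : 0 < ori b a c := by rwa [ori_cyc'] at ho
    obtain ⟨d1, -, d3⟩ := del_pos ho'
    have e1 := h1.cang_nonneg hg fun x hx => hm x (by simp at hx ⊢; tauto)
    have e2 := h2.cang_nonneg hg fun x hx => by
      simp only [List.mem_cons, List.mem_append, List.not_mem_nil, or_false] at hx
      rcases hx with rfl | hx | rfl
      · exact hm _ (by simp)
      · exact hm _ (by simp [hx])
      · exact hv
    rw [cang_node] at l2
    obtain ⟨A2, p, e3⟩ : ∃ A2 p, c :: B = A2 ++ [p] := by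
      rcases List.eq_nil_or_concat (c :: B) with h | ⟨A2, p, h⟩
      · simp at h
      · exact ⟨A2, p, by simpa using h⟩
    have e4 : (a :: (A1 ++ A2)) ++ [p] = A ++ [hd S0 u] := by rw [← e, e3]; simp
    obtain ⟨rfl, e5⟩ := List.append_inj' e4 rfl
    simp only [List.cons.injEq, and_true] at e5
    subst e5
    obtain ⟨S1, s1, s2, s3⟩ := ih2 hv wu h0 (fun y hy => hm y (by simp at hy ⊢; tauto)) A2 e3
      _ (d3 lx dx) (by linarith) (by linarith)
    obtain ⟨T, S', rfl, i1⟩ := s3.prepend hX hU hu wu (hm a (by simp))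
      ⟨lx, dx, l1, by linarith⟩ (s1 ▸ h1) (s1 ▸ ho')
    refine ⟨_, rfl, ?_, i1⟩
    simp only [flat_cons, List.append_assoc, List.cons_append, ← s2, flat_append]

theorem Tri.inv {a b : Pt} {L : List Pt} (h : Tri a L b) (hL : L ≠ []) :
    ∃ A c B, L = A ++ c :: B ∧ Tri a A c ∧ Tri c B b ∧ 0 < ori a c b := by
  cases h with
  | nil => exact absurd rfl hL
  | node h1 h2 ho => exact ⟨_, _, _, rfl, h1, h2, ho⟩

theorem refan (hX : GP X) {r v : Pt} {M : List Pt} {S : List Seg} (hG : Geo r v M S)
    (hm : ∀ x ∈ r :: v :: (M ++ flat S), x ∈ X) {u : Pt} {S0 : List Seg} {B : List Pt}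
    (e : M ++ flat S = B ++ [hd S0 u]) (hne : lst r S ≠ u) {L0 U1 : ℝ} (hU : U1 ≤ L0 + π)
    (hu : u ∈ X) (wu : InW v L0 (L0 + π) u) (h0 : FanD X v u L0 U1 S0)
    (m0 : ∀ x ∈ flat S0, x ∈ X)
    {w : Pt} {C : List Pt} (ew : M ++ flat S = w :: C) {lw lg : ℝ} (dw : Dir v w lw)
    (dg : Dir v (lst r S) lg) (h1 : lg ≤ lw) (h2 : L0 < lg)
    (h3 : lw + cang v (v :: (M ++ flat S)) - 2 * π < U1)
    (hlw : ∀ g ∈ fsts S, cang g (v :: (B ++ flat S0 ++ [u])) < 2 * π) :
    ∃ M' S', Pre r v u M' S' ∧ M' ++ flat S' = B ++ flat S0 ∧ InW v L0 U1 (lst r S') ∧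
      (lst r S' = lst r S ∨ 0 < ori v (lst r S) (lst r S')) ∧ 0 < ori v (lst r S) u := by
  have hv : v ∈ X := hm v (by simp)
  have hr : r ∈ X := hm r (by simp)
  have hg := hX.gen hv
  have mm := main_mem hm
  -- common final step
  have fin : ∀ {x : Pt} {N : List Pt} {S2 : List Seg}, FanD X v u L0 U1 ((x, N) :: S2) →
      InW v L0 U1 (lst x S2) ∧ (lst x S2 = x ∨ 0 < ori v x (lst x S2)) ∧ 0 < ori v x u ∧
      Tri x (fsts S2) v ∧ 0 < ori (lst x S2) u v := by
    intro x N S2 h
    have ha := h.all hU hu wu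
    have hf := h.fan
    simp only [fsts_cons, List.cons_append] at ha hf
    have hh := hf.head fun g hg => (ha g hg).2
    refine ⟨(h.win _ (lst_mem x S2)).2, ?_, hh u (by simp), hf.last.1.tri, ?_⟩
    · rcases List.mem_cons.mp (lst_mem x S2) with h | h
      · exact Or.inl h
      · exact Or.inr (hh _ (by simp [h]))
    · rw [← ori_cyc]; exact hf.last.2
  rcases List.eq_nil_or_concat S with rfl | ⟨S1, ⟨g, N⟩, rfl⟩
  · -- no inner path vertex
    simp only [flat_nil, List.append_nil, lst_nil, fsts_nil, List.nil_append, hd_nil] at *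
    have hmain : Tri r (v :: M) v := by simpa using hG.main
    obtain ⟨A, c, B1, e1, t1, t2, ho⟩ := hmain.inv (by simp)
    have hcv : c ≠ v := (ne_of_ori ho.ne').2.2
    cases A with
    | nil => simp at e1; exact absurd e1.1.symm hcv
    | cons a M1 =>
    simp only [List.cons_append, List.cons.injEq] at e1
    obtain ⟨rfl, rfl⟩ := e1
    have ho' : 0 < ori v r c := by rwa [ori_cyc'] at ho
    obtain ⟨d1, -, d3⟩ := del_pos ho'
    have c1 := geo_cang v r v (M1 ++ c :: B1) []
    simp only [flat_nil, List.append_nil, fsts_nil, List.nil_append, hd_nil, pcs, add_zero] at c1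
    rw [← List.cons_append, cang_node] at c1
    obtain ⟨C1, e2⟩ : ∃ C1, M1 ++ [c] = w :: C1 := by
      cases M1 with
      | nil => simp at ew; exact ⟨[], by simp [ew.1]⟩
      | cons a M1 => simp at ew; exact ⟨M1 ++ [c], by simp [ew.1]⟩
    have t3 : TriL ([] ++ r :: v :: w :: C1) := by
      have := t1.triL; rw [List.cons_append, e2] at this; exact this
    obtain ⟨S1, s1, s2, -, s3⟩ := t3.lb_mid hg fun x hx => hm x (by
      rw [List.nil_append, ← e2] at hx; simp at hx ⊢; tauto)
    rw [List.nil_append, ← e2] at s2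
    have g1 := dg.gap (s3 _ dw) (by linarith)
    have m2 : ∀ x ∈ c :: (B1 ++ [v]), x ∈ X := fun x hx => hm x (by simp at hx ⊢; tauto)
    have n2 := t2.cang_nonneg hg m2
    obtain ⟨A2, p, e3⟩ : ∃ A2 p, c :: B1 = A2 ++ [p] := by
      rcases List.eq_nil_or_concat (c :: B1) with h | ⟨A2, p, h⟩
      · simp at h
      · exact ⟨A2, p, by simpa using h⟩
    have e4 : (M1 ++ A2) ++ [p] = B ++ [hd S0 u] := by rw [← e, e3]; simp
    obtain ⟨rfl, e5⟩ := List.append_inj' e4 rfl
    simp only [List.cons.injEq, and_true] at e5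
    subst e5
    simp only [List.cons_append] at c1
    obtain ⟨S2, q1, q2, q3⟩ := fan_aux hX t2 hU hu hv wu h0
      (fun y hy => hm y (by simp at hy ⊢; tauto)) A2 e3 _ (d3 lg dg) (by linarith) (by linarith)
    obtain ⟨T, S', rfl, i1⟩ := q3.prepend hX hU hu wu hr ⟨lg, dg, h2, by linarith⟩ (q1 ▸ t1)
      (q1 ▸ ho')
    obtain ⟨f1, f2, f3, f4, f5⟩ := fin i1
    refine ⟨M1 ++ flat T, S', ⟨?_, i1.pieces.2, i1.conc, f5⟩, ?_, f1, f2, f3⟩
    · have t4 : TriL ([] ++ r :: v :: ((M1 ++ flat T) ++ [hd S' u])) := by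
        simpa using i1.pieces.1.triL
      have := t4.glue f4
      exact TriL.tri (by simpa using this)
    · rw [List.append_assoc, List.append_assoc, ← q2, flat_append]
  · rw [List.concat_eq_append] at *
    have el : lst r (S1 ++ [(g, N)]) = g := by simp [lst_append]
    rw [el] at hne dg ⊢
    obtain ⟨hp1, hp2⟩ := (pieces_append _ _ _).mp hG.pieces
    simp only [hd_cons, pieces_cons, hd_nil, pieces_nil, and_true] at hp1 hp2
    have hmain : Tri r (fsts S1 ++ g :: v :: M) (hd S1 g) := by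
      simpa [hd_append] using hG.main
    have hconc : Conc (r :: (fsts S1 ++ g :: v :: [])) := by simpa using hG.conc
    obtain ⟨k1, k2, -⟩ := (conc_mid _ _ _ _ _).mp hconc
    have mm' : ∀ x ∈ r :: ((fsts S1 ++ g :: v :: M) ++ [hd S1 g]), x ∈ X := by
      simpa [hd_append] using mm
    have hgX : g ∈ X := hm g (by simp)
    have m1 : ∀ x ∈ flat S1 ++ [g], x ∈ X := fun x hx => hm x (by simp at hx ⊢; tauto)
    have m2 : ∀ x ∈ g :: (N ++ [v]), x ∈ X := fun x hx => hm x (by simp at hx ⊢; tauto)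
    have c1 := geo_cang v r v M (S1 ++ [(g, N)])
    rw [pcs_append] at c1
    simp only [hd_append, hd_cons, hd_nil, pcs, add_zero, fsts_append, fsts_cons, fsts_nil,
      List.append_assoc (fsts S1) [g], List.singleton_append] at c1
    obtain ⟨C1, e2⟩ : ∃ C1, M ++ [hd S1 g] = w :: C1 := by
      cases M with
      | nil => cases S1 <;> simp at ew <;> exact ⟨[], by simp [ew.1]⟩
      | cons a M1 => simp at ew; exact ⟨M1 ++ [hd S1 g], by simp [ew.1]⟩
    have e6 : r :: ((fsts S1 ++ g :: v :: M) ++ [hd S1 g]) = (r :: fsts S1) ++ g :: v :: w :: C1 := by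
      rw [← e2]; simp
    obtain ⟨T1, s1, s2, -, s3⟩ := (e6 ▸ hmain.triL).lb_mid hg (e6 ▸ mm')
    rw [← e6] at s2
    have g1 := dg.gap (s3 _ dw) (by linarith)
    have n1 := pcs_nonneg hg hp1 m1
    obtain ⟨A2, p, e3⟩ : ∃ A2 p, g :: N = A2 ++ [p] := by
      rcases List.eq_nil_or_concat (g :: N) with h | ⟨A2, p, h⟩
      · simp at h
      · exact ⟨A2, p, by simpa using h⟩
    have e4 : (M ++ flat S1 ++ A2) ++ [p] = B ++ [hd S0 u] := by
      rw [← e, List.append_assoc _ A2, ← e3]; simp
    obtain ⟨rfl, e5⟩ := List.append_inj' e4 rfl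
    simp only [List.cons.injEq, and_true] at e5
    subst e5
    obtain ⟨S2, q1, q2, q3⟩ := fan_aux hX hp2 hU hu hv wu h0
      (fun y hy => m2 y (by simp at hy ⊢; tauto)) A2 e3 _ dg h2
      (by unfold cang at *; linarith)
    cases S2 with
    | nil => exact absurd q1.symm hne
    | cons s S3 =>
    obtain ⟨x, N'⟩ := s
    obtain rfl : x = g := q1
    obtain ⟨f1, f2, f3, f4, f5⟩ := fin q3
    have el2 : lst r (S1 ++ (x, N') :: S3) = lst x S3 := by simp [lst_append]
    have efl : M ++ flat (S1 ++ (x, N') :: S3) = M ++ flat S1 ++ A2 ++ flat S0 := by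
      rw [flat_append, q2]; simp
    have mS : ∀ y ∈ flat ((x, N') :: S3), y ∈ X := by
      intro y hy
      rw [q2] at hy
      rcases List.mem_append.mp hy with hy | hy
      · exact m2 y (by rw [← List.cons_append, e3]; simp [hy])
      · exact m0 y hy
    refine ⟨M, S1 ++ (x, N') :: S3, ⟨?_, ?_, ?_, el2 ▸ f5⟩, efl, el2 ▸ f1, el2 ▸ f2, f3⟩
    · have t4 : TriL ((r :: fsts S1) ++ x :: v :: (M ++ [hd S1 x])) := by
        simpa using hmain.triL
      have := t4.glue f4
      refine TriL.tri ?_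
      simpa [hd_append] using this
    · exact (pieces_append _ _ _).mpr ⟨hp1, q3.pieces⟩
    · obtain ⟨T, hT⟩ := fsts_hd S3 u
      have hc2 := q3.conc
      have hf2 := q3.fan
      simp only [fsts_cons, List.cons_append] at hc2 hf2
      simp only [fsts_append, fsts_cons, List.append_assoc, List.cons_append]
      rw [hT] at hc2 ⊢
      refine (conc_mid _ _ _ _ _).mpr ⟨k1, ?_, hc2⟩
      -- junction
      have gx := hX.gen hgX
      have b1 := hlw x (by simp)
      have c2 := geo_cang x r v M ((S1 ++ (x, N') :: S3) ++ [(u, [])])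
      have e7 : M ++ flat ((S1 ++ (x, N') :: S3) ++ [(u, [])]) =
          M ++ flat S1 ++ A2 ++ flat S0 ++ [u] := by
        rw [flat_append, ← List.append_assoc, efl]; simp
      have e8 : r :: ((fsts ((S1 ++ (x, N') :: S3) ++ [(u, [])]) ++ v :: M) ++
          [hd ((S1 ++ (x, N') :: S3) ++ [(u, [])]) v]) =
          (r :: fsts S1) ++ x :: ((fsts S3 ++ [u]) ++ v :: (M ++ [hd S1 x])) := by
        simp [hd_append]
      rw [e7, e8, cang_glue, pcs_append] at c2
      simp only [hd_cons, pcs, hd_nil, List.nil_append, csum_pair (del_anti x), add_zero] at c2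
      have n3 := pcs_nonneg gx ((pieces_append S1 ((x, N') :: S3) u).mpr ⟨hp1, q3.pieces⟩)
        (fun y hy => by
          rw [flat_append] at hy
          rcases List.mem_append.mp hy with hy | hy
          · rcases List.mem_append.mp hy with hy | hy
            · exact m1 y (by simp [hy])
            · exact mS y hy
          · rw [List.mem_singleton.mp hy]; exact hu)
      obtain ⟨F, hF⟩ := fsts_lst r S1
      have e9 : (r :: fsts S1) ++ x :: v :: (M ++ [hd S1 x]) =
          F ++ lst r S1 :: x :: v :: (M ++ [hd S1 x]) := by rw [hF]; simp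
      have t5 : TriL (F ++ lst r S1 :: x :: v :: (M ++ [hd S1 x])) := by
        rw [← e9]; simpa using hmain.triL
      obtain ⟨T2, a1, a2, -, a3⟩ := t5.lb_mid gx (by rw [← e9]; simpa using mm')
      have t6 : TriL (x :: hd S3 u :: (T ++ [v])) := by
        have := hf2.tri.triL
        rwa [hT] at this
      obtain ⟨T3, b2, b3, b4, b5⟩ := t6.lb_head gx (by
        intro y hy
        rw [← List.cons_append, ← hT] at hy
        simp only [List.mem_cons, List.mem_append, List.not_mem_nil, or_false] at hy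
        rcases hy with rfl | (hy | rfl) | rfl
        · exact hgX
        · exact (q3.win y (by simp [hy])).1
        · exact hu
        · exact hv)
      rw [e9, hT, List.cons_append] at c2
      obtain ⟨ln, dn⟩ := dir_exists b4.symm
      have d1 := b5 _ dn
      have d2 := a3 _ d1
      have := neg_lo (by rwa [ori_cyc] at k2) d1 d2 (by linarith)
      rw [ori_cyc]
      exact ori_neg_of dn d2.sub2 (by linarith) (by linarith)

end Pool.Agent.CT
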