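import Pool.Agent.Lib.MP_a7588a_co.Blue

/-! The radial view from an actual point. -/

set_option autoImplicit false

namespace Pool.Agent.CT

open Real

theorem vlt_radial_ori {R : Pt → ℝ} {a b w : Pt} (ha : Dir a w (R a)) (h : vlt R a b) :
    0 < ori a w b := by
  obtain ⟨l, hl, h1, h2⟩ := h
  exact ori_pos_of ha hl h1 h2

theorem vlt_radial_of_ori {R : Pt → ℝ} {a b w : Pt} (ha : Dir a w (R a)) (h : 0 < ori a w b) :
    vlt R a b := exists_dir_pos h ha

theorem vlt_radial_iff {R : Pt → ℝ} {a b w : Pt} (ha : Dir a w (R a)) (hb : Dir b w (R b))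
    (h1 : R a < R b + π) (h2 : R b < R a + π) : vlt R a b ↔ R b < R a := by
  constructor
  · intro h
    have ho : 0 < ori w b a := by rw [ori_cyc']; exact vlt_radial_ori ha h
    linarith [pos_lo ho hb.rev ha.rev (by linarith)]
  · intro h
    refine vlt_radial_of_ori ha ?_
    rw [ori_cyc]
    exact ori_pos_of hb.rev ha.rev (by linarith) (by linarith)

theorem radial_same {R : Pt → ℝ} {a b w : Pt} (ho : ori a b w ≠ 0) (ha : Dir a w (R a))
    (hb : Dir b w (R b)) (h1 : R a < R b + π) (h2 : R b < R a + π) :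
    ∃ c, (c < R a ∧ R a < c + π) ∧ (c < R b ∧ R b < c + π) ∧
      ∀ l, Dir a b l → l ≤ c ∨ c + π ≤ l := by
  have hp := pi_pos
  rcases lt_or_gt_of_ne ho with h | h
  · obtain ⟨l, hl, l1, l2⟩ := exists_dir_pos (show 0 < ori a w b by rw [ori_swap]; linarith) ha
    obtain ⟨m, hm, m1, m2⟩ := exists_dir_pos (show 0 < ori b a w by rw [ori_swap']; linarith)
      hl.rev'
    have := hm.eq_of hb (by linarith) (by linarith)
    refine ⟨l - π, ⟨by linarith, by linarith⟩, ⟨by linarith, by linarith⟩, fun l' hl' => ?_⟩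
    rcases lt_or_ge l' l with h3 | h3
    · left; linarith [hl'.gap hl h3]
    · right; linarith
  · obtain ⟨l, hl, l1, l2⟩ := exists_dir_neg (show ori a w b < 0 by rw [ori_swap]; linarith) ha
    obtain ⟨m, hm, m1, m2⟩ := exists_dir_neg (show ori b a w < 0 by rw [ori_swap']; linarith)
      hl.rev
    have := hm.eq_of hb (by linarith) (by linarith)
    refine ⟨l, ⟨by linarith, by linarith⟩, ⟨by linarith, by linarith⟩, fun l' hl' => ?_⟩
    rcases le_or_gt l' l with h3 | h3
    · left; exact h3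
    · right; linarith [hl.gap hl' h3]

/-- directions towards an actual point `w`, with spread less than `π`, form a view -/
theorem radial_view {Y : Finset Pt} {R : Pt → ℝ} {w : Pt}
    (hg : ∀ a ∈ Y, ∀ b ∈ Y, a ≠ b → ori a b w ≠ 0) (hR : ∀ a ∈ Y, Dir a w (R a))
    (hs : ∀ a ∈ Y, ∀ b ∈ Y, R a < R b + π) : IsView Y R := by
  refine ⟨fun a ha b hb l hl => ?_, fun a ha b hb l hl => ?_, fun a ha b hb c hc h1 h2 => ?_⟩
  · obtain ⟨c, c1, c2, c3⟩ := radial_same (hg a ha b hb hl.ne) (hR a ha) (hR b hb)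
      (hs a ha b hb) (hs b hb a ha)
    rcases c3 l hl with h | h
    · exact ⟨by linarith [c1.1], by linarith [c2.1]⟩
    · exact ⟨by linarith [c1.2], by linarith [c2.2]⟩
  · obtain ⟨c, c1, c2, c3⟩ := radial_same (hg a ha b hb hl.ne) (hR a ha) (hR b hb)
      (hs a ha b hb) (hs b hb a ha)
    rcases c3 l hl with h | h
    · exact ⟨fun _ => by linarith [c1.1], fun _ => by linarith [c2.1]⟩
    · exact ⟨fun _ => by linarith [c2.2], fun _ => by linarith [c1.2]⟩
  · rw [vlt_radial_iff (hR a ha) (hR b hb) (hs a ha b hb) (hs b hb a ha)] at h1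
    rw [vlt_radial_iff (hR b hb) (hR c hc) (hs b hb c hc) (hs c hc b hb)] at h2
    rw [vlt_radial_iff (hR a ha) (hR c hc) (hs a ha c hc) (hs c hc a ha)]
    linarith

/-! ### ranks in a view -/

open Classical in
noncomputable def rk (X : Finset Pt) (V : Pt → ℝ) (y : Pt) : ℕ := (X.filter fun x => vlt V x y).card

theorem rk_lt {X : Finset Pt} {V : Pt → ℝ} (hV : IsView X V) {a b : Pt} (ha : a ∈ X) (hb : b ∈ X)
    (h : vlt V a b) : rk X V a < rk X V b := by
  classical
  unfold rk
  refine Finset.card_lt_card ⟨fun x hx => ?_, fun hs => ?_⟩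
  · simp only [Finset.mem_filter] at hx ⊢
    exact ⟨hx.1, hV.trans x hx.1 a ha b hb hx.2 h⟩
  · have := hs (show a ∈ _ by simp only [Finset.mem_filter]; exact ⟨ha, h⟩)
    simp only [Finset.mem_filter] at this
    exact this.2.ne rfl

theorem rk_lt_card {X : Finset Pt} {V : Pt → ℝ} {a : Pt} (ha : a ∈ X) : rk X V a < X.card := by
  classical
  unfold rk
  refine Finset.card_lt_card ⟨Finset.filter_subset _ _, fun hs => ?_⟩
  have := hs ha
  simp only [Finset.mem_filter] at this
  exact this.2.ne rfl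

theorem rk_shift {X : Finset Pt} {V W : Pt → ℝ} (n : ℤ) (e : ∀ x ∈ X, W x = V x + n * (2 * π))
    (y : Pt) : rk X W y = rk X V y := by
  classical
  unfold rk
  congr 1
  refine Finset.filter_congr fun x hx => ⟨fun h => ?_, fun h => vlt_shift n (e x hx) h⟩
  exact vlt_shift (-n) (by rw [e x hx]; push_cast; ring) h

/-- two hull edges seen from one view are met in the order of their directions -/
theorem vlt_of_sees_lt {X : Finset Pt} {V : Pt → ℝ} (hV : IsView X V) {a b a' b' : Pt} {l l' : ℝ}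
    (h : LE X a b l) (h' : LE X a' b' l') (hl : l < l') (s : Sees V a l) (s' : Sees V a' l') :
    vlt V a a' := by
  have hne : a' ≠ a := by
    rintro rfl
    linarith [h.same_start_gap h' hl, s.1, s.2, s'.1, pi_pos]
  obtain ⟨m, hm, m1, m2⟩ := h.exists_dir h'.ha hne
  have := h'.far h hl.le hm m2
  have := (hV.born_iff h.ha h'.ha hm).mpr (by linarith [s'.1])
  exact ⟨m, hm, by linarith [s.2], by linarith⟩

end Pool.Agent.CT
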