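import Pool.Agent.Lib.MP_a7588a_co.Blue
import Pool.Agent.Lib.MP_a7588a_co.Radial

/-! Block IND: the double induction. -/

set_option autoImplicit false

namespace Pool.Agent.CT

theorem ind_nec_one {x : Pt} (V : ℤ → Pt → ℝ) (v : ℤ → Pt) : Nec {x} V v := by
  have h : ∀ a b l, ¬ LE {x} a b l := fun a b l h =>
    h.1.2.2.1 ((Finset.mem_singleton.1 h.1.1).trans (Finset.mem_singleton.1 h.1.2.1).symm)
  exact ⟨fun _ _ => 0, fun _ _ => 0, fun a b l hl => (h a b l hl).elim,
    fun a b l hl => (h a b l hl).elim, fun a b l hl => (h a b l hl).elim,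
    fun a b l hl => (h a b l hl).elim, fun a b l _ _ _ hl => (h a b l hl).elim⟩

theorem ind_one (x y : Pt) (K : ℕ) (VP VQ : ℤ → Pt → ℝ) : Sol {x} {y} K VP VQ := by
  refine ⟨fun _ => y, fun _ => x, [], ?_, fun _ => Finset.mem_singleton_self _, fun _ => rfl,
    fun _ h => (h rfl).elim, fun _ h => (h rfl).elim, fun t ht => (List.not_mem_nil ht).elim,
    fun f hf => ?_, fun z hz => Or.inl ⟨0, (Finset.mem_singleton.1 hz).symm⟩, ind_nec_one _ _,
    ind_nec_one _ _⟩
  · rw [Finset.coe_singleton, Finset.coe_singleton]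
    exact Set.bijOn_singleton.2 rfl
  · have : f x x = 0 := by have := hf x x; linarith
    simp [this]

theorem ind_pos {P Q : ℤ → Prop} {K : ℕ} (hK : 0 < K) (hQ : ∀ p n : ℤ, Q p → Q (p + K * n))
    (h : ∀ p, ¬ P p ∨ ¬ Q p) {a b : ℤ} (ha : ¬ P a) (hb : ¬ Q b) :
    ∃ s : ℤ, ¬ P (-2 + s) ∧ ¬ Q (-1 + s) := by
  classical
  obtain ⟨c, ⟨c1, c2⟩, c3⟩ := Int.exists_least_of_bdd (P := fun z => a < z ∧ ¬ Q z)
    ⟨a, fun z hz => hz.1.le⟩ ⟨b + K * (|a - b| + 1), by
      have h1 : (1 : ℤ) ≤ K := by exact_mod_cast hK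
      have h2 := le_abs_self (a - b)
      have h3 := abs_nonneg (a - b)
      nlinarith, fun hq => hb (by
        have := hQ _ (-(|a - b| + 1)) hq
        rwa [show b + K * (|a - b| + 1) + K * -(|a - b| + 1) = b by ring] at this)⟩
  refine ⟨c + 1, ?_, by rwa [show -1 + (c + 1) = c by ring]⟩
  rw [show -2 + (c + 1) = c - 1 by ring]
  rcases eq_or_lt_of_le (show a ≤ c - 1 by omega) with e | e
  · rwa [← e]
  · refine (h (c - 1)).resolve_right fun hq => ?_
    have := c3 _ ⟨e, hq⟩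
    omega

theorem ind_ok : DropStmt → ShiftStmt → ConvStmt → PromStmt → TightStmt → TT2 := by
  intro hD hS hC hP hT
  have key : ∀ n : ℕ, ∀ (K : ℕ) (X Y : Finset Pt) (VP VQ : ℤ → Pt → ℝ), X.card = n + 1 →
      X.card = Y.card → GP X → GP Y → CP X → Sys X K VP → Sys Y K VQ → Feas X K VP →
      Feas Y K VQ → Sol X Y K VP VQ := by
    intro n
    induction n with
    | zero =>
      intro K X Y VP VQ h1 h2 _ _ _ _ _ _ _
      obtain ⟨x, rfl⟩ := Finset.card_eq_one.1 h1
      obtain ⟨y, rfl⟩ := Finset.card_eq_one.1 (h2.symm.trans h1)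
      exact ind_one x y K VP VQ
    | succ n ihn =>
      intro K
      induction K with
      | zero =>
        intro X Y VP VQ h1 _ gX _ _ sX _ fX _
        have := (hC X 0 VP gX (by omega) sX fX).1
        omega
      | succ K ihK =>
        intro X Y VP VQ h1 h2 gX gY cX sX sY fX fY
        obtain ⟨a1, a2, a3, -⟩ := hC X _ VP gX (by omega) sX fX
        obtain ⟨-, b2, -, -⟩ := hC Y _ VQ gY (by omega) sY fY
        rcases eq_or_lt_of_le (a3 cX) with e | e
        · rw [← e] at sX sY fX fY ⊢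
          exact hT X Y VP VQ (by omega) h2 gX gY cX sX sY fX fY
        by_cases hav : ∃ p, Avoid X (K + 1) VP p ∧ Avoid Y (K + 1) VQ p
        · obtain ⟨p, p1, p2⟩ := hav
          obtain ⟨WP, WQ, s1, s2, f1, f2, h⟩ := hD X Y K VP VQ p (by omega) sX sY p1 p2
          exact h (ihK X Y WP WQ h1 h2 gX gY cX s1 s2 f1 f2)
        have hav' : ∀ p, ¬ Avoid X (K + 1) VP p ∨ ¬ Avoid Y (K + 1) VQ p := fun p =>
          not_and_or.1 fun h => hav ⟨p, h⟩
        obtain ⟨b, hb⟩ : ∃ b, Avoid X (K + 1) VP b := by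
          by_contra h
          have := a2 fun p hp => h ⟨p, hp⟩
          omega
        obtain ⟨a, ha⟩ : ∃ a, Avoid Y (K + 1) VQ a := by
          by_contra h
          have := b2 fun p hp => h ⟨p, hp⟩
          omega
        obtain ⟨s, s1, s2⟩ := ind_pos (Nat.succ_pos K) (hS Y (K + 1) VQ 0).2.2.2.1 hav'
          ((hav' a).resolve_right (not_not.2 ha)) ((hav' b).resolve_left (not_not.2 hb))
        obtain ⟨x1, x2, x3, -, x5⟩ := hS X (K + 1) VP s
        obtain ⟨y1, y2, y3, -, -⟩ := hS Y (K + 1) VQ s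
        obtain ⟨w, hw, x, hx, K', WP, WQ, t1, t2, t3, t4, h⟩ := hP X Y (K + 1) _ _ gX gY a1 h2
          (x1 sX) (y1 sY) (x2 fX) (y2 fY) (Or.inl fun h => s1 (x3 _ h))
          (Or.inr fun h => s2 (y3 _ h))
        have c1 : (del1 X w).card = n + 1 := by
          rw [del1, Finset.card_erase_of_mem hw, h1]; rfl
        have c2 : (del1 Y x).card = n + 1 := by
          rw [del1, Finset.card_erase_of_mem hx, ← h2, h1]; rfl
        have u1 : del1 X w ⊆ X := by rw [del1]; exact Finset.erase_subset _ _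
        have u2 : del1 Y x ⊆ Y := by rw [del1]; exact Finset.erase_subset _ _
        exact x5 Y VQ (h (ihn K' _ _ WP WQ c1 (c1.trans c2.symm) (gX.mono u1) (gY.mono u2)
          (cX.subset gX u1) t1 t2 t3 t4))
  intro X Y K VP VQ hX h2
  obtain ⟨n, hn⟩ := Nat.exists_eq_succ_of_ne_zero (Finset.card_pos.2 hX).ne'
  exact key n K X Y VP VQ hn h2

end Pool.Agent.CT
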