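import Pool.Agent.Lib.MP_a7588a_co.Radial

/-! The initial polygon through all points. -/

set_option autoImplicit false

namespace Pool.Agent.CT

open Real

variable {X : Finset Pt} {V : Pt → ℝ}

theorem init_sorted (hV : IsView X V) (S : Finset Pt) :
    S ⊆ X → ∃ N : List Pt, N.Pairwise (vlt V) ∧ ∀ x, x ∈ N ↔ x ∈ S := by
  classical
  induction S using Finset.induction_on_max_value (rk X V) with
  | empty => exact fun _ => ⟨[], List.Pairwise.nil, by simp⟩
  | insert a s ha hmax ih =>
    intro hs
    have haX : a ∈ X := hs (Finset.mem_insert_self _ _)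
    have hsX : s ⊆ X := fun x hx => hs (Finset.mem_insert_of_mem hx)
    obtain ⟨N, h1, h2⟩ := ih hsX
    refine ⟨N ++ [a], ?_, fun x => by simp [h2, or_comm]⟩
    rw [List.pairwise_append]
    refine ⟨h1, List.pairwise_singleton _ _, fun x hx y hy => ?_⟩
    rw [List.mem_singleton] at hy
    subst hy
    have hxs := (h2 x).1 hx
    rcases hV.total (hsX hxs) haX (fun e => ha (e ▸ hxs)) with h | h
    · exact h
    · have := rk_lt hV haX (hsX hxs) h
      have := hmax x hxs
      omega

theorem init_mountain (hX : GP X) (hV : IsView X V) (n : ℕ) :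
    ∀ (a b : Pt) (N : List Pt), N.length ≤ n → (∀ x ∈ a :: (N ++ [b]), x ∈ X) →
      (a :: (N ++ [b])).Pairwise (vlt V) → (∀ y ∈ N, 0 < ori a y b) → Tri a N b := by
  induction n with
  | zero =>
    intro a b N hN _ _ _
    obtain rfl : N = [] := List.eq_nil_of_length_eq_zero (by omega)
    exact Tri.nil a b
  | succ n ih =>
    intro a b N hN hm hp ho
    classical
    by_cases h0 : N = []
    · subst h0; exact Tri.nil a b
    have ha : a ∈ X := hm a (by simp)
    have hb : b ∈ X := hm b (by simp)
    have hNX : ∀ y ∈ N, y ∈ X := fun y hy => hm y (by simp [hy])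
    have haN : ∀ y ∈ N, vlt V a y := fun y hy => (List.pairwise_cons.1 hp).1 y (by simp [hy])
    choose! m hm1 hm2 hm3 using haN
    obtain ⟨p, hpN, hmax⟩ := N.toFinset.exists_max_image m (by simpa using h0)
    rw [List.mem_toFinset] at hpN
    have hkey : ∀ y ∈ N, y ≠ p → 0 < ori a y p := by
      intro y hy hyp
      have h1 := hX a ha y (hNX y hy) p (hNX p hpN) (hm1 y hy).ne (hm1 p hpN).ne hyp
      rcases lt_or_gt_of_ne h1 with h | h
      · have h2 := neg_hi h (hm1 y hy) (hm1 p hpN) (by linarith [hm2 y hy, hm3 p hpN])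
        have h3 := hmax y (List.mem_toFinset.2 hy)
        linarith
      · exact h
    obtain ⟨A, B, rfl⟩ := List.append_of_mem hpN
    have hs1 : (a :: (A ++ [p])).Sublist (a :: ((A ++ p :: B) ++ [b])) := by
      refine List.Sublist.cons_cons _ ?_
      rw [List.append_assoc]
      exact List.Sublist.append_left (by simp) _
    have hs2 : (p :: (B ++ [b])).Sublist (a :: ((A ++ p :: B) ++ [b])) := by
      refine List.Sublist.cons _ ?_
      rw [List.append_assoc]
      exact List.sublist_append_right _ _
    have hp1 := hp.sublist hs1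
    have hp2 := hp.sublist hs2
    simp only [List.length_append, List.length_cons] at hN
    refine Tri.node (ih a p A (by omega) (fun x hx => hm x (hs1.subset hx)) hp1 fun y hy => ?_)
      (ih p b B (by omega) (fun x hx => hm x (hs2.subset hx)) hp2 fun y hy => ?_) (ho p hpN)
    · refine hkey y (by simp [hy]) ?_
      exact ((List.pairwise_append.1 (List.pairwise_cons.1 hp1).2).2.2 y hy p (by simp)).ne
    · obtain ⟨κ, hκ, hκ1, hκ2⟩ := (List.pairwise_cons.1 hp2).1 y (by simp [hy])
      obtain ⟨β, hβ, hβ1, hβ2⟩ := (List.pairwise_cons.1 hp2).1 b (by simp)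
      have hs : Sees V p (m p) := (hV.sees_iff ha (hNX p hpN) (hm1 p hpN)).1
        ⟨by linarith [hm3 p hpN], hm2 p hpN⟩
      have h1 : 0 < ori p a y := by
        rw [ori_cyc]; exact hkey y (by simp [hy]) hκ.ne.symm
      have h2 := pos_hi h1 (hm1 p hpN).rev' hκ (by linarith [hs.2])
      have h3 : 0 < ori p b a := by rw [ori_cyc']; exact ho p hpN
      have h4 := pos_hi h3 hβ (hm1 p hpN).rev (by linarith [hs.1])
      exact ori_pos_of hκ hβ (by linarith) (by linarith)

theorem init_chain (i : ℤ) (l : List Pt) (h : l.Pairwise (vlt V)) : Chain (fun _ => V) i l := by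
  induction l generalizing i with
  | nil => trivial
  | cons a l ih =>
    cases l with
    | nil => trivial
    | cons b l =>
      exact ⟨(List.pairwise_cons.1 h).1 b (by simp), ih _ (List.pairwise_cons.1 h).2⟩

/-- the state of the sweep at the upper hull vertex `c` -/
structure InitG (X : Finset Pt) (U : ℤ → Pt → ℝ) (c : Pt) (s : ℤ) (a : Pt) (A B : List Pt)
    (t : ℤ → ℤ) : Prop where
  nodup : ((a :: A) ++ c :: B).Nodup
  mem : ∀ x, x ∈ (a :: A) ++ c :: B ↔ x ∈ X ∧ (x = c ∨ vlt (U 0) x c)
  tri : TriL ((a :: A) ++ c :: B)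
  sorted : ((a :: A) ++ [c]).Pairwise (vlt (U 0))
  chain : Chain (fun j => U (t j)) 0 (c :: (B ++ [a]))
  mono : ∀ k, t k ≤ t (k + 1)
  zero : t 0 = s
  lt : ∀ k, t k < X.card

theorem init_G {U : ℤ → Pt → ℝ} {μ : Pt → ℝ → ℤ} (hX : GP X) (hs : Sys X X.card U)
    (hμ : IsFeas X X.card U μ) (n : ℕ) : ∀ (c' c : Pt) (D' : ℝ), rk X (U 0) c' < n →
      LE X c' c D' → U 0 c' + π < D' → D' < U 0 c' + 2 * π →
      ∃ a A B t, InitG X U c' (μ c' D') a A B t := by
  induction n with
  | zero => intro _ _ _ h; omega
  | succ n ih =>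
    intro c' c D' hn he h1 h2
    classical
    have hV := hs.view 0
    have hc' := he.ha
    have hc := he.hb
    have hcc' : vlt (U 0) c c' :=
      (hV.vlt_iff_back hc hc').2 ⟨_, he.2.sub2, by linarith, by linarith⟩
    have h3 : D' - 2 * π < U 0 c := (hV.iff' hc' hc he.2.sub2).1 (by linarith)
    have h4 : U 0 c < D' - π := (hV.iff c hc c' hc' _ he.2.rev').2 (by linarith)
    obtain ⟨mid, hsort, hmid⟩ := init_sorted hV
      (X.filter fun y => vlt (U 0) c y ∧ vlt (U 0) y c') (Finset.filter_subset _ _)
    simp only [Finset.mem_filter] at hmid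
    have hp : (c :: (mid ++ [c'])).Pairwise (vlt (U 0)) := by
      rw [List.pairwise_cons, List.pairwise_append]
      refine ⟨fun y hy => ?_, hsort, List.pairwise_singleton _ _, fun x hx y hy => ?_⟩
      · rcases List.mem_append.1 hy with hy | hy
        · exact ((hmid y).1 hy).2.1
        · rw [List.mem_singleton] at hy; exact hy ▸ hcc'
      · rw [List.mem_singleton] at hy; exact hy ▸ ((hmid x).1 hx).2.2
    have hmX : ∀ x ∈ mid ++ [c'], x ∈ X := by
      intro x hx
      rcases List.mem_append.1 hx with hx | hx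
      · exact ((hmid x).1 hx).1
      · rw [List.mem_singleton] at hx; exact hx ▸ hc'
    have htri : Tri c mid c' := by
      refine init_mountain hX hV _ c c' mid le_rfl (fun x hx => ?_) hp fun y hy => ?_
      · rcases List.mem_cons.1 hx with hx | hx
        · exact hx ▸ hc
        · exact hmX x hx
      · rw [ori_cyc']
        exact he.1.2.2.2 y ((hmid y).1 hy).1 ((hmid y).1 hy).2.2.ne ((hmid y).1 hy).2.1.ne.symm
    have hsee := hμ.sees _ _ _ he
    have hstep : vlt (U (μ c' D')) c' c := vlt_of_sees he.2 hsee
    have hlt : μ c' D' < X.card := by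
      by_contra hge
      have e1 := hs.le (not_lt.1 hge) hc'
      have e2 := hs.per 0 c' hc'
      rw [zero_add] at e2
      linarith [hsee.2]
    obtain ⟨b, D, hout, h5, h6⟩ := he.next hX
    have hne : D ≠ U 0 c + 2 * π := fun e =>
      (hV.ne c hc b hout.hb _ hout.2.sub2).1 (by linarith)
    rcases lt_or_gt_of_ne hne with h7 | h7
    · obtain ⟨a, A, B, t, hG⟩ := ih c b D (by have := rk_lt hV hc hc' hcc'; omega) hout
        (by linarith) h7
      have hold : ∀ x ∈ a :: A, x ∈ X ∧ vlt (U 0) x c := fun x hx =>
        ⟨((hG.mem x).1 (List.mem_append_left _ hx)).1,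
          (List.pairwise_append.1 hG.sorted).2.2 x hx c (by simp)⟩
      have hnew : ∀ y ∈ mid ++ [c'], vlt (U 0) c y := (List.pairwise_cons.1 hp).1
      refine ⟨a, A ++ mid, c :: B, fun k => if k ≤ 0 then μ c' D' else t (k - 1),
        ?_, fun x => ?_, ?_, ?_, ?_, fun k => ?_, by simp, fun k => ?_⟩
      · have hperm : (((a :: A) ++ c :: B) ++ (mid ++ [c'])).Perm
            ((a :: (A ++ mid)) ++ c' :: c :: B) := by
          have e : (a :: (A ++ mid)) ++ c' :: c :: B = (a :: A) ++ ((mid ++ [c']) ++ c :: B) := by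
            simp
          rw [e, List.append_assoc]
          exact List.Perm.append_left _ List.perm_append_comm
        refine hperm.nodup_iff.1 (List.nodup_append.2 ⟨hG.nodup,
          (List.pairwise_cons.1 hp).2.imp vlt.ne, fun x hx y hy e => ?_⟩)
        subst e
        rcases (hG.mem x).1 hx with ⟨hx, rfl | h⟩
        · exact (hnew x hy).ne rfl
        · exact hV.asymm hx hc h (hnew x hy)
      · have e : x ∈ (a :: (A ++ mid)) ++ c' :: c :: B ↔
            x ∈ (a :: A) ++ c :: B ∨ x ∈ mid ∨ x = c' := by
          simp only [List.mem_append, List.mem_cons]; tauto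
        rw [e, hG.mem, hmid]
        constructor
        · rintro (⟨hx, rfl | h⟩ | ⟨hx, -, h⟩ | rfl)
          · exact ⟨hx, Or.inr hcc'⟩
          · exact ⟨hx, Or.inr (hV.trans x hx c hc c' hc' h hcc')⟩
          · exact ⟨hx, Or.inr h⟩
          · exact ⟨hc', Or.inl rfl⟩
        · rintro ⟨hx, rfl | h⟩
          · exact Or.inr (Or.inr rfl)
          · by_cases hxc : x = c
            · exact Or.inl ⟨hx, Or.inl hxc⟩
            · rcases hV.total hx hc hxc with h' | h'
              · exact Or.inl ⟨hx, Or.inr h'⟩
              · exact Or.inr (Or.inl ⟨hx, h', h⟩)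
      · obtain ⟨A₀, l, eA⟩ : ∃ A₀ l, a :: A = A₀ ++ [l] :=
          ⟨_, _, (List.dropLast_append_getLast (List.cons_ne_nil a A)).symm⟩
        obtain ⟨y, M, eM⟩ : ∃ y M, mid ++ [c'] = y :: M := List.exists_cons_of_ne_nil (by simp)
        have hl := hold l (by rw [eA]; simp)
        have hy : y ∈ mid ++ [c'] := by rw [eM]; simp
        obtain ⟨ml, hml, hml1, hml2⟩ := (hV.vlt_iff_back hl.1 hc).1 hl.2
        obtain ⟨my, hmy, hmy1, hmy2⟩ := hnew y hy
        have g1 := hout.lo hl.1 hml.add2 (by linarith)
        have g2 := hout.hi (hmX y hy) hmy.add2 (by linarith)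
        have hori : 0 < ori c l y := ori_pos_of hml.add2 hmy.add2 (by linarith) (by linarith)
        have t1 : TriL ([] ++ c :: y :: M) := by
          rw [List.nil_append, ← eM]; exact htri.triL
        have t2 := (t1.glue (Tri.single hori)).rot1
        have t3 : Tri l (mid ++ [c']) c := by
          rw [eM]; exact TriL.tri (by simpa using t2)
        have t4 : TriL (A₀ ++ l :: c :: B) := by
          have := hG.tri
          rwa [eA, List.append_assoc] at this
        have t5 := t4.glue t3
        have e : (a :: (A ++ mid)) ++ c' :: c :: B = A₀ ++ l :: ((mid ++ [c']) ++ c :: B) := by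
          rw [← List.cons_append, eA]; simp
        rwa [e]
      · have e : (a :: (A ++ mid)) ++ [c'] = (a :: A) ++ (mid ++ [c']) := by simp
        rw [e, List.pairwise_append]
        exact ⟨(List.pairwise_append.1 hG.sorted).1, (List.pairwise_cons.1 hp).2,
          fun x hx y hy => hV.trans x (hold x hx).1 c hc y (hmX y hy) (hold x hx).2 (hnew y hy)⟩
      · refine ⟨by simpa using hstep, hG.chain.congr fun k _ x y _ hv => ?_⟩
        have e : ¬ (0 + 1 + (k : ℤ) ≤ 0) := by omega
        simp only [e, if_false]
        rwa [show (0 : ℤ) + 1 + k - 1 = 0 + k by ring]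
      · have e0 := hμ.mono _ _ _ _ _ _ he hout h5
        by_cases k0 : k + 1 ≤ 0
        · simp [k0, show k ≤ 0 by omega]
        · by_cases k1 : k ≤ 0
          · obtain rfl : k = 0 := by omega
            simp only [le_refl, if_true, k0, if_false, zero_add, sub_self, hG.zero]
            exact e0.le
          · simp only [k0, k1, if_false]
            have := hG.mono (k - 1)
            rwa [sub_add_cancel, show k = k + 1 - 1 by ring, show k + 1 - 1 - 1 = k - 1 by ring]
              at this
      · split_ifs
        · exact hlt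
        · exact hG.lt _
    · have hmin : ∀ y ∈ X, y ≠ c → vlt (U 0) c y := by
        intro y hy hyc
        obtain ⟨m, hm, hm1, hm2⟩ := he.exists_dir' hy hyc
        have := hout.lo hy hm (by linarith)
        exact ⟨_, hm.sub2, by linarith, by linarith⟩
      refine ⟨c, mid, [], fun _ => μ c' D', hp.imp vlt.ne, fun x => ?_, htri.triL, hp,
        ⟨hstep, trivial⟩, fun _ => le_rfl, rfl, fun _ => hlt⟩
      simp only [List.mem_append, List.mem_cons, List.not_mem_nil, or_false, hmid]
      constructor
      · rintro ((rfl | ⟨hx, -, h⟩) | rfl)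
        · exact ⟨hc, Or.inr hcc'⟩
        · exact ⟨hx, Or.inr h⟩
        · exact ⟨hc', Or.inl rfl⟩
      · rintro ⟨hx, rfl | h⟩
        · exact Or.inr rfl
        · by_cases hxc : x = c
          · exact Or.inl (Or.inl hxc)
          · exact Or.inl (Or.inr ⟨hx, hmin x hx hxc, h⟩)

theorem init_ok : InitStmt := by
  intro X U hX h3 hs ⟨μ, hμ⟩
  classical
  have hV := hs.view 0
  obtain ⟨c, hc, hmax⟩ := X.exists_max_image (rk X (U 0)) (Finset.card_pos.1 (by omega))
  have hall : ∀ y ∈ X, y ≠ c → vlt (U 0) y c := fun y hy hyc =>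
    (hV.total hy hc hyc).resolve_right fun h => by
      have := rk_lt hV hc hy h
      have := hmax y hy
      omega
  obtain ⟨b, D, he, h1, h2⟩ := exists_out_of_window hX hc (L := U 0 c + π) (fun y hy hyc => by
    obtain ⟨m, hm, hm1, hm2⟩ := (hV.vlt_iff_back hy hc).1 (hall y hy hyc)
    exact ⟨_, hm.add2, by linarith, by linarith⟩) (by
    obtain ⟨y, hy, hyc⟩ := Finset.exists_mem_ne (s := X) (by omega) c
    exact ⟨y, hy, hyc⟩)
  obtain ⟨a, A, B, t, hG⟩ := init_G hX hs hμ _ c b D (Nat.lt_succ_self _) he h1 (by linarith)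
  have hpos : 0 ≤ t 0 := by
    rw [hG.zero]
    by_contra hneg
    have e1 := hs.le (not_le.1 hneg).le hc
    linarith [(hμ.sees _ _ _ he).1]
  have hmono : Monotone t := monotone_int_of_le_succ hG.mono
  have hmem : ∀ x ∈ (a :: A) ++ c :: B, x ∈ X := fun x hx => ((hG.mem x).1 hx).1
  have hlen : ((a :: A) ++ c :: B).length = X.card := by
    rw [← List.toFinset_card_of_nodup hG.nodup]
    congr 1
    ext x
    rw [List.mem_toFinset, hG.mem]
    refine ⟨fun h => h.1, fun hx => ⟨hx, ?_⟩⟩
    by_cases hxc : x = c
    · exact Or.inl hxc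
    · exact Or.inr (hall x hx hxc)
  set r : ℤ := ((a :: A).length : ℤ) with hr
  have hr0 : 0 < r := by rw [hr, List.length_cons]; omega
  have hge : ∀ k : ℤ, (X.card : ℤ) ≤ if k < r then (X.card : ℤ) else t (k - r) + X.card := by
    intro k
    split_ifs with h
    · exact le_rfl
    · have := hmono (show 0 ≤ k - r by omega)
      omega
  obtain ⟨v, τ, hFP, hwin, hτ, hper, hτm⟩ := l2f hs (P := (a :: A) ++ c :: B) (by omega) hmem
    hG.nodup (t := fun k => if k < r then (X.card : ℤ) else t (k - r) + X.card)
    (fun k _ _ => by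
      by_cases h : k < r
      · simp only [h, if_true]; exact hge _
      · have := hmono (show k - r ≤ k + 1 - r by omega)
        simp only [h, show ¬ k + 1 < r by omega, if_false]
        omega)
    (by
      simp only [hr0, if_true]
      split_ifs
      · omega
      · have := hG.lt ((((a :: A) ++ c :: B).length : ℤ) - 1 - r)
        omega)
    (by
      have e : ((a :: A) ++ c :: B) ++ ((a :: A) ++ c :: B).take 1 =
          (a :: A) ++ c :: (B ++ [a]) := by simp
      rw [e, chain_append]
      constructor
      · refine (init_chain 0 _ hG.sorted).congr fun k hk x y hx hv => ?_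
        have hk' : (0 : ℤ) + k < r := by
          rw [List.length_append, List.length_singleton] at hk; omega
        simp only [hk', if_true]
        have hxX : x ∈ X := hmem x (by
          simp only [List.mem_append, List.mem_cons, List.not_mem_nil, or_false] at hx ⊢; tauto)
        simpa using hs.vlt_per 0 1 hxX hv
      · refine hG.chain.congr fun k _ x y hx hv => ?_
        have hk' : ¬ (0 : ℤ) + r + k < r := by omega
        simp only [← hr, hk', if_false]
        have hxX : x ∈ X := hmem x (by
          simp only [List.mem_append, List.mem_cons, List.not_mem_nil, or_false] at hx ⊢; tauto)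
        have := hs.vlt_per _ 1 hxX hv
        rwa [mul_one, show (0 : ℤ) + k = 0 + r + k - r by ring] at this)
  rw [hlen] at hFP hwin hτ hper
  refine ⟨v, τ, hτm, hper, fun j => ?_, hFP, hwin ▸ hG.tri⟩
  obtain ⟨q, s, rfl, hs0, hs1⟩ := exists_divmod (K := X.card) (by omega) j
  have e := per_int (v := fun j => τ j - j) (K := X.card) (fun i => by rw [hper]; ring) s q
  have e2 := hge s
  rw [← hτ s hs0 hs1] at e2
  omega

end Pool.Agent.CT
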