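import Pool.Agent.Lib.MP_a7588a_co.Radial

/-! A triangulated valid polygon through all points meets the hull edges in order. -/

set_option autoImplicit false

namespace Pool.Agent.CT

open Real

variable {X : Finset Pt} {U : ℤ → Pt → ℝ} {v : ℤ → Pt}

/-- `j` is a label of `a` whose forward direction lies in `[D, D + π)` -/
def necLab (U : ℤ → Pt → ℝ) (v : ℤ → Pt) (a : Pt) (D : ℝ) (j : ℤ) : Prop :=
  v j = a ∧ ∃ lq, Dir a (v (j + 1)) lq ∧ U j a < lq ∧ lq < U j a + π ∧ D ≤ lq ∧ lq < D + π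

theorem nec_exists (h : FP X X.card U v) {a b : Pt} {D : ℝ} (e : LE X a b D) :
    ∃ j, necLab U v a D j := by
  obtain ⟨j, rfl⟩ := h.surj e.ha
  obtain ⟨lq, hq, q1, q2⟩ := h.exists_succ j
  obtain ⟨m, hm, m1, m2⟩ := e.exists_dir (h.mem (j + 1)) hq.ne.symm
  obtain ⟨q, rfl⟩ := hq.unique hm
  have e1 : v (j + X.card * q) = v j := per_int h.per j q
  have e2 : v (j + X.card * q + 1) = v (j + 1) := by
    rw [show j + X.card * q + 1 = j + 1 + X.card * q by ring]
    exact per_int h.per (j + 1) q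
  have e3 := h.sys.per_int j q (h.mem j)
  refine ⟨j + X.card * q, e1, lq + q * (2 * π), by rw [e2]; exact hm, ?_, ?_, m1, m2⟩
  · rw [e3]; linarith
  · rw [e3]; linarith

theorem nec_born {b : Pt} {D : ℝ} {j : ℤ} (hj : necLab U v b D j) : D - π < U j b := by
  obtain ⟨-, lq, -, -, q2, q3, -⟩ := hj
  linarith

theorem nec_alive (h : FP X X.card U v) (h3 : 3 ≤ X.card) (ht : TriL (win v 0 X.card))
    {a b c : Pt} {D D' : ℝ} (e : LE X a b D) (e' : LE X b c D') (h1 : D < D') (h2 : D' ≤ D + π)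
    {j : ℤ} (hj : necLab U v b D' j) : U (j - 1) b < D := by
  obtain ⟨rfl, lq, hq, q1, q2, q3, q4⟩ := hj
  obtain ⟨lp, hp, p1, p2⟩ := h.exists_pred j
  have hpi := pi_pos
  by_contra hc
  have m1 : U (j - 1) (v j) ≤ U j (v j) := h.sys.le (by omega) (h.mem j)
  have a1 : D < lp := e.lo' (h.mem _) hp (by linarith)
  have a2 : lq ≤ D + π := e.hi' (h.mem _) hq (by linarith)
  have o1 : 0 < ori (v j) (v (j - 1)) (v (j + 1)) := ori_pos_of hp hq (by linarith) (by linarith)
  have t1 := ht.win_shift h.per j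
  obtain ⟨m, hm⟩ : ∃ m, X.card = m + 1 + 1 + 1 := ⟨X.card - 3, by omega⟩
  have e1 : v (j + (m + 1 + 1 : ℕ)) = v (j - 1) := by
    rw [← h.per (j - 1), hm]
    congr 1
    push_cast
    ring
  rw [hm, win_succ, win_succ', win_succ', e1] at t1
  have o2 : 0 < ori (v j) (v (j + 1)) (v (j - 1)) := by
    refine TriL.convex_head (B := win v (j + 1 + 1) m) (c0 := (D + D') / 2) t1 ?_
    intro x hx hxj
    have hxX : x ∈ X := by
      rcases List.mem_cons.1 hx with rfl | hx
      · exact h.mem _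
      · rcases List.mem_append.1 hx with hx | hx
        · exact h.win_sub _ _ x hx
        · rw [List.mem_singleton.1 hx]; exact h.mem _
    obtain ⟨k, hk, k1, k2⟩ := e'.exists_dir hxX hxj
    have := e.hi' hxX hk (by linarith)
    exact ⟨k, hk, by linarith, by linarith⟩
  rw [ori_swap] at o2
  linarith

theorem nec_mono (hX : GP X) (h : FP X X.card U v) (h3 : 3 ≤ X.card)
    (ht : TriL (win v 0 X.card)) {a b a' b' : Pt} {l l' : ℝ} (e : LE X a b l) (e' : LE X a' b' l')
    (hl : l < l') {k j : ℤ} (hk : necLab U v a l k) (hj : necLab U v a' l' j) : k ≤ j := by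
  by_contra hc
  have hjk : j < k := by omega
  have hpi := pi_pos
  obtain ⟨a0, l0, e0, l1, l2⟩ := e.prev hX
  have al : U (k - 1) a < l := (nec_alive h h3 ht e0 e l1 l2 hk).trans l1
  have bo' : l' - π < U j a' := nec_born hj
  have bo : l - π < U j a := born_mono (h.sys.view j) e e' hl.le bo'
  have key : ∀ d : ℕ, j + d < k → vlt (U (j + d)) a (v (j + d)) := by
    intro d
    induction d with
    | zero =>
      intro _
      simp only [Nat.cast_zero, add_zero]
      rw [hj.1]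
      have u1 : U j a ≤ U (k - 1) a := h.sys.le (by omega) e.ha
      have hne : a' ≠ a := by
        rintro rfl
        linarith [e.same_start_gap e' hl]
      obtain ⟨m, hm, m1, m2⟩ := e.exists_dir e'.ha hne
      have m3 := e'.far e hl.le hm m2
      have m4 := ((h.sys.view j).born_iff e.ha e'.ha hm).mpr (by linarith)
      exact ⟨m, hm, by linarith, by linarith⟩
    | succ d ih =>
      intro hd
      push_cast at hd ⊢
      obtain ⟨m, hm, m1, m2⟩ := (h.sys.view (j + d)).trans _ e.ha _ (h.mem _) _ (h.mem _)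
        (ih (by omega)) (h.step (j + d))
      have u1 : U j a ≤ U (j + d) a := h.sys.le (by omega) e.ha
      have u2 : U (j + d) a ≤ U (j + (d + 1)) a := h.sys.le (by omega) e.ha
      have u3 : U (j + (d + 1)) a ≤ U (k - 1) a := h.sys.le (by omega) e.ha
      have m3 := e.lo (h.mem _) hm (by linarith)
      rw [add_assoc] at hm
      exact ⟨m, hm, by linarith, by linarith⟩
  obtain ⟨d, hd⟩ : ∃ d : ℕ, k = j + d + 1 := ⟨(k - j - 1).toNat, by omega⟩
  have := ((h.sys.view (j + d)).trans _ e.ha _ (h.mem _) _ (h.mem _)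
    (key d (by omega)) (h.step (j + d))).ne
  rw [← hd, hk.1] at this
  exact this rfl

theorem nec_ok : NecStmt := by
  intro X U v hX h3 h ht
  have h1 : ∀ (a : Pt) (l : ℝ), ∃ j : ℤ, ∀ b, LE X a b l → necLab U v a l j := by
    intro a l
    by_cases hb : ∃ b, LE X a b l
    · obtain ⟨b, hb⟩ := hb
      obtain ⟨j, hj⟩ := nec_exists h hb
      exact ⟨j, fun _ _ => hj⟩
    · exact ⟨0, fun b hb' => absurd ⟨b, hb'⟩ hb⟩
  choose ι hι using h1
  have h2 : ∀ (a : Pt) (l : ℝ), ∃ j : ℤ, ∀ b, LE X a b l →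
      ∃ c l', LE X b c l' ∧ l < l' ∧ l' ≤ l + π ∧ j = ι b l' := by
    intro a l
    by_cases hb : ∃ b, LE X a b l
    · obtain ⟨b, hb⟩ := hb
      obtain ⟨c, l', e', l1, l2⟩ := hb.next hX
      refine ⟨ι b l', fun b' hb' => ?_⟩
      obtain rfl := (hb.unique hb').2
      exact ⟨c, l', e', l1, l2, rfl⟩
    · exact ⟨0, fun b hb' => absurd ⟨b, hb'⟩ hb⟩
  choose κ hκ using h2
  refine ⟨ι, κ, fun a b l e => (hι a l b e).1, fun a b l e => ?_, fun a b l e => ?_,
    fun a b l e j j1 j2 _ => ?_, fun a b l a' b' l' e e' hl => ?_⟩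
  · obtain ⟨c, l', e', -, -, hk⟩ := hκ a l b e
    rw [hk]; exact (hι b l' c e').1
  · obtain ⟨c, l', e', l1, -, hk⟩ := hκ a l b e
    rw [hk]; exact nec_mono hX h h3 ht e e' l1 (hι a l b e) (hι b l' c e')
  · obtain ⟨c, l', e', l1, l2, hk⟩ := hκ a l b e
    have b1 := nec_born (hι a l b e)
    have b2 := nec_alive h h3 ht e e' l1 l2 (hι b l' c e')
    have b3 := ((h.sys.view (ι b l' - 1)).iff a e.ha b e.hb l e.2).mpr b2
    exact h.sys.sees_between j1 (by omega) e.ha b1 b3
  · obtain ⟨c, l1, e1, i1, i2, hk⟩ := hκ a l b e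
    rw [hk]
    rcases (e.consec e1 i2 e' hl).eq_or_lt with rfl | hlt
    · rw [(e1.unique e').1]
    · exact nec_mono hX h h3 ht e1 e' hlt (hι b l1 c e1) (hι a' l' b' e')

end Pool.Agent.CT
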