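import Pool.Agent.Lib.MP_a7588a_co.Radial

/-! Block PROM: promotion of a hull vertex in both sets. -/

set_option autoImplicit false

namespace Pool.Agent.CT

open Real

open Classical in
/-- the fan of new triangles at `w` -/
noncomputable def promT (v : ℤ → Pt) (w : Pt) (k N : ℕ) : List T3 :=
  ((List.range N).filter fun m : ℕ => v (k + m) ≠ v (k + m + 1)).map
    fun m : ℕ => (v (k + m), w, v (k + m + 1))

theorem prom_memT {v : ℤ → Pt} {w : Pt} {k N : ℕ} {t : T3} :
    t ∈ promT v w k N ↔ ∃ m : ℕ, m < N ∧ v (k + m) ≠ v (k + m + 1) ∧ t = (v (k + m), w, v (k + m + 1)) := by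
  simp only [promT, List.mem_map, List.mem_filter, List.mem_range, decide_eq_true_eq]
  exact ⟨fun ⟨m, ⟨a, b⟩, c⟩ => ⟨m, a, b, c.symm⟩, fun ⟨m, a, b, c⟩ => ⟨m, ⟨a, b⟩, c.symm⟩⟩

theorem prom_sum {f : Pt → Pt → ℝ} (hf : Anti f) (v : ℤ → Pt) (w : Pt) (k N : ℕ) :
    ((promT v w k N).map (bd f)).sum + ∑ i ∈ Finset.range (k + N), f (v i) (v ((i : ℤ) + 1)) =
      ∑ i ∈ Finset.range k, f (v i) (v ((i : ℤ) + 1)) + f (v k) w + f w (v (k + N)) := by
  induction N with
  | zero =>
    have := hf (v k) w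
    simp [promT]
    linarith
  | succ N ih =>
    rw [← add_assoc k, Finset.sum_range_succ]
    have e : ((promT v w k (N + 1)).map (bd f)).sum = ((promT v w k N).map (bd f)).sum +
        bd f (v (k + N), w, v (k + N + 1)) := by
      unfold promT
      rw [List.range_succ, List.filter_append, List.map_append, List.map_append, List.sum_append]
      congr 1
      by_cases h : v (k + N) = v (k + N + 1)
      · have h1 := hf (v (k + N + 1)) w
        have h2 := hf.self (v (k + N + 1))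
        simp [h, bd]
        linarith
      · simp [h]
    have h1 := hf (v (k + N)) w
    have h2 := hf (v (k + N + 1)) (v (k + N))
    rw [e]
    simp only [bd]
    push_cast
    rw [← add_assoc (k : ℤ)]
    linarith

theorem prom_used (v : ℤ → Pt) (w : Pt) (k N m : ℕ) (hm : m ≤ N) :
    v (k + m) = v k ∨ ∃ t ∈ promT v w k N, T3.mem (v (k + m)) t := by
  induction m with
  | zero => simp
  | succ m ih =>
    push_cast
    rw [← add_assoc]
    by_cases h : v (k + m) = v (k + m + 1)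
    · rw [← h]
      exact ih (by omega)
    · exact Or.inr ⟨_, prom_memT.2 ⟨m, by omega, h, rfl⟩, Or.inr (Or.inr rfl)⟩

theorem prom_W_lo (v : ℤ → Pt) (w : Pt) (k : ℕ) {i : ℤ} (h0 : 0 ≤ i) (h1 : i ≤ k) :
    promW v w (k + 2) i = v i := by
  unfold promW
  rw [Int.emod_eq_of_lt h0 (by push_cast; omega), if_neg (by push_cast; omega)]

theorem prom_W_mid (v : ℤ → Pt) (w : Pt) (k : ℕ) : promW v w (k + 2) (k + 1) = w := by
  unfold promW
  rw [Int.emod_eq_of_lt (by omega) (by push_cast; omega), if_pos (by push_cast; omega)]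

theorem prom_W_per (v : ℤ → Pt) (w : Pt) (K : ℕ) (i : ℤ) : promW v w K (i + K) = promW v w K i := by
  unfold promW
  rw [Int.add_emod_right]

theorem prom_ori {X : Finset Pt} {k N m : ℕ} {V : ℤ → Pt → ℝ} {w wm wp : Pt} {Di Do : ℝ}
    {μ : Pt → ℝ → ℤ} {R : Pt → ℝ} (h : PData X (k + 2) V w wm wp Di Do μ R) (hm : m < N) {a b : Pt}
    (ha : a ∈ X) (hw : a ≠ w) (hv : vlt (promV V R (k + 2) N (k + m)) a b) : 0 < ori a w b := by
  refine vlt_radial_ori ?_ hv
  have e : ((k + 2 - 2 + N : ℕ) : ℤ) = k + N := by push_cast; omega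
  unfold promV
  rw [e, Int.emod_eq_of_lt (by omega) (by omega), Int.ediv_eq_zero_of_lt (by omega) (by omega),
    if_neg (by push_cast; omega)]
  simpa using (h.rad a ha hw).1.add2

theorem prom_ok : SetStmt → PSysStmt → PFeasStmt → PLiftStmt → PromStmt := by
  classical
  intro hS hY hF hL X Y K VP VQ gX gY hK hc sX sY fX fY aX aY
  obtain ⟨w, wm, wp, Di, Do, μ, R, dX⟩ := hS X K VP gX hK sX fX aX
  obtain ⟨x, xm, xp, Ei, Eo, ν, Q, dY⟩ := hS Y K VQ gY hK sY fY aY
  have hw : w ∈ X := dX.eout.1.1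
  have hx : x ∈ Y := dY.eout.1.1
  have hN : 0 < X.card := Finset.card_pos.2 ⟨w, hw⟩
  have s1 := hY X K X.card VP w wm wp Di Do μ R dX hN
  have s2 := hY Y K X.card VQ x xm xp Ei Eo ν Q dY hN
  refine ⟨w, hw, x, hx, K - 2 + X.card, promV VP R K X.card, promV VQ Q K X.card, s1, s2,
    hF X K X.card VP w wm wp Di Do μ R dX le_rfl, hF Y K X.card VQ x xm xp Ei Eo ν Q dY hc.ge, ?_⟩
  rintro ⟨φ, v, L, h⟩
  have mX : ∀ a, a ∈ del1 X w ↔ a ≠ w ∧ a ∈ X := fun a => by simp [del1]
  have mY : ∀ a, a ∈ del1 Y x ↔ a ≠ x ∧ a ∈ Y := fun a => by simp [del1]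
  obtain ⟨ψ, ψw, ψe⟩ : ∃ ψ : Pt → Pt, ψ w = x ∧ ∀ a ∈ del1 X w, ψ a = φ a :=
    ⟨Function.update φ w x, Function.update_self .., fun a ha =>
      Function.update_of_ne ((mX a).1 ha).1 ..⟩
  have uY : ∀ i, φ (v i) ∈ del1 Y x := fun i => h.bij.mapsTo (h.mem i)
  have bij : Set.BijOn ψ (X : Set Pt) (Y : Set Pt) := by
    have b1 : Set.BijOn ψ (del1 X w : Set Pt) (del1 Y x : Set Pt) :=
      h.bij.congr fun a ha => (ψe a ha).symm
    have b2 := b1.insert (a := w) (by rw [ψw]; exact fun e => ((mY x).1 e).1 rfl)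
    rw [ψw] at b2
    convert b2 using 1
    · ext a
      by_cases e : a = w <;> simp [mX, e, hw]
    · ext a
      by_cases e : a = x <;> simp [mY, e, hx]
  have comm : (fun i => ψ (promW v w K i)) = promW (fun i => φ (v i)) x K := by
    funext i
    unfold promW
    split_ifs
    · exact ψw
    · exact ψe _ (h.mem _)
  have mem : ∀ i, promW v w K i ∈ X := fun i => by
    unfold promW
    split_ifs
    · exact hw
    · exact ((mX _).1 (h.mem _)).2
  obtain ⟨p1, p2⟩ := hL X K X.card VP w wm wp Di Do μ R v dX hN s1 aX h.mem h.per h.stepP h.necP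
  obtain ⟨q1, q2⟩ := hL Y K X.card VQ x xm xp Ei Eo ν Q (fun i => φ (v i)) dY hN s2 aY uY
    (fun i => congrArg φ (h.per i)) (fun i hi => h.stepQ i fun e => hi (congrArg φ e)) h.necQ
  rw [← comm] at q1 q2
  obtain ⟨k, rfl⟩ := Nat.exists_eq_add_of_le' hK
  have per : ∀ i, v (i + (k + X.card : ℕ)) = v i := h.per
  refine ⟨ψ, promW v w (k + 2), L ++ promT v w k X.card, bij, mem, prom_W_per v w _, p1,
    fun i hi => q1 i fun e => hi (bij.injOn (mem _) (mem _) e), fun t ht => ?_, fun f hf => ?_,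
    fun y hy => ?_, p2, q2⟩
  · rcases List.mem_append.1 ht with ht | ht
    · obtain ⟨a, b, c, d, e⟩ := h.pos t ht
      rw [ψe _ a, ψe _ b, ψe _ c]
      exact ⟨((mX _).1 a).2, ((mX _).1 b).2, ((mX _).1 c).2, d, e⟩
    · obtain ⟨m, hm, ne, rfl⟩ := prom_memT.1 ht
      obtain ⟨a1, a2⟩ := (mX _).1 (h.mem (k + m))
      obtain ⟨b1, b2⟩ := (mY _).1 (uY (k + m))
      refine ⟨a2, hw, ((mX _).1 (h.mem _)).2, prom_ori dX hm a2 a1 (h.stepP _ ne), ?_⟩
      simp only
      rw [ψw, ψe _ (h.mem _), ψe _ (h.mem _)]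
      exact prom_ori dY hm b2 b1 (h.stepQ _ ne)
  · have e1 : (L.map (bd f)).sum = ∑ i ∈ Finset.range (k + X.card), f (v i) (v ((i : ℤ) + 1)) :=
      h.bdry f hf
    have e2 := prom_sum hf v w k X.card
    have e3 : v (k + X.card) = v 0 := by simpa using per 0
    have e4 : promW v w (k + 2) (k + 1 + 1) = v 0 := by
      rw [← prom_W_lo v w k le_rfl (by omega), ← prom_W_per v w (k + 2) 0]
      congr 1
      push_cast
      ring
    have e5 : ∑ i ∈ Finset.range k, f (promW v w (k + 2) i) (promW v w (k + 2) ((i : ℤ) + 1)) =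
        ∑ i ∈ Finset.range k, f (v i) (v ((i : ℤ) + 1)) := Finset.sum_congr rfl fun i hi => by
      have := Finset.mem_range.1 hi
      rw [prom_W_lo v w k (by omega) (by omega), prom_W_lo v w k (by omega) (by omega)]
    rw [List.map_append, List.sum_append, e1, Finset.sum_range_succ, Finset.sum_range_succ, e5]
    push_cast
    rw [prom_W_mid, prom_W_lo v w k (by omega) le_rfl, e4, ← e3]
    linarith
  · by_cases e : y = w
    · exact Or.inl ⟨k + 1, by rw [prom_W_mid, e]⟩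
    rcases h.used y ((mX y).2 ⟨e, hy⟩) with ⟨i, rfl⟩ | ⟨t, ht, hm⟩
    · obtain ⟨q, r, rfl, r0, r1⟩ := exists_divmod (K := (k + X.card : ℕ)) (by omega) i
      rw [per_int per]
      by_cases hr : r ≤ k
      · exact Or.inl ⟨r, prom_W_lo v w k r0 hr⟩
      obtain ⟨m, rfl⟩ : ∃ m : ℕ, r = k + m := ⟨(r - k).toNat, by omega⟩
      rcases prom_used v w k X.card m (by omega) with h1 | ⟨t, ht, hm⟩
      · exact Or.inl ⟨k, by rw [prom_W_lo v w k (by omega) le_rfl, h1]⟩
      · exact Or.inr ⟨t, List.mem_append_right _ ht, hm⟩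
    · exact Or.inr ⟨t, List.mem_append_left _ ht, hm⟩

end Pool.Agent.CT
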