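import Pool.Agent.Lib.MP_a7588a_co.PFEAS
import Pool.Agent.Lib.MP_a7588a_co.PROM

/-! Block PLIFT: lifting a walk through a promotion. -/

set_option autoImplicit false

namespace Pool.Agent.CT

open Real

variable {X : Finset Pt} {K : ℕ} {V : ℤ → Pt → ℝ}

noncomputable def fq (c l : ℝ) : ℤ := ⌊(l - c) / (2 * π)⌋
noncomputable def fr (c l : ℝ) : ℝ := l - fq c l * (2 * π)

theorem fr_spec (c l : ℝ) : c ≤ fr c l ∧ fr c l < c + 2 * π ∧ l = fr c l + fq c l * (2 * π) := by
  have hp : 0 < 2 * π := by positivity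
  have h1 := Int.floor_le ((l - c) / (2 * π))
  have h2 := Int.lt_floor_add_one ((l - c) / (2 * π))
  rw [le_div_iff₀ hp] at h1
  rw [div_lt_iff₀ hp] at h2
  unfold fr fq
  exact ⟨by linarith, by linarith, by ring⟩

theorem fq_add (c l : ℝ) : fq c (l + 2 * π) = fq c l + 1 := by
  have hp : 2 * π ≠ 0 := by positivity
  unfold fq
  rw [show (l + 2 * π - c) / (2 * π) = (l - c) / (2 * π) + 1 by field_simp; ring, Int.floor_add_one]

theorem fr_add (c l : ℝ) : fr c (l + 2 * π) = fr c l := by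
  unfold fr; rw [fq_add]; push_cast; ring

theorem LE.fr {a b : Pt} {l : ℝ} (h : LE X a b l) (c : ℝ) : LE X a b (fr c l) := by
  have := h.add_int (-fq c l)
  refine ⟨h.1, this.2.congr ?_⟩
  unfold CT.fr; push_cast; ring

theorem fq_cmp {c l l' : ℝ} (h : l < l') :
    (fq c l = fq c l' ∧ fr c l < fr c l') ∨ fq c l + 1 ≤ fq c l' := by
  have h1 : fq c l ≤ fq c l' :=
    Int.floor_mono (div_le_div_of_nonneg_right (by linarith) (by positivity))
  rcases h1.eq_or_lt with e | e
  · left; refine ⟨e, ?_⟩; unfold fr; rw [e]; linarith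
  · exact Or.inr e

theorem sees_per (hs : Sys X K V) {a : Pt} (ha : a ∈ X) {j : ℤ} {l : ℝ} (h : Sees (V j) a l)
    (q : ℤ) : Sees (V (j + K * q)) a (l + q * (2 * π)) := by
  have := hs.per_int j q ha
  exact ⟨by linarith [h.1], by linarith [h.2]⟩

theorem fund_feas (hs : Sys X K V) (c : ℝ) (G : Pt → ℝ → ℤ) (lo : ℤ)
    (mono : ∀ a b l a' b' l', LE X a b l → LE X a' b' l' → c ≤ l → l < l' → l' < c + 2 * π →
      G a l < G a' l')
    (rng : ∀ a b l, LE X a b l → c ≤ l → l < c + 2 * π → lo ≤ G a l ∧ G a l < lo + K ∧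
      Sees (V (G a l)) a l) (p n : ℤ) (p1 : lo ≤ p) (p2 : p < lo + K)
    (hp : ∀ a b l, LE X a b l → c ≤ l → l < c + 2 * π → G a l ≠ p) : Avoid X K V (p - K * n) := by
  refine ⟨fun a l => G a (fr c l) + K * fq c l, ⟨fun a b l _ => ?_, fun a b l a' b' l' e e' hl => ?_,
    fun a b l e => ?_⟩, fun a b l e he => ?_⟩
  · simp only [fr_add, fq_add]; ring
  · obtain ⟨s1, s2, -⟩ := fr_spec c l
    obtain ⟨t1, t2, -⟩ := fr_spec c l'
    rcases fq_cmp (c := c) hl with ⟨h1, h2⟩ | h1
    · have := mono _ _ _ _ _ _ (e.fr c) (e'.fr c) s1 h2 t2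
      simp only [h1]; omega
    · have r1 := rng _ _ _ (e.fr c) s1 s2
      have r2 := rng _ _ _ (e'.fr c) t1 t2
      have : (K : ℤ) * (fq c l + 1) ≤ K * fq c l' := mul_le_mul_of_nonneg_left h1 (by positivity)
      linarith [r1.2.1, r2.1]
  · obtain ⟨s1, s2, s3⟩ := fr_spec c l
    have := sees_per hs e.ha (rng _ _ _ (e.fr c) s1 s2).2.2 (fq c l)
    rwa [← s3] at this
  · obtain ⟨s1, s2, -⟩ := fr_spec c l
    have r1 := rng _ _ _ (e.fr c) s1 s2
    have h0 := hp _ _ _ (e.fr c) s1 s2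
    simp only at he
    rcases lt_trichotomy (fq c l + n) 0 with h | h | h
    · have : (K : ℤ) * (fq c l + n) ≤ K * (-1) := mul_le_mul_of_nonneg_left (by omega) (by positivity)
      linarith [r1.2.1]
    · have : (K : ℤ) * (fq c l + n) = 0 := by rw [h, mul_zero]
      exact h0 (by linarith)
    · have : (K : ℤ) * 1 ≤ K * (fq c l + n) := mul_le_mul_of_nonneg_left (by omega) (by positivity)
      linarith [r1.1]

theorem fund_nec (hs : Sys X K V) (c : ℝ) {u : ℤ → Pt} (hu : ∀ i, u (i + K) = u i)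
    (ι κ : Pt → ℝ → ℤ) (lo : ℤ)
    (ord : ∀ a b l a' b' l', LE X a b l → LE X a' b' l' → c ≤ l → l < l' → l' < c + 2 * π →
      κ a l ≤ ι a' l')
    (rng : ∀ a b l, LE X a b l → c ≤ l → l < c + 2 * π → lo ≤ ι a l ∧ κ a l ≤ lo + K ∧
      u (ι a l) = a ∧ u (κ a l) = b ∧ ι a l ≤ κ a l ∧
      ∀ j, ι a l ≤ j → j < κ a l → u j ≠ u (j + 1) → Sees (V j) a l) : Nec X V u := by
  refine ⟨fun a l => ι a (fr c l) + K * fq c l, fun a l => κ a (fr c l) + K * fq c l,
    fun a b l e => ?_, fun a b l e => ?_, fun a b l e => ?_, fun a b l e j j1 j2 hj => ?_,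
    fun a b l a' b' l' e e' hl => ?_⟩
  all_goals obtain ⟨s1, s2, s3⟩ := fr_spec c l
  all_goals obtain ⟨r1, r2, r3, r4, r5, r6⟩ := rng _ _ _ (e.fr c) s1 s2
  · rw [per_int hu, r3]
  · rw [per_int hu, r4]
  · omega
  · obtain ⟨j0, rfl⟩ : ∃ j0, j = j0 + K * fq c l := ⟨j - K * fq c l, by ring⟩
    rw [show j0 + K * fq c l + 1 = j0 + 1 + K * fq c l by ring, per_int hu, per_int hu] at hj
    have := sees_per hs e.ha (r6 j0 (by omega) (by omega) hj)
      (fq c l)
    rwa [← s3] at this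
  · obtain ⟨t1, t2, -⟩ := fr_spec c l'
    rcases fq_cmp (c := c) hl with ⟨h1, h2⟩ | h1
    · have := ord _ _ _ _ _ _ (e.fr c) (e'.fr c) s1 h2 t2
      simp only [h1]; omega
    · have r2 := rng _ _ _ (e'.fr c) t1 t2
      have : (K : ℤ) * (fq c l + 1) ≤ K * fq c l' := mul_le_mul_of_nonneg_left h1 (by positivity)
      linarith [r2.1]

theorem const_of_deg {v : ℤ → Pt} {s t : ℤ} (h : s ≤ t) (hd : ∀ j, s ≤ j → j < t → v j = v (j + 1)) :
    v s = v t := by
  induction t, h using Int.leInduction with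
  | base => rfl
  | succ t ht ih => rw [ih fun j a b => hd j a (by omega), hd t ht (by omega)]

theorem exists_nondeg {v : ℤ → Pt} {s t : ℤ} (h : s ≤ t) (hne : v s ≠ v t) :
    ∃ j, s ≤ j ∧ j < t ∧ v j ≠ v (j + 1) := by
  by_contra hc
  push Not at hc
  exact hne (const_of_deg h hc)

section lift

variable {k N : ℕ} {w wm wp : Pt} {Di Do : ℝ} {μ : Pt → ℝ → ℤ} {R : Pt → ℝ}

theorem pv_lo {j : ℤ} (h0 : 0 ≤ j) (h1 : j < k) (x : Pt) :
    promV V R (k + 2) N j x = min (max (V j x) (R x)) (R x + 2 * π) := by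
  unfold promV
  rw [Int.emod_eq_of_lt h0 (by push_cast; omega), Int.ediv_eq_zero_of_lt h0 (by push_cast; omega),
    if_pos (by push_cast; omega)]
  simp

theorem pv_hi (hN : 0 < N) (hs : Sys (del1 X w) (k + 2 - 2 + N) (promV V R (k + 2) N)) {j : ℤ}
    (h : k ≤ j) {x : Pt} (hx : x ∈ del1 X w) : R x + 2 * π ≤ promV V R (k + 2) N j x := by
  refine le_trans (le_of_eq ?_) (hs.le h hx)
  unfold promV
  rw [Int.emod_eq_of_lt (by omega) (by push_cast; omega),
    Int.ediv_eq_zero_of_lt (by omega) (by push_cast; omega), if_neg (by push_cast; omega)]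
  simp

theorem pv_neg (hN : 0 < N) (hs : Sys (del1 X w) (k + 2 - 2 + N) (promV V R (k + 2) N)) {j : ℤ}
    (h : j < 0) {x : Pt} (hx : x ∈ del1 X w) : promV V R (k + 2) N j x ≤ R x := by
  refine le_trans (hs.le (show j ≤ -1 by omega) hx) (le_of_eq ?_)
  have e : (-1 : ℤ) = (k + N - 1) + ((k + 2 - 2 + N : ℕ) : ℤ) * (-1) := by push_cast; ring
  unfold promV
  rw [e, emod_of _ (by omega) (by push_cast; omega), ediv_of _ (by omega) (by push_cast; omega),
    if_neg (by push_cast; omega)]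
  push_cast; ring

theorem PData.tri (h : PData X K V w wm wp Di Do μ R) {a b : Pt} {l : ℝ} (e : LE X a b l)
    (h1 : Do ≤ l) (h2 : l < Do + 2 * π) :
    (l = Do ∧ a = w ∧ b = wp) ∨ (l = Di + 2 * π ∧ a = wm ∧ b = w) ∨ (Do < l ∧ l < Di + 2 * π) := by
  rcases h1.eq_or_lt with rfl | h1
  · exact Or.inl ⟨rfl, e.unique h.eout⟩
  rcases lt_trichotomy l (Di + 2 * π) with h3 | rfl | h3
  · exact Or.inr (Or.inr ⟨h1, h3⟩)
  · exact Or.inr (Or.inl ⟨rfl, e.unique h.ein.add2⟩)
  · linarith [h.ein.add2.consec h.eout.add2 (by linarith [h.le]) e h3]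

theorem PData.mid (h : PData X K V w wm wp Di Do μ R) {a b : Pt} {l : ℝ} (e : LE X a b l)
    (h1 : Do < l) (h2 : l < Di + 2 * π) :
    LE (del1 X w) a b l ∧ R a < l - π ∧ l ≤ R a + 2 * π := by
  have hp := pi_pos
  have hlt := h.lt
  have hle := h.le
  have haw : a ≠ w := by
    rintro rfl
    linarith [h.eout.same_start_gap e h1]
  have hbw : b ≠ w := by
    rintro rfl
    obtain rfl := e.1.unique_in h.ein.1
    linarith [h.ein.same_start_gap e (by linarith)]
  obtain ⟨r1, r2, r3⟩ := h.rad a e.ha haw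
  obtain ⟨m, hm, m1, m2⟩ := e.exists_dir h.eout.ha haw.symm
  have m3 := h.eout.add2.far e (by linarith) hm m2
  have m4 := r1.add2.eq_of hm (by linarith) (by linarith)
  refine ⟨⟨⟨pfeas_mem.2 ⟨haw, e.ha⟩, pfeas_mem.2 ⟨hbw, e.hb⟩, e.ne,
    fun y hy => e.1.2.2.2 y (pfeas_mem.1 hy).2⟩, e.2⟩, by linarith, by linarith⟩

theorem PData.Rm (h : PData X K V w wm wp Di Do μ R) : R wm = Di := by
  obtain ⟨r1, r2, r3⟩ := h.rad wm h.ein.ha h.ein.ne
  exact r1.eq_of h.ein.2 (by linarith [h.lt, pi_pos]) (by linarith [pi_pos])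

theorem PData.Rp (h : PData X K V w wm wp Di Do μ R) : R wp = Do - π := by
  obtain ⟨r1, r2, r3⟩ := h.rad wp h.eout.hb h.eout.ne.symm
  exact r1.eq_of h.eout.2.rev' (by linarith [pi_pos]) (by linarith [h.lt, pi_pos])

variable {v : ℤ → Pt} {ι κ : Pt → ℝ → ℤ}

theorem mid_steps (h : PData X (k + 2) V w wm wp Di Do μ R) (hN : 0 < N)
    (hs : Sys (del1 X w) (k + 2 - 2 + N) (promV V R (k + 2) N))
    (hn : IsNec (del1 X w) (promV V R (k + 2) N) v ι κ) {a b : Pt} {l : ℝ} (e : LE X a b l)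
    (h1 : Do < l) (h2 : l < Di + 2 * π) :
    (∀ j, ι a l ≤ j → j < κ a l → v j ≠ v (j + 1) → 0 ≤ j ∧ j < k ∧ Sees (V j) a l) ∧
    v (max (ι a l) 0) = a ∧ v (min (κ a l) k) = b ∧ max (ι a l) 0 < min (κ a l) k := by
  obtain ⟨e', m1, m2⟩ := h.mid e h1 h2
  have key : ∀ j, ι a l ≤ j → j < κ a l → v j ≠ v (j + 1) → 0 ≤ j ∧ j < k ∧ Sees (V j) a l := by
    intro j j1 j2 hj
    obtain ⟨s1, s2⟩ := hn.sees a b l e' j j1 j2 hj
    have a1 : 0 ≤ j := by
      by_contra hc
      linarith [pv_neg hN hs (not_le.mp hc) e'.ha]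
    have a2 : j < k := by
      by_contra hc
      linarith [pv_hi hN hs (not_lt.mp hc) e'.ha]
    rw [pv_lo a1 a2] at s1 s2
    refine ⟨a1, a2, ?_, ?_⟩
    · rcases lt_max_iff.mp (lt_min_iff.mp s1).1 with h | h
      · exact h
      · linarith
    · rcases min_lt_iff.mp s2 with h | h
      · exact (max_lt_iff.mp h).1
      · linarith
  have s := hn.start a b l e'
  have t := hn.stop a b l e'
  obtain ⟨j, j1, j2, j3⟩ := exists_nondeg (v := v) (hn.le a b l e') (by rw [s, t]; exact e.ne)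
  obtain ⟨j4, j5, -⟩ := key j j1 j2 j3
  refine ⟨key, ?_, ?_, by omega⟩
  · refine (const_of_deg (v := v) (le_max_left _ _) fun i i1 i2 => ?_).symm.trans s
    by_contra hc
    have := (key i i1 (by omega) hc).1
    omega
  · refine (const_of_deg (v := v) (min_le_left _ _) fun i i1 i2 => ?_).trans t
    by_contra hc
    have := (key i (by omega) i2 hc).2.1
    omega

theorem labs (h : PData X (k + 2) V w wm wp Di Do μ R) (hN : 0 < N)
    (hs : Sys (del1 X w) (k + 2 - 2 + N) (promV V R (k + 2) N)) (hv : ∀ i, v i ∈ del1 X w)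
    (hst : ∀ i, v i ≠ v (i + 1) → vlt (promV V R (k + 2) N i) (v i) (v (i + 1)))
    (hn : IsNec (del1 X w) (promV V R (k + 2) N) v ι κ) :
    ∃ Lp Lm : ℤ, 0 ≤ Lp ∧ Lp ≤ Lm ∧ Lm ≤ k ∧ v Lp = wp ∧ v Lm = wm ∧
      (∀ j, 0 ≤ j → j < Lp → v j ≠ v (j + 1) → V j w < Do) ∧
      (∀ j, Lm ≤ j → j < k → v j ≠ v (j + 1) → Di + π < V j w) ∧
      ∀ a b l, LE X a b l → Do < l → l < Di + 2 * π →
        Lp ≤ max (ι a l) 0 ∧ min (κ a l) k ≤ Lm := by
  have hp := pi_pos
  have hlt := h.lt
  have hle := h.le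
  have hw := h.eout.ha
  by_cases hmp : wm = wp
  · subst hmp
    have all : ∀ y ∈ del1 X w, y = wm := by
      intro y hy
      obtain ⟨y1, y2⟩ := pfeas_mem.1 hy
      by_contra hc
      have a1 := h.ein.1.2.2.2 y y2 hc y1
      have a2 := h.eout.1.2.2.2 y y2 y1 hc
      rw [ori_swap'] at a2; linarith
    refine ⟨0, k, le_rfl, by omega, le_rfl, all _ (hv _), all _ (hv _), fun j _ _ => by omega,
      fun j _ _ => by omega, fun a b l e h1 h2 => ?_⟩
    have e' := (h.mid e h1 h2).1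
    exact absurd ((all _ e'.ha).trans (all _ e'.hb).symm) e.ne
  have gp' : GP (del1 X w) := h.gp.mono fun x hx => (pfeas_mem.1 hx).2
  -- the edge after `out` and the last new edge
  obtain ⟨c, Dp, ep, p1, p2⟩ := h.eout.next h.gp
  have p3 : Dp < Di + 2 * π := by
    have := h.eout.consec ep p2 h.ein.add2 (by linarith)
    exact lt_of_le_of_ne this fun e => hmp ((e ▸ ep).unique h.ein.add2).1.symm
  obtain ⟨z, lz, ez, z1, z2⟩ := (h.mid ep p1 p3).1.prev gp'
  have z3 : lz ≤ Do := by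
    linarith [h.eout.hi' (pfeas_mem.1 ez.ha).2 ez.2.rev (by linarith)]
  -- the edge before `in` and the first new edge
  obtain ⟨d, Dm, em, q1, q2⟩ := h.ein.add2.prev h.gp
  have q3 : Do < Dm := by
    by_contra hc
    have := em.consec h.ein.add2 q2 ep (by linarith)
    linarith
  obtain ⟨y, ly, ey, y1, y2⟩ := (h.mid em q3 q1).1.next gp'
  have y3 : Di + 2 * π ≤ ly := h.ein.add2.lo (pfeas_mem.1 ey.hb).2 ey.2 (by linarith)
  obtain ⟨jz, jz1, jz2, jz3⟩ := exists_nondeg (v := v) (hn.le _ _ _ ez)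
    (by rw [hn.start _ _ _ ez, hn.stop _ _ _ ez]; exact ez.ne)
  obtain ⟨jy, jy1, jy2, jy3⟩ := exists_nondeg (v := v) (hn.le _ _ _ ey)
    (by rw [hn.start _ _ _ ey, hn.stop _ _ _ ey]; exact ey.ne)
  have cmp : ∀ a b l, LE X a b l → Do < l → l < Di + 2 * π →
      max (κ z lz) 0 ≤ max (ι a l) 0 ∧ min (κ a l) k ≤ min (ι wm ly) k := by
    intro a b l e h1 h2
    have e' := (h.mid e h1 h2).1
    have := hn.ord _ _ _ _ _ _ ez e' (by linarith)
    have := hn.ord _ _ _ _ _ _ e' ey (by linarith)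
    omega
  have c1 := cmp _ _ _ ep p1 p3
  have c2 := (mid_steps h hN hs hn ep p1 p3).2.2.2
  have sz : ∀ j, ι z lz ≤ j → j < κ z lz → v j ≠ v (j + 1) →
      Sees (promV V R (k + 2) N j) wp lz := fun j a b c =>
    ((hs.view j).sees_iff ez.ha ez.hb ez.2).mp (hn.sees _ _ _ ez j a b c)
  refine ⟨max (κ z lz) 0, min (ι wm ly) k, by omega, by omega, by omega, ?_, ?_, ?_, ?_, cmp⟩
  · have : ∀ j, κ z lz ≤ j → j ≤ max (κ z lz) 0 → v j = wp := by
      intro j j1
      induction j, j1 using Int.leInduction with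
      | base => exact fun _ => hn.stop _ _ _ ez
      | succ j j1 ih =>
        intro j2
        have e := ih (by omega)
        by_contra hc
        obtain ⟨ν, n1, n2, n3⟩ := hst j (by rw [e]; exact Ne.symm hc)
        rw [e] at n1 n2 n3
        have a1 := pv_neg hN hs (show j < 0 by omega) ez.hb
        have a2 := hs.le (show jz ≤ j by omega) ez.hb
        have a3 := ez.lo' (hv _) n1 (by linarith [(sz jz jz1 jz2 jz3).1])
        have a4 := h.eout.lo' (pfeas_mem.1 (hv _)).2 n1 (by linarith)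
        linarith [h.Rp]
    exact this _ (by omega) le_rfl
  · have : ∀ d : ℕ, ∀ j, j + d = ι wm ly → min (ι wm ly) k ≤ j → v j = wm := by
      intro d
      induction d with
      | zero => intro j e _; rw [show j = ι wm ly by omega]; exact hn.start _ _ _ ey
      | succ d ih =>
        intro j e j2
        have e := ih (j + 1) (by push_cast at e; omega) (by omega)
        by_contra hc
        have st := hst j (by rw [e]; exact hc)
        rw [e] at st
        obtain ⟨ν, n1, n2, n3⟩ := ((hs.view j).vlt_iff_back (hv j) ey.ha).mp st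
        have a1 := pv_hi hN hs (show (k : ℤ) ≤ j by omega) ey.ha
        have a2 := hs.le (show j ≤ jy by omega) ey.ha
        have a3 := h.ein.add2.lo (pfeas_mem.1 (hv _)).2 n1 (by linarith [h.Rm])
        have a4 := ey.lo (hv _) n1 (by linarith)
        linarith [(hn.sees _ _ _ ey jy jy1 jy2 jy3).2]
    exact this (ι wm ly - min (ι wm ly) k).toNat _ (by omega) le_rfl
  · intro j j0 j1 hj
    obtain ⟨i, i1, i2, i3, i4⟩ : ∃ i, j ≤ i ∧ ι z lz ≤ i ∧ i < κ z lz ∧ v i ≠ v (i + 1) := by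
      rcases le_or_gt (ι z lz) j with h1 | h1
      · exact ⟨j, le_rfl, h1, by omega, hj⟩
      · exact ⟨jz, by omega, jz1, jz2, jz3⟩
    have s := (sz i i2 i3 i4).2
    rw [pv_lo (by omega) (by omega)] at s
    have a1 : V i wp < Do := by
      rcases min_lt_iff.mp s with h1 | h1
      · linarith [(max_lt_iff.mp h1).1]
      · linarith [h.Rp]
    have := ((h.sys.view i).iff _ hw _ h.eout.hb _ h.eout.2).mpr a1
    linarith [h.sys.le i1 hw]
  · intro j j0 j1 hj
    obtain ⟨i, i1, i2, i3, i4⟩ : ∃ i, i ≤ j ∧ ι wm ly ≤ i ∧ i < κ wm ly ∧ v i ≠ v (i + 1) := by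
      rcases lt_or_ge j (κ wm ly) with h1 | h1
      · exact ⟨j, le_rfl, by omega, h1, hj⟩
      · exact ⟨jy, by omega, jy1, jy2, jy3⟩
    have s := (hn.sees _ _ _ ey i i2 i3 i4).1
    rw [pv_lo (by omega) (by omega)] at s
    have a1 : Di + 2 * π - π < V i wm := by
      rcases lt_max_iff.mp (lt_min_iff.mp s).1 with h1 | h1
      · linarith
      · linarith [h.Rm]
    have := ((h.sys.view i).born_iff h.ein.ha hw h.ein.2.add2).mp a1
    linarith [h.sys.le i1 hw]

theorem avoid_of (h : PData X (k + 2) V w wm wp Di Do μ R) (hN : 0 < N)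
    (hs : Sys (del1 X w) (k + 2 - 2 + N) (promV V R (k + 2) N))
    (hn : IsNec (del1 X w) (promV V R (k + 2) N) v ι κ) {po pn : ℤ} (h1 : po < pn)
    (h2 : pn < po + (k + 2)) (so : Sees (V po) w Do)
    (si : Sees (V pn) w (Di + 2 * π))
    (hm : ∀ a b l, LE X a b l → Do < l → l < Di + 2 * π →
      po < max (ι a l) 0 ∧ min (κ a l) k ≤ pn) (p n : ℤ) (p1 : po < p) (p2 : p < po + (k + 2))
    (p3 : p ≠ pn) (p4 : p < 0 ∨ k ≤ p) : Avoid X (k + 2) V (p - (k + 2 : ℕ) * n) := by
  classical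
  have hp := pi_pos
  have hlt := h.lt
  have hle := h.le
  have ex : ∀ a l, ∃ j, ∀ b, LE X a b l → Do < l → l < Di + 2 * π →
      ι a l ≤ j ∧ j < κ a l ∧ v j ≠ v (j + 1) := by
    intro a l
    by_cases hb : ∃ b, LE X a b l ∧ Do < l ∧ l < Di + 2 * π
    · obtain ⟨b, e, b1, b2⟩ := hb
      have e' := (h.mid e b1 b2).1
      obtain ⟨j, hj⟩ := exists_nondeg (v := v) (hn.le _ _ _ e')
        (by rw [hn.start _ _ _ e', hn.stop _ _ _ e']; exact e.ne)
      exact ⟨j, fun _ _ _ _ => hj⟩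
    · exact ⟨0, fun b e b1 b2 => absurd ⟨b, e, b1, b2⟩ hb⟩
  choose g hg using ex
  set G : Pt → ℝ → ℤ := fun a l => if l = Do then po else if l = Di + 2 * π then pn else g a l
    with hG
  have G1 : ∀ a, G a Do = po := fun a => by simp [hG]
  have G2 : ∀ a, G a (Di + 2 * π) = pn := fun a => by
    simp only [hG]; rw [if_neg (by linarith)]; simp
  have G3 : ∀ a b l, LE X a b l → Do < l → l < Di + 2 * π → po < G a l ∧ G a l < pn ∧
      ι a l ≤ G a l ∧ G a l < κ a l ∧ 0 ≤ G a l ∧ G a l < k ∧ Sees (V (G a l)) a l := by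
    intro a b l e b1 b2
    have : G a l = g a l := by simp only [hG]; rw [if_neg b1.ne', if_neg b2.ne]
    rw [this]
    obtain ⟨g1, g2, g3⟩ := hg a l b e b1 b2
    obtain ⟨g4, g5, g6⟩ := (mid_steps h hN hs hn e b1 b2).1 _ g1 g2 g3
    have := hm a b l e b1 b2
    exact ⟨by omega, by omega, g1, g2, g4, g5, g6⟩
  refine fund_feas h.sys Do G po (fun a b l a' b' l' e e' c1 c2 c3 => ?_)
    (fun a b l e c1 c2 => ?_) p n p1.le (by push_cast; omega) fun a b l e c1 c2 => ?_
  · rcases h.tri e c1 (by linarith) with ⟨rfl, -⟩ | ⟨rfl, -⟩ | ⟨b1, b2⟩ <;>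
      rcases h.tri e' (by linarith) c3 with ⟨rfl, -⟩ | ⟨rfl, -⟩ | ⟨b1', b2'⟩ <;>
      try (exfalso; linarith)
    · rw [G1, G2]; exact h1
    · rw [G1]; exact (G3 _ _ _ e' b1' b2').1
    · rw [G2]; exact (G3 _ _ _ e b1 b2).2.1
    · have := hn.ord _ _ _ _ _ _ (h.mid e b1 b2).1 (h.mid e' b1' b2').1 c2
      have := G3 _ _ _ e b1 b2
      have := G3 _ _ _ e' b1' b2'
      omega
  · rcases h.tri e c1 c2 with ⟨rfl, rfl, -⟩ | ⟨rfl, rfl, -⟩ | ⟨b1, b2⟩
    · rw [G1]; exact ⟨le_rfl, by push_cast; omega, so⟩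
    · rw [G2]
      exact ⟨h1.le, by push_cast; omega,
        ((h.sys.view _).sees_iff h.ein.ha h.ein.hb h.ein.2.add2).mpr si⟩
    · have := G3 _ _ _ e b1 b2
      exact ⟨by omega, by push_cast; omega, this.2.2.2.2.2.2⟩
  · rcases h.tri e c1 c2 with ⟨rfl, -⟩ | ⟨rfl, -⟩ | ⟨b1, b2⟩
    · rw [G1]; omega
    · rw [G2]; omega
    · have := G3 _ _ _ e b1 b2
      omega

end lift

theorem plift_ok : PLiftStmt := by
  classical
  intro X K N V w wm wp Di Do μ R v h hN hs hess hv _ hst ⟨ι, κ, hn⟩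
  obtain ⟨k, rfl⟩ := Nat.exists_eq_add_of_le' h.two
  have hp := pi_pos
  have hlt := h.lt
  have hle := h.le
  have hw := h.eout.ha
  obtain ⟨Lp, Lm, l0, l1, l2, l3, l4, l5, l6, l7⟩ := labs h hN hs hv hst hn
  have vX : ∀ i, v i ∈ X := fun i => (pfeas_mem.1 (hv i)).2
  have rad := fun i => h.rad (v i) (vX i) (pfeas_mem.1 (hv i)).1
  have sin := ((h.sys.view _).sees_iff h.ein.ha hw h.ein.2).mp h.sin
  have sout := h.sout
  have Vk : V k w = V (-2) w + 2 * π := by
    rw [← h.sys.per _ _ hw]; congr 1; push_cast; ring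
  have Vk1 : V (k + 1) w = V (-1) w + 2 * π := by
    rw [← h.sys.per _ _ hw]; congr 1; push_cast; ring
  have V21 : V (-2) w ≤ V (-1) w := h.sys.le (by omega) hw
  have nF1 : V (-2) w < R (v k) := by
    by_contra hc
    have hc := lt_of_le_of_ne (not_lt.mp hc)
      ((h.sys.view (-2)).ne _ (vX k) _ hw _ (rad k).1).2.symm
    obtain ⟨j, j1, j2, j3⟩ := exists_nondeg (v := v) l2 (by
      intro e; rw [← e, l4, h.Rm] at hc; linarith [sin.2])
    have si : Sees (V j) w (Di + 2 * π) :=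
      ⟨by linarith [l6 j j1 j2 j3], by linarith [h.sys.le j2.le hw, sin.2]⟩
    have a1 := avoid_of h hN hs hn (po := -2) (pn := j) (by omega) (by omega)
      ⟨by linarith [(rad k).2.1], by linarith [sout.2]⟩ si
      (fun a b l e b1 b2 => by have := l7 a b l e b1 b2; omega) (-1) 0 (by omega) (by omega)
      (by omega) (by omega)
    have a2 := avoid_of h hN hs hn (po := -1) (pn := j) (by omega) (by omega)
      sout si (fun a b l e b1 b2 => by have := l7 a b l e b1 b2; omega) k 1 (by omega) (by omega)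
      (by omega) (by omega)
    rw [show (k : ℤ) - (k + 2 : ℕ) * 1 = -2 by push_cast; ring] at a2
    rw [mul_zero, sub_zero] at a1
    tauto
  have nF2 : R (v 0) < V (-1) w := by
    by_contra hc
    have hc := lt_of_le_of_ne (not_lt.mp hc) ((h.sys.view (-1)).ne _ (vX 0) _ hw _ (rad 0).1).2
    obtain ⟨j, j1, j2, j3⟩ := exists_nondeg (v := v) l0 (by
      intro e; rw [e, l3, h.Rp] at hc; linarith [sout.1])
    have so : Sees (V j) w Do :=
      ⟨by linarith [h.sys.le (show -1 ≤ j by omega) hw, sout.1], l5 j j1 j2 j3⟩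
    have a1 := avoid_of h hN hs hn (po := j) (pn := k) (by omega) (by omega)
      so ⟨by linarith [sin.1], by linarith [sin.2]⟩
      (fun a b l e b1 b2 => by have := l7 a b l e b1 b2; omega) (k + 1) 1 (by omega) (by omega)
      (by omega) (by omega)
    have a2 := avoid_of h hN hs hn (po := j) (pn := k + 1) (by omega) (by omega)
      so ⟨by linarith [sin.1], by linarith [(rad 0).2.2]⟩
      (fun a b l e b1 b2 => by have := l7 a b l e b1 b2; omega) k 1 (by omega) (by omega)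
      (by omega) (by omega)
    rw [show (k : ℤ) - (k + 2 : ℕ) * 1 = -2 by push_cast; ring] at a2
    rw [show (k : ℤ) + 1 - (k + 2 : ℕ) * 1 = -1 by push_cast; ring] at a1
    tauto
  -- order of two points separated by `w`
  have sep : ∀ (j i i' : ℤ) (c : ℝ), (c = 0 ∨ c = 2 * π) → R (v i) + c < V j w →
      V j w < R (v i') + c → vlt (V j) (v i') (v i) := by
    intro j i i' c hc h1 h2
    have d : ∀ i, Dir (v i) w (R (v i) + c) := fun i => by
      rcases hc with rfl | rfl
      · simpa using (rad i).1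
      · exact (rad i).1.add2
    have a1 : vlt (V j) (v i') w := vlt_of_sees (d i')
      (((h.sys.view j).sees_iff (vX i') hw (d i')).mpr
        ⟨by linarith [(rad i).2.1, (rad i').2.2], h2⟩)
    have a2 : vlt (V j) w (v i) :=
      ⟨_, (d i).rev, by linarith [(rad i).2.1, (rad i').2.2], by linarith⟩
    exact (h.sys.view j).trans _ (vX _) _ hw _ (vX _) a1 a2
  have med : ∀ (j : ℤ) i, 0 ≤ j → j < k → R (v i) < V j w → V j w < R (v i) + 2 * π →
      promV V R (k + 2) N j (v i) = V j (v i) := by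
    intro j i j0 j1 h1 h2
    have a1 := ((h.sys.view j).iff' (vX i) hw (rad i).1).mpr h1
    have a2 := ((h.sys.view j).iff _ (vX i) _ hw _ (rad i).1.add2).mpr h2
    rw [pv_lo j0 j1, max_eq_left a1.le, min_eq_left a2.le]
  have fwd : ∀ j : ℤ, 0 ≤ j → j ≤ k → R (v j) < V j w := by
    intro j j0
    induction j, j0 using Int.leInduction with
    | base => intro _; linarith [h.sys.le (show (-1 : ℤ) ≤ 0 by omega) hw]
    | succ j j0 ih =>
      intro j1
      have ih := ih (by omega)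
      have mo := h.sys.mono j w hw
      by_cases e : v j = v (j + 1)
      · rw [← e]; linarith
      by_contra hc
      have hc := lt_of_le_of_ne (not_lt.mp hc)
        ((h.sys.view (j + 1)).ne _ (vX _) _ hw _ (rad (j + 1)).1).2
      have a1 := sep j j (j + 1) 0 (Or.inl rfl) (by linarith) (by linarith)
      have a2 := med j j j0 (by omega) ih (by linarith [(rad j).2.1, (rad (j + 1)).2.2])
      exact (h.sys.view j).asymm (vX _) (vX _) a1 (vlt_congr a2 (hst j e))
  have bwd : ∀ d : ℕ, ∀ j : ℤ, 0 ≤ j → j + d = k → V j w < R (v j) + 2 * π := by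
    intro d
    induction d with
    | zero => intro j _ e; rw [show j = k by omega]; linarith
    | succ d ih =>
      intro j j0 e
      have ih := ih (j + 1) (by omega) (by push_cast at e; omega)
      have mo := h.sys.mono j w hw
      by_cases e' : v j = v (j + 1)
      · rw [e']; linarith
      by_contra hc
      have hc := lt_of_le_of_ne (not_lt.mp hc)
        ((h.sys.view j).ne _ (vX _) _ hw _ (rad j).1.add2).2.symm
      have a1 := sep j j (j + 1) _ (Or.inr rfl) hc (by linarith)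
      have a2 := med j (j + 1) j0 (by push_cast at e; omega)
        (by linarith [(rad j).2.1, (rad (j + 1)).2.2]) (by linarith)
      have a3 := ((hs.view j).vlt_iff_back (hv _) (hv _)).mp (hst j e')
      rw [a2] at a3
      exact (h.sys.view j).asymm (vX _) (vX _) a1
        (((h.sys.view j).vlt_iff_back (vX _) (vX _)).mpr a3)
  set u := promW v w (k + 2) with hu
  have ulo : ∀ {i : ℤ}, 0 ≤ i → i ≤ k → u i = v i := fun a b => prom_W_lo v w k a b
  have umid : u (k + 1) = w := prom_W_mid v w k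
  have uper : ∀ i, u (i + (k + 2 : ℕ)) = u i := prom_W_per v w (k + 2)
  have um1 : u (-1) = w := by rw [← uper, ← umid]; congr 1; push_cast; ring
  have uX : ∀ i : ℤ, 0 ≤ i → i < k + 2 → u i ∈ X := by
    intro i i0 i1
    rcases le_or_gt i k with h1 | h1
    · rw [ulo i0 h1]; exact vX i
    · rw [show i = k + 1 by omega, umid]; exact hw
  refine ⟨fun i hi => ?_, ?_⟩
  · obtain ⟨q, r, rfl, r0, r1⟩ := exists_divmod (K := (k + 2 : ℕ)) (by omega) i
    rw [show r + (k + 2 : ℕ) * q + 1 = r + 1 + (k + 2 : ℕ) * q by ring, per_int uper,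
      per_int uper] at hi ⊢
    push_cast at r1
    refine h.sys.vlt_per r q (uX r r0 r1) ?_
    rcases lt_trichotomy r k with h1 | rfl | h1
    · rw [ulo r0 h1.le, ulo (by omega) (by omega)] at hi ⊢
      exact vlt_congr (med r r r0 h1 (fwd r r0 h1.le) (bwd (k - r).toNat r r0 (by omega)))
        (hst r hi)
    · rw [ulo r0 le_rfl, umid]
      exact vlt_of_sees (rad k).1.add2 (((h.sys.view k).sees_iff (vX k) hw (rad k).1.add2).mpr
        ⟨by linarith [(rad k).2.2, sin.1], by linarith⟩)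
    · obtain rfl : r = k + 1 := by omega
      have : u (k + 1 + 1) = v 0 := by
        rw [← ulo le_rfl (by omega), ← uper 0]; congr 1; push_cast; ring
      rw [umid, this]
      exact ⟨_, (rad 0).1.add2.rev, by linarith [(rad 0).2.1, sout.2], by linarith⟩
  · set I : Pt → ℝ → ℤ := fun a l =>
      if l = Do then -1 else if l = Di + 2 * π then Lm else max (ι a l) 0 with hI
    set J : Pt → ℝ → ℤ := fun a l =>
      if l = Do then Lp else if l = Di + 2 * π then k + 1 else min (κ a l) k with hJ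
    have I1 : ∀ a, I a Do = -1 := fun a => by simp [hI]
    have J1 : ∀ a, J a Do = Lp := fun a => by simp [hJ]
    have I2 : ∀ a, I a (Di + 2 * π) = Lm := fun a => by
      simp only [hI]; rw [if_neg (by linarith)]; simp
    have J2 : ∀ a, J a (Di + 2 * π) = k + 1 := fun a => by
      simp only [hJ]; rw [if_neg (by linarith)]; simp
    have I3 : ∀ a l, Do < l → l < Di + 2 * π → I a l = max (ι a l) 0 := fun a l b1 b2 => by
      simp only [hI]; rw [if_neg b1.ne', if_neg b2.ne]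
    have J3 : ∀ a l, Do < l → l < Di + 2 * π → J a l = min (κ a l) k := fun a l b1 b2 => by
      simp only [hJ]; rw [if_neg b1.ne', if_neg b2.ne]
    refine fund_nec h.sys Do uper I J (-1) (fun a b l a' b' l' e e' c1 c2 c3 => ?_)
      fun a b l e c1 c2 => ?_
    · rcases h.tri e c1 (by linarith) with ⟨rfl, -⟩ | ⟨rfl, -⟩ | ⟨b1, b2⟩ <;>
        rcases h.tri e' (by linarith) c3 with ⟨rfl, -⟩ | ⟨rfl, -⟩ | ⟨b1', b2'⟩ <;>
        try (exfalso; linarith)
      · rw [J1, I2]; exact l1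
      · rw [J1, I3 _ _ b1' b2']; exact (l7 _ _ _ e' b1' b2').1
      · rw [I2, J3 _ _ b1 b2]; exact (l7 _ _ _ e b1 b2).2
      · have := hn.ord _ _ _ _ _ _ (h.mid e b1 b2).1 (h.mid e' b1' b2').1 c2
        rw [J3 _ _ b1 b2, I3 _ _ b1' b2']
        omega
    · rcases h.tri e c1 c2 with ⟨rfl, rfl, rfl⟩ | ⟨rfl, rfl, rfl⟩ | ⟨b1, b2⟩
      · rw [I1, J1, ulo l0 (by omega)]
        refine ⟨le_rfl, by push_cast; omega, um1, l3, by omega, fun j j1 j2 hj => ?_⟩
        rcases j1.eq_or_lt with rfl | j1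
        · exact sout
        · rw [ulo (by omega) (by omega), ulo (by omega) (by omega)] at hj
          exact ⟨by linarith [h.sys.le j1.le hw, sout.1], l5 j (by omega) j2 hj⟩
      · rw [I2, J2, ulo (by omega) l2]
        refine ⟨by omega, by push_cast; omega, l4, umid, by omega, fun j j1 j2 hj => ?_⟩
        refine ((h.sys.view _).sees_iff h.ein.ha hw h.ein.2.add2).mpr ?_
        rcases (show j ≤ k by omega).eq_or_lt with rfl | j3
        · exact ⟨by linarith [sin.1], by linarith [sin.2]⟩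
        · rw [ulo (by omega) (by omega), ulo (by omega) (by omega)] at hj
          exact ⟨by linarith [l6 j j1 j3 hj], by linarith [h.sys.le j3.le hw, sin.2]⟩
      · obtain ⟨m1, m2, m3, m4⟩ := mid_steps h hN hs hn e b1 b2
        rw [I3 _ _ b1 b2, J3 _ _ b1 b2, ulo (by omega) (by omega), ulo (by omega) (by omega)]
        refine ⟨by omega, by push_cast; omega, m2, m3, m4.le, fun j j1 j2 hj => ?_⟩
        rw [ulo (by omega) (by omega), ulo (by omega) (by omega)] at hj
        exact (m1 j (by omega) (by omega) hj).2.2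

end Pool.Agent.CT
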