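import Pool.Agent.Lib.MP_a7588a_co.Radial

/-! The promoted views form a system. -/

set_option autoImplicit false

namespace Pool.Agent.CT

open Real

/-- a view without transitivity -/
structure psysPre (Y : Finset Pt) (M : Pt → ℝ) : Prop where
  ne : ∀ a ∈ Y, ∀ b ∈ Y, ∀ l, Dir a b l → M a ≠ l ∧ M b ≠ l
  iff : ∀ a ∈ Y, ∀ b ∈ Y, ∀ l, Dir a b l → (M a < l ↔ M b < l)

namespace psysPre

variable {Y : Finset Pt} {M : Pt → ℝ} {a b : Pt}

theorem gt (h : psysPre Y M) (ha : a ∈ Y) (hb : b ∈ Y) {l : ℝ} (hl : Dir a b l)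
    (h1 : l < M a) : l < M b := by
  by_contra h2
  have := (h.iff a ha b hb l hl).mpr (lt_of_le_of_ne (not_lt.1 h2) (h.ne a ha b hb l hl).2)
  linarith

theorem asymm (h : psysPre Y M) (ha : a ∈ Y) (hb : b ∈ Y) (h1 : vlt M a b) : ¬ vlt M b a := by
  rintro ⟨m, hm, m1, m2⟩
  obtain ⟨l, hl, l1, l2⟩ := h1
  have e1 := (h.iff a ha b hb l hl).mp l1
  have e2 := (h.iff b hb a ha m hm).mp m1
  linarith [hl.rev'.gap hm (by linarith)]

theorem back (h : psysPre Y M) (ha : a ∈ Y) (hb : b ∈ Y) (h1 : InW b (M b - π) (M b) a) :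
    vlt M a b := by
  obtain ⟨m, hm, m1, m2⟩ := h1
  refine ⟨m + π, hm.rev, (h.iff a ha b hb _ hm.rev).mpr (by linarith), ?_⟩
  linarith [h.gt hb ha hm m2]

end psysPre

/-- the view `V` clamped to the window of the radial view `R` -/
noncomputable def psysMed (V R : Pt → ℝ) (y : Pt) : ℝ := min (max (V y) (R y)) (R y + 2 * π)

theorem psys_lo (V R : Pt → ℝ) (y : Pt) : R y ≤ psysMed V R y :=
  le_min (le_max_right _ _) (by linarith [pi_pos])

theorem psys_hi (V R : Pt → ℝ) (y : Pt) : psysMed V R y ≤ R y + 2 * π := min_le_right _ _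

theorem psys_pre {Y : Finset Pt} {V R : Pt → ℝ} (hV : IsView Y V) (hR : IsView Y R) :
    psysPre Y (psysMed V R) := by
  have hR' : IsView Y fun y => R y + 2 * π := hR.shift 1 fun x _ => by simp
  have key : ∀ (y : Pt) (l : ℝ), V y ≠ l → R y ≠ l → R y + 2 * π ≠ l → psysMed V R y ≠ l := by
    intro y l h1 h2 h3
    unfold psysMed
    rcases min_choice (max (V y) (R y)) (R y + 2 * π) with e | e <;> rw [e]
    · rcases max_choice (V y) (R y) with e | e <;> rw [e] <;> assumption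
    · exact h3
  refine ⟨fun a ha b hb l hl => ⟨key _ _ (hV.ne a ha b hb l hl).1 (hR.ne a ha b hb l hl).1
    (hR'.ne a ha b hb l hl).1, key _ _ (hV.ne a ha b hb l hl).2 (hR.ne a ha b hb l hl).2
    (hR'.ne a ha b hb l hl).2⟩, fun a ha b hb l hl => ?_⟩
  have e := hR'.iff a ha b hb l hl
  simp only [psysMed, min_lt_iff, max_lt_iff] at e ⊢
  rw [hV.iff a ha b hb l hl, hR.iff a ha b hb l hl, e]

theorem psys_med_view {X Y : Finset Pt} {V R : Pt → ℝ} {w : Pt} (hYX : Y ⊆ X) (hw : w ∈ X)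
    (hV : IsView X V) (hR : IsView Y R) (hd : ∀ a ∈ Y, Dir a w (R a))
    (hs : ∀ a ∈ Y, ∀ b ∈ Y, R a < R b + π) : IsView Y (psysMed V R) := by
  have hp := pi_pos
  have hP := psys_pre (hV.mono hYX) hR
  have eA : ∀ a ∈ Y, V w < R a → psysMed V R a = R a := fun a ha h => by
    have := (hV.iff a (hYX ha) w hw _ (hd a ha)).mpr h
    rw [psysMed, max_eq_right this.le, min_eq_left (by linarith)]
  have eC : ∀ a ∈ Y, R a + 2 * π < V w → psysMed V R a = R a + 2 * π := fun a ha h => by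
    have := (hV.iff' (hYX ha) hw (hd a ha).add2).mpr h
    rw [psysMed, max_eq_left (by linarith), min_eq_right this.le]
  have eB : ∀ a ∈ Y, ¬ V w < R a → ¬ R a + 2 * π < V w → psysMed V R a = V a :=
    fun a ha h h' => by
    have h1 := mt (hV.iff a (hYX ha) w hw _ (hd a ha)).mp h
    have h2 := mt (hV.iff' (hYX ha) hw (hd a ha).add2).mp h'
    rw [psysMed, max_eq_left (not_lt.1 h1), min_eq_left (not_lt.1 h2)]
  have hr : ∀ a ∈ Y, ∀ b ∈ Y, R b < R a → vlt R a b := fun a ha b hb h =>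
    (vlt_radial_iff (hd a ha) (hd b hb) (hs a ha b hb) (hs b hb a ha)).mpr h
  have lA : ∀ a ∈ Y, ∀ b ∈ Y, V w < R a → ¬ V w < R b → vlt (psysMed V R) a b :=
    fun a ha b hb h h' => vlt_congr (eA a ha h).symm (hr a ha b hb (by linarith [not_lt.1 h']))
  have lC : ∀ a ∈ Y, ∀ b ∈ Y, ¬ R a + 2 * π < V w → R b + 2 * π < V w →
      vlt (psysMed V R) a b := fun a ha b hb h h' => by
    obtain ⟨m, hm, m1, m2⟩ := (hR.vlt_iff_back ha hb).mp
      (hr a ha b hb (by linarith [not_lt.1 h]))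
    refine hP.back ha hb ⟨m + 2 * π, hm.add2, ?_, ?_⟩ <;> rw [eC b hb h'] <;> linarith
  refine ⟨hP.ne, hP.iff, fun a ha b hb d hd' h1 h2 => ?_⟩
  by_cases a1 : V w < R a
  · by_cases d1 : V w < R d
    · have b1 : V w < R b := by
        by_contra b1
        exact hP.asymm hb hd' h2 (lA d hd' b hb d1 b1)
      exact vlt_congr (eA a ha a1).symm
        (hR.trans a ha b hb d hd' (vlt_congr (eA a ha a1) h1) (vlt_congr (eA b hb b1) h2))
    · exact lA a ha d hd' a1 d1
  have b1 : ¬ V w < R b := fun b1 => hP.asymm ha hb h1 (lA b hb a ha b1 a1)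
  by_cases a2 : R a + 2 * π < V w
  · have b2 : R b + 2 * π < V w := by
      by_contra b2
      exact hP.asymm ha hb h1 (lC b hb a ha b2 a2)
    have hR' : IsView Y fun y => R y + 2 * π := hR.shift 1 fun x _ => by simp
    exact vlt_congr (eC a ha a2).symm
      (hR'.trans a ha b hb d hd' (vlt_congr (eC a ha a2) h1) (vlt_congr (eC b hb b2) h2))
  by_cases d2 : R d + 2 * π < V w
  · exact lC a ha d hd' a2 d2
  have b2 : ¬ R b + 2 * π < V w := fun b2 => hP.asymm hb hd' h2 (lC d hd' b hb d2 b2)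
  exact vlt_congr (eB a ha a1 a2).symm
    (hV.trans a (hYX ha) b (hYX hb) d (hYX hd') (vlt_congr (eB a ha a1 a2) h1)
      (vlt_congr (eB b hb b1 b2) h2))

theorem psys_eq (V : ℤ → Pt → ℝ) (R : Pt → ℝ) (K N : ℕ) {r : ℤ} (q : ℤ) (h0 : 0 ≤ r)
    (h1 : r < ((K - 2 + N : ℕ) : ℤ)) (x : Pt) :
    promV V R K N (r + ((K - 2 + N : ℕ) : ℤ) * q) x =
      (if r < (K : ℤ) - 2 then psysMed (V r) R x else R x + 2 * π) + q * (2 * π) := by
  unfold promV psysMed
  rw [emod_of q h0 h1, ediv_of q h0 h1, mul_comm (2 * π)]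

theorem psys_ok : PSysStmt := by
  classical
  intro X K N V w wm wp Di Do μ R h hN
  have hmem : ∀ a, a ∈ del1 X w ↔ a ≠ w ∧ a ∈ X := fun a => by
    unfold del1
    exact Finset.mem_erase
  have hYX : del1 X w ⊆ X := fun a ha => ((hmem a).1 ha).2
  have hw : w ∈ X := h.eout.ha
  have hrad := fun a (ha : a ∈ del1 X w) => h.rad a ((hmem a).1 ha).2 ((hmem a).1 ha).1
  have hd : ∀ a ∈ del1 X w, Dir a w (R a) := fun a ha => (hrad a ha).1
  have hs : ∀ a ∈ del1 X w, ∀ b ∈ del1 X w, R a < R b + π := fun a ha b hb => by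
    linarith [(hrad a ha).2.2, (hrad b hb).2.1, h.lt]
  have hR : IsView (del1 X w) R := radial_view (fun a ha b hb hab =>
    h.gp a (hYX ha) b (hYX hb) w hw hab ((hmem a).1 ha).1 ((hmem b).1 hb).1) hd hs
  have hK : (0 : ℤ) < ((K - 2 + N : ℕ) : ℤ) := by exact_mod_cast (by omega : 0 < K - 2 + N)
  have hp := pi_pos
  have lo : ∀ (r : ℤ) (x : Pt),
      R x ≤ if r < (K : ℤ) - 2 then psysMed (V r) R x else R x + 2 * π := fun r x => by
    split_ifs
    · exact psys_lo _ _ _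
    · linarith
  have hi : ∀ (r : ℤ) (x : Pt),
      (if r < (K : ℤ) - 2 then psysMed (V r) R x else R x + 2 * π) ≤ R x + 2 * π := fun r x => by
    split_ifs
    · exact psys_hi _ _ _
    · exact le_rfl
  refine ⟨fun j => ?_, fun j x hx => ?_, fun j x _ => ?_⟩
  · obtain ⟨q, r, rfl, h0, h1⟩ := exists_divmod hK j
    by_cases hr : r < (K : ℤ) - 2
    · exact (psys_med_view hYX hw (h.sys.view r) hR hd hs).shift q fun x _ => by
        rw [psys_eq V R K N q h0 h1, if_pos hr]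
    · exact hR.shift (q + 1) fun x _ => by
        rw [psys_eq V R K N q h0 h1, if_neg hr]
        push_cast
        ring
  · obtain ⟨q, r, rfl, h0, h1⟩ := exists_divmod hK j
    rw [psys_eq V R K N q h0 h1]
    rcases (Int.add_one_le_of_lt h1).eq_or_lt with e | e
    · rw [show r + ((K - 2 + N : ℕ) : ℤ) * q + 1 = 0 + ((K - 2 + N : ℕ) : ℤ) * (q + 1) by
        rw [mul_add, mul_one, ← e]; ring, psys_eq V R K N (q + 1) le_rfl hK, Int.cast_add,
        Int.cast_one]
      linarith [lo 0 x, hi r x]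
    · rw [show r + ((K - 2 + N : ℕ) : ℤ) * q + 1 = r + 1 + ((K - 2 + N : ℕ) : ℤ) * q by ring,
        psys_eq V R K N q (by omega) e]
      refine add_le_add ?_ le_rfl
      by_cases hr : r + 1 < (K : ℤ) - 2
      · rw [if_pos hr, if_pos (by omega)]
        exact min_le_min (max_le_max (h.sys.mono r x (hYX hx)) le_rfl) le_rfl
      · rw [if_neg hr]
        exact hi r x
  · obtain ⟨q, r, rfl, h0, h1⟩ := exists_divmod hK j
    rw [show r + ((K - 2 + N : ℕ) : ℤ) * q + ((K - 2 + N : ℕ) : ℤ) =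
      r + ((K - 2 + N : ℕ) : ℤ) * (q + 1) by ring, psys_eq V R K N q h0 h1,
      psys_eq V R K N (q + 1) h0 h1, Int.cast_add, Int.cast_one]
    ring

end Pool.Agent.CT
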