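import Pool.Agent.Lib.MP_a7588a_co.Radial

/-! The tight case: as many views as points, first set in convex position. -/

set_option autoImplicit false

namespace Pool.Agent.CT

open Real

theorem tight_sub {v : ℤ → Pt} {n : ℕ} {x y z : Pt} (h : List.Sublist [x, y, z] (win v 0 n)) :
    ∃ i j k : ℤ, i < j ∧ j < k ∧ k < i + n ∧ x = v i ∧ y = v j ∧ z = v k := by
  obtain ⟨l, hl, e⟩ := List.sublist_map_iff.1 h
  have hp : l.Pairwise (· < ·) := List.pairwise_lt_range.sublist hl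
  match l, e with
  | [i, j, k], e =>
    simp only [List.map_cons, List.map_nil, List.cons.injEq, and_true, zero_add] at e
    have hk : k < n := List.mem_range.1 (hl.subset (by simp))
    simp only [List.pairwise_cons, List.mem_cons, List.not_mem_nil, or_false, forall_eq_or_imp,
      forall_eq] at hp
    exact ⟨i, j, k, by omega, by omega, by omega, e.1, e.2.1, e.2.2⟩

theorem tight_map {n : ℕ} {h u : ℤ → Pt} (hi : ∀ i j, h i = h j → (n : ℤ) ∣ i - j)
    (hp : ∀ i, u (i + n) = u i) : ∃ φ : Pt → Pt, ∀ j, φ (h j) = u j := by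
  classical
  refine ⟨fun x => if hx : ∃ j, h j = x then u hx.choose else x, fun j => ?_⟩
  have hx : ∃ i, h i = h j := ⟨j, rfl⟩
  simp only [dif_pos hx]
  obtain ⟨q, hq⟩ := hi _ _ hx.choose_spec
  rw [← per_int hp j q]
  congr 1
  linarith

theorem tight_Y (hC : ConvStmt) (hW : WallStmt) (hN : NecStmt) (Y : Finset Pt)
    (V : ℤ → Pt → ℝ) (h2 : 2 ≤ Y.card) (hG : GP Y) (hS : Sys Y Y.card V) (hF : Feas Y Y.card V) :
    ∃ u : ℤ → Pt, FP Y Y.card V u ∧ Nec Y V u ∧ TriL (win u 0 Y.card) := by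
  classical
  rcases h2.eq_or_lt with h | h
  · have hcp : CP Y := by
      intro a ha _
      obtain ⟨x, y, hxy, e⟩ := Finset.card_eq_two.1 h.symm
      subst e
      simp only [Finset.mem_insert, Finset.mem_singleton] at ha
      rcases ha with rfl | rfl
      · refine ⟨y, by simp, by simp, hxy, fun z hz h1 h2 => ?_⟩
        simp only [Finset.mem_insert, Finset.mem_singleton] at hz
        tauto
      · refine ⟨x, by simp, by simp, hxy.symm, fun z hz h1 h2 => ?_⟩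
        simp only [Finset.mem_insert, Finset.mem_singleton] at hz
        tauto
    obtain ⟨u, D, -, h1, h3⟩ := (hC Y Y.card V hG h2 hS hF).2.2.2 hcp rfl
    refine ⟨u, h1, h3, ?_⟩
    rw [← h]
    exact ⟨u (0 + (0 : ℕ)), [], u (0 + (1 : ℕ)), rfl, Tri.nil _ _⟩
  · obtain ⟨u, h1, h3⟩ := hW Y V hG h hS hF
    exact ⟨u, h1, hN Y V u hG h h1 h3, h3⟩

theorem tight_ok (hSo : SortedStmt) (hC : ConvStmt) (hW : WallStmt) (hN : NecStmt) :
    TightStmt := by
  intro X Y VP VQ h2 hc gX gY cX sX sY fX fY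
  obtain ⟨h, D, hE, hF, hNec⟩ := (hC X X.card VP gX h2 sX fX).2.2.2 cX rfl
  obtain ⟨u, uF, uN, uT⟩ := tight_Y hC hW hN Y VQ (hc ▸ h2) gY (hc ▸ sY) (hc ▸ fY)
  have usurj : ∀ y ∈ Y, ∃ i, u i = y := fun y hy => uF.surj hy
  rw [← hc] at uF uT
  obtain ⟨φ, hφ⟩ := tight_map hF.inj uF.per
  obtain ⟨ψ, hψ⟩ := tight_map uF.inj hF.per
  obtain ⟨a, N, b, e, hT⟩ := uT
  obtain ⟨L, hL1, -, -, hL2⟩ := hT.exists_list
  rw [← e] at hL1 hL2
  have hsort := (hSo X X.card h D hE).2.2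
  refine ⟨φ, h, L.map fun t => (ψ t.1, ψ t.2.1, ψ t.2.2), ⟨fun x hx => ?_, fun x hx y hy exy => ?_,
    fun y hy => ?_⟩, hF.mem, hF.per, fun i _ => hF.step i, fun i _ => ?_, fun t ht => ?_,
    fun f hf => ?_, fun x hx => Or.inl (hF.surj hx), hNec, ?_⟩
  · obtain ⟨i, rfl⟩ := hF.surj hx
    rw [hφ]
    exact uF.mem i
  · obtain ⟨i, rfl⟩ := hF.surj hx
    obtain ⟨j, rfl⟩ := hF.surj hy
    rw [hφ, hφ] at exy
    rw [← hψ, ← hψ, exy]
  · obtain ⟨i, rfl⟩ := usurj y hy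
    exact ⟨h i, hF.mem i, hφ i⟩
  · rw [hφ, hφ]
    exact uF.step i
  · obtain ⟨s, hs, rfl⟩ := List.mem_map.1 ht
    obtain ⟨h1, h3⟩ := hL1 s hs
    obtain ⟨i, j, k, hij, hjk, hki, e1, e2, e3⟩ := tight_sub h1
    rw [e1, e2, e3] at h3
    simp only [e1, e2, e3, hψ, hφ]
    exact ⟨hF.mem i, hF.mem j, hF.mem k, hsort i j k hij hjk hki, h3⟩
  · have h1 := hL2 (fun x y => f (ψ x) (ψ y)) fun x y => hf _ _
    rw [csum_win _ uF.per] at h1
    simp only [hψ, zero_add] at h1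
    rw [List.map_map, ← h1]
    rfl
  · have : (fun i => φ (h i)) = u := funext hφ
    rw [this]
    exact uN

end Pool.Agent.CT
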