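import Pool.Agent.Lib.MP_a7588a_co.Radial

/-! Block TOP: adding the outer layer of triangles. -/

set_option autoImplicit false

namespace Pool.Agent.CT

open Real

section

variable {S : Finset Pt} {n : ℕ} {h : ℤ → Pt} {D : ℤ → ℝ}

theorem top_hv (e : HullEnum S n h D) {p : Pt} : IsHV S p ↔ ∃ i, h i = p := by
  refine ⟨fun ⟨b, hb⟩ => ?_, fun ⟨i, hi⟩ => ⟨_, hi ▸ (e.le i).1⟩⟩
  obtain ⟨l, hl, -⟩ := hb.exists_le 0
  obtain ⟨i, hi, -⟩ := e.all _ _ _ hl
  exact ⟨i, hi⟩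

theorem top_inner (e : HullEnum S n h D) {p : Pt} : p ∈ inner S ↔ p ∈ S ∧ ∀ i, h i ≠ p := by
  simp only [inner, Finset.mem_filter, top_hv e, not_exists]

theorem top_three (e : HullEnum S n h D) (h3 : 3 ≤ S.card) : 3 ≤ n := by
  by_contra hn
  have hn : n < 3 := by omega
  interval_cases n
  · have := e.perD 0
    simp only [Nat.cast_zero, add_zero] at this
    linarith [pi_pos]
  · exact (e.le 0).ne (by simpa using (e.perh 0).symm)
  · exact (e.le 0).1.next_ne (e.le (0 + 1)).1 h3 (by simpa using e.perh 0)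

theorem top_pos (e : HullEnum S n h D) {y : Pt} (hy : y ∈ inner S) (i : ℤ) :
    0 < ori (h i) (h (i + 1)) y := by
  obtain ⟨h1, h2⟩ := (top_inner e).1 hy
  exact (e.le i).1.2.2.2 y h1 (h2 _).symm (h2 _).symm

theorem top_red (e : HullEnum S n h D) (hn : 0 < n) (i : ℤ) : ∃ r : ℕ, r < n ∧ h r = h i := by
  obtain ⟨q, r, e1, r0, r1⟩ := exists_divmod (K := n) (by omega) i
  lift r to ℕ using r0
  exact ⟨r, by omega, by rw [e1, per_int e.perh]⟩

end

theorem top_sub {h : ℤ → Pt} {n : ℕ} {x y z : Pt} (hs : List.Sublist [x, y, z] (win h 0 n)) :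
    ∃ i j k : ℤ, i < j ∧ j < k ∧ k < i + n ∧ x = h i ∧ y = h j ∧ z = h k := by
  obtain ⟨l, hl, e⟩ := List.sublist_map_iff.1 hs
  have hp := List.pairwise_lt_range.sublist hl
  have hm : ∀ a ∈ l, a < n := fun a ha => List.mem_range.1 (hl.subset ha)
  match l, e, hp, hm with
  | [a, b, c], e, hp, hm =>
    simp only [List.map_cons, List.map_nil, List.cons.injEq, and_true] at e
    simp only [List.pairwise_cons, List.mem_cons, forall_eq_or_imp] at hp
    have := hm c (by simp)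
    exact ⟨0 + a, 0 + b, 0 + c, by omega, by omega, by omega, e.1, e.2.1, e.2.2⟩

theorem top_list (K : ℕ) (t : ℕ → T3) (P : ℕ → Prop) : ∃ L : List T3,
    (∀ s ∈ L, ∃ j, P j ∧ s = t j) ∧ (∀ j < K, P j → t j ∈ L) ∧
    ∀ g : T3 → ℝ, (∀ j, ¬ P j → g (t j) = 0) →
      (L.map g).sum = ∑ j ∈ Finset.range K, g (t j) := by
  induction K with
  | zero => exact ⟨[], by simp, by simp, by simp⟩
  | succ K ih =>
    obtain ⟨L, a, b, c⟩ := ih
    by_cases hP : P K
    · refine ⟨t K :: L, fun s hs => ?_, fun j hj pj => ?_, fun g hg => ?_⟩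
      · rcases List.mem_cons.1 hs with rfl | hs
        exacts [⟨K, hP, rfl⟩, a s hs]
      · rcases Nat.lt_succ_iff_lt_or_eq.1 hj with h | rfl
        exacts [List.mem_cons_of_mem _ (b j h pj), List.mem_cons_self]
      · rw [List.map_cons, List.sum_cons, c g hg, Finset.sum_range_succ, add_comm]
    · refine ⟨L, a, fun j hj pj => ?_, fun g hg => ?_⟩
      · rcases Nat.lt_succ_iff_lt_or_eq.1 hj with h | rfl
        exacts [b j h pj, absurd pj hP]
      · rw [c g hg, Finset.sum_range_succ, hg K hP, add_zero]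

theorem top_tel {f : Pt → Pt → ℝ} (hf : Anti f) (h v : ℤ → Pt) {M : ℕ} (n : ℕ) :
    ∑ j ∈ Finset.range (M * n),
        (f (v j) (h ((j : ℤ) / M)) + f (h ((j : ℤ) / M)) (v ((j : ℤ) + 1))) +
      ∑ i ∈ Finset.range n, (f (h ((i : ℤ) + 1)) (v (M * ((i : ℤ) + 1))) +
        f (v (M * ((i : ℤ) + 1))) (h i)) = f (h n) (v (M * n)) - f (h 0) (v 0) := by
  induction n with
  | zero => simp
  | succ n ih =>
    have blk : ∑ r ∈ Finset.range M, (f (v (M * n + r : ℕ)) (h (((M * n + r : ℕ) : ℤ) / M)) +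
        f (h (((M * n + r : ℕ) : ℤ) / M)) (v (((M * n + r : ℕ) : ℤ) + 1))) =
        f (h n) (v (M * n + M)) - f (h n) (v (M * n)) := by
      have := Finset.sum_range_sub (fun r : ℕ => f (h n) (v (M * n + r))) M
      simp only [Nat.cast_zero, add_zero] at this
      rw [← this]
      refine Finset.sum_congr rfl fun r hr => ?_
      have hr := Finset.mem_range.1 hr
      have e : ((M * n + r : ℕ) : ℤ) / M = n := by
        push_cast
        rw [add_comm]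
        exact ediv_of _ (by omega) (by omega)
      rw [e, hf (v _)]
      push_cast
      rw [add_assoc]
      ring
    rw [Nat.mul_succ, Finset.sum_range_add, Finset.sum_range_succ _ n, blk, hf (v _) (h n)]
    push_cast
    rw [show (M : ℤ) * n + M = M * (n + 1) by ring]
    linarith

theorem top_phi (hs : SortedStmt) {S₁ S₂ : Finset Pt} {n : ℕ} {h₁ h₂ : ℤ → Pt} {D₁ D₂ : ℤ → ℝ}
    (e₁ : HullEnum S₁ n h₁ D₁) (e₂ : HullEnum S₂ n h₂ D₂) {φ' : Pt → Pt}
    (hb : Set.BijOn φ' (inner S₁ : Set Pt) (inner S₂ : Set Pt)) :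
    ∃ φ : Pt → Pt, Set.BijOn φ (S₁ : Set Pt) (S₂ : Set Pt) ∧ (∀ i, φ (h₁ i) = h₂ i) ∧
      ∀ p ∈ inner S₁, φ p = φ' p := by
  classical
  have tr : ∀ {S S' : Finset Pt} {h h' : ℤ → Pt} {D D' : ℤ → ℝ}, HullEnum S n h D →
      HullEnum S' n h' D' → ∀ i j, h i = h j → h' i = h' j := by
    intro S S' h h' D D' e e' i j hij
    obtain ⟨c, hc⟩ := (hs _ _ _ _ e).1 i j hij
    rw [show i = j + n * c by omega, per_int e'.perh]
  let φ : Pt → Pt := fun p => if hp : ∃ i, h₁ i = p then h₂ hp.choose else φ' p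
  have a1 : ∀ i, φ (h₁ i) = h₂ i := fun i => by
    have hp : ∃ j, h₁ j = h₁ i := ⟨i, rfl⟩
    simp only [φ, dif_pos hp]
    exact tr e₁ e₂ _ _ hp.choose_spec
  have a2 : ∀ p ∈ inner S₁, φ p = φ' p := fun p hp => by
    simp only [φ, dif_neg (not_exists.2 ((top_inner e₁).1 hp).2)]
  have cs : ∀ {S : Finset Pt} {h : ℤ → Pt} {D : ℤ → ℝ}, HullEnum S n h D → ∀ p ∈ S,
      (∃ i, h i = p) ∨ p ∈ inner S := fun e p hp =>
    or_iff_not_imp_left.2 fun k => (top_inner e).2 ⟨hp, not_exists.1 k⟩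
  have a3 : ∀ p ∈ inner S₁, φ p ∈ inner S₂ := fun p hp => a2 p hp ▸ hb.mapsTo hp
  refine ⟨φ, ⟨fun p hp => ?_, fun p hp q hq e => ?_, fun y hy => ?_⟩, a1, a2⟩
  · rcases cs e₁ p hp with ⟨i, rfl⟩ | k
    · rw [a1]; exact (e₂.le i).ha
    · exact ((top_inner e₂).1 (a3 p k)).1
  · rcases cs e₁ p hp with ⟨i, rfl⟩ | k <;> rcases cs e₁ q hq with ⟨j, rfl⟩ | k'
    · rw [a1, a1] at e
      exact tr e₂ e₁ _ _ e
    · exact absurd ((a1 i).symm.trans e) (((top_inner e₂).1 (a3 q k')).2 i)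
    · exact absurd ((a1 j).symm.trans e.symm) (((top_inner e₂).1 (a3 p k)).2 j)
    · rw [a2 p k, a2 q k'] at e
      exact hb.injOn k k' e
  · rcases cs e₂ y hy with ⟨i, rfl⟩ | k
    · exact ⟨h₁ i, (e₁.le i).ha, a1 i⟩
    · obtain ⟨p, hp, rfl⟩ := hb.surjOn k
      exact ⟨p, ((top_inner e₁).1 hp).1, a2 p hp⟩

theorem top_ok : SortedStmt → TopSysStmt → TopStmt := by
  intro hs ht S₁ S₂ n h₁ h₂ D₁ D₂ g₁ g₂ c₁ c₂ e₁ e₂ ci hyp
  have n3 := top_three e₁ c₁
  have cs : ∀ p ∈ S₁, (∃ r : ℕ, r < n ∧ h₁ r = p) ∨ p ∈ inner S₁ := fun p hp =>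
    or_iff_not_imp_right.2 fun k => by
      obtain ⟨i, hi⟩ : ∃ i, h₁ i = p := by
        by_contra k'
        exact k ((top_inner e₁).2 ⟨hp, not_exists.1 k'⟩)
      exact hi ▸ top_red e₁ (by omega) i
  rcases (inner S₁).eq_empty_or_nonempty with h0 | h0
  · have h0' : inner S₂ = ∅ := by rw [← Finset.card_eq_zero, ← ci, h0, Finset.card_empty]
    obtain ⟨φ, p1, p2, -⟩ := top_phi hs e₁ e₂ (φ' := id) (by simp [h0, h0'])
    obtain ⟨m, rfl⟩ := Nat.exists_eq_add_of_le' n3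
    have ew : win h₁ 0 (m + 3) =
        h₁ 0 :: (win h₁ (0 + 1) (m + 1) ++ [h₁ (0 + 1 + (m + 1 : ℕ))]) := by
      rw [win_succ', win_succ]
    obtain ⟨L, l1, l2, l3, l4⟩ := Tri.exists_list (tri_of_sorted (a := h₁ 0)
      (N := win h₁ (0 + 1) (m + 1)) (b := h₁ (0 + 1 + (m + 1 : ℕ))) fun x y z hxyz => by
        obtain ⟨i, j, k, a1, a2, a3, rfl, rfl, rfl⟩ := top_sub (ew ▸ hxyz)
        exact (hs _ _ _ _ e₁).2.2 i j k a1 a2 a3)
    rw [← ew] at l1 l4
    refine ⟨φ, L, p1, p2, fun t ht => ?_, fun f hf => ?_, fun x hx => ?_⟩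
    · obtain ⟨i, j, k, a1, a2, a3, b1, b2, b3⟩ := top_sub (l1 t ht).1
      refine ⟨b1 ▸ (e₁.le i).ha, b2 ▸ (e₁.le j).ha, b3 ▸ (e₁.le k).ha, (l1 t ht).2, ?_⟩
      rw [b1, b2, b3, p2, p2, p2]
      exact (hs _ _ _ _ e₂).2.2 i j k a1 a2 a3
    · rw [l4 f hf, csum_win f e₁.perh]
      simp only [zero_add]
    · obtain ⟨r, hr, rfl⟩ := (cs x hx).resolve_right (by simp [h0])
      have hm : h₁ r ∈ win h₁ 0 (m + 3) := mem_win.2 ⟨r, by omega, by omega, rfl⟩
      obtain ⟨l5, l6⟩ := l3 (by rw [win_succ]; simp)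
      rw [ew, List.mem_cons, List.mem_append, List.mem_singleton] at hm
      rcases hm with k | k | k
      exacts [k ▸ l5, l2 _ k, k ▸ l6]
  obtain ⟨M, hM⟩ : ∃ M, M = (inner S₁).card := ⟨_, rfl⟩
  have M0 : 0 < M := hM ▸ h0.card_pos
  obtain ⟨V₁, s₁, f₁, o₁⟩ := ht S₁ n h₁ D₁ M g₁ c₁ e₁ M0 hM.ge
  obtain ⟨V₂, s₂, f₂, o₂⟩ := ht S₂ n h₂ D₂ M g₂ (c₂ ▸ c₁) e₂ M0 (ci ▸ hM.ge)
  obtain ⟨φ', v, L, so⟩ := hyp _ V₁ V₂ h0 s₁ s₂ f₁ f₂
  obtain ⟨φ, p1, p2, p3⟩ := top_phi hs e₁ e₂ so.bij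
  obtain ⟨A, a1, a2, a3⟩ := top_list (M * n)
    (fun j => (v j, h₁ ((j : ℤ) / M), v ((j : ℤ) + 1))) fun j => v j ≠ v ((j : ℤ) + 1)
  obtain ⟨B, b1, b2, b3⟩ := top_list n
    (fun i => (h₁ i, h₁ ((i : ℤ) + 1), v (M * ((i : ℤ) + 1)))) fun _ => True
  have sub : ∀ p ∈ inner S₁, p ∈ S₁ := fun p hp => ((top_inner e₁).1 hp).1
  refine ⟨φ, L ++ (A ++ B), p1, p2, fun t ht => ?_, fun f hf => ?_, fun x hx => ?_⟩
  · rcases List.mem_append.1 ht with k | k
    · obtain ⟨k1, k2, k3, k4, k5⟩ := so.pos t k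
      exact ⟨sub _ k1, sub _ k2, sub _ k3, k4, by rwa [p3 _ k1, p3 _ k2, p3 _ k3]⟩
    rcases List.mem_append.1 k with k | k
    · obtain ⟨j, k1, rfl⟩ := a1 t k
      refine ⟨sub _ (so.mem _), (e₁.le _).ha, sub _ (so.mem _),
        o₁ _ _ (so.mem _) _ (so.mem _) (so.stepP _ k1), ?_⟩
      simp only [p2, p3 _ (so.mem _)]
      exact o₂ _ _ (so.bij.mapsTo (so.mem _)) _ (so.bij.mapsTo (so.mem _)) (so.stepQ _ k1)
    · obtain ⟨i, -, rfl⟩ := b1 t k
      refine ⟨(e₁.le _).ha, (e₁.le _).ha, sub _ (so.mem _), top_pos e₁ (so.mem _) _, ?_⟩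
      simp only [p2, p3 _ (so.mem _)]
      exact top_pos e₂ (so.bij.mapsTo (so.mem _)) _
  · have t1 := top_tel hf h₁ v (M := M) n
    have t2 : h₁ n = h₁ 0 := by simpa using e₁.perh 0
    have t3 : v (M * n) = v 0 := by simpa using so.per 0
    have t4 : ∑ j ∈ Finset.range (M * n), f (v ((j : ℤ) + 1)) (v j) =
        -∑ j ∈ Finset.range (M * n), f (v j) (v ((j : ℤ) + 1)) := by
      rw [← Finset.sum_neg_distrib]
      exact Finset.sum_congr rfl fun j _ => hf _ _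
    rw [t2, t3, sub_self, Finset.sum_add_distrib, Finset.sum_add_distrib] at t1
    rw [List.map_append, List.map_append, List.sum_append, List.sum_append, so.bdry f hf,
      a3 _ fun j hj => ?_, b3 _ fun _ hj => absurd trivial hj]
    · simp only [bd, Finset.sum_add_distrib]
      linarith
    · simp only [bd, ← not_not.1 hj, hf.self]
      linarith [hf (v j) (h₁ ((j : ℤ) / M))]
  · have inB : ∀ i < n, ∀ y, T3.mem y (h₁ i, h₁ ((i : ℤ) + 1), v (M * ((i : ℤ) + 1))) →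
        ∃ t ∈ L ++ (A ++ B), T3.mem y t := fun i hi y hy =>
      ⟨_, List.mem_append_right _ (List.mem_append_right _ (b2 i hi trivial)), hy⟩
    rcases cs x hx with ⟨r, hr, rfl⟩ | k
    · exact inB r hr _ (Or.inl rfl)
    rcases so.used x k with ⟨j, rfl⟩ | ⟨t, k1, k2⟩
    swap
    · exact ⟨t, List.mem_append_left _ k1, k2⟩
    have key : ∀ d r : ℕ, r + d = M * n → ∃ t ∈ L ++ (A ++ B), T3.mem (v r) t := by
      intro d
      induction d with
      | zero =>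
        intro r hr
        refine inB (n - 1) (by omega) _ (Or.inr (Or.inr ?_))
        rw [add_zero] at hr
        rw [hr, Nat.cast_sub (by omega)]
        simp
      | succ d ih =>
        intro r hr
        by_cases k : v r = v ((r : ℤ) + 1)
        · rw [k]
          exact_mod_cast ih (r + 1) (by omega)
        · exact ⟨_, List.mem_append_right _ (List.mem_append_left _ (a2 r (by omega) k)),
            Or.inl rfl⟩
    have Mn : 0 < M * n := Nat.mul_pos M0 (by omega)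
    obtain ⟨q, r, e1, r0, r1⟩ := exists_divmod (K := (M * n : ℕ)) (by omega) j
    lift r to ℕ using r0
    rw [e1, per_int so.per]
    exact key (M * n - r) r (by omega)

end Pool.Agent.CT
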