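import Pool.Agent.Lib.MP_a7588a_co.Radial

/-! The views from the hull vertices form a feasible system on the inner points. -/

set_option autoImplicit false

namespace Pool.Agent.CT

open Real

theorem topsys_index {f : ℤ → ℝ} {n : ℕ} (hm : Monotone f) (hp : ∀ i, f (i + n) = f i + 2 * π)
    (l : ℝ) : ∃ i, f i < l ∧ l ≤ f (i + 1) := by
  have hq : ∀ q : ℤ, f (n * q) = f 0 + q * (2 * π) := by
    intro q
    induction q using Int.induction_on with
    | zero => simp
    | succ q ih => rw [mul_add, mul_one, hp, ih]; push_cast; ring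
    | pred q ih =>
      have := hp (n * (-(q : ℤ) - 1))
      rw [show (n : ℤ) * (-(q : ℤ) - 1) + n = n * -(q : ℤ) by ring, ih] at this
      push_cast at this ⊢
      linarith
  have h2 : 0 < 2 * π := by linarith [pi_pos]
  obtain ⟨q, hq1⟩ := exists_int_gt ((l - f 0) / (2 * π))
  obtain ⟨q', hq2⟩ := exists_int_lt ((l - f 0) / (2 * π))
  rw [div_lt_iff₀ h2] at hq1
  rw [lt_div_iff₀ h2] at hq2
  obtain ⟨i, h1, h3⟩ := Int.exists_greatest_of_bdd (P := fun i => f i < l)
    ⟨n * q, fun z hz => by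
      by_contra hc
      have := hm (not_le.1 hc).le
      rw [hq] at this
      linarith⟩ ⟨n * q', by rw [hq]; linarith⟩
  refine ⟨i, h1, not_lt.1 fun hc => ?_⟩
  have := h3 _ hc
  omega

theorem topsys_ok : SortedStmt → TopSysStmt := by
  intro hS S n h D M hG _ hE hM hc
  classical
  have hp := pi_pos
  have hD := (hS S n h D hE).2.1
  have hin : ∀ y ∈ inner S, y ∈ S ∧ ∀ i, y ≠ h i := fun y hy => by
    obtain ⟨h1, h2⟩ := Finset.mem_filter.1 hy
    exact ⟨h1, fun i e => h2 ⟨_, e ▸ (hE.le i).1⟩⟩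
  have hori : ∀ y ∈ inner S, ∀ i, 0 < ori (h i) (h (i + 1)) y := fun y hy i =>
    (hE.le i).1.2.2.2 y (hin y hy).1 ((hin y hy).2 _) ((hin y hy).2 _)
  have hex : ∀ (i : ℤ) (y : Pt), ∃ w : ℝ, y ∈ inner S →
      Dir y (h i) w ∧ D i - π < w ∧ w < D i := by
    intro i y
    by_cases hy : y ∈ inner S
    · obtain ⟨m, hm, m1, m2⟩ := exists_dir_pos (hori y hy i) (hE.le i).2
      exact ⟨m - π, fun _ => ⟨hm.rev', by linarith, by linarith⟩⟩
    · exact ⟨0, fun h => (hy h).elim⟩
  choose W hW using hex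
  have hper : ∀ y ∈ inner S, ∀ i, W (i + n) y = W i y + 2 * π := fun y hy i => by
    obtain ⟨a1, a2, a3⟩ := hW i y hy
    obtain ⟨b1, b2, b3⟩ := hW (i + n) y hy
    rw [hE.perh] at b1
    rw [hE.perD] at b2 b3
    exact b1.eq_of a1.add2 (by linarith) (by linarith)
  have hstep : ∀ y ∈ inner S, ∀ i, W i y < W (i + 1) y ∧ W (i + 1) y < W i y + π := by
    intro y hy i
    obtain ⟨a1, a2, a3⟩ := hW i y hy
    obtain ⟨b1, b2, b3⟩ := hW (i + 1) y hy
    obtain ⟨m, hm, m1, m2⟩ := exists_dir_pos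
      (show 0 < ori y (h i) (h (i + 1)) by rw [ori_cyc]; exact hori y hy i) a1
    have h1 := hD i
    have h2 := hE.mono (lt_add_one i)
    rw [← hm.eq_of b1 (by linarith) (by linarith)]
    exact ⟨m1, m2⟩
  have hmono : ∀ y ∈ inner S, Monotone fun i => W i y := fun y hy =>
    monotone_int_of_le_succ fun i => (hstep y hy i).1.le
  have hview : ∀ i, IsView (inner S) (W i) := fun i =>
    radial_view (w := h i) (fun a ha b hb hab => hG a (hin a ha).1 b (hin b hb).1 _ (hE.le i).ha
      hab ((hin a ha).2 i) ((hin b hb).2 i)) (fun a ha => (hW i a ha).1)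
      fun a ha b hb => by linarith [(hW i a ha).2.2, (hW i b hb).2.1]
  have hM' : (0 : ℤ) < M := by exact_mod_cast hM
  have hix : ∀ (a : Pt) (l : ℝ), ∃ i, a ∈ inner S → W i a < l ∧ l ≤ W (i + 1) a := by
    intro a l
    by_cases ha : a ∈ inner S
    · obtain ⟨i, hi⟩ := topsys_index (hmono a ha) (hper a ha) l
      exact ⟨i, fun _ => hi⟩
    · exact ⟨0, fun h => (ha h).elim⟩
  choose ix hix using hix
  have hle : ∀ a ∈ inner S, ∀ l j, W j a < l → j ≤ ix a l := fun a ha l j hj => by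
    by_contra hc
    have : W (ix a l + 1) a ≤ W j a := hmono a ha (by omega)
    linarith [(hix a l ha).2]
  have hsee : ∀ a ∈ inner S, ∀ l, Sees (W (ix a l)) a l := fun a ha l =>
    ⟨by linarith [(hix a l ha).2, (hstep a ha (ix a l)).2], (hix a l ha).1⟩
  have hrk : ∀ a ∈ inner S, ∀ i, (rk (inner S) (W i) a : ℤ) < M := fun a ha i => by
    exact_mod_cast (rk_lt_card ha).trans_le hc
  refine ⟨fun j => W (j / M), ⟨fun j => hview _, fun j x hx => ?_, fun j x hx => ?_⟩,
    ⟨fun a l => rk (inner S) (W (ix a l)) a + M * ix a l, fun a b l hl => ?_,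
      fun a b l a' b' l' hl hl' hlt => ?_, fun a b l hl => ?_⟩, fun j a ha b _ hv => ?_⟩
  · exact hmono x hx (Int.ediv_le_ediv hM' (by omega))
  · rw [Nat.cast_mul, Int.add_mul_ediv_left _ _ hM'.ne', hper x hx]
  · have e : ix a (l + 2 * π) = ix a l + n := by
      have h1 := hle a hl.ha (l + 2 * π) (ix a l + n) (by
        rw [hper a hl.ha]; linarith [(hix a l hl.ha).1])
      have h2 := hle a hl.ha l (ix a (l + 2 * π) - n) (by
        have := hper a hl.ha (ix a (l + 2 * π) - n)
        rw [sub_add_cancel] at this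
        linarith [(hix a (l + 2 * π) hl.ha).1])
      omega
    rw [e, rk_shift (V := W (ix a l)) 1 fun x hx => by rw [hper x hx]; simp]
    push_cast
    ring
  · have h1 := hle a' hl'.ha l' _ (alive_mono (hview _) hl hl' hlt.le (hix a l hl.ha).1)
    rcases h1.eq_or_lt with e | h2
    · have h3 := rk_lt (hview _) hl.ha hl'.ha
        (vlt_of_sees_lt (hview _) hl hl' hlt (hsee a hl.ha l) (e ▸ hsee a' hl'.ha l'))
      rw [← e]
      omega
    · have h3 := hrk a hl.ha (ix a l)
      have h4 : (M : ℤ) * (ix a l + 1) ≤ M * ix a' l' := mul_le_mul_of_nonneg_left h2 hM'.le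
      rw [mul_add] at h4
      omega
  · rw [ediv_of _ (by omega) (hrk a hl.ha _)]
    exact hsee a hl.ha l
  · exact vlt_radial_ori (hW _ a ha).1 hv

end Pool.Agent.CT
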