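import Pool.Agent.Lib.MP_a7588a_co.Slot

/-! Moving the views back to their positions: the wall descent. -/

set_option autoImplicit false

namespace Pool.Agent.CT

open Real

variable {X : Finset Pt}

theorem dir_psum {y : Pt} (hg : Gen y X) {a u : Pt} {L B : List Pt} (e : a :: L = B ++ [u])
    (hm : ∀ x ∈ a :: L, x ∈ X ∧ x ≠ y) {l : ℝ} (hl : Dir y a l) :
    Dir y u (l + psum (del y) (a :: L)) := by
  induction L generalizing a B l with
  | nil =>
    obtain rfl : a = u := by
      simpa using (List.append_inj' (show [] ++ [a] = B ++ [u] from e) rfl).2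
    simpa using hl
  | cons b L ih =>
    cases B with
    | nil => simp at e
    | cons c B =>
      simp only [List.cons_append, List.cons.injEq] at e
      have := ih e.2 (fun x hx => hm x (List.mem_cons_of_mem _ hx))
        (hg.del_dir (hm a (by simp)).1 (hm b (by simp)).1 (hm b (by simp)).2 hl)
      rw [psum_cons2]
      exact this.congr (by ring)

theorem dir_cang {y : Pt} (hg : Gen y X) {w u : Pt} {T C B : List Pt} (ew : T = w :: C)
    (eu : T = B ++ [u]) (hm : ∀ x ∈ T, x ∈ X ∧ x ≠ y) {l : ℝ} (hl : Dir y w l) :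
    Dir y u (l + cang y (y :: T)) := by
  have h1 : cang y (y :: T) = psum (del y) (w :: C) := by
    unfold cang
    rw [csum_cons, ew, List.cons_append, psum_cons2, ← List.cons_append, ← ew, eu,
      List.append_assoc, List.singleton_append, psum_append]
    simp
  rw [h1]
  exact dir_psum hg (ew ▸ eu) (ew ▸ hm) hl

theorem geo_back (hX : GP X) {r v u : Pt} {M B : List Pt} {S : List Seg} (hG : Geo r v M S)
    (hall : All X (r :: v :: (M ++ flat S))) (eu : M ++ flat S = B ++ [u])
    (hlw : ∀ g ∈ v :: (M ++ flat S), cang g (v :: (M ++ flat S)) < 2 * π)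
    (hc : lst r S = u ∨ 0 < ori v (lst r S) u) :
    ∃ M' S', Geo r u (v :: M') S' ∧ M' ++ flat S' = B := by
  have hpi := pi_pos
  by_cases hdeg : lst r S = u
  · obtain ⟨S1, -, e1, h⟩ := hG.deg hall.1 eu hdeg
    exact ⟨M, S1, h, e1⟩
  have ho := hc.resolve_left hdeg
  have hm := hall.mem
  have hv : v ∈ X := hm v (by simp)
  have hu : u ∈ X := hm u (by rw [eu]; simp)
  obtain ⟨w, C, ew⟩ := exists_cons B u
  rw [← eu] at ew
  obtain ⟨T1, T2, t1, t2, t3, t4, t5⟩ := (hG.ang hX hm ew eu).resolve_left hdeg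
  have hT : ∀ x ∈ M ++ flat S, x ∈ X ∧ x ≠ v := fun x hx =>
    ⟨hm x (by simp only [List.mem_cons]; tauto), by
      rintro rfl; exact (List.nodup_cons.mp hall.1.of_cons).1 hx⟩
  obtain ⟨lw, dw⟩ := dir_exists (hT w (by rw [ew]; simp)).2.symm
  have b1 := hlw v (by simp)
  have d1 := t4 _ dw
  have d2 := t5 _ d1
  have d3 := dir_cang (hX.gen hv) ew eu hT dw
  have e1 := d2.eq_of d3 (by linarith) (by linarith)
  have e2 := pos_hi ho d1 d2 (by linarith)
  obtain ⟨M', S', hP, e3, -⟩ := refan hX hG hm (u := u) (S0 := []) (B := B) eu hdeg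
    (L0 := lw + T1 - 2 * π + (T2 - π) / 2) (U1 := lw + T1 - 2 * π + (T2 - π) / 2 + π) le_rfl hu
    ⟨_, d2.sub2, by linarith, by linarith⟩ ⟨trivial, trivial, trivial, by simp⟩
    (by simp) ew dw d1.sub2 (by linarith) (by linarith) (by linarith) (fun x hx => by
      have := hlw x (by simp [fsts_sub S x hx])
      rw [eu] at this; simpa using this)
  exact ⟨M', S', hP.slide, by simpa using e3⟩

theorem geo_cond (hX : GP X) {r v u w : Pt} {M B C : List Pt} {S : List Seg} (hG : Geo r v M S)
    (hm : ∀ x ∈ r :: v :: (M ++ flat S), x ∈ X) (ew : M ++ flat S = w :: C)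
    (eu : M ++ flat S = B ++ [u]) (hlw : cang v (v :: (M ++ flat S)) < 2 * π)
    (ho : 0 < ori u v w) : lst r S = u ∨ 0 < ori v (lst r S) u := by
  rcases hG.ang hX hm ew eu with h | ⟨T1, T2, t1, t2, t3, t4, t5⟩
  · exact Or.inl h
  right
  rw [ori_cyc] at ho
  obtain ⟨lw, dw⟩ := dir_exists (ne_of_ori ho.ne').1
  have d1 := t4 _ dw
  have d2 := t5 _ d1
  have := pos_hi ho dw d2 (by linarith)
  exact ori_pos_of d1 d2 (by linarith) (by linarith)

theorem fp_of_window {n : ℕ} {W W' : ℤ → Pt → ℝ} {v : ℤ → Pt} (h : FP X n W v) (hs : Sys X n W')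
    (s i : ℤ) (hst : ∀ j, i ≤ j → j < i + n → vlt (W' j) (v (j - s)) (v (j + 1 - s))) :
    FP X n W' (fun j => v (j - s)) := by
  have per : ∀ j, v (j + n - s) = v (j - s) := fun j => by
    rw [← h.per (j - s)]; congr 1; ring
  refine ⟨hs, fun j => h.mem _, per, fun a b hab => ?_, fun j => ?_⟩
  · have := h.inj _ _ hab
    rwa [sub_sub_sub_cancel_right] at this
  · obtain ⟨q, r, e, r0, r1⟩ := exists_divmod (K := n) (by have := h.two_le; omega) (j - i)
    have := hs.vlt_per _ q (h.mem _) (hst (i + r) (by omega) (by omega))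
    rw [show i + r + n * q = j by omega] at this
    rwa [show j - s = i + r - s + n * q by omega, show j + 1 - s = i + r + 1 - s + n * q by omega,
      per_int h.per, per_int h.per]

theorem FP.reflex' {n : ℕ} {W : ℤ → Pt → ℝ} {v : ℤ → Pt} (h : FP X n W v) (hX : GP X) {k s : ℤ}
    (hpos : 0 < cang (v (k + 1)) (win v s n)) (ho : ori (v k) (v (k + 1)) (v (k + 1 + 1)) < 0)
    {V : Pt → ℝ} (hV : IsView X V) (h1 : W k (v (k + 1)) ≤ V (v (k + 1)))
    (h2 : V (v (k + 1)) ≤ W (k + 1) (v (k + 1))) : vlt V (v k) (v (k + 1 + 1)) := by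
  obtain ⟨lp, p1, p2, p3⟩ := h.exists_pred (k + 1)
  obtain ⟨lq, q1, q2, q3⟩ := h.exists_succ (k + 1)
  have e1 := h.fw1 hX s p1 p2 q1 q3
  rw [add_sub_cancel_right] at p1 p2 p3
  have e3 := neg_lo (by rwa [ori_cyc] at ho) q1 p1.add2 (by linarith)
  exact hV.trans _ (h.mem _) _ (h.mem _) _ (h.mem _)
    ((hV.vlt_iff_back (h.mem _) (h.mem _)).mpr ⟨lp, p1, by linarith, by linarith⟩)
    ⟨lq, q1, by linarith, by linarith⟩

section wall

variable {U : ℤ → Pt → ℝ} {μ : Pt → ℝ → ℤ} {v : ℤ → Pt} {τ : ℤ → ℤ} {i : ℤ}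

theorem noblock (hX : GP X) (h3 : 3 ≤ X.card) (hs : Sys X X.card U) (hμ : IsFeas X X.card U μ)
    (h : FP X X.card (fun j => U (τ j)) v) (ht : TriL (win v 0 X.card)) (hid : ∀ j, j ≤ τ j)
    (i1 : i < τ i) (i2 : τ (i - 1) < τ i) (hn : ¬ vlt (U (τ i - 1)) (v i) (v (i + 1))) {e : ℤ}
    (he : i ≤ e) (hcv : ∀ j, i < j → j ≤ e → 0 < ori (v (j - 1)) (v j) (v (j + 1))) :
    vlt (U (max (τ e) (e + 1))) (v e) (v (e + 1)) := by
  have hpi := pi_pos
  rcases le_or_gt (e + 1) (τ e) with h1 | h1
  · rw [max_eq_left h1]; exact h.step e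
  rw [max_eq_right h1.le]
  by_contra hb
  have hstep := h.exists_succ
  choose lam dl l1 l2 using hstep
  have pos : ∀ y ∈ X, 0 < cang y (win v 0 X.card) := fun y hy => by
    obtain ⟨k, rfl⟩ := h.surj hy
    exact h.cang_pos hX ht h3 k
  have sb : ∀ j, lam j - π < U (τ j) (v (j + 1)) ∧ U (τ j) (v (j + 1)) < lam j := fun j =>
    ((hs.view (τ j)).sees_iff (h.mem j) (h.mem (j + 1)) (dl j)).mp ⟨by linarith [l2 j], l1 j⟩
  have unborn : U (τ i - 1) (v i) < lam i - π := by
    have a1 := hs.le (show τ i - 1 ≤ τ i by omega) (h.mem i)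
    have a2 := (hs.view (τ i - 1)).ne_pi (h.mem i) (h.mem _) (dl i)
    by_contra hc
    push Not at hc
    exact hn ⟨_, dl i, by linarith [l1 i], lt_of_le_of_ne (by linarith) a2⟩
  have dead : lam e < U (e + 1) (v e) := by
    have a1 := hs.le h1.le (h.mem e)
    have a2 := ((hs.view (e + 1)).ne _ (h.mem e) _ (h.mem _) _ (dl e)).1
    by_contra hc
    push Not at hc
    exact hb ⟨_, dl e, lt_of_le_of_ne hc a2, by linarith [l2 e]⟩
  have turn : ∀ j, i ≤ j → j < e → lam j < lam (j + 1) := by
    intro j j1 j2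
    have c := hcv (j + 1) (by omega) (by omega)
    rw [add_sub_cancel_right] at c
    have m := h.sys.mono j _ (h.mem (j + 1))
    have := neg_lo (show ori (v (j + 1)) (v j) (v (j + 1 + 1)) < 0 by rw [ori_swap']; linarith)
      (dl j).rev' (dl (j + 1)) (by linarith [(sb j).1, l1 (j + 1)])
    linarith
  have back : ∀ d : ℕ, ∀ j, j = i + d → j ≤ e → ∀ y ∈ X, ori (v j) (v (j + 1)) y < 0 →
      vlt (U (τ j)) y (v j) → False := by
    intro d
    induction d with
    | zero =>
      intro j ej _ y hy ho hv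
      obtain rfl : j = i := by simpa using ej
      obtain ⟨ν, n1, n2, n3⟩ := ((hs.view _).vlt_iff_back hy (h.mem j)).mp hv
      have a1 := neg_lo ho (dl j).sub2 n1 (by linarith [l2 j])
      have a2 := mt (h.fwin hX hy (pos y hy) n1)
        (not_not.mpr (((hs.view _).iff' (h.mem j) hy n1).mp n3))
      have a3 := mt ((hs.view (τ (j - 1))).iff _ (h.mem j) y hy _ n1).mp a2
      have a4 := hs.le (show τ (j - 1) ≤ τ j - 1 by omega) (h.mem j)
      exact a3 (by linarith)
    | succ d ih =>
      intro j ej je y hy ho hv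
      obtain ⟨k, rfl⟩ : ∃ k, j = k + 1 := ⟨j - 1, by ring⟩
      obtain ⟨ν, n1, n2, n3⟩ := ((hs.view _).vlt_iff_back hy (h.mem _)).mp hv
      have a1 := neg_lo ho (dl _).sub2 n1 (by linarith [l2 (k + 1)])
      have a2 := mt (h.fwin hX hy (pos y hy) n1)
        (not_not.mpr (((hs.view _).iff' (h.mem _) hy n1).mp n3))
      rw [add_sub_cancel_right] at a2
      have a3 := mt ((hs.view (τ k)).iff _ (h.mem _) y hy _ n1).mp a2
      have a4 : ν < U (τ k) (v (k + 1)) :=
        lt_of_le_of_ne (not_lt.mp a3) ((hs.view (τ k)).ne _ (h.mem _) y hy _ n1).1.symm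
      have a5 := turn k (by omega) (by omega)
      have a6 := sb k
      have o1 : ori (v k) (v (k + 1)) y < 0 := by
        rw [ori_swap']
        linarith [ori_pos_of (dl k).rev' n1 (by linarith) (by linarith [a6.2])]
      have a7 : vlt (U (τ k)) y (v (k + 1)) :=
        ((hs.view _).vlt_iff_back hy (h.mem _)).mpr ⟨ν, n1, by linarith [a6.2], a4⟩
      rcases (hs.view (τ k)).total hy (h.mem k) (ne_of_ori o1.ne).2.1.symm with h4 | h4
      · exact ih k (by push_cast at ej; omega) (by omega) y hy o1 h4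
      · linarith [h.ffront hX hy (pos y hy) h4 a7]
  have fwd : ∀ d : ℕ, ∀ j, j + d = e → i ≤ j → ∀ y ∈ X, ori (v j) (v (j + 1)) y < 0 →
      vlt (U (τ j)) (v (j + 1)) y → False := by
    have core : ∀ j, ∀ y ∈ X, ori (v j) (v (j + 1)) y < 0 → vlt (U (τ j)) (v (j + 1)) y →
        ∃ ν, Dir (v (j + 1)) y ν ∧ U (τ (j + 1)) (v (j + 1)) < ν ∧ ν < lam j := by
      intro j y hy ho ⟨ν, n1, n2, n3⟩
      have a1 := pos_hi (show 0 < ori (v (j + 1)) (v j) y by rw [ori_swap']; linarith)
        (dl j).rev' n1 (by linarith [(sb j).2])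
      have a2 := h.fwin hX hy (pos y hy) n1 (by
        rw [add_sub_cancel_right]; exact ((hs.view _).iff _ (h.mem _) y hy _ n1).mp n2)
      have a3 := mt ((hs.view (τ (j + 1))).iff' (h.mem _) hy n1).mp a2
      exact ⟨ν, n1, lt_of_le_of_ne (not_lt.mp a3) ((hs.view _).ne _ (h.mem _) y hy _ n1).1,
        by linarith⟩
    intro d
    induction d with
    | zero =>
      intro j ej _ y hy ho hv
      obtain rfl : j = e := by simpa using ej
      obtain ⟨ν, -, n2, n3⟩ := core j y hy ho hv
      have a1 := hs.le (hid (j + 1)) (h.mem (j + 1))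
      have a2 := ((hs.view (j + 1)).iff' (h.mem _) (h.mem _) (dl j)).mp dead
      linarith
    | succ d ih =>
      intro j ej ij y hy ho hv
      obtain ⟨ν, n1, n2, n3⟩ := core j y hy ho hv
      have a5 := turn j ij (by push_cast at ej; omega)
      have o1 : ori (v (j + 1)) (v (j + 1 + 1)) y < 0 :=
        ori_neg_of (dl _) n1 (by linarith [l2 (j + 1)]) (by linarith)
      have a7 : vlt (U (τ (j + 1))) (v (j + 1)) y := ⟨ν, n1, n2, by linarith [l2 (j + 1)]⟩
      rcases (hs.view (τ (j + 1))).total hy (h.mem (j + 1 + 1))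
        (ne_of_ori o1.ne).2.2.symm with h4 | h4
      · linarith [h.ffront hX hy (pos y hy) a7 h4]
      · exact ih (j + 1) (by push_cast at ej; omega) (by omega) y hy o1 h4
  have hull : ∀ j, i ≤ j → j ≤ e → LE X (v j) (v (j + 1)) (lam j) := by
    intro j j1 j2
    refine ⟨⟨h.mem _, h.mem _, (dl j).ne, fun y hy y1 y2 => ?_⟩, dl j⟩
    by_contra hc
    have ho : ori (v j) (v (j + 1)) y < 0 := lt_of_le_of_ne (not_lt.mp hc)
      (hX _ (h.mem _) _ (h.mem _) y hy (dl j).ne y1.symm y2.symm)
    rcases (hs.view (τ j)).total hy (h.mem j) y1 with h4 | h4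
    · exact back (j - i).toNat j (by omega) j2 y hy ho h4
    rcases (hs.view (τ j)).total hy (h.mem (j + 1)) y2 with h5 | h5
    · linarith [h.ffront hX hy (pos y hy) h4 h5]
    · exact fwd (e - j).toNat j (by omega) j1 y hy ho h5
  have low : ∀ j, i ≤ j → j ≤ e → j + 1 ≤ μ (v j) (lam j) := by
    intro j j1
    induction j, j1 using Int.leInduction with
    | base =>
      intro j2
      by_contra hc
      have := hs.le (show μ (v i) (lam i) ≤ τ i - 1 by omega) (h.mem i)
      linarith [(hμ.sees _ _ _ (hull i le_rfl j2)).1]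
    | succ j j1 ih =>
      intro j2
      have := hμ.mono _ _ _ _ _ _ (hull j j1 (by omega)) (hull (j + 1) (by omega) j2)
        (turn j j1 (by omega))
      have := ih (by omega)
      omega
  have := hs.le (low e he le_rfl) (h.mem e)
  linarith [(hμ.sees _ _ _ (hull e he le_rfl)).2]

/-- the new view assignment -/
def newT (τ : ℤ → ℤ) (i : ℤ) (m : ℕ) (L : ℤ) (j : ℤ) : ℤ :=
  if (j - i) % m = 0 then τ j - 1 else if (j - i) % m ≤ L then max (τ (j - 1)) j else τ j

theorem newT_props {m : ℕ} (L : ℤ) (hm : ∀ j, τ j ≤ τ (j + 1)) (hp : ∀ j, τ (j + m) = τ j + m)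
    (hid : ∀ j, j ≤ τ j) (i1 : i < τ i) (i2 : τ (i - 1) < τ i) :
    (∀ j, newT τ i m L j ≤ τ j) ∧ (∀ j, τ (j - 1) ≤ newT τ i m L j) ∧
    (∀ j, newT τ i m L (j + m) = newT τ i m L j + m) ∧ (∀ j, j ≤ newT τ i m L j) := by
  have pi' : ∀ j q : ℤ, τ (j + m * q) = τ j + m * q := fun j q => by
    have := per_int (v := fun j => τ j - j) (K := m) (fun j => by simp only [hp]; ring) j q
    omega
  have z : ∀ j, (j - i) % m = 0 → j < τ j ∧ τ (j - 1) < τ j := by
    intro j hj
    obtain ⟨q, hq⟩ := Int.dvd_of_emod_eq_zero hj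
    have e : j = i + m * q := by omega
    have a1 := pi' i q
    have a2 := pi' (i - 1) q
    rw [show j - 1 = i - 1 + m * q by omega, e, a1, a2]
    omega
  have hm' : ∀ j, τ (j - 1) ≤ τ j := fun j => by simpa using hm (j - 1)
  refine ⟨fun j => ?_, fun j => ?_, fun j => ?_, fun j => ?_⟩
  · unfold newT; have := hm' j; have := hid j
    split_ifs <;> omega
  · unfold newT; have := hm' j; have := z j
    split_ifs <;> omega
  · unfold newT
    rw [show j + m - i = j - i + m by ring, Int.add_emod_right, show j + m - 1 = j - 1 + m by ring,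
      hp, hp]
    split_ifs <;> omega
  · unfold newT; have := hid j; have := z j
    split_ifs <;> omega

theorem newT_zero (m : ℕ) (L : ℤ) : newT τ i m L i = τ i - 1 := by simp [newT]

theorem newT_mid {m : ℕ} {L j : ℤ} (h1 : i < j) (h2 : j < i + m) (h3 : j ≤ i + L) :
    newT τ i m L j = max (τ (j - 1)) j := by
  unfold newT
  rw [Int.emod_eq_of_lt (by omega) (by omega), if_neg (by omega), if_pos (by omega)]

theorem newT_hi {m : ℕ} {L j : ℤ} (h1 : i < j) (h2 : j < i + m) (h3 : i + L < j) :
    newT τ i m L j = τ j := by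
  unfold newT
  rw [Int.emod_eq_of_lt (by omega) (by omega), if_neg (by omega), if_neg (by omega)]

theorem absorb (hX : GP X) (h3 : 3 ≤ X.card) (hs : Sys X X.card U) (hμ : IsFeas X X.card U μ)
    (h : FP X X.card (fun j => U (τ j)) v) (ht : TriL (win v 0 X.card)) (hid : ∀ j, j ≤ τ j)
    (hm : ∀ j, τ j ≤ τ (j + 1)) (hp : ∀ j, τ (j + X.card) = τ j + X.card)
    (i1 : i < τ i) (i2 : τ (i - 1) < τ i) (hn : ¬ vlt (U (τ i - 1)) (v i) (v (i + 1))) {l d : ℕ}
    (hl : l + 2 + d = X.card) (hcv : ∀ j, i < j → j ≤ i + l → 0 < ori (v (j - 1)) (v j) (v (j + 1)))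
    (hrf : ori (v (i + l)) (v (i + l + 1)) (v (i + l + 1 + 1)) < 0) :
    ∃ v', FP X X.card (fun j => U (newT τ i X.card (l + 1) j)) v' ∧ TriL (win v' 0 X.card) := by
  have hpi := pi_pos
  obtain ⟨n1, n2, n3, -⟩ := newT_props (i := i) ((l : ℤ) + 1) hm hp hid i1 i2
  set W : ℤ → Pt → ℝ := fun j => U (newT τ i X.card (l + 1) j) with hW
  have hsW : Sys X X.card W := ⟨fun j => hs.view _,
    fun j x hx => hs.le ((n1 j).trans (by simpa using n2 (j + 1))) hx,
    fun j x hx => by simp only [hW, n3]; exact hs.per _ x hx⟩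
  set r := v (i + l + 1) with hr
  set R := win v (i + l + 1 + 1) d with hR
  have hd : 1 ≤ l + d := by omega
  have ew : win v i X.card = win v i (l + 1) ++ r :: R := by
    rw [show X.card = (l + 1) + (d + 1) by omega, win_add, win_succ' v _ d]
    push_cast; rw [← add_assoc]
  have all0 : All X (r :: (win v i (l + 1) ++ R)) := by
    have : All X (win v i X.card) := ⟨h.nodup_win i le_rfl, fun x => ⟨fun hx => by
      obtain ⟨k, rfl⟩ := h.surj hx; exact h.mem_win k i, h.win_sub i _ x⟩⟩
    rw [ew] at this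
    exact this.perm List.perm_middle
  have eR : R ++ [v i] = win v (i + l + 1 + 1) (d + 1) := by
    rw [win_succ, ← h.per i]; congr 3; omega
  -- the chain of the polygon without `r`
  have ch : Chain W (i + 1) (win v i (l + 1) ++ R ++ [v i]) := by
    rw [List.append_assoc, eR, win_succ, List.append_assoc, List.singleton_append, chain_append,
      ← win_succ, chain_win, win_succ' v _ d, chain_cons2, ← win_succ', chain_win]
    refine ⟨fun k hk => ?_, ?_, fun k hk => ?_⟩
    · simp only [hW]
      rw [newT_mid (by omega) (by omega) (by omega), show i + 1 + k - 1 = i + k by ring,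
        show i + 1 + k = i + k + 1 by ring]
      exact noblock hX h3 hs hμ h ht hid i1 i2 hn (by omega) fun j a b => hcv j a (by omega)
    · simp only [hW, length_win]
      rw [show i + 1 + l = i + l + 1 by ring]
      have b2 := n2 (i + l + 1)
      rw [add_sub_cancel_right] at b2
      exact h.reflex' hX (h.cang_pos hX ht h3 _) hrf (hs.view _) (hs.le b2 (h.mem _))
        (hs.le (n1 _) (h.mem _))
    · simp only [hW, length_win]
      rw [show i + 1 + l + 1 + k = i + l + 1 + 1 + k by ring,
        newT_hi (by omega) (by omega) (by omega)]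
      exact h.step _
  have e0 : win v i (l + 1) ++ R = v i :: (win v (i + 1) l ++ R) := by rw [win_succ']; simp
  have lp0 : LP X X.card W (i + 1) (v i :: (win v (i + 1) l ++ R)) :=
    (e0 ▸ all0).lp hsW (by rw [e0] at ch; exact ch)
  have back : ∀ c k : ℕ, k + c = l → ∃ M S, Geo r (v (i + k)) M S ∧
      M ++ flat S = win v (i + k + 1) c ++ R ++ win v i k ∧ (c = 0 → lst r S = r) := by
    intro c
    induction c with
    | zero =>
      intro k hk
      obtain rfl : k = l := by simpa using hk
      refine ⟨R ++ win v i k, [], ⟨?_, trivial, trivial⟩, by simp, fun _ => rfl⟩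
      obtain ⟨C, eC⟩ : ∃ C, R ++ win v i k = v (i + k + 1 + 1) :: C := by
        rcases Nat.eq_zero_or_pos d with rfl | hd0
        · obtain ⟨k', rfl⟩ : ∃ k', k = k' + 1 := ⟨k - 1, by omega⟩
          refine ⟨win v (i + 1) k', ?_⟩
          rw [hR, win_succ', ← h.per i]; simp; congr 1; omega
        · obtain ⟨d', rfl⟩ : ∃ d', d = d' + 1 := ⟨d - 1, by omega⟩
          exact ⟨_, by rw [hR, win_succ']; rfl⟩
      have t1 : TriL (r :: (R ++ win v i (k + 1))) := by
        have := ht.win_shift h.per i
        rw [ew] at this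
        simpa using this.rotate
      rw [win_succ, ← List.append_assoc, eC] at t1
      have t2 := TriL.glue (A := []) t1 (Tri.single (a := r) (c := v (i + k)) (by
        rw [ori_swap']; linarith))
      rw [eC]
      exact TriL.tri (by simpa using t2)
    | succ c ih =>
      intro k hk
      obtain ⟨M, S, hG, e1, e2⟩ := ih (k + 1) (by omega)
      push_cast at hG e1
      rw [← add_assoc] at hG e1
      have e3 : M ++ flat S = (win v (i + k + 1 + 1) c ++ R ++ win v i k) ++ [v (i + k)] := by
        rw [e1, win_succ]; simp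
      have e4 : v i :: (win v (i + 1) l ++ R) =
          win v i (k + 1) ++ (v (i + k + 1) :: (win v (i + k + 1 + 1) c ++ R)) := by
        rw [← e0, show l + 1 = (k + 1) + (c + 1) by omega, win_add, win_succ' v _ c]
        push_cast; simp [add_assoc]
      have e5 : v (i + k + 1) :: (M ++ flat S) =
          (v (i + k + 1) :: (win v (i + k + 1 + 1) c ++ R)) ++ win v i (k + 1) := by
        rw [e1]; simp
      have all1 : All X (r :: v (i + k + 1) :: (M ++ flat S)) := by
        rw [e5]; rw [e0, e4] at all0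
        exact all0.perm (List.Perm.cons _ List.perm_append_comm)
      have hlw : ∀ g ∈ v (i + k + 1) :: (M ++ flat S),
          cang g (v (i + k + 1) :: (M ++ flat S)) < 2 * π := by
        intro g hg
        rw [e5] at hg ⊢
        rw [cang_rotate, ← e4]
        exact lp0.lw hX (by rw [e4]; exact List.perm_append_comm.mem_iff.mp hg)
      have cv := hcv (i + k + 1) (by omega) (by omega)
      rw [add_sub_cancel_right] at cv
      have cond : lst r S = v (i + k) ∨ 0 < ori (v (i + k + 1)) (lst r S) (v (i + k)) := by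
        cases c with
        | zero =>
          right
          rw [e2 rfl, hr, show i + l + 1 = i + k + 1 + 1 by omega]
          rwa [ori_cyc] at cv
        | succ c' =>
          exact geo_cond hX hG all1.mem (w := v (i + k + 1 + 1)) (by rw [e1, win_succ']; rfl) e3
            (hlw _ (by simp)) cv
      obtain ⟨M', S', g1, g2⟩ := geo_back hX hG all1 e3 hlw cond
      exact ⟨_, S', g1, by rw [List.cons_append, g2, win_succ']; simp, by simp⟩
  obtain ⟨M, S, hG, e1, e2⟩ := back l 0 (by simp)
  simp only [Nat.cast_zero, add_zero, win_zero, List.append_nil] at hG e1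
  have all1 : All X (r :: v i :: (M ++ flat S)) := by rw [e1, ← e0]; exact all0
  have Wi : W i = U (τ i - 1) := by simp only [hW, newT_zero]
  have hg := lst_memX all1.mem
  have glt : vlt (W i) (lst r S) (v i) := by
    rcases Nat.eq_zero_or_pos l with rfl | hl0
    · rw [e2 rfl, Wi]
      have : r = v (i + 1) := by simp [hr]
      rw [this]
      exact ((hs.view _).total (h.mem _) (h.mem _) (h.step i).ne).resolve_left hn
    · obtain ⟨l', rfl⟩ : ∃ l', l = l' + 1 := ⟨l - 1, by omega⟩
      have ew1 : M ++ flat S = v (i + 1) :: (win v (i + 1 + 1) l' ++ R) := by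
        rw [e1, win_succ']; rfl
      obtain ⟨B, u, eu⟩ := exists_snoc (v (i + 1)) (win v (i + 1 + 1) l' ++ R)
      rw [← ew1] at eu
      obtain ⟨T, t1, t2, t3⟩ := hG.lb1 hX all1.mem ew1
      obtain ⟨lq, q1, q2, q3⟩ := h.exists_succ i
      have hu : u ∈ X := all1.mem u (by rw [eu]; simp)
      rw [← e1] at lp0
      have c1 : Chain W (i + 1) ((v i :: B) ++ u :: [v i]) := by
        have := lp0.chain; rw [eu] at this; simpa using this
      have c2 := ((chain_append _ _ _ _ _).mp c1).2.1
      have hlen := all1.length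
      rw [eu] at hlen
      simp only [List.length_cons, List.length_append, List.length_nil] at hlen
      have c3 : vlt (W (i - 1)) u (v i) :=
        (hsW.vlt_add (by simp only [List.length_cons]; omega) hu).mp c2
      obtain ⟨lp, p1, p2, p3⟩ := ((hsW.view _).vlt_iff_back hu (h.mem i)).mp c3
      have W1 : W (i + 1) = U (τ i) := by
        simp only [hW]
        rw [newT_mid (by omega) (by omega) (by omega), add_sub_cancel_right, max_eq_left (by omega)]
      have up := lp0.w_head hX ew1 eu p1 (by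
        rw [show i + 1 + ((M ++ flat S).length : ℕ) = i - 1 + X.card by
          rw [eu]; simp only [List.length_append, List.length_cons, List.length_nil]; omega,
          hsW.per _ _ (h.mem i)]
        linarith) q1 (by rw [W1]; exact q3)
      have m1 : W (i - 1) (v i) ≤ W i (v i) := hsW.le (by omega) (h.mem i)
      have m2 : W i (v i) + π ≤ lq := by
        have a1 := hs.le (show τ i - 1 ≤ τ i by omega) (h.mem i)
        rw [Wi]
        by_contra hc
        exact hn ⟨_, q1, by linarith, not_le.mp hc⟩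
      exact ((hsW.view i).vlt_iff_back hg (h.mem i)).mpr
        ⟨_, (t3 _ q1).sub2, by linarith, by linarith⟩
  obtain ⟨P, j, a1, a2, a3⟩ := slot hX hsW h3 (r := r) (c := v i) (f := i)
    ⟨hG, all1, by rw [e1]; rw [e0] at ch; exact ch, glt, Or.inl rfl⟩
  exact fp_of_all hsW a1 a2 a3

theorem wall_step (hX : GP X) (h3 : 3 ≤ X.card) (hs : Sys X X.card U) (hμ : IsFeas X X.card U μ)
    (h : FP X X.card (fun j => U (τ j)) v) (ht : TriL (win v 0 X.card)) (hid : ∀ j, j ≤ τ j)
    (hm : ∀ j, τ j ≤ τ (j + 1)) (hp : ∀ j, τ (j + X.card) = τ j + X.card)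
    (i1 : i < τ i) (i2 : τ (i - 1) < τ i) :
    ∃ L v', FP X X.card (fun j => U (newT τ i X.card L j)) v' ∧ TriL (win v' 0 X.card) := by
  have sysL : ∀ L, Sys X X.card fun j => U (newT τ i X.card L j) := fun L => by
    obtain ⟨n1, n2, n3, -⟩ := newT_props (i := i) L hm hp hid i1 i2
    exact ⟨fun j => hs.view _, fun j x hx => hs.le ((n1 j).trans (by simpa using n2 (j + 1))) hx,
      fun j x hx => by simp only [n3]; exact hs.per _ x hx⟩
  by_cases hn : vlt (U (τ i - 1)) (v i) (v (i + 1))
  · refine ⟨0, v, ?_, ht⟩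
    have := fp_of_window h (sysL 0) 0 i fun j j1 j2 => by
      simp only [sub_zero]
      rcases j1.eq_or_lt with rfl | j1
      · rwa [newT_zero]
      · rw [newT_hi j1 j2 (by omega)]; exact h.step j
    simpa using this
  by_cases hcv : ∃ l : ℕ, l + 2 ≤ X.card ∧ ori (v (i + l)) (v (i + l + 1)) (v (i + l + 1 + 1)) < 0
  · classical
    obtain ⟨hl, hrf⟩ := Nat.find_spec hcv
    set l := Nat.find hcv with hl0
    obtain ⟨d, hd⟩ := Nat.exists_eq_add_of_le hl
    refine ⟨_, absorb hX h3 hs hμ h ht hid hm hp i1 i2 hn hd.symm (fun j j1 j2 => ?_) hrf⟩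
    obtain ⟨k, rfl⟩ : ∃ k : ℕ, j = i + k + 1 := ⟨(j - i - 1).toNat, by omega⟩
    have := Nat.find_min hcv (m := k) (by omega)
    rw [add_sub_cancel_right]
    exact lt_of_le_of_ne (not_lt.mp fun hh => this ⟨by omega, hh⟩)
      (hX _ (h.mem _) _ (h.mem _) _ (h.mem _) (h.step _).ne
        (h.ne_of (by omega) (by omega)).symm (h.step _).ne).symm
  · have cv : ∀ j, i < j → j < i + X.card → 0 < ori (v (j - 1)) (v j) (v (j + 1)) := by
      intro j j1 j2
      obtain ⟨k, rfl⟩ : ∃ k : ℕ, j = i + k + 1 := ⟨(j - i - 1).toNat, by omega⟩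
      rw [add_sub_cancel_right]
      exact lt_of_le_of_ne (not_lt.mp fun hh => hcv ⟨k, by omega, hh⟩)
        (hX _ (h.mem _) _ (h.mem _) _ (h.mem _) (h.step _).ne
          (h.ne_of (by omega) (by omega)).symm (h.step _).ne).symm
    refine ⟨X.card, fun j => v (j - 1), fp_of_window h (sysL _) 1 i fun j j1 j2 => ?_, ?_⟩
    · rw [add_sub_cancel_right]
      rcases j1.eq_or_lt with rfl | j1
      · rw [newT_zero]
        obtain ⟨lp, p1, p2, p3⟩ := h.exists_pred i
        obtain ⟨lq, q1, q2, q3⟩ := h.exists_succ i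
        have e1 := h.fw1 hX 0 p1 p2 q1 q3
        have e2 := h.cang_pos hX ht h3 i
        have a1 := hs.le (show τ i - 1 ≤ τ i by omega) (h.mem i)
        have a2 := hs.le (show τ (i - 1) ≤ τ i - 1 by omega) (h.mem i)
        have m2 : U (τ i - 1) (v i) + π ≤ lq := by
          by_contra hc
          exact hn ⟨_, q1, by linarith, not_le.mp hc⟩
        exact ((hs.view _).vlt_iff_back (h.mem _) (h.mem i)).mpr
          ⟨lp, p1, by linarith, by linarith⟩
      · rw [newT_mid j1 j2 (by omega)]
        have := noblock hX h3 hs hμ h ht hid i1 i2 hn (e := j - 1) (by omega)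
          fun k a b => cv k a (by omega)
        rwa [sub_add_cancel] at this
    · have per : ∀ j, v (j + X.card - 1) = v (j - 1) := fun j => by
        rw [← h.per (j - 1)]; congr 1; ring
      refine TriL.win_shift per (s := 1) ?_ 0
      have : win (fun j => v (j - 1)) 1 X.card = win v 0 X.card := by simp [win]
      rwa [this]

end wall

theorem wall_ok (hI : InitStmt) : WallStmt := by
  intro X U hX h3 hs hf
  obtain ⟨v, τ, hm, hp, hid, h, ht⟩ := hI X U hX h3 hs hf
  obtain ⟨μ, hμ⟩ := hf
  generalize hn : (∑ j ∈ Finset.range X.card, (τ j - j)).toNat = n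
  induction n using Nat.strong_induction_on generalizing v τ with
  | _ n ih =>
    by_cases hall : ∀ j, τ j = j
    · exact ⟨v, by simpa [hall] using h, ht⟩
    push Not at hall
    obtain ⟨j, hj⟩ := hall
    have mono : Monotone τ := monotone_int_of_le_succ hm
    obtain ⟨i, i0, imin⟩ := Int.exists_least_of_bdd (P := fun k => τ j ≤ τ k)
      ⟨j - X.card, fun z hz => by
        by_contra hc
        have := mono (show z ≤ j - X.card by omega)
        have := hp (j - X.card)
        rw [sub_add_cancel] at this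
        omega⟩ ⟨j, le_rfl⟩
    have i3 := imin j le_rfl
    have i1 : i < τ i := by have := hid j; omega
    have i2 : τ (i - 1) < τ i := by
      by_contra hc
      have := imin (i - 1) (by omega)
      omega
    obtain ⟨L, v', h', ht'⟩ := wall_step hX h3 hs hμ h ht hid hm hp i1 i2
    obtain ⟨n1, n2, n3, n4⟩ := newT_props (i := i) L hm hp hid i1 i2
    refine ih _ ?_ v' _ (fun j => (n1 j).trans (by simpa using n2 (j + 1))) n3 n4 h' ht' rfl
    have nn : 0 ≤ ∑ j ∈ Finset.range X.card, (newT τ i X.card L j - j) :=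
      Finset.sum_nonneg fun k _ => by have := n4 k; omega
    have lt : ∑ j ∈ Finset.range X.card, (newT τ i X.card L j - j) <
        ∑ j ∈ Finset.range X.card, (τ j - j) := by
      obtain ⟨q, r, e, r0, r1⟩ := exists_divmod (K := X.card) (by omega) i
      refine Finset.sum_lt_sum (fun k _ => by have := n1 k; omega) ⟨r.toNat, by simp; omega, ?_⟩
      have : newT τ i X.card L r.toNat = τ r.toNat - 1 := by
        unfold newT
        rw [if_pos]
        rw [Int.toNat_of_nonneg r0, show r - i = X.card * (-q) by rw [e]; ring]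
        simp
      omega
    omega

end Pool.Agent.CT
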