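import Pool.Agent.Lib.MP_a7588a_co.BRIDGE
import Pool.Agent.Lib.MP_a7588a_co.CONV
import Pool.Agent.Lib.MP_a7588a_co.COVER
import Pool.Agent.Lib.MP_a7588a_co.DROP
import Pool.Agent.Lib.MP_a7588a_co.ENUM
import Pool.Agent.Lib.MP_a7588a_co.IND
import Pool.Agent.Lib.MP_a7588a_co.INIT
import Pool.Agent.Lib.MP_a7588a_co.NEC
import Pool.Agent.Lib.MP_a7588a_co.PLIFT
import Pool.Agent.Lib.MP_a7588a_co.PSYS
import Pool.Agent.Lib.MP_a7588a_co.SET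
import Pool.Agent.Lib.MP_a7588a_co.TIGHT
import Pool.Agent.Lib.MP_a7588a_co.TOP
import Pool.Agent.Lib.MP_a7588a_co.TOPSYS
import Pool.Agent.Lib.MP_a7588a_co.Wall

/-! Assembly. -/

set_option autoImplicit false

namespace Pool.Agent.CT

theorem prom_all : PromStmt := prom_ok set_ok psys_ok pfeas_ok plift_ok

theorem tt2 : TT2 :=
  ind_ok drop_ok shift_ok (conv_ok enum_ok sorted_ok) prom_all
    (tight_ok sorted_ok (conv_ok enum_ok sorted_ok) (wall_ok init_ok) nec_ok)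

theorem mem_inner {S : Finset Pt} {p : Pt} : p ∈ inner S ↔ p ∈ S ∧ ¬ IsHV S p := by
  classical
  unfold inner; simp only [Finset.mem_filter]

theorem hv_set {S : Finset Pt} (hS : GP S) (h2 : 2 ≤ S.card) :
    {p | p ∈ (S : Set Pt) ∧ p ∉ convexHull ℝ ((S : Set Pt) \ {p})} = {a | IsHV S a} := by
  ext p
  constructor
  · rintro ⟨h1, h3⟩; exact (bridge_ok S hS h2 p h1).mp h3
  · rintro ⟨b, hb⟩; exact ⟨hb.1, (bridge_ok S hS h2 p hb.1).mpr ⟨b, hb⟩⟩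

theorem inner_card (S : Finset Pt) : (inner S).card + {a | IsHV S a}.ncard = S.card := by
  classical
  have : {a | IsHV S a} = ((S.filter fun p => IsHV S p : Finset Pt) : Set Pt) := by
    ext p
    simp only [Set.mem_ofPred_eq, Finset.coe_filter]
    exact ⟨fun h => ⟨by obtain ⟨b, hb⟩ := h; exact hb.1, h⟩, fun h => h.2⟩
  rw [this, Set.ncard_coe_finset, add_comm]
  unfold inner
  convert Finset.card_filter_add_card_filter_not (s := S) (fun p => IsHV S p)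

open Classical in
theorem final_of (S₁ S₂ : Finset Pt) (h3 : 3 ≤ S₁.card) (hc : S₁.card = S₂.card) (g1 : GP S₁)
    (g2 : GP S₂) (hh : {a | IsHV S₁ a}.ncard = {a | IsHV S₂ a}.ncard)
    (hsol : (inner S₁).card = (inner S₂).card → ∀ (K : ℕ) (VP VQ : ℤ → Pt → ℝ),
      (inner S₁).Nonempty → Sys (inner S₁) K VP → Sys (inner S₂) K VQ → Feas (inner S₁) K VP →
      Feas (inner S₂) K VQ → Sol (inner S₁) (inner S₂) K VP VQ) :
    ∃ T₁ T₂ : Finset (Finset (ℝ × ℝ)),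
      (∀ t ∈ T₁, t ⊆ S₁ ∧ t.card = 3 ∧
          ∀ p ∈ S₁, p ∈ convexHull ℝ (t : Set (ℝ × ℝ)) → p ∈ t) ∧
      (∀ t ∈ T₁, ∀ t' ∈ T₁, t ≠ t' →
          interior (convexHull ℝ (t : Set (ℝ × ℝ))) ∩
            interior (convexHull ℝ (t' : Set (ℝ × ℝ))) = ∅) ∧
      (⋃ t ∈ T₁, convexHull ℝ (t : Set (ℝ × ℝ))) = convexHull ℝ (S₁ : Set (ℝ × ℝ)) ∧
      (∀ t ∈ T₂, t ⊆ S₂ ∧ t.card = 3 ∧
          ∀ p ∈ S₂, p ∈ convexHull ℝ (t : Set (ℝ × ℝ)) → p ∈ t) ∧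
      (∀ t ∈ T₂, ∀ t' ∈ T₂, t ≠ t' →
          interior (convexHull ℝ (t : Set (ℝ × ℝ))) ∩
            interior (convexHull ℝ (t' : Set (ℝ × ℝ))) = ∅) ∧
      (⋃ t ∈ T₂, convexHull ℝ (t : Set (ℝ × ℝ))) = convexHull ℝ (S₂ : Set (ℝ × ℝ)) ∧
      ∃ φ : ℝ × ℝ → ℝ × ℝ, Set.BijOn φ (S₁ : Set (ℝ × ℝ)) (S₂ : Set (ℝ × ℝ)) ∧
        ∀ t : Finset (ℝ × ℝ), t ⊆ S₁ → (t ∈ T₁ ↔ t.image φ ∈ T₂) := by
  obtain ⟨n, h₁, D₁, e1, n1⟩ := enum_ok S₁ g1 (by omega)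
  obtain ⟨n', h₂, D₂, e2, n2⟩ := enum_ok S₂ g2 (by omega)
  obtain rfl : n = n' := by omega
  have hi : (inner S₁).card = (inner S₂).card := by
    have := inner_card S₁; have := inner_card S₂; omega
  obtain ⟨φ, L, bij, hφ, pos, bd1, used⟩ :=
    top_ok sorted_ok (topsys_ok sorted_ok) S₁ S₂ n h₁ h₂ D₁ D₂ g1 g2 h3 hc e1 e2 hi (hsol hi)
  set ψ : T3 → T3 := fun t => (φ t.1, φ t.2.1, φ t.2.2) with hψ
  have p2 : ∀ t ∈ L.map ψ, t.1 ∈ S₂ ∧ t.2.1 ∈ S₂ ∧ t.2.2 ∈ S₂ ∧ 0 < ori t.1 t.2.1 t.2.2 := by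
    intro t ht
    obtain ⟨s, hs, rfl⟩ := List.mem_map.mp ht
    obtain ⟨a, b, c, -, d⟩ := pos s hs
    exact ⟨bij.mapsTo a, bij.mapsTo b, bij.mapsTo c, d⟩
  have p1 : ∀ t ∈ L, t.1 ∈ S₁ ∧ t.2.1 ∈ S₁ ∧ t.2.2 ∈ S₁ ∧ 0 < ori t.1 t.2.1 t.2.2 := fun t ht =>
    ⟨(pos t ht).1, (pos t ht).2.1, (pos t ht).2.2.1, (pos t ht).2.2.2.1⟩
  have bd2 : BdL (L.map ψ) h₂ n := by
    intro f hf
    have := bd1 (fun a b => f (φ a) (φ b)) fun a b => hf _ _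
    simp only [hφ] at this
    rw [← this, List.map_map]; rfl
  have used2 : ∀ x ∈ S₂, ∃ t ∈ L.map ψ, T3.mem x t := by
    intro x hx
    obtain ⟨y, hy, rfl⟩ := bij.surjOn hx
    obtain ⟨t, ht, hm⟩ := used y hy
    refine ⟨ψ t, List.mem_map_of_mem ht, ?_⟩
    rcases hm with rfl | rfl | rfl
    exacts [Or.inl rfl, Or.inr (Or.inl rfl), Or.inr (Or.inr rfl)]
  have gen : ∀ (S : Finset Pt) (h : ℤ → Pt) (D : ℤ → ℝ) (L : List T3), GP S → 3 ≤ S.card →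
      HullEnum S n h D → (∀ t ∈ L, t.1 ∈ S ∧ t.2.1 ∈ S ∧ t.2.2 ∈ S ∧ 0 < ori t.1 t.2.1 t.2.2) →
      BdL L h n → (∀ x ∈ S, ∃ t ∈ L, T3.mem x t) →
      (∀ t ∈ (L.map triS).toFinset, t ⊆ S ∧ t.card = 3 ∧
          ∀ p ∈ S, p ∈ convexHull ℝ (t : Set (ℝ × ℝ)) → p ∈ t) ∧
      (∀ t ∈ (L.map triS).toFinset, ∀ t' ∈ (L.map triS).toFinset, t ≠ t' →
          interior (convexHull ℝ (t : Set (ℝ × ℝ))) ∩
            interior (convexHull ℝ (t' : Set (ℝ × ℝ))) = ∅) ∧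
      (⋃ t ∈ (L.map triS).toFinset, convexHull ℝ (t : Set (ℝ × ℝ))) =
        convexHull ℝ (S : Set (ℝ × ℝ)) := by
    intro S h D L g h3 e p b u
    obtain ⟨c1, c2, c3⟩ := cover_ok sorted_ok S n h D L g h3 e p b u
    refine ⟨fun t ht => ?_, fun t ht t' ht' hne => ?_, ?_⟩
    · obtain ⟨s, hs, rfl⟩ := List.mem_map.mp (List.mem_toFinset.mp ht)
      obtain ⟨a, b, c, d⟩ := p s hs
      obtain ⟨n1, n2, n3⟩ := ne_of_ori d.ne'
      refine ⟨?_, Finset.card_eq_three.mpr ⟨_, _, _, n1, n2, n3, by unfold triS; congr⟩, c1 s hs⟩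
      intro x hx
      simp only [triS, Finset.mem_insert, Finset.mem_singleton] at hx
      rcases hx with rfl | rfl | rfl <;> assumption
    · obtain ⟨s, hs, rfl⟩ := List.mem_map.mp (List.mem_toFinset.mp ht)
      obtain ⟨s', hs', rfl⟩ := List.mem_map.mp (List.mem_toFinset.mp ht')
      exact c2 s hs s' hs' hne
    · rw [← c3]
      ext x
      simp only [Set.mem_iUnion, List.mem_toFinset, List.mem_map, exists_prop]
      exact ⟨fun ⟨_, ⟨s, hs, e⟩, hx⟩ => ⟨s, hs, e ▸ hx⟩, fun ⟨s, hs, hx⟩ => ⟨_, ⟨s, hs, rfl⟩, hx⟩⟩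
  obtain ⟨a1, a2, a3⟩ := gen S₁ h₁ D₁ L g1 h3 e1 p1 bd1 used
  obtain ⟨b1, b2, b3⟩ := gen S₂ h₂ D₂ _ g2 (by omega) e2 p2 bd2 used2
  have im : ∀ s, (triS s).image φ = triS (ψ s) := fun s => by
    ext x; simp [triS, hψ]
  refine ⟨_, _, a1, a2, a3, b1, b2, b3, φ, bij, fun t ht => ⟨fun h => ?_, fun h => ?_⟩⟩
  · obtain ⟨s, hs, rfl⟩ := List.mem_map.mp (List.mem_toFinset.mp h)
    rw [im]
    exact List.mem_toFinset.mpr (List.mem_map_of_mem (List.mem_map_of_mem hs))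
  · obtain ⟨s', hs', e⟩ := List.mem_map.mp (List.mem_toFinset.mp h)
    obtain ⟨s, hs, rfl⟩ := List.mem_map.mp hs'
    have m : triS s ∈ (L.map triS).toFinset := List.mem_toFinset.mpr (List.mem_map_of_mem hs)
    rw [← im] at e
    have : triS s = t := by
      ext x
      constructor
      · intro hx
        obtain ⟨y, hy, e2⟩ := Finset.mem_image.mp (e ▸ Finset.mem_image_of_mem φ hx)
        rwa [← bij.injOn (ht hy) ((a1 _ m).1 hx) e2]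
      · intro hx
        obtain ⟨y, hy, e2⟩ := Finset.mem_image.mp (e.symm ▸ Finset.mem_image_of_mem φ hx)
        rwa [← bij.injOn ((a1 _ m).1 hy) (ht hx) e2]
    exact this ▸ m

end Pool.Agent.CT
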