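import Pool.Agent.Lib.MP_a7588a_co.Angle

set_option autoImplicit false

namespace Pool.Agent.CT

open Real

variable {X : Finset Pt}

namespace LE

theorem ha {a b : Pt} {l : ℝ} (h : LE X a b l) : a ∈ X := h.1.1
theorem hb {a b : Pt} {l : ℝ} (h : LE X a b l) : b ∈ X := h.1.2.1
theorem ne {a b : Pt} {l : ℝ} (h : LE X a b l) : a ≠ b := h.1.2.2.1

theorem add_int {a b : Pt} {l : ℝ} (h : LE X a b l) (n : ℤ) : LE X a b (l + n * (2 * π)) :=
  ⟨h.1, h.2.add_int n⟩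
theorem add2 {a b : Pt} {l : ℝ} (h : LE X a b l) : LE X a b (l + 2 * π) := ⟨h.1, h.2.add2⟩
theorem sub2 {a b : Pt} {l : ℝ} (h : LE X a b l) : LE X a b (l - 2 * π) := ⟨h.1, h.2.sub2⟩

/-- directions from the start point lie in `[l, l + π)` modulo `2π` -/
theorem lo {a b y : Pt} {l m : ℝ} (h : LE X a b l) (hy : y ∈ X) (hm : Dir a y m)
    (h1 : l - π ≤ m) : l ≤ m := by
  by_cases e : y = b
  · subst e; exact hm.le_of h.2 (by linarith [pi_pos])
  · exact (pos_lo (h.1.2.2.2 y hy hm.ne.symm e) h.2 hm h1).le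

theorem hi {a b y : Pt} {l m : ℝ} (h : LE X a b l) (hy : y ∈ X) (hm : Dir a y m)
    (h1 : m < l + 2 * π) : m < l + π := by
  by_cases e : y = b
  · subst e; linarith [h.2.le_of hm h1, pi_pos]
  · exact pos_hi (h.1.2.2.2 y hy hm.ne.symm e) h.2 hm h1.le

/-- directions from the end point lie in `(l, l + π]` modulo `2π` -/
theorem lo' {a b y : Pt} {l m : ℝ} (h : LE X a b l) (hy : y ∈ X) (hm : Dir b y m)
    (h1 : l - π < m) : l < m := by
  by_cases e : y = a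
  · subst e; linarith [h.2.rev'.gap hm h1, pi_pos]
  · have ho : ori b a y < 0 := by
      rw [ori_swap']; linarith [h.1.2.2.2 y hy e hm.ne.symm]
    linarith [neg_lo ho h.2.rev' hm h1.le]

theorem hi' {a b y : Pt} {l m : ℝ} (h : LE X a b l) (hy : y ∈ X) (hm : Dir b y m)
    (h1 : m ≤ l + 2 * π) : m ≤ l + π := by
  by_cases e : y = a
  · subst e; exact h.2.rev.le_of hm (by linarith [pi_pos])
  · have ho : ori b a y < 0 := by
      rw [ori_swap']; linarith [h.1.2.2.2 y hy e hm.ne.symm]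
    exact (neg_hi ho h.2.rev hm (by linarith)).le

theorem exists_dir {a b y : Pt} {l : ℝ} (h : LE X a b l) (hy : y ∈ X) (hya : y ≠ a) :
    ∃ m, Dir a y m ∧ l ≤ m ∧ m < l + π := by
  obtain ⟨m, hm, h1, h2⟩ := dir_window hya.symm l
  exact ⟨m, hm, h1, h.hi hy hm h2⟩

theorem exists_dir' {a b y : Pt} {l : ℝ} (h : LE X a b l) (hy : y ∈ X) (hyb : y ≠ b) :
    ∃ m, Dir b y m ∧ l < m ∧ m ≤ l + π := by
  obtain ⟨m, hm, h1, h2⟩ := dir_window' hyb.symm l
  exact ⟨m, hm, h1, h.hi' hy hm h2⟩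

end LE

theorem HE.unique_out {a b b' : Pt} (h : HE X a b) (h' : HE X a b') : b = b' := by
  by_contra e
  have h1 := h.2.2.2 b' h'.2.1 h'.2.2.1.symm (Ne.symm e)
  have h2 := h'.2.2.2 b h.2.1 h.2.2.1.symm e
  rw [ori_swap] at h2; linarith

theorem HE.unique_in {a a' b : Pt} (h : HE X a b) (h' : HE X a' b) : a = a' := by
  by_contra e
  have h1 := h.2.2.2 a' h'.1 (Ne.symm e) h'.2.2.1
  have h2 := h'.2.2.2 a h.1 e h.2.2.1
  rw [ori_swap''] at h2; linarith

theorem HE.exists_le {a b : Pt} (h : HE X a b) (c : ℝ) :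
    ∃ l, LE X a b l ∧ c ≤ l ∧ l < c + 2 * π := by
  obtain ⟨l, hl, h1, h2⟩ := dir_window h.2.2.1 c
  exact ⟨l, ⟨h, hl⟩, h1, h2⟩

/-- a later lifted edge starting at another vertex is later than the direction to that vertex -/
theorem LE.far {a b a' b' : Pt} {l l' m : ℝ} (h' : LE X a' b' l') (h : LE X a b l) (hl : l ≤ l')
    (hm : Dir a a' m) (h2 : m < l + π) : m < l' := by
  by_contra hc
  push Not at hc
  have := h'.hi h.ha hm.rev (by linarith)
  linarith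

theorem LE.unique {a b a' b' : Pt} {l : ℝ} (h : LE X a b l) (h' : LE X a' b' l) :
    a = a' ∧ b = b' := by
  have e : a = a' := by
    by_contra e
    obtain ⟨m, hm, h1, h2⟩ := h.exists_dir h'.ha (Ne.symm e)
    linarith [h'.far h le_rfl hm h2]
  subst e
  exact ⟨rfl, h.1.unique_out h'.1⟩

theorem LE.same_start {a b b' : Pt} {l l' : ℝ} (h : LE X a b l) (h' : LE X a b' l') :
    ∃ n : ℤ, l' = l + n * (2 * π) := by
  obtain rfl := h.1.unique_out h'.1
  exact h.2.unique h'.2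

theorem LE.same_start_gap {a b b' : Pt} {l l' : ℝ} (h : LE X a b l) (h' : LE X a b' l')
    (hl : l < l') : l + 2 * π ≤ l' := by
  obtain rfl := h.1.unique_out h'.1
  exact h.2.gap h'.2 hl

theorem exists_out_of_spread (hX : GP X) {a : Pt} (ha : a ∈ X) (m : Pt → ℝ)
    (hm : ∀ y ∈ X, y ≠ a → Dir a y (m y))
    (hs : ∀ y ∈ X, y ≠ a → ∀ y' ∈ X, y' ≠ a → m y < m y' + π) (hne : ∃ y ∈ X, y ≠ a) :
    ∃ b, LE X a b (m b) ∧ ∀ y ∈ X, y ≠ a → m b ≤ m y := by
  classical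
  obtain ⟨y0, hy0, hy0'⟩ := hne
  obtain ⟨b, hb, hmin⟩ := (X.erase a).exists_min_image m ⟨y0, Finset.mem_erase.mpr ⟨hy0', hy0⟩⟩
  obtain ⟨hba, hb⟩ := Finset.mem_erase.mp hb
  have hmin' : ∀ y ∈ X, y ≠ a → m b ≤ m y := fun y hy h => hmin y (Finset.mem_erase.mpr ⟨h, hy⟩)
  refine ⟨b, ⟨⟨ha, hb, hba.symm, fun y hy h1 h2 => ?_⟩, hm b hb hba⟩, hmin'⟩
  have := ori_nonneg_of (hm b hb hba) (hm y hy h1) (hmin' y hy h1) (hs y hy h1 b hb hba).le
  exact lt_of_le_of_ne this (hX a ha b hb y hy hba.symm h1.symm h2.symm).symm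

theorem exists_in_of_spread (hX : GP X) {a : Pt} (ha : a ∈ X) (m : Pt → ℝ)
    (hm : ∀ y ∈ X, y ≠ a → Dir a y (m y))
    (hs : ∀ y ∈ X, y ≠ a → ∀ y' ∈ X, y' ≠ a → m y < m y' + π) (hne : ∃ y ∈ X, y ≠ a) :
    ∃ b, LE X b a (m b - π) ∧ ∀ y ∈ X, y ≠ a → m y ≤ m b := by
  classical
  obtain ⟨y0, hy0, hy0'⟩ := hne
  obtain ⟨b, hb, hmax⟩ := (X.erase a).exists_max_image m ⟨y0, Finset.mem_erase.mpr ⟨hy0', hy0⟩⟩
  obtain ⟨hba, hb⟩ := Finset.mem_erase.mp hb
  have hmax' : ∀ y ∈ X, y ≠ a → m y ≤ m b := fun y hy h => hmax y (Finset.mem_erase.mpr ⟨h, hy⟩)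
  refine ⟨b, ⟨⟨hb, ha, hba, fun y hy h1 h2 => ?_⟩, (hm b hb hba).rev'⟩, hmax'⟩
  have := ori_nonneg_of (hm y hy h2) (hm b hb hba) (hmax' y hy h2) (hs b hb hba y hy h2).le
  rw [ori_cyc']  at this
  exact lt_of_le_of_ne this (hX b hb a ha y hy hba h1.symm h2.symm).symm

theorem exists_out_of_window (hX : GP X) {a : Pt} (ha : a ∈ X) {L : ℝ}
    (hw : ∀ y ∈ X, y ≠ a → InW a L (L + π) y) (hne : ∃ y ∈ X, y ≠ a) :
    ∃ b l, LE X a b l ∧ L < l ∧ l < L + π := by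
  classical
  choose! m hm using hw
  obtain ⟨b, hb, -⟩ := exists_out_of_spread hX ha m (fun y hy h => (hm y hy h).1)
    (fun y hy h y' hy' h' => by linarith [(hm y hy h).2.2, (hm y' hy' h').2.1]) hne
  exact ⟨b, m b, hb, (hm b hb.hb hb.ne.symm).2⟩

theorem LE.next (hX : GP X) {a b : Pt} {l : ℝ} (h : LE X a b l) :
    ∃ c l', LE X b c l' ∧ l < l' ∧ l' ≤ l + π := by
  classical
  have := fun y hy hyb => h.exists_dir' (y := y) hy hyb
  choose! m hm using this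
  obtain ⟨c, hc, -⟩ := exists_out_of_spread hX h.hb m (fun y hy h => (hm y hy h).1)
    (fun y hy h y' hy' h' => by linarith [(hm y hy h).2.2, (hm y' hy' h').2.1]) ⟨a, h.ha, h.ne⟩
  exact ⟨c, m c, hc, (hm c hc.hb hc.ne.symm).2⟩

theorem LE.prev (hX : GP X) {b c : Pt} {l' : ℝ} (h : LE X b c l') :
    ∃ a l, LE X a b l ∧ l < l' ∧ l' ≤ l + π := by
  classical
  have := fun y hy hyb => h.exists_dir (y := y) hy hyb
  choose! m hm using this
  obtain ⟨a, ha, -⟩ := exists_in_of_spread hX h.ha m (fun y hy h => (hm y hy h).1)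
    (fun y hy h y' hy' h' => by linarith [(hm y hy h).2.2, (hm y' hy' h').2.1])
    ⟨c, h.hb, h.ne.symm⟩
  have := (hm a ha.ha ha.ne).2
  exact ⟨a, m a - π, ha, by linarith, by linarith⟩

/-- if there is a third point, consecutive edges turn by less than `π` -/
theorem LE.turn_lt {a b c : Pt} {l l' : ℝ} (h : LE X a b l) (h' : LE X b c l')
    (h2 : l' ≤ l + π) (hac : c ≠ a) : l' < l + π := by
  have ho : ori b a c < 0 := by
    rw [ori_swap']; linarith [h.1.2.2.2 c h'.hb hac h'.ne.symm]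
  exact neg_hi ho h.2.rev h'.2 (by linarith [pi_pos])

theorem HE.next_ne {a b c : Pt} (h : HE X a b) (h' : HE X b c) (h3 : 3 ≤ X.card) : c ≠ a := by
  classical
  rintro rfl
  have : ¬ X ⊆ {c, b} := by
    intro hs
    have := Finset.card_le_card hs
    have := Finset.card_le_two (a := c) (b := b)
    omega
  obtain ⟨y, hy, hn⟩ := Finset.not_subset.mp this
  simp only [Finset.mem_insert, Finset.mem_singleton, not_or] at hn
  have h1 := h.2.2.2 y hy hn.1 hn.2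
  have h2 := h'.2.2.2 y hy hn.2 hn.1
  rw [ori_swap'] at h2; linarith

/-- no lifted hull edge lies strictly between consecutive ones -/
theorem LE.consec {a b c x y : Pt} {l l' m : ℝ} (h : LE X a b l) (h' : LE X b c l')
    (h2 : l' ≤ l + π) (hx : LE X x y m) (h3 : l < m) : l' ≤ m := by
  by_contra hc
  push Not at hc
  have hp := pi_pos
  by_cases e : x = b
  · subst e
    linarith [hx.same_start_gap h' hc]
  · obtain ⟨k, hk, k1, k2⟩ := hx.exists_dir h.hb (Ne.symm e)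
    have e1 := h'.hi hx.ha hk.rev
    have e2 := h'.lo hx.ha hk.rev'
    have e3 := h.hi' hx.ha hk.rev
    by_cases hc2 : k + π ≤ l + 2 * π
    · linarith [e3 hc2]
    · push Not at hc2
      linarith [e2 (by linarith)]

theorem born_mono {V : Pt → ℝ} (hV : IsView X V) {a b a' b' : Pt} {l l' : ℝ} (h : LE X a b l)
    (h' : LE X a' b' l') (hl : l ≤ l') (hb : l' - π < V a') : l - π < V a := by
  by_cases e : a' = a
  · subst e; linarith
  · obtain ⟨m, hm, m1, m2⟩ := h.exists_dir h'.ha e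
    have := h'.far h hl hm m2
    have := (hV.born_iff h.ha h'.ha hm).mpr (by linarith)
    linarith

theorem alive_mono {V : Pt → ℝ} (hV : IsView X V) {a b a' b' : Pt} {l l' : ℝ} (h : LE X a b l)
    (h' : LE X a' b' l') (hl : l ≤ l') (hb : V a < l) : V a' < l' := by
  by_cases e : a' = a
  · subst e; linarith
  · obtain ⟨m, hm, m1, m2⟩ := h.exists_dir h'.ha e
    have := h'.far h hl hm m2
    have := (hV.iff a h.ha a' h'.ha m hm).mp (by linarith)
    linarith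

/-! ### removing a point -/

theorem HE.erase [DecidableEq Pt] {a b w : Pt} (h : HE X a b) (ha : a ≠ w) (hb : b ≠ w) :
    HE (X.erase w) a b :=
  ⟨Finset.mem_erase.mpr ⟨ha, h.1⟩, Finset.mem_erase.mpr ⟨hb, h.2.1⟩, h.2.2.1,
    fun y hy => h.2.2.2 y (Finset.mem_of_mem_erase hy)⟩

theorem HE.of_erase [DecidableEq Pt] (hX : GP X) {a b w : Pt} (hw : w ∈ X)
    (h : HE (X.erase w) a b) : HE X a b ∨ ori a b w < 0 := by
  obtain ⟨haw, ha⟩ := Finset.mem_erase.mp h.1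
  obtain ⟨hbw, hb⟩ := Finset.mem_erase.mp h.2.1
  rcases lt_or_gt_of_ne (hX a ha b hb w hw h.2.2.1 haw hbw) with h1 | h1
  · exact Or.inr h1
  · refine Or.inl ⟨ha, hb, h.2.2.1, fun y hy h2 h3 => ?_⟩
    by_cases e : y = w
    · subst e; exact h1
    · exact h.2.2.2 y (Finset.mem_erase.mpr ⟨e, hy⟩) h2 h3

theorem CP.subset (hX : GP X) (h : CP X) {Y : Finset Pt} (hY : Y ⊆ X) : CP Y := by
  classical
  intro a ha h2
  obtain ⟨b, hb⟩ := h a (hY ha) (h2.trans (Finset.card_le_card hY))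
  obtain ⟨l, hl, -⟩ := hb.exists_le 0
  have := fun y hy hyb => hl.exists_dir (y := y) hy hyb
  choose! m hm using this
  obtain ⟨y, hy, hya⟩ := Finset.exists_mem_ne (by omega : 1 < Y.card) a
  obtain ⟨c, hc, -⟩ := exists_out_of_spread (hX.mono hY) ha m (fun y hy h => (hm y (hY hy) h).1)
    (fun y hy h y' hy' h' => by linarith [(hm y (hY hy) h).2.2, (hm y' (hY hy') h').2.1])
    ⟨y, hy, hya⟩
  exact ⟨c, hc.1⟩

theorem IsFeas.per_int {K : ℕ} {V : ℤ → Pt → ℝ} {μ : Pt → ℝ → ℤ} (h : IsFeas X K V μ)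
    {a b : Pt} {l : ℝ} (hl : LE X a b l) (n : ℤ) : μ a (l + n * (2 * π)) = μ a l + K * n := by
  induction n using Int.induction_on with
  | zero => simp
  | succ n ih =>
    have := h.per a b _ (hl.add_int n)
    rw [show l + (((n : ℤ) + 1 : ℤ) : ℝ) * (2 * π) = l + ((n : ℤ) : ℝ) * (2 * π) + 2 * π by
      push_cast; ring, this, ih]; ring
  | pred n ih =>
    have := h.per a b _ (hl.add_int (-(n : ℤ) - 1))
    rw [show l + ((-(n : ℤ) - 1 : ℤ) : ℝ) * (2 * π) + 2 * π = l + ((-(n : ℤ) : ℤ) : ℝ) * (2 * π) by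
      push_cast; ring, ih] at this
    linarith

theorem IsFeas.mono_le {K : ℕ} {V : ℤ → Pt → ℝ} {μ : Pt → ℝ → ℤ} (h : IsFeas X K V μ)
    {a b a' b' : Pt} {l l' : ℝ} (hl : LE X a b l) (hl' : LE X a' b' l') (hle : l ≤ l') :
    μ a l ≤ μ a' l' := by
  rcases hle.eq_or_lt with rfl | hlt
  · rw [(hl.unique hl').1]
  · exact (h.mono _ _ _ _ _ _ hl hl' hlt).le

theorem IsFeas.lt_of {K : ℕ} {V : ℤ → Pt → ℝ} {μ : Pt → ℝ → ℤ} (h : IsFeas X K V μ)
    {a b a' b' : Pt} {l l' : ℝ} (hl : LE X a b l) (hl' : LE X a' b' l') (hlt : μ a l < μ a' l') :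
    l < l' := by
  by_contra hc
  push Not at hc
  linarith [h.mono_le hl' hl hc]

theorem IsFeas.eq_of {K : ℕ} {V : ℤ → Pt → ℝ} {μ : Pt → ℝ → ℤ} (h : IsFeas X K V μ)
    {a b a' b' : Pt} {l l' : ℝ} (hl : LE X a b l) (hl' : LE X a' b' l') (he : μ a l = μ a' l') :
    l = l' := by
  rcases lt_trichotomy l l' with h1 | h1 | h1
  · linarith [h.mono _ _ _ _ _ _ hl hl' h1]
  · exact h1
  · linarith [h.mono _ _ _ _ _ _ hl' hl h1]

end Pool.Agent.CT
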