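import Pool.Agent.Lib.MP_a7588a_co.Fan

/-! List versions of the winding estimates, and angle bounds in slot states. -/

set_option autoImplicit false

namespace Pool.Agent.CT

open Real

variable {X : Finset Pt}

namespace LP

variable {K : ℕ} {U : ℤ → Pt → ℝ} {i : ℤ} {l : List Pt}

theorem toFP' (h : LP X K U i l) (hn : 0 < l.length) :
    ∃ (v : ℤ → Pt) (W : ℤ → Pt → ℝ), FP X l.length W v ∧ win v 0 l.length = l ∧
      (∀ k : ℤ, 0 ≤ k → k < l.length → W k = U (i + k)) ∧
      (∀ x ∈ X, W (-1) x = U (i + l.length - 1) x - 2 * π) ∧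
      ∀ A a B, l ++ l.take 1 = A ++ a :: B → v A.length = a := by
  obtain ⟨v, W, h1, h2, h3, h4, -⟩ := h.toFP hn
  refine ⟨v, W, h1, h2, h3, h4, fun A a B e => ?_⟩
  have e1 := win_close hn h1.per 0
  rw [h2, e] at e1
  have hl : A.length < (win v 0 (l.length + 1)).length := by rw [← e1]; simp
  have := getElem_win v 0 _ _ hl
  simp only [← e1, zero_add] at this
  simpa using this.symm

theorem lw (h : LP X K U i l) (hX : GP X) {g : Pt} (hg : g ∈ l) : cang g l < 2 * π := by
  obtain ⟨v, W, h1, h2, -⟩ := h.toFP (List.length_pos_of_mem hg)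
  rw [← h2] at hg
  obtain ⟨k, -, -, rfl⟩ := mem_win.mp hg
  have := h1.lw hX k 0
  rwa [h2] at this

theorem w_head (hX : GP X) {y p q : Pt} {T B C : List Pt} (h : LP X K U i (y :: T))
    (e1 : T = q :: C) (e2 : T = B ++ [p]) {lp lq : ℝ} (hp : Dir y p lp)
    (hp1 : U (i + T.length) y - 3 * π < lp) (hq : Dir y q lq) (hq1 : lq < U i y + π) :
    cang y (y :: T) ≤ lp + 2 * π - lq := by
  obtain ⟨v, W, h1, h2, h3, h4, h5⟩ := h.toFP' (by simp)
  have v0 : v 0 = y := h5 [] y (T ++ [y]) (by simp)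
  have v1 : v (0 + 1) = q := by simpa using h5 [y] q (C ++ [y]) (by simp [e1])
  have v2 : v (0 - 1) = p := by
    have := h5 (y :: B) p [y] (by simp [e2])
    rw [← this, ← h1.per]; congr 1; simp [e2]
  have hy : y ∈ X := h.mem y (by simp)
  have := h1.fw1 hX (k := 0) 0 (lp := lp) (lq := lq) (by rwa [v0, v2]) (by
    rw [v0, zero_sub, h4 y hy]
    simp only [List.length_cons]; push_cast
    rw [show i + ((T.length : ℤ) + 1) - 1 = i + T.length by ring]; linarith)
    (by rwa [v0, v1]) (by rw [v0, h3 0 le_rfl (by simp), add_zero]; exact hq1)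
  rwa [h2, v0] at this

theorem w_mid (hX : GP X) {y p q : Pt} {A B : List Pt} (h : LP X K U i l)
    (e : l ++ l.take 1 = A ++ p :: y :: q :: B) {lp lq : ℝ} (hp : Dir y p lp)
    (hp1 : U (i + A.length) y - π < lp) (hq : Dir y q lq) (hq1 : lq < U (i + A.length + 1) y + π) :
    cang y l ≤ lp + 2 * π - lq := by
  have hl := congrArg List.length e
  simp only [List.length_append, List.length_take, List.length_cons] at hl
  obtain ⟨v, W, h1, h2, h3, -, h5⟩ := h.toFP' (by omega)
  have v0 : v (A.length + 1) = y := by simpa using h5 (A ++ [p]) y (q :: B) (by simp [e])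
  have v1 : v (A.length + 1 + 1) = q := by
    have := h5 (A ++ [p, y]) q B (by simp [e])
    rw [← this]; congr 1; simp; ring
  have v2 : v (A.length + 1 - 1) = p := by simpa using h5 A p (y :: q :: B) e
  have := h1.fw1 hX (k := A.length + 1) 0 (lp := lp) (lq := lq) (by rwa [v0, v2]) (by
    rw [v0, add_sub_cancel_right, h3 _ (by omega) (by omega)]; exact hp1)
    (by rwa [v0, v1]) (by rw [v0, h3 _ (by omega) (by omega), ← add_assoc]; exact hq1)
  rwa [h2, v0] at this

theorem front (hX : GP X) {a b y : Pt} {A B : List Pt} (h : LP X K U i l)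
    (e : l ++ l.take 1 = A ++ a :: b :: B) (hy : y ∈ X) (hpos : 0 < cang y l)
    (h1 : vlt (U (i + A.length)) a y) (h2 : vlt (U (i + A.length)) y b) : 0 < ori a b y := by
  have hl := congrArg List.length e
  simp only [List.length_append, List.length_take, List.length_cons] at hl
  obtain ⟨v, W, f1, f2, f3, -, f5⟩ := h.toFP' (by omega)
  have v0 : v A.length = a := f5 A a _ e
  have v1 : v (A.length + 1) = b := by simpa using f5 (A ++ [a]) b B (by simp [e])
  have := f1.ffront hX hy (s := 0) (by rwa [f2]) (e := A.length)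
    (by rwa [v0, f3 _ (by omega) (by omega)]) (by rwa [v1, f3 _ (by omega) (by omega)])
  rwa [v0, v1] at this

end LP

/-- the list enumerates `X` -/
def All (X : Finset Pt) (l : List Pt) : Prop := l.Nodup ∧ ∀ x, x ∈ X ↔ x ∈ l

theorem All.perm {l l' : List Pt} (h : All X l) (hp : l.Perm l') : All X l' :=
  ⟨hp.nodup_iff.mp h.1, fun x => (h.2 x).trans hp.mem_iff⟩

theorem All.length {l : List Pt} (h : All X l) : l.length = X.card := by
  classical
  rw [← List.toFinset_card_of_nodup h.1]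
  congr 1
  ext x; simp [h.2]

theorem All.mem {l : List Pt} (h : All X l) : ∀ x ∈ l, x ∈ X := fun x hx => (h.2 x).mpr hx

theorem All.lp {r v : Pt} {T : List Pt} (h : All X (r :: v :: T)) {U : ℤ → Pt → ℝ}
    (hs : Sys X X.card U) {i : ℤ} (hc : Chain U i (v :: (T ++ [v]))) :
    LP X X.card U i (v :: T) :=
  ⟨hs, fun x hx => h.mem x (List.mem_cons_of_mem _ hx), h.1.of_cons,
    by have := h.length; simp at this ⊢; omega, by simpa using hc⟩

theorem exists_snoc {α : Type*} (a : α) (l : List α) : ∃ A p, a :: l = A ++ [p] := by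
  rcases List.eq_nil_or_concat (a :: l) with h | ⟨A2, p, h⟩
  · simp at h
  · exact ⟨A2, p, by simpa using h⟩

theorem exists_cons {α : Type*} (l : List α) (a : α) : ∃ q C, l ++ [a] = q :: C := by
  cases l with
  | nil => exact ⟨a, [], rfl⟩
  | cons b l => exact ⟨b, l ++ [a], rfl⟩

namespace Geo

variable {r v : Pt} {M : List Pt} {S : List Seg}

theorem main_le (hG : Geo r v M S) (hm : ∀ x ∈ r :: v :: (M ++ flat S), x ∈ X) {y : Pt}
    (hg : Gen y X) :
    cang y (r :: ((fsts S ++ v :: M) ++ [hd S v])) ≤ cang y (v :: (M ++ flat S)) := by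
  rw [geo_cang y r v M S]
  linarith [pcs_nonneg hg hG.pieces fun x hx => hm x (by simp at hx ⊢; tauto)]

/-- angle at `v` from the successor to the path neighbour -/
theorem lb1 (hX : GP X) (hG : Geo r v M S) (hm : ∀ x ∈ r :: v :: (M ++ flat S), x ∈ X) {w : Pt}
    {C : List Pt} (ew : M ++ flat S = w :: C) :
    ∃ T, 0 < T ∧ T ≤ cang v (v :: (M ++ flat S)) ∧ ∀ l, Dir v w l → Dir v (lst r S) (l + T) := by
  have hg := hX.gen (hm v (by simp))
  obtain ⟨C1, e2⟩ : ∃ C1, M ++ [hd S v] = w :: C1 := by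
    cases M with
    | nil => cases S with
      | nil => simp at ew
      | cons s S => simp at ew; exact ⟨[], by simp [ew.1]⟩
    | cons a M1 => simp at ew; exact ⟨M1 ++ [hd S v], by simp [ew.1]⟩
  obtain ⟨F, hF⟩ := fsts_lst r S
  have e6 : r :: ((fsts S ++ v :: M) ++ [hd S v]) = F ++ lst r S :: v :: w :: C1 := by
    rw [← e2, List.append_assoc, ← List.cons_append, hF]; simp
  obtain ⟨T1, s1, s2, -, s3⟩ := (e6 ▸ hG.main.triL).lb_mid hg (e6 ▸ main_mem hm)
  rw [← e6] at s2
  exact ⟨T1, s1, s2.trans (hG.main_le hm hg), s3⟩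

/-- angle at the last path vertex -/
theorem lb_conc (hX : GP X) {g : Pt} {N : List Pt} (hG : Geo r v M (S ++ [(g, N)]))
    (hm : ∀ x ∈ r :: v :: (M ++ flat (S ++ [(g, N)])), x ∈ X) :
    ∃ T, π < T ∧ T ≤ cang g (v :: (M ++ flat (S ++ [(g, N)]))) ∧
      ∀ l, Dir g v l → Dir g (lst r S) (l + T) := by
  have hg := hX.gen (hm g (by simp))
  obtain ⟨F, hF⟩ := fsts_lst r S
  have e6 : r :: ((fsts (S ++ [(g, N)]) ++ v :: M) ++ [hd (S ++ [(g, N)]) v]) =
      F ++ lst r S :: g :: v :: (M ++ [hd (S ++ [(g, N)]) v]) := by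
    rw [fsts_append, List.append_assoc, List.append_assoc, ← List.cons_append, hF]; simp
  obtain ⟨T1, s1, s2, s0, s3⟩ := (e6 ▸ hG.main.triL).lb_mid hg (e6 ▸ main_mem hm)
  rw [← e6] at s2
  have hconc : Conc (r :: (fsts S ++ g :: v :: [])) := by simpa using hG.conc
  obtain ⟨-, k2, -⟩ := (conc_mid _ _ _ _ _).mp hconc
  obtain ⟨l, hl⟩ := dir_exists s0.symm
  have := neg_lo (by rwa [ori_cyc] at k2) hl (s3 l hl) (by linarith)
  exact ⟨T1, by linarith, s2.trans (hG.main_le hm hg), s3⟩

/-- the path neighbour lies in the angle between successor and predecessor -/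
theorem ang (hX : GP X) (hG : Geo r v M S) (hm : ∀ x ∈ r :: v :: (M ++ flat S), x ∈ X) {w u : Pt}
    {C B : List Pt} (ew : M ++ flat S = w :: C) (eu : M ++ flat S = B ++ [u]) :
    lst r S = u ∨ ∃ T1 T2, 0 < T1 ∧ 0 < T2 ∧ T1 + T2 ≤ cang v (v :: (M ++ flat S)) ∧
      (∀ l, Dir v w l → Dir v (lst r S) (l + T1)) ∧ ∀ l, Dir v (lst r S) l → Dir v u (l + T2) := by
  have hv : v ∈ X := hm v (by simp)
  have hg := hX.gen hv
  have mm := main_mem hm
  have tail : ∀ {c : Pt} {B1 B0 : List Pt}, Tri c B1 v → (∀ x ∈ c :: (B1 ++ [v]), x ∈ X) →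
      c :: B1 = B0 ++ [u] → c = u ∨ ∃ T, 0 < T ∧ T ≤ cang v (c :: (B1 ++ [v])) ∧
        ∀ l, Dir v c l → Dir v u (l + T) := by
    intro c B1 B0 t m e
    rcases List.eq_nil_or_concat B1 with rfl | ⟨B2, p, rfl⟩
    · left
      have := List.append_inj' (show [] ++ [c] = B0 ++ [u] from e) rfl
      simpa using this.2
    · rw [List.concat_eq_append] at *
      have := List.append_inj' (show (c :: B2) ++ [p] = B0 ++ [u] from e) rfl
      obtain rfl : p = u := by simpa using this.2
      obtain ⟨T, a1, a2, -, a3⟩ := t.lb_aux hg m B2 p rfl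
      exact Or.inr ⟨T, a1, a2, a3⟩
  rcases List.eq_nil_or_concat S with rfl | ⟨S1, ⟨g, N⟩, rfl⟩
  · right
    simp only [flat_nil, List.append_nil, lst_nil, fsts_nil, List.nil_append, hd_nil] at *
    have hmain : Tri r (v :: M) v := by simpa using hG.main
    obtain ⟨A, c, B1, e1, t1, t2, ho⟩ := hmain.inv (by simp)
    have hcv : c ≠ v := (ne_of_ori ho.ne').2.2
    cases A with
    | nil => simp at e1; exact absurd e1.1.symm hcv
    | cons a M1 =>
    simp only [List.cons_append, List.cons.injEq] at e1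
    obtain ⟨rfl, rfl⟩ := e1
    have ho' : 0 < ori v r c := by rwa [ori_cyc'] at ho
    obtain ⟨d1, -, d3⟩ := del_pos ho'
    have c1 := geo_cang v r v (M1 ++ c :: B1) []
    simp only [flat_nil, List.append_nil, fsts_nil, List.nil_append, hd_nil, pcs, add_zero] at c1
    rw [← List.cons_append, cang_node] at c1
    simp only [List.cons_append] at c1
    obtain ⟨C1, e2⟩ : ∃ C1, M1 ++ [c] = w :: C1 := by
      cases M1 with
      | nil => simp at ew; exact ⟨[], by simp [ew.1]⟩
      | cons a M1 => simp at ew; exact ⟨M1 ++ [c], by simp [ew.1]⟩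
    have t3 : TriL ([] ++ r :: v :: w :: C1) := by
      have := t1.triL; rw [List.cons_append, e2] at this; exact this
    obtain ⟨S1, s1, s2, -, s3⟩ := t3.lb_mid hg fun x hx => hm x (by
      rw [List.nil_append, ← e2] at hx; simp at hx ⊢; tauto)
    rw [List.nil_append, ← e2] at s2
    have m2 : ∀ x ∈ c :: (B1 ++ [v]), x ∈ X := fun x hx => hm x (by simp at hx ⊢; tauto)
    have n2 := t2.cang_nonneg hg m2
    obtain ⟨A2, p, e3⟩ := exists_snoc c B1
    have e4 : (M1 ++ A2) ++ [p] = B ++ [u] := by rw [← eu, e3]; simp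
    obtain rfl : p = u := by simpa using (List.append_inj' e4 rfl).2
    rcases tail t2 m2 e3 with rfl | ⟨T, a1, a2, a3⟩
    · exact ⟨S1, _, s1, d1, by linarith, s3, d3⟩
    · exact ⟨S1, del v r c + T, s1, by linarith, by linarith, s3,
        fun l hl => (a3 _ (d3 l hl)).congr (by ring)⟩
  · rw [List.concat_eq_append] at *
    have el : lst r (S1 ++ [(g, N)]) = g := by simp [lst_append]
    rw [el]
    obtain ⟨hp1, hp2⟩ := (pieces_append _ _ _).mp hG.pieces
    simp only [hd_cons, pieces_cons, hd_nil, pieces_nil, and_true] at hp1 hp2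
    have hmain : Tri r (fsts S1 ++ g :: v :: M) (hd S1 g) := by
      simpa [hd_append] using hG.main
    have mm' : ∀ x ∈ r :: ((fsts S1 ++ g :: v :: M) ++ [hd S1 g]), x ∈ X := by
      simpa [hd_append] using mm
    have m1 : ∀ x ∈ flat S1 ++ [g], x ∈ X := fun x hx => hm x (by simp at hx ⊢; tauto)
    have m2 : ∀ x ∈ g :: (N ++ [v]), x ∈ X := fun x hx => hm x (by simp at hx ⊢; tauto)
    have c1 := geo_cang v r v M (S1 ++ [(g, N)])
    rw [pcs_append] at c1
    simp only [hd_append, hd_cons, hd_nil, pcs, add_zero, fsts_append, fsts_cons, fsts_nil,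
      List.append_assoc (fsts S1) [g], List.singleton_append] at c1
    obtain ⟨C1, e2⟩ : ∃ C1, M ++ [hd S1 g] = w :: C1 := by
      cases M with
      | nil => cases S1 <;> simp at ew <;> exact ⟨[], by simp [ew.1]⟩
      | cons a M1 => simp at ew; exact ⟨M1 ++ [hd S1 g], by simp [ew.1]⟩
    have e6 : r :: ((fsts S1 ++ g :: v :: M) ++ [hd S1 g]) = (r :: fsts S1) ++ g :: v :: w :: C1 := by
      rw [← e2]; simp
    obtain ⟨T1, s1, s2, -, s3⟩ := (e6 ▸ hmain.triL).lb_mid hg (e6 ▸ mm')
    rw [← e6] at s2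
    have n1 := pcs_nonneg hg hp1 m1
    obtain ⟨A2, p, e3⟩ := exists_snoc g N
    have e4 : (M ++ flat S1 ++ A2) ++ [p] = B ++ [u] := by
      rw [← eu, List.append_assoc _ A2, ← e3]; simp
    obtain rfl : p = u := by simpa using (List.append_inj' e4 rfl).2
    rcases tail hp2 m2 e3 with h | ⟨T, a1, a2, a3⟩
    · exact Or.inl h
    · exact Or.inr ⟨T1, T, s1, a1, by unfold cang at *; linarith, s3, a3⟩

/-- degenerate step -/
theorem deg (hG : Geo r v M S) (hn : (r :: v :: (M ++ flat S)).Nodup) {u : Pt} {B : List Pt}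
    (eu : M ++ flat S = B ++ [u]) (e : lst r S = u) :
    ∃ S1, S = S1 ++ [(u, [])] ∧ M ++ flat S1 = B ∧ Geo r u (v :: M) S1 := by
  rcases List.eq_nil_or_concat S with rfl | ⟨S1, ⟨g, N⟩, rfl⟩
  · exfalso
    simp only [lst_nil] at e
    subst e
    rw [eu] at hn
    simp at hn
  · rw [List.concat_eq_append] at *
    obtain rfl : g = u := by simpa [lst_append] using e
    have hN : N = [] := by
      rcases List.eq_nil_or_concat N with h | ⟨N', p, rfl⟩
      · exact h
      · exfalso
        have e4 : (M ++ flat S1 ++ g :: N') ++ [p] = B ++ [g] := by rw [← eu]; simp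
        obtain rfl : p = g := by simpa using (List.append_inj' e4 rfl).2
        simp [List.nodup_append] at hn
    subst hN
    refine ⟨S1, rfl, ?_, ?_, ?_, ?_⟩
    · have e4 : (M ++ flat S1) ++ [g] = B ++ [g] := by rw [← eu]; simp
      exact (List.append_inj' e4 rfl).1
    · simpa [hd_append] using hG.main
    · simpa using ((pieces_append _ _ _).mp hG.pieces).1
    · have hconc : Conc (r :: (fsts S1 ++ g :: v :: [])) := by simpa using hG.conc
      exact ((conc_mid _ _ _ _ _).mp hconc).1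

theorem glue {x : Pt} {N : List Pt} (hG : Geo r v (x :: M) S) (h : Tri v N x) :
    Geo r v (N ++ x :: M) S := by
  refine ⟨?_, hG.pieces, hG.conc⟩
  have t4 : TriL ((r :: fsts S) ++ v :: x :: (M ++ [hd S v])) := by simpa using hG.main.triL
  exact TriL.tri (by simpa using t4.glue h)

end Geo

theorem Pre.slide {r v u : Pt} {M : List Pt} {S : List Seg} (h : Pre r v u M S) :
    Geo r u (v :: M) S := by
  refine ⟨?_, h.pieces, h.conc⟩
  obtain ⟨F, hF⟩ := fsts_lst r S
  have e : ∀ T : List Pt, r :: (fsts S ++ T) = F ++ lst r S :: T := fun T => by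
    rw [← List.cons_append, hF]; simp
  have t4 : TriL (F ++ lst r S :: v :: (M ++ [hd S u])) := by
    rw [← e]; simpa using h.main.triL
  have := t4.glue (Tri.single h.tri)
  rw [← e] at this
  exact TriL.tri (by simpa using this)

theorem Pre.pop {r v u z : Pt} {M N : List Pt} {S : List Seg} (h : Pre r v u M (S ++ [(z, N)])) :
    Geo r z (v :: M) S ∧ Tri z N u ∧ ori (lst r S) z u < 0 ∧ 0 < ori z u v := by
  obtain ⟨hp1, hp2⟩ := (pieces_append _ _ _).mp h.pieces
  have hconc : Conc (r :: (fsts S ++ z :: u :: [])) := by simpa using h.conc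
  obtain ⟨k1, k2, -⟩ := (conc_mid _ _ _ _ _).mp hconc
  exact ⟨⟨by simpa [hd_append] using h.main, hp1, k1⟩, hp2.1, k2, by simpa [lst_append] using h.tri⟩

end Pool.Agent.CT
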