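import Pool.Agent.Lib.MP_a7588a_co.Radial

/-! Block PFEAS: feasibility of the promoted system. -/

set_option autoImplicit false

namespace Pool.Agent.CT

open Real

theorem pfeas_mem {X : Finset Pt} {w a : Pt} : a ∈ del1 X w ↔ a ≠ w ∧ a ∈ X := by
  unfold del1
  exact Finset.mem_erase

/-- label of an old edge -/
def pfeasOld (X : Finset Pt) (K K' : ℕ) (Di Do : ℝ) (μ : Pt → ℝ → ℤ) (R : Pt → ℝ) (a : Pt)
    (l : ℝ) (q j : ℤ) : Prop :=
  ∃ b l0, LE X a b l0 ∧ l = l0 + q * (2 * π) ∧ Do < l0 ∧ l0 < Di + 2 * π ∧ j = μ a l0 + K' * q ∧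
    0 ≤ μ a l0 ∧ μ a l0 < (K : ℤ) - 2 ∧ R a < l0 - π ∧ l0 ≤ R a + 2 * π

/-- label of a new edge -/
def pfeasNew (Y : Finset Pt) (K K' : ℕ) (R : Pt → ℝ) (a : Pt) (l : ℝ) (q j : ℤ) : Prop :=
  R a + (q + 1) * (2 * π) < l ∧ l - π < R a + (q + 1) * (2 * π) ∧
    j = (K : ℤ) - 2 + rk Y R a + K' * q

section

variable {X : Finset Pt} {K N : ℕ} {V : ℤ → Pt → ℝ} {w wm wp : Pt} {Di Do : ℝ}
  {μ : Pt → ℝ → ℤ} {R : Pt → ℝ}

theorem pfeas_view (h : PData X K V w wm wp Di Do μ R) : IsView (del1 X w) R := by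
  refine radial_view (w := w) (fun a ha b hb hab => ?_) (fun a ha => ?_) fun a ha b hb => ?_
  · obtain ⟨h1, h2⟩ := pfeas_mem.1 ha
    obtain ⟨h3, h4⟩ := pfeas_mem.1 hb
    exact h.gp a h2 b h4 w h.eout.ha hab h1 h3
  · obtain ⟨h1, h2⟩ := pfeas_mem.1 ha
    exact (h.rad a h2 h1).1
  · obtain ⟨h1, h2⟩ := pfeas_mem.1 ha
    obtain ⟨h3, h4⟩ := pfeas_mem.1 hb
    linarith [(h.rad a h2 h1).2.2, (h.rad b h4 h3).2.1, h.lt]

theorem pfeas_exists (h : PData X K V w wm wp Di Do μ R) (K' : ℕ) {a b : Pt} {l : ℝ}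
    (hl : LE (del1 X w) a b l) :
    ∃ q j, pfeasOld X K K' Di Do μ R a l q j ∨ pfeasNew (del1 X w) K K' R a l q j := by
  classical
  have hp := pi_pos
  obtain ⟨haw, ha⟩ := pfeas_mem.1 hl.ha
  obtain ⟨hbw, hb⟩ := pfeas_mem.1 hl.hb
  obtain ⟨r1, r2, r3⟩ := h.rad a ha haw
  have hlt := h.lt
  have hle := h.le
  have hE : HE (X.erase w) a b := by
    have := hl.1
    unfold del1 at this
    convert this
  rcases HE.of_erase h.gp h.eout.ha hE with ho | hn
  · obtain ⟨l0, h0, b1, b2⟩ := ho.exists_le Do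
    have c1 : Do < l0 := by
      refine lt_of_le_of_ne b1 fun e => haw ?_
      subst e
      exact (h0.unique h.eout).1
    have c2 : l0 < Di + 2 * π := by
      by_contra hc
      rcases (not_lt.1 hc).eq_or_lt with e | e
      · subst e
        exact hbw (h0.unique h.ein.add2).2
      · linarith [h.ein.add2.consec h.eout.add2 (by linarith) h0 e]
    obtain ⟨q, hq⟩ := h0.2.unique hl.2
    obtain ⟨m, hm, m1, m2⟩ := h0.exists_dir h.eout.ha haw.symm
    have m3 := h.eout.add2.far h0 b2.le hm m2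
    have m4 := r1.add2.eq_of hm (by linarith) (by linarith)
    have u1 := h.feas.mono _ _ _ _ _ _ h.eout h0 c1
    have u2 := h.feas.mono _ _ _ _ _ _ h0 h.ein.add2 c2
    rw [h.feas.per _ _ _ h.ein] at u2
    have u3 := h.muin
    have u4 := h.muout
    exact ⟨q, _, Or.inl ⟨b, l0, h0, hq, c1, c2, rfl, by omega, by omega, by linarith,
      by linarith⟩⟩
  · obtain ⟨l0, h0, b1, b2⟩ := exists_dir_pos (show 0 < ori a w b by rw [ori_swap]; linarith)
      r1.add2
    obtain ⟨q, hq⟩ := h0.unique hl.2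
    exact ⟨q, _, Or.inr ⟨by linarith, by linarith, rfl⟩⟩

theorem pfeas_cast {q q' : ℤ} (h : q ≤ q') : (q : ℝ) * (2 * π) ≤ q' * (2 * π) := by
  have : (q : ℝ) ≤ q' := by exact_mod_cast h
  have := pi_pos
  gcongr

theorem pfeas_born {Y : Finset Pt} (hV : IsView Y R) {a b a' b' : Pt} {l l' : ℝ}
    (h : LE Y a b l) (h' : LE Y a' b' l') (hl : l ≤ l') {q q' : ℤ}
    (h1 : R a + q * (2 * π) ≤ l - π) (h2 : l' - π < R a' + (q' + 1) * (2 * π)) : q ≤ q' := by
  by_contra hc
  have hq : q' + 1 ≤ q := by omega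
  have hs := hV.shift (W := fun x => R x + ((q' + 1 : ℤ) : ℝ) * (2 * π)) (q' + 1) fun _ _ => rfl
  have := born_mono hs h h' hl (by push_cast; exact h2)
  linarith [pfeas_cast hq]

theorem pfeas_alive {Y : Finset Pt} (hV : IsView Y R) {a b a' b' : Pt} {l l' : ℝ}
    (h : LE Y a b l) (h' : LE Y a' b' l') (hl : l ≤ l') {q q' : ℤ}
    (h1 : R a + (q + 1) * (2 * π) < l) (h2 : l' ≤ R a' + (q' + 1) * (2 * π)) : q < q' := by
  by_contra hc
  have hq : q' + 1 ≤ q + 1 := by omega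
  have hs := hV.shift (W := fun x => R x + ((q + 1 : ℤ) : ℝ) * (2 * π)) (q + 1) fun _ _ => rfl
  have := alive_mono hs h h' hl (by push_cast; exact h1)
  have h3 := pfeas_cast hq
  push_cast at h3 this
  linarith

theorem pfeas_step {K' : ℕ} {q q' r r' : ℤ} (hq : q < q') (h1 : r < K') (h2 : 0 ≤ r') :
    r + K' * q < r' + K' * q' := by
  have : (K' : ℤ) * (q + 1) ≤ K' * q' := mul_le_mul_of_nonneg_left (by omega) (by positivity)
  linarith

theorem pfeas_cmp (h : PData X K V w wm wp Di Do μ R) (hN : X.card ≤ N) {a b a' b' : Pt}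
    {l l' : ℝ} (e : LE (del1 X w) a b l) (e' : LE (del1 X w) a' b' l') (hl : l ≤ l')
    {q j q' j' : ℤ}
    (p : pfeasOld X K (K - 2 + N) Di Do μ R a l q j ∨ pfeasNew (del1 X w) K (K - 2 + N) R a l q j)
    (p' : pfeasOld X K (K - 2 + N) Di Do μ R a' l' q' j' ∨
      pfeasNew (del1 X w) K (K - 2 + N) R a' l' q' j') :
    j ≤ j' ∧ (l < l' → j < j') := by
  have hp := pi_pos
  have hV := pfeas_view h
  have h2 := h.two
  have hK : ((K - 2 + N : ℕ) : ℤ) = (K : ℤ) - 2 + N := by omega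
  have hcard : (del1 X w).card ≤ N := by
    refine le_trans (Finset.card_le_card fun x hx => (pfeas_mem.1 hx).2) hN
  have hrk := rk_lt_card (V := R) e.ha
  have fin : j < j' → j ≤ j' ∧ (l < l' → j < j') := fun h => ⟨h.le, fun _ => h⟩
  rcases p with ⟨c, l0, o1, o2, o3, o4, o5, o6, o7, o8, o9⟩ | ⟨n1, n2, n3⟩ <;>
    rcases p' with ⟨c', l0', o1', o2', o3', o4', o5', o6', o7', o8', o9'⟩ | ⟨n1', n2', n3'⟩
  · rcases (pfeas_born hV e e' hl (q := q) (q' := q') (by linarith)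
      (by linarith)).eq_or_lt with rfl | hq
    · have := h.feas.mono_le o1 o1' (by linarith)
      exact ⟨by omega, fun hlt => by
        have := h.feas.mono _ _ _ _ _ _ o1 o1' (by linarith)
        omega⟩
    · exact fin (by rw [o5, o5']; exact pfeas_step hq (by omega) o6')
  · rcases (pfeas_born hV e e' hl (q := q) (q' := q') (by linarith) n2').eq_or_lt with rfl | hq
    · exact fin (by omega)
    · exact fin (by rw [o5, n3']; exact pfeas_step hq (by omega) (by omega))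
  · have hq := pfeas_alive hV e e' hl (q := q) (q' := q') n1 (by linarith)
    exact fin (by rw [n3, o5']; exact pfeas_step hq (by omega) o6')
  · rcases (pfeas_born hV e e' hl (q := q) (q' := q') (by linarith) n2').eq_or_lt with rfl | hq
    · rcases hl.eq_or_lt with rfl | hlt
      · obtain ⟨rfl, -⟩ := e.unique e'
        exact ⟨by omega, fun h => absurd h (lt_irrefl _)⟩
      · have hs := hV.shift (W := fun x => R x + ((q + 1 : ℤ) : ℝ) * (2 * π)) (q + 1)
          fun _ _ => rfl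
        have hv := vlt_of_sees_lt hs e e' hlt ⟨by push_cast; exact n2, by push_cast; exact n1⟩
          ⟨by push_cast; exact n2', by push_cast; exact n1'⟩
        have hv' : vlt R a a' := vlt_shift (-(q + 1)) (by push_cast; ring) hv
        have := rk_lt hV e.ha e'.ha hv'
        exact fin (by omega)
    · exact fin (by rw [n3, n3']; exact pfeas_step hq (by omega) (by omega))

end

theorem pfeas_ok : PFeasStmt := by
  intro X K N V w wm wp Di Do μ R h hN
  have hp := pi_pos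
  have h2 := h.two
  have hK : ((K - 2 + N : ℕ) : ℤ) = (K : ℤ) - 2 + N := by omega
  have hcard : (del1 X w).card ≤ N := by
    refine le_trans (Finset.card_le_card fun x hx => (pfeas_mem.1 hx).2) hN
  have hex : ∀ (a : Pt) (l : ℝ), ∃ j : ℤ, ∀ b, LE (del1 X w) a b l →
      ∃ q, pfeasOld X K (K - 2 + N) Di Do μ R a l q j ∨
        pfeasNew (del1 X w) K (K - 2 + N) R a l q j := by
    intro a l
    by_cases hb : ∃ b, LE (del1 X w) a b l
    · obtain ⟨b, hb⟩ := hb
      obtain ⟨q, j, hj⟩ := pfeas_exists h (K - 2 + N) hb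
      exact ⟨j, fun _ _ => ⟨q, hj⟩⟩
    · exact ⟨0, fun b hb' => absurd ⟨b, hb'⟩ hb⟩
  choose ν hν using hex
  refine ⟨ν, fun a b l e => ?_, fun a b l a' b' l' e e' hl => ?_, fun a b l e => ?_⟩
  · obtain ⟨q, p⟩ := hν a l b e
    obtain ⟨q', p'⟩ := hν a (l + 2 * π) b e.add2
    have p'' : pfeasOld X K (K - 2 + N) Di Do μ R a (l + 2 * π) (q + 1) (ν a l + (K - 2 + N : ℕ)) ∨
        pfeasNew (del1 X w) K (K - 2 + N) R a (l + 2 * π) (q + 1) (ν a l + (K - 2 + N : ℕ)) := by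
      rcases p with ⟨c, l0, o1, o2, o3, o4, o5, o6⟩ | ⟨n1, n2, n3⟩
      · exact Or.inl ⟨c, l0, o1, by push_cast; linarith, o3, o4, by rw [o5]; ring, o6⟩
      · exact Or.inr ⟨by push_cast; linarith, by push_cast; linarith, by rw [n3]; ring⟩
    exact le_antisymm (pfeas_cmp h hN e.add2 e.add2 le_rfl p' p'').1
      (pfeas_cmp h hN e.add2 e.add2 le_rfl p'' p').1
  · obtain ⟨q, p⟩ := hν a l b e
    obtain ⟨q', p'⟩ := hν a' l' b' e'
    exact (pfeas_cmp h hN e e' hl.le p p').2 hl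
  · obtain ⟨q, p⟩ := hν a l b e
    have hrk := rk_lt_card (V := R) e.ha
    rcases p with ⟨c, l0, o1, o2, o3, o4, o5, o6, o7, o8, o9⟩ | ⟨n1, n2, n3⟩
    · obtain ⟨s1, s2⟩ := h.feas.sees _ _ _ o1
      have hlt : μ a l0 < ((K - 2 + N : ℕ) : ℤ) := by omega
      unfold Sees promV
      rw [o5, emod_of q o6 hlt, ediv_of q o6 hlt, if_pos o7]
      have t1 : l0 - π < min (max (V (μ a l0) a) (R a)) (R a + 2 * π) :=
        lt_min (lt_max_of_lt_left s1) (by linarith)
      have t2 : min (max (V (μ a l0) a) (R a)) (R a + 2 * π) < l0 :=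
        min_lt_of_left_lt (max_lt s2 (by linarith))
      constructor <;> linarith
    · have h0 : 0 ≤ (K : ℤ) - 2 + rk (del1 X w) R a := by omega
      have hlt : (K : ℤ) - 2 + rk (del1 X w) R a < ((K - 2 + N : ℕ) : ℤ) := by omega
      unfold Sees promV
      rw [n3, emod_of q h0 hlt, ediv_of q h0 hlt, if_neg (by omega)]
      constructor <;> linarith

end Pool.Agent.CT
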