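import Pool.Agent.Lib.MP_a7588a_co.Radial

/-! Block SET: choice of the hull vertex to be promoted. -/

set_option autoImplicit false

namespace Pool.Agent.CT

open Real

variable {X : Finset Pt} {K : ℕ} {V : ℤ → Pt → ℝ}

open Classical in
/-- moving the position of all lifts of one hull edge by `δ` -/
theorem set_move (hS : Sys X K V) {μ : Pt → ℝ → ℤ} (hμ : IsFeas X K V μ) {c d : Pt} {m : ℝ}
    (he : LE X c d m) (δ : ℤ) (hs : Sees (V (μ c m + δ)) c m)
    (hup : ∀ a b l, LE X a b l → m < l → μ c m + δ < μ a l)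
    (hdn : ∀ a b l, LE X a b l → l < m → μ a l < μ c m + δ) :
    IsFeas X K V (fun a l => μ a l + if a = c then δ else 0) := by
  have back : ∀ {a b : Pt} {l : ℝ} (q : ℤ), LE X a b l →
      LE X a b (l + ((-q : ℤ) : ℝ) * (2 * π)) ∧
        μ a (l + ((-q : ℤ) : ℝ) * (2 * π)) = μ a l - K * q := by
    intro a b l q h
    refine ⟨h.add_int (-q), ?_⟩
    rw [hμ.per_int h (-q)]; ring
  refine ⟨fun a b l h => ?_, fun a b l a' b' l' h h' hl => ?_, fun a b l h => ?_⟩
  · rw [hμ.per a b l h]; ring
  · have h0 := hμ.mono _ _ _ _ _ _ h h' hl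
    by_cases e : a = c
    · by_cases e' : a' = c
      · simp only [e, e', if_true] at h0 ⊢; omega
      · subst e
        obtain ⟨q, rfl⟩ := he.same_start h
        obtain ⟨h1, h2⟩ := back q h'
        have h3 := hup _ _ _ h1 (by push_cast; linarith)
        rw [h2] at h3
        simp only [if_true, if_neg e', hμ.per_int he q]
        linarith
    · by_cases e' : a' = c
      · subst e'
        obtain ⟨q, rfl⟩ := he.same_start h'
        obtain ⟨h1, h2⟩ := back q h
        have h3 := hdn _ _ _ h1 (by push_cast; linarith)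
        rw [h2] at h3
        simp only [if_true, if_neg e, hμ.per_int he q]
        linarith
      · simp only [if_neg e, if_neg e']; omega
  · by_cases e : a = c
    · subst e
      obtain ⟨q, rfl⟩ := he.same_start h
      simp only [if_true, hμ.per_int he q]
      have h1 := hS.per_int (μ a m + δ) q he.ha
      rw [show μ a m + K * q + δ = μ a m + δ + K * q by ring]
      unfold Sees at hs ⊢
      rw [h1]
      constructor <;> linarith [hs.1, hs.2]
    · simp only [if_neg e, add_zero]
      exact hμ.sees a b l h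

/-- the moved function avoids the old position -/
theorem set_avoid (hS : Sys X K V) (hK : 2 ≤ K) {μ : Pt → ℝ → ℤ} (hμ : IsFeas X K V μ) {c d : Pt}
    {m : ℝ} (he : LE X c d m) (δ : ℤ) (hδ : δ = 1 ∨ δ = -1) (hs : Sees (V (μ c m + δ)) c m)
    (hup : ∀ a b l, LE X a b l → m < l → μ c m + δ < μ a l)
    (hdn : ∀ a b l, LE X a b l → l < m → μ a l < μ c m + δ) :
    Avoid X K V (μ c m) := by
  classical
  refine ⟨_, set_move hS hμ he δ hs hup hdn, fun a b l h => ?_⟩
  by_cases e : a = c
  · subst e
    obtain ⟨q, rfl⟩ := he.same_start h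
    simp only [if_true, hμ.per_int he q]
    intro h1
    have h2 : (K : ℤ) * q = -δ := by linarith
    have h3 : (2 : ℤ) ≤ K := by exact_mod_cast hK
    rcases lt_trichotomy q 0 with h4 | h4 | h4
    · rcases hδ with rfl | rfl <;> nlinarith
    · subst h4; rcases hδ with rfl | rfl <;> simp at h2
    · rcases hδ with rfl | rfl <;> nlinarith
  · simp only [if_neg e, add_zero]
    intro h1
    obtain rfl := hμ.eq_of h he h1
    exact e (h.unique he).1

theorem set_rad {w wm wp : Pt} {Di Do : ℝ} (ein : LE X wm w Di) (eout : LE X w wp Do)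
    (hle : Do ≤ Di + π) :
    ∃ R : Pt → ℝ, ∀ y ∈ X, y ≠ w → Dir y w (R y) ∧ Do - π ≤ R y ∧ R y ≤ Di := by
  have := fun y hy hyw => eout.exists_dir (y := y) hy hyw
  choose! m hm using this
  refine ⟨fun y => m y - π, fun y hy hyw => ?_⟩
  obtain ⟨h1, h2, h3⟩ := hm y hy hyw
  have h4 := ein.hi' hy h1 (by linarith)
  exact ⟨h1.rev', by linarith, by linarith⟩

theorem set_ok : SetStmt := by
  intro X K V hX hK hS ⟨μ, hμ⟩ h
  rcases h with h | h
  · have : ∃ a b l, LE X a b l ∧ μ a l = -2 := by
      by_contra hc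
      push Not at hc
      exact h ⟨μ, hμ, hc⟩
    obtain ⟨wm, w, Di, ein, hin⟩ := this
    obtain ⟨wp, Do, eout, hlt, hle⟩ := ein.next hX
    obtain ⟨R, hR⟩ := set_rad ein eout hle
    have sin : Sees (V (-2)) wm Di := hin ▸ hμ.sees _ _ _ ein
    have hout : -1 ≤ μ w Do := by
      have := hμ.mono _ _ _ _ _ _ ein eout hlt
      omega
    have so := hμ.sees _ _ _ eout
    refine ⟨w, wm, wp, Di, Do, μ, R, hX, hS, hK, ein, eout, hlt, hle, sin,
      ⟨?_, (hS.le hout eout.ha).trans_lt so.2⟩, hμ, hin.le, hout, hR⟩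
    by_contra hc
    push Not at hc
    have hV := hS.view (-1)
    have alive : V (-1) wm < Di := by
      rw [hV.iff wm ein.ha w ein.hb Di ein.2]
      exact lt_of_le_of_ne (by linarith) (hV.ne wm ein.ha w ein.hb Di ein.2).2
    have h0 : 0 ≤ μ w Do := by
      by_contra h1
      have h2 : μ w Do = -1 := by omega
      rw [h2] at so
      linarith [so.1]
    apply h
    rw [← hin]
    refine set_avoid hS hK hμ ein 1 (Or.inl rfl) ?_ (fun a b l hl h1 => ?_) (fun a b l hl h1 => ?_)
    · rw [hin]
      exact ⟨sin.1.trans_le (hS.le (by norm_num) ein.ha), alive⟩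
    · have := hμ.mono_le eout hl (ein.consec eout hle hl h1)
      omega
    · have := hμ.mono _ _ _ _ _ _ hl ein h1
      omega
  · have : ∃ a b l, LE X a b l ∧ μ a l = -1 := by
      by_contra hc
      push Not at hc
      exact h ⟨μ, hμ, hc⟩
    obtain ⟨w, wp, Do, eout, hout⟩ := this
    obtain ⟨wm, Di, ein, hlt, hle⟩ := eout.prev hX
    obtain ⟨R, hR⟩ := set_rad ein eout hle
    have sout : Sees (V (-1)) w Do := hout ▸ hμ.sees _ _ _ eout
    have hin : μ wm Di ≤ -2 := by
      have := hμ.mono _ _ _ _ _ _ ein eout hlt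
      omega
    have si := hμ.sees _ _ _ ein
    refine ⟨w, wm, wp, Di, Do, μ, R, hX, hS, hK, ein, eout, hlt, hle,
      ⟨si.1.trans_le (hS.le hin ein.ha), ?_⟩, sout, hμ, hin, hout.ge, hR⟩
    by_contra hc
    push Not at hc
    have hV := hS.view (-2)
    have born : Do - π < V (-2) w := by
      by_contra h1
      push Not at h1
      have h2 : V (-2) w < Di :=
        lt_of_le_of_ne (by linarith) (hV.ne wm ein.ha w ein.hb Di ein.2).2
      rw [← hV.iff wm ein.ha w ein.hb Di ein.2] at h2
      linarith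
    have h0 : μ wm Di ≤ -3 := by
      by_contra h1
      have h2 : μ wm Di = -2 := by omega
      rw [h2] at si
      linarith [si.2]
    apply h
    rw [← hout]
    refine set_avoid hS hK hμ eout (-1) (Or.inr rfl) ?_ (fun a b l hl h1 => ?_)
      (fun a b l hl h1 => ?_)
    · rw [hout]
      exact ⟨born, (hS.le (by norm_num) eout.ha).trans_lt sout.2⟩
    · have := hμ.mono _ _ _ _ _ _ eout hl h1
      omega
    · have h2 : l ≤ Di := by
        by_contra h3
        push Not at h3
        linarith [ein.consec eout hle hl h3]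
      have := hμ.mono_le hl ein h2
      omega

end Pool.Agent.CT
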