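import Pool.Agent.Lib.MP_a7588a_co.LW

/-! Re-inserting an absorbed point: the slot descent. -/

set_option autoImplicit false

namespace Pool.Agent.CT

open Real

variable {X : Finset Pt}

noncomputable def rsum (X : Finset Pt) (U : ℤ → Pt → ℝ) : ℤ → List Pt → ℕ
  | _, [] => 0
  | i, a :: l => rk X (U i) a + rsum X U (i + 1) l

theorem rsum_append (U : ℤ → Pt → ℝ) (i : ℤ) (A B : List Pt) :
    rsum X U i (A ++ B) = rsum X U i A + rsum X U (i + A.length) B := by
  induction A generalizing i with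
  | nil => simp [rsum]
  | cons a A ih =>
    simp only [List.cons_append, rsum, ih, List.length_cons]
    push_cast
    rw [show i + 1 + (A.length : ℤ) = i + (A.length + 1) by ring]; ring

theorem rk_per {K : ℕ} {U : ℤ → Pt → ℝ} (hs : Sys X K U) (i : ℤ) (y : Pt) :
    rk X (U (i + K)) y = rk X (U i) y :=
  rk_shift 1 (fun x hx => by rw [hs.per i x hx]; simp) y

theorem rsum_per {K : ℕ} {U : ℤ → Pt → ℝ} (hs : Sys X K U) (i : ℤ) (l : List Pt) :
    rsum X U (i + K) l = rsum X U i l := by
  induction l generalizing i with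
  | nil => rfl
  | cons a l ih =>
    simp only [rsum, rk_per hs]
    rw [show i + K + 1 = i + 1 + K by ring, ih]

theorem Sys.vlt_add {K : ℕ} {U : ℤ → Pt → ℝ} (hs : Sys X K U) {i j : ℤ} (e : j = i + K) {a b : Pt}
    (ha : a ∈ X) : vlt (U j) a b ↔ vlt (U i) a b := by
  subst e
  exact ⟨fun h => by simpa using hs.vlt_per _ (-1) ha h, fun h => by simpa using hs.vlt_per _ 1 ha h⟩

structure SlotSt (X : Finset Pt) (U : ℤ → Pt → ℝ) (r v : Pt) (M : List Pt) (S : List Seg) (f : ℤ)
    (c : Pt) : Prop where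
  geo : Geo r v M S
  all : All X (r :: v :: (M ++ flat S))
  chain : Chain U (f + 1) (v :: (M ++ flat S ++ [v]))
  glt : vlt (U f) (lst r S) v
  ceil : c = v ∨ (c ∈ X ∧ vlt (U f) (lst r S) c ∧ 0 < ori c (lst r S) v ∧ vlt (U f) c v ∧
    ∀ y ∈ X, vlt (U f) c y → vlt (U f) y v → 0 < ori c v y)

noncomputable def pot (X : Finset Pt) (U : ℤ → Pt → ℝ) (v : Pt) (T : List Pt) (f : ℤ) (c : Pt) : ℕ :=
  rsum X U (f + 1) (v :: T) + rk X (U f) c

theorem lst_memX {r v : Pt} {M : List Pt} {S : List Seg}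
    (hm : ∀ x ∈ r :: v :: (M ++ flat S), x ∈ X) : lst r S ∈ X := by
  rcases List.mem_cons.mp (lst_mem r S) with h | h
  · rw [h]; exact hm r (by simp)
  · exact hm _ (by simp [fsts_sub S _ h])

theorem SlotSt.below {U : ℤ → Pt → ℝ} {r v : Pt} {M : List Pt} {S : List Seg} {f : ℤ} {c : Pt}
    (h : SlotSt X U r v M S f c) (hV : IsView X (U f)) {y : Pt} (hy : y ∈ X)
    (h1 : vlt (U f) y v) (h2 : y = lst r S ∨ 0 < ori v (lst r S) y) : vlt (U f) y c := by
  rcases h.ceil with rfl | ⟨c0, c1, c2, c3, c4⟩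
  · exact h1
  rcases h2 with rfl | h2
  · exact c1
  have hv : v ∈ X := h.all.mem v (by simp)
  have hg := lst_memX h.all.mem
  have w : ∀ {x}, x ∈ X → vlt (U f) x v → InW v (U f v - π) (U f v - π + π) x := fun hx hh => by
    rw [sub_add_cancel]; exact (hV.vlt_iff_back hx hv).mp hh
  have o1 : 0 < ori v c y :=
    inW_trans (w c0 c3) (w hg h.glt) (w hy h1) (by rwa [ori_cyc'] at c2) h2
  rcases hV.total hy c0 (ne_of_ori o1.ne').2.2.symm with h3 | h3
  · exact h3
  · have := c4 y hy h3 h1
    rw [ori_swap'] at this; linarith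

/-- rotating the polygon by one step -/
theorem rot_data {U : ℤ → Pt → ℝ} (hs : Sys X X.card U) {r v u : Pt} {B : List Pt} {f : ℤ}
    (hall : All X (r :: v :: (B ++ [u]))) (hc : Chain U (f + 1) (v :: (B ++ [u] ++ [v])))
    (h1 : vlt (U f) u v) :
    All X (r :: u :: v :: B) ∧ Chain U (f - 1 + 1) (u :: (v :: B ++ [u])) ∧
      ∀ c, c ∈ X → vlt (U f) u c → pot X U u (v :: B) (f - 1) u < pot X U v (B ++ [u]) f c := by
  have hl := hall.length
  simp only [List.length_cons, List.length_append, List.length_nil] at hl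
  refine ⟨hall.perm ?_, ?_, fun c hc' h2 => ?_⟩
  · refine List.Perm.cons _ ?_
    exact (List.perm_append_comm (l₁ := v :: B) (l₂ := [u]))
  · rw [sub_add_cancel]
    refine ⟨h1, ?_⟩
    have := (chain_append U (f + 1) (v :: B) u [v]).mp (by simpa using hc)
    exact this.1
  · unfold pot
    rw [sub_add_cancel, ← List.cons_append, rsum_append]
    have := rk_lt (hs.view f) (hall.mem u (by simp)) hc' h2
    have e := rk_per hs (f - 1) u
    simp only [rsum, List.length_cons]
    rw [show f + 1 + ((B.length + 1 : ℕ) : ℤ) = f - 1 + X.card by omega]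
    omega

theorem slot_jump (hX : GP X) {U : ℤ → Pt → ℝ} (hs : Sys X X.card U) {r v u z : Pt}
    {M N : List Pt} {S : List Seg} {f : ℤ} (hP : Pre r v u M (S ++ [(z, N)]))
    (hall : All X (r :: v :: (M ++ flat (S ++ [(z, N)]) ++ [u])))
    (hc : Chain U (f + 1) (v :: (M ++ flat (S ++ [(z, N)]) ++ [u] ++ [v])))
    (hpos : ∀ y ∈ X, 0 < cang y (v :: (M ++ flat (S ++ [(z, N)]) ++ [u])))
    (h1 : vlt (U f) z v) (h2 : vlt (U (f - 1)) u z) :
    ∃ v' M' S' f', SlotSt X U r v' M' S' f' z ∧ ∀ c, c ∈ X → vlt (U f) z c →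
      pot X U v' (M' ++ flat S') f' z < pot X U v (M ++ flat (S ++ [(z, N)]) ++ [u]) f c := by
  have hpi := pi_pos
  obtain ⟨hG, tq, hcc, htri⟩ := hP.pop
  obtain ⟨q, N', eq⟩ := exists_cons N u
  obtain ⟨A, pp, ep⟩ := exists_snoc v (M ++ flat S)
  have eT : M ++ flat (S ++ [(z, N)]) ++ [u] = M ++ flat S ++ z :: q :: N' := by
    rw [← eq]; simp
  rw [eT] at hall hc hpos ⊢
  set B1 := M ++ flat S with hB1
  have hm := hall.mem
  have hz : z ∈ X := hm z (by simp)
  have hq : q ∈ X := hm q (by simp)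
  have hv : v ∈ X := hm v (by simp)
  have hNm : ∀ x ∈ N ++ [u], x ∈ X := fun x hx => hm x (by rw [eq] at hx; simp at hx ⊢; tauto)
  have hu : u ∈ X := hNm u (by simp)
  have hAm : ∀ x ∈ A ++ [pp], x ∈ X := fun x hx => hm x (by rw [← ep] at hx; simp at hx ⊢; tauto)
  have hpp : pp ∈ X := hAm pp (by simp)
  have gz := hX.gen hz
  have hl := hall.length
  have hlA := congrArg List.length ep
  have hlN := congrArg List.length eq
  simp only [List.length_cons, List.length_append, List.length_nil] at hl hlA hlN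
  have lp0 := hall.lp hs hc
  set g : ℤ := f + 1 + A.length + 1 with hg
  have ecl : (v :: (B1 ++ z :: q :: N')) ++ (v :: (B1 ++ z :: q :: N')).take 1 =
      A ++ pp :: z :: q :: (N' ++ [v]) := by
    rw [← List.cons_append, ep]; simp
    cases A with
    | nil => simp at ep; simp [ep.1]
    | cons a A => simp at ep; simp [ep.1]
  -- old chain pieces
  have hc' : Chain U (f + 1) (A ++ pp :: z :: q :: (N' ++ [v])) := ecl ▸ lp0.chain
  obtain ⟨cA, cB⟩ := (chain_append _ _ _ _ _).mp hc'
  obtain ⟨c1, c2, c3⟩ : vlt (U (f + 1 + A.length)) pp z ∧ vlt (U g) z q ∧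
      Chain U (g + 1) (q :: (N' ++ [v])) := ⟨cB.1, cB.2.1, cB.2.2⟩
  have c4 : Chain U (g + 1) (N ++ [u]) := by
    have : q :: (N' ++ [v]) = N ++ u :: [v] := by rw [← List.cons_append, ← eq]; simp
    rw [this] at c3
    exact ((chain_append _ _ _ _ _).mp c3).1
  obtain ⟨lpp, p1, p2, p3⟩ := ((hs.view _).vlt_iff_back hpp hz).mp c1
  obtain ⟨lq, q1, q2, q3⟩ := id c2
  have mono1 : U (f + 1 + A.length) z ≤ U g z := hs.mono _ _ hz
  have up := lp0.w_mid hX ecl p1 p2 q1 q3
  -- decomposition of the angle at z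
  have o1 : 0 < ori z u v := htri
  obtain ⟨d1, d2, d3⟩ := del_pos o1
  have dec : cang z (v :: (B1 ++ z :: q :: N')) =
      cang z (z :: v :: B1) + del z u v + cang z (z :: (N ++ [u])) := by
    have a1 := cang_glue z (v :: B1) z N u []
    have a2 := cang_rotate z (v :: B1) [z, u]
    have a3 := cang_glue z [] z [u] v B1
    have a4 : cang z (z :: ([u] ++ [v])) = del z u v := by
      simp [cang, csum]
    rw [← eq]
    simp only [List.cons_append, List.nil_append] at a1 a2 a3 a4 ⊢
    linarith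
  have mq : ∀ x ∈ z :: (N ++ [u]), x ∈ X := fun x hx => by
    rcases List.mem_cons.mp hx with rfl | hx
    exacts [hz, hNm x hx]
  obtain ⟨SB, b1, b2, b3, tq'⟩ : ∃ SB, 0 ≤ SB ∧ SB ≤ cang z (z :: (N ++ [u])) ∧
      Dir z u (lq + SB) ∧ Tri q N' z := by
    cases N with
    | nil =>
      simp only [List.nil_append, List.cons.injEq] at eq
      obtain ⟨rfl, rfl⟩ := eq
      exact ⟨0, le_rfl, tq.cang_nonneg gz mq, by simpa using q1, Tri.nil _ _⟩
    | cons a N0 =>
      simp only [List.cons_append, List.cons.injEq] at eq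
      obtain ⟨rfl, rfl⟩ := eq
      obtain ⟨T, a1, a2, -, a3⟩ := TriL.lb_head gz tq.triL mq
      exact ⟨T, a1.le, a2, a3 _ q1, tq.rot⟩
  have mz : ∀ x ∈ r :: z :: (v :: M ++ flat S), x ∈ X := fun x hx => hm x (by
    simp only [hB1] at *; simp at hx ⊢; tauto)
  obtain ⟨T, t1, t2, t3⟩ := hG.lb1 hX mz (w := v) (C := B1) rfl
  have dv := d3 _ b3
  have dg := t3 _ dv
  have big := neg_lo (by rwa [ori_cyc] at hcc) b3 dg (by linarith)
  rw [List.cons_append] at t2
  -- the new polygon
  have r1 : vlt (U (f + 1 + A.length)) z q := ⟨lq, q1, by linarith, by linarith⟩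
  have r2 : vlt (U (f + 1 + A.length)) pp q := (hs.view _).trans _ hpp _ hz _ hq c1 r1
  have all' : All X (r :: q :: (N' ++ z :: v :: B1)) := by
    refine hall.perm (List.Perm.cons _ ?_)
    have p1 : (v :: (B1 ++ z :: q :: N')).Perm ((z :: q :: N') ++ (v :: B1)) :=
      List.perm_append_comm (l₁ := v :: B1)
    refine p1.trans ?_
    simpa using (List.perm_middle (a := z) (l₁ := q :: N') (l₂ := v :: B1)).symm
  have ch' : Chain U (g + 1) (q :: (N' ++ z :: v :: B1 ++ [q])) := by
    have e1 : q :: (N' ++ z :: v :: B1 ++ [q]) = N ++ u :: z :: (A ++ pp :: [q]) := by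
      have : z :: v :: B1 ++ [q] = z :: (A ++ pp :: [q]) := by
        rw [List.cons_append, ep]; simp
      rw [List.append_assoc, this, ← List.cons_append, ← eq]; simp
    rw [e1, chain_append]
    refine ⟨c4, (hs.vlt_add (by omega) hu).mpr h2, ?_⟩
    have e2 : A ++ pp :: [q] = v :: (B1 ++ [q]) := by rw [← List.cons_append, ep]; simp
    have c5 : Chain U (f + 1) (A ++ pp :: [q]) := (chain_append _ _ _ _ _).mpr ⟨cA, r2, trivial⟩
    have c6 := c5.shift hs (fun x hx => by
      rw [e2] at hx; exact hm x (by simp at hx ⊢; tauto)) 1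
    rw [e2] at c6 ⊢
    refine ⟨(hs.vlt_add (by omega) hz).mpr h1, ?_⟩
    rwa [show g + 1 + N.length + 1 + 1 = f + 1 + X.card * 1 by omega]
  have lp1 := all'.lp hs ch'
  have o2 : 0 < ori z pp q := ori_pos_of p1 q1 (by linarith) (by linarith)
  have o3 : 0 < ori z (lst r S) q := ori_pos_of dg.sub2 q1 (by linarith) (by linarith)
  obtain ⟨M2, S2, hP2, e2, w2, -, -⟩ := refan hX hG mz (u := q) (S0 := [(pp, [])]) (B := A)
    (by simpa using ep) (ne_of_ori o3.ne').2.2
    (L0 := (lq + SB + del z u v + T - 2 * π + (lq - π)) / 2) (U1 := U g z) (by linarith) hq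
    ⟨lq, q1, by linarith, by linarith⟩
    ⟨⟨Tri.nil _ _, trivial⟩, trivial, ⟨o2, trivial⟩, fun x hx => by
      obtain rfl : x = pp := by simpa using hx
      exact ⟨hpp, lpp, p1, by linarith, by linarith⟩⟩
    (fun x hx => by obtain rfl : x = pp := by simpa using hx
                    exact hpp)
    (w := v) (C := B1) rfl dv dg.sub2 (by linarith) (by linarith)
    (by rw [List.cons_append]; linarith) (fun x hx => by
      have hxB : x ∈ B1 := List.mem_append_right _ (fsts_sub S x hx)
      have a1 := lp1.lw hX (g := x) (by simp [hxB])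
      have a2 := cang_glue x [] q N' z (v :: B1)
      have a3 := cang_rotate x (z :: v :: B1) [q]
      have a4 := tq'.cang_nonneg (hX.gen (hm x (by simp [hxB]))) fun y hy => hm y (by
        simp at hy ⊢; tauto)
      have a5 : A ++ flat [(pp, [])] ++ [q] = v :: B1 ++ [q] := by rw [ep]; simp
      rw [a5]
      simp only [List.cons_append, List.nil_append] at a2 a3 ⊢
      linarith)
  have e3 : N' ++ z :: M2 ++ flat S2 = N' ++ z :: v :: B1 := by
    rw [List.append_assoc, List.cons_append, e2, ep]; simp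
  have hz2 : lst r S2 ∈ X := lst_memX (v := q) (M := N' ++ z :: M2) (e3 ▸ all'.mem)
  have z1 : vlt (U g) (lst r S2) z :=
    ((hs.view g).vlt_iff_back hz2 hz).mpr (w2.mono (by linarith) le_rfl)
  refine ⟨q, N' ++ z :: M2, S2, g, ⟨hP2.slide.glue tq', e3 ▸ all', e3 ▸ ch',
    (hs.view g).trans _ hz2 _ hz _ hq z1 c2,
    Or.inr ⟨hz, z1, by rw [ori_cyc]; exact hP2.tri, c2, fun y hy y1 y2 => ?_⟩⟩, fun c hc' h3 => ?_⟩
  · have eg : g = f + 1 + ((A ++ [pp]).length : ℕ) := by simp [hg]; ring
    exact lp0.front hX (A := A ++ [pp]) (B := N' ++ [v]) (by rw [ecl]; simp) hy (hpos y hy)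
      (eg ▸ y1) (eg ▸ y2)
  · unfold pot
    rw [e3]
    have k6 := rsum_append (X := X) U (g + 1) (q :: N') (z :: v :: B1)
    have k7 := rsum_append (X := X) U (f + 1) (v :: B1) (z :: q :: N')
    rw [List.cons_append] at k6 k7
    have k1 := rk_lt (hs.view f) hz hc' h3
    have k2 := rk_per hs f z
    have k3 := rsum_per hs (f + 1) (v :: B1)
    have k4 : rsum X U (f + 1 + ((v :: B1).length : ℕ)) (z :: q :: N') =
        rk X (U g) z + rsum X U (g + 1) (q :: N') := by
      rw [show f + 1 + ((v :: B1).length : ℕ) = g by simp only [List.length_cons]; omega]; rfl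
    have k5 : rsum X U (g + 1 + ((q :: N').length : ℕ)) (z :: v :: B1) =
        rk X (U (f + X.card)) z + rsum X U (f + 1 + X.card) (v :: B1) := by
      rw [show g + 1 + ((q :: N').length : ℕ) = f + X.card by simp only [List.length_cons]; omega,
        show f + 1 + X.card = f + X.card + 1 by ring]; rfl
    omega

theorem slot_step (hX : GP X) {U : ℤ → Pt → ℝ} (hs : Sys X X.card U) (h3 : 3 ≤ X.card) {r v : Pt}
    {M : List Pt} {S : List Seg} {f : ℤ} {c : Pt} (h : SlotSt X U r v M S f c) :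
    (∃ P i, All X P ∧ TriL P ∧ Chain U i (P ++ P.take 1)) ∨
    ∃ v' M' S' f' c', SlotSt X U r v' M' S' f' c' ∧
      pot X U v' (M' ++ flat S') f' c' < pot X U v (M ++ flat S) f c := by
  have hpi := pi_pos
  have hm := h.all.mem
  have hl := h.all.length
  have hv : v ∈ X := hm v (by simp)
  have hcX : c ∈ X := by
    rcases h.ceil with rfl | hc
    exacts [hv, hc.1]
  have lp0 := h.all.lp hs h.chain
  obtain ⟨w, C, ew⟩ : ∃ w C, M ++ flat S = w :: C := by
    rcases hT : M ++ flat S with _ | ⟨w, C⟩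
    · rw [hT] at hl; simp at hl; omega
    · exact ⟨w, C, rfl⟩
  obtain ⟨B, u, eu⟩ := exists_snoc w C
  rw [← ew] at eu
  have hu : u ∈ X := hm u (by rw [eu]; simp)
  have hlB : B.length + 3 = X.card := by rw [eu] at hl; simp at hl; omega
  have ch1 : Chain U (f + 1) ((v :: B) ++ u :: [v]) := by have := h.chain; rw [eu] at this; simpa using this
  obtain ⟨ch2, ch3, -⟩ := (chain_append _ _ _ _ _).mp ch1
  have cu : vlt (U (f - 1)) u v :=
    (hs.vlt_add (by simp only [List.length_cons]; omega) hu).mp ch3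
  have cw : vlt (U (f + 1)) v w := by have := h.chain; rw [ew] at this; exact this.1
  have hgX := lst_memX hm
  by_cases hdeg : lst r S = u
  · right
    obtain ⟨S1, rfl, e1, hG⟩ := h.geo.deg h.all.1 eu hdeg
    have g1 : vlt (U f) u v := hdeg ▸ h.glt
    obtain ⟨a1, a2, a3⟩ := rot_data hs (eu ▸ h.all) (eu ▸ h.chain) g1
    have e2 : v :: M ++ flat S1 = v :: B := by rw [List.cons_append, e1]
    refine ⟨u, v :: M, S1, f - 1, u, ⟨hG, e2 ▸ a1, e2 ▸ a2, ?_, Or.inl rfl⟩, ?_⟩
    · obtain ⟨T, t1, t2, t3⟩ := h.geo.lb_conc hX hm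
      obtain ⟨A, pp, ep⟩ := exists_snoc v B
      have hlA := congrArg List.length ep
      simp only [List.length_cons, List.length_append, List.length_nil] at hlA
      have hpp : pp ∈ X := hm pp (by
        have : pp ∈ v :: B := by rw [ep]; simp
        rw [eu]; simp at this ⊢; tauto)
      have ecl : (v :: (M ++ flat (S1 ++ [(u, [])]))) ++
          (v :: (M ++ flat (S1 ++ [(u, [])]))).take 1 = A ++ pp :: u :: v :: [] := by
        rw [eu, List.take_succ_cons, List.take_zero, ← List.cons_append, ep]; simp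
      rw [ep] at ch2
      have c1 := ((chain_append _ _ A pp [u]).mp (by simpa using ch2)).2.1
      obtain ⟨lpp, p1, p2, p3⟩ := ((hs.view _).vlt_iff_back hpp hu).mp c1
      obtain ⟨lv, q1, q2, q3⟩ := ch3
      have ei : f + 1 + ((v :: B).length : ℕ) = f + 1 + A.length + 1 := by
        simp only [List.length_cons]; omega
      rw [ei] at q2 q3
      have up := lp0.w_mid hX ecl p1 p2 q1 q3
      have mo := hs.mono (f + 1 + A.length) u hu
      have hg2 : lst r S1 ∈ X := lst_memX (v := u) (M := v :: M) (e2 ▸ a1.mem)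
      refine (hs.vlt_add (j := f + 1 + A.length + 1) (by omega) hg2).mp ?_
      exact ((hs.view _).vlt_iff_back hg2 hu).mpr ⟨_, (t3 _ q1).sub2, by linarith, by linarith⟩
    · rw [e2, eu]
      exact a3 c hcX (h.below (hs.view f) hu g1 (Or.inl hdeg.symm))
  · obtain ⟨lp, p1, p2, p3⟩ := ((hs.view _).vlt_iff_back hu hv).mp cu
    obtain ⟨lw, w1, w2, w3⟩ := cw
    obtain ⟨lg, g1, g2, g3⟩ := ((hs.view _).vlt_iff_back hgX hv).mp h.glt
    have m1 := hs.mono f v hv
    have m2 : U (f - 1) v ≤ U f v := hs.le (by omega) hv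
    have up := lp0.w_head hX ew eu p1 (by
      rw [show f + 1 + ((M ++ flat S).length : ℕ) = f - 1 + X.card by
        simp only [List.length_cons] at hl; omega, hs.per _ _ hv]
      linarith) w1 w3
    obtain ⟨T, t1, t2, t3⟩ := h.geo.lb1 hX hm ew
    have gp := g1.gap (t3 _ w1) (by linarith)
    have wu : InW v (U f v - π) (U f v - π + π) u := ⟨lp, p1, by linarith, by linarith⟩
    obtain ⟨M', S', hP, e2, w4, z1, z2⟩ := refan hX h.geo hm (u := u) (S0 := []) (B := B) eu hdeg
      (L0 := U f v - π) (U1 := U f v) (by linarith) hu wu ⟨trivial, trivial, trivial, by simp⟩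
      (by simp) ew w1 g1 (by linarith) g2 (by linarith) (fun x hx => by
        have := lp0.lw hX (g := x) (by simp [fsts_sub S x hx])
        rw [eu] at this; simpa using this)
    simp only [flat_nil, List.append_nil] at e2
    have uv : vlt (U f) u v := ((hs.view f).vlt_iff_back hu hv).mpr (by simpa using wu)
    obtain ⟨a1, a2, a3⟩ := rot_data hs (eu ▸ h.all) (eu ▸ h.chain) uv
    have e3 : v :: M' ++ flat S' = v :: B := by rw [List.cons_append, e2]
    have hz : lst r S' ∈ X := lst_memX (v := u) (M := v :: M') (e3 ▸ a1.mem)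
    have zv : vlt (U f) (lst r S') v := ((hs.view f).vlt_iff_back hz hv).mpr w4
    rcases (hs.view (f - 1)).total hz hu (ne_of_ori hP.tri.ne').1 with h4 | h4
    · right
      refine ⟨u, v :: M', S', f - 1, u, ⟨hP.slide, e3 ▸ a1, e3 ▸ a2, h4, Or.inl rfl⟩, ?_⟩
      rw [e3, eu]
      exact a3 c hcX (h.below (hs.view f) hu uv (Or.inr z2))
    · rcases List.eq_nil_or_concat S' with rfl | ⟨S1, ⟨z, N⟩, rfl⟩
      · left
        simp only [flat_nil, List.append_nil, lst_nil] at e2 zv h4
        subst e2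
        refine ⟨r :: v :: (M' ++ [u]), f, eu ▸ h.all, by simpa using hP.main.triL, ?_⟩
        have : r :: v :: (M' ++ [u]) ++ List.take 1 (r :: v :: (M' ++ [u])) =
            r :: ((v :: M') ++ u :: [r]) := by simp
        rw [this]
        refine ⟨zv, (chain_append U (f + 1) (v :: M') u [r]).mpr ⟨ch2, ?_, trivial⟩⟩
        exact (hs.vlt_add (by simp only [List.length_cons]; omega) hu).mpr h4
      · right
        rw [List.concat_eq_append] at *
        have ez : lst r (S1 ++ [(z, N)]) = z := by simp [lst_append]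
        rw [ez] at h4 zv z1 hz
        obtain ⟨v', M2, S2, f', i1, i2⟩ := slot_jump hX hs hP (f := f)
          (by rw [e2, ← eu]; exact h.all) (by rw [e2, ← eu]; exact h.chain)
          (fun y hy => by rw [e2, ← eu]; exact h.geo.cang_pos hX hm ((h.all.2 y).mp hy)) zv h4
        refine ⟨v', M2, S2, f', z, i1, ?_⟩
        have := i2 c hcX (h.below (hs.view f) hz zv z1)
        rwa [e2, ← eu] at this

theorem slot (hX : GP X) {U : ℤ → Pt → ℝ} (hs : Sys X X.card U) (h3 : 3 ≤ X.card) {r v : Pt}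
    {M : List Pt} {S : List Seg} {f : ℤ} {c : Pt} (h : SlotSt X U r v M S f c) :
    ∃ P i, All X P ∧ TriL P ∧ Chain U i (P ++ P.take 1) := by
  generalize hn : pot X U v (M ++ flat S) f c = n
  induction n using Nat.strong_induction_on generalizing v M S f c with
  | _ n ih =>
    rcases slot_step hX hs h3 h with h1 | ⟨v', M', S', f', c', h1, h2⟩
    · exact h1
    · exact ih _ (hn ▸ h2) h1 rfl

/-- a valid closed list through all points gives a periodic polygon for the same views -/
theorem fp_of_all {U : ℤ → Pt → ℝ} (hs : Sys X X.card U) {P : List Pt} {i : ℤ} (ha : All X P)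
    (ht : TriL P) (hc : Chain U i (P ++ P.take 1)) :
    ∃ v, FP X X.card U v ∧ TriL (win v 0 X.card) := by
  have hl := ha.length
  have h2 := ht.two_le
  obtain ⟨v, τ, h1, e, t1, t2, -⟩ := l2f hs (by omega) ha.mem ha.1 (t := fun k => i + k)
    (fun k _ _ => by omega) (by omega) (hc.congr fun k _ a b _ hv => by simpa using hv)
  rw [hl] at h1 e t1 t2
  have τe : ∀ j, τ j = i + j := by
    intro j
    obtain ⟨q, r, rfl, r0, r1⟩ := exists_divmod (K := X.card) (by omega) j
    have := per_int (v := fun j => τ j - j) (K := X.card) (fun j => by simp only [t2]; ring) r q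
    simp only [t1 r r0 r1] at this
    omega
  have per : ∀ j, v (j + X.card - i) = v (j - i) := fun j => by
    rw [← h1.per (j - i)]; congr 1; ring
  refine ⟨fun j => v (j - i), ⟨hs, fun j => h1.mem _, per, fun a b hab => ?_, fun j => ?_⟩, ?_⟩
  · have := h1.inj _ _ hab
    rwa [sub_sub_sub_cancel_right] at this
  · have := h1.step (j - i)
    simp only [τe, add_sub_cancel] at this
    rwa [show j - i + 1 = j + 1 - i by ring] at this
  · refine TriL.win_shift per (s := i) ?_ 0
    have : win (fun j => v (j - i)) i X.card = win v 0 X.card := by simp [win]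
    rwa [this, e]

end Pool.Agent.CT
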