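import Pool.Agent.Lib.MP_a7588a_co.Angle

set_option autoImplicit false

namespace Pool.Agent.CT

open Real

/-! ### path sums -/

@[simp] theorem psum_nil (f : Pt → Pt → ℝ) : psum f [] = 0 := rfl
@[simp] theorem psum_single (f : Pt → Pt → ℝ) (a : Pt) : psum f [a] = 0 := rfl
@[simp] theorem psum_cons2 (f : Pt → Pt → ℝ) (a b : Pt) (l : List Pt) :
    psum f (a :: b :: l) = f a b + psum f (b :: l) := rfl

theorem psum_append (f : Pt → Pt → ℝ) (A : List Pt) (a : Pt) (B : List Pt) :
    psum f (A ++ a :: B) = psum f (A ++ [a]) + psum f (a :: B) := by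
  induction A with
  | nil => simp
  | cons x A ih =>
    cases A with
    | nil => simp
    | cons y A => simp only [List.cons_append, psum_cons2] at ih ⊢; rw [ih]; ring

theorem psum_cons_append (f : Pt → Pt → ℝ) (x : Pt) (A : List Pt) (a : Pt) (B : List Pt) :
    psum f (x :: (A ++ a :: B)) = psum f (x :: (A ++ [a])) + psum f (a :: B) :=
  psum_append f (x :: A) a B

theorem csum_cons (f : Pt → Pt → ℝ) (a : Pt) (l : List Pt) :
    csum f (a :: l) = psum f (a :: (l ++ [a])) := by simp [csum]

theorem csum_close (f : Pt → Pt → ℝ) (a : Pt) (N : List Pt) (b : Pt) :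
    csum f (a :: (N ++ [b])) = psum f (a :: (N ++ [b])) + f b a := by
  rw [csum_cons, List.append_assoc, List.singleton_append, psum_cons_append]; simp

theorem csum_rotate (f : Pt → Pt → ℝ) (A B : List Pt) : csum f (A ++ B) = csum f (B ++ A) := by
  cases A with
  | nil => simp
  | cons a A =>
    cases B with
    | nil => simp
    | cons b B =>
      have h1 := psum_cons_append f a A b (B ++ [a])
      have h2 := psum_cons_append f b B a (A ++ [b])
      simp only [List.cons_append, csum_cons, List.append_assoc]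
      linarith

theorem Anti.self {f : Pt → Pt → ℝ} (hf : Anti f) (a : Pt) : f a a = 0 := by linarith [hf a a]

theorem csum_pair {f : Pt → Pt → ℝ} (hf : Anti f) (a b : Pt) : csum f [a, b] = 0 := by
  simp [csum]; linarith [hf a b]

theorem csum_tri (f : Pt → Pt → ℝ) (a b c : Pt) : csum f [a, b, c] = f a b + f b c + f c a := by
  simp [csum]; ring

theorem csum_glue {f : Pt → Pt → ℝ} (hf : Anti f) (A : List Pt) (p : Pt) (N : List Pt) (q : Pt)
    (B : List Pt) :
    csum f (A ++ p :: (N ++ q :: B)) = csum f (A ++ p :: q :: B) + csum f (p :: (N ++ [q])) := by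
  rw [csum_rotate, csum_rotate f A, csum_close]
  simp only [List.cons_append, List.append_assoc, csum_cons]
  rw [psum_cons_append, psum_cons2]
  linarith [hf p q]

theorem csum_node {f : Pt → Pt → ℝ} (hf : Anti f) (a : Pt) (A : List Pt) (c : Pt) (B : List Pt)
    (b : Pt) : csum f (a :: ((A ++ c :: B) ++ [b])) =
      csum f (a :: (A ++ [c])) + csum f (c :: (B ++ [b])) + (f a c + f c b + f b a) := by
  rw [csum_close, csum_close, csum_close, List.append_assoc, List.cons_append, psum_cons_append]
  linarith [hf a c, hf b c]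

/-! ### gluing and rotating -/

theorem Tri.glue_aux {x y : Pt} {L : List Pt} (h : Tri x L y) {N : List Pt} :
    ∀ L1 L2 : List Pt, L = L1 ++ L2 → Tri (L1.getLastD x) N (L2.headD y) →
      Tri x (L1 ++ N ++ L2) y := by
  induction h with
  | nil a b =>
    intro L1 L2 e hN
    obtain ⟨rfl, rfl⟩ := List.append_eq_nil_iff.mp e.symm
    simpa using hN
  | @node a c b A B h1 h2 ho ih1 ih2 =>
    intro L1 L2 e hN
    rcases List.append_eq_append_iff.mp e with ⟨a', rfl, e2⟩ | ⟨c', rfl, rfl⟩
    · cases a' with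
      | nil =>
        simp only [List.nil_append] at e2
        subst e2
        have := ih1 A [] (by simp) (by simpa using hN)
        simpa using Tri.node this h2 ho
      | cons d a'' =>
        simp only [List.cons_append, List.cons.injEq] at e2
        obtain ⟨rfl, rfl⟩ := e2
        have := ih2 a'' L2 rfl (by simpa [List.getLastD_eq_getLast?, List.getLast?_cons] using hN)
        simpa using Tri.node h1 this ho
    · have := ih1 L1 c' rfl (by cases c' <;> simpa using hN)
      simpa using Tri.node this h2 ho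

theorem Tri.triL {a b : Pt} {N : List Pt} (h : Tri a N b) : TriL (a :: (N ++ [b])) :=
  ⟨a, N, b, rfl, h⟩

theorem TriL.tri {a b : Pt} {N : List Pt} (h : TriL (a :: (N ++ [b]))) : Tri a N b := by
  obtain ⟨a', N', b', e, h⟩ := h
  simp only [List.cons.injEq] at e
  obtain ⟨rfl, e⟩ := e
  obtain ⟨rfl, e2⟩ := List.append_inj' e rfl
  simp only [List.cons.injEq, and_true] at e2
  subst e2; exact h

theorem TriL.two_le {l : List Pt} (h : TriL l) : 2 ≤ l.length := by
  obtain ⟨a, N, b, rfl, -⟩ := h; simp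

theorem Tri.single {a c b : Pt} (h : 0 < ori a c b) : Tri a [c] b :=
  Tri.node (A := []) (B := []) (Tri.nil a c) (Tri.nil c b) h

theorem Tri.snoc {a c b : Pt} {A : List Pt} (h1 : Tri a A c) (h : 0 < ori a c b) :
    Tri a (A ++ [c]) b := Tri.node h1 (Tri.nil c b) h

theorem Tri.cons {a c b : Pt} {B : List Pt} (h1 : Tri c B b) (h : 0 < ori a c b) :
    Tri a (c :: B) b := Tri.node (A := []) (Tri.nil a c) h1 h

theorem Tri.rot_aux {a b : Pt} {L : List Pt} (h : Tri a L b) :
    ∀ x N, L = x :: N → Tri x (N ++ [b]) a := by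
  induction h with
  | nil a b => intro x N e; simp at e
  | @node a c b A B h1 h2 ho ih1 _ =>
    intro x N e
    have ho' : 0 < ori c b a := by rwa [ori_cyc] at ho
    cases A with
    | nil =>
      simp only [List.nil_append, List.cons.injEq] at e
      obtain ⟨rfl, rfl⟩ := e
      exact h2.snoc ho'
    | cons d A' =>
      simp only [List.cons_append, List.cons.injEq] at e
      obtain ⟨rfl, rfl⟩ := e
      have h3 := ih1 d A' rfl
      have := h3.glue_aux (N := B ++ [b]) (A' ++ [c]) [] (by simp) (by simpa using h2.snoc ho')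
      simpa using this

theorem Tri.rot {a b x : Pt} {N : List Pt} (h : Tri a (x :: N) b) : Tri x (N ++ [b]) a :=
  h.rot_aux x N rfl

theorem TriL.rot1 {a : Pt} {l : List Pt} (h : TriL (a :: l)) : TriL (l ++ [a]) := by
  obtain ⟨a', N, b, e, h⟩ := h
  simp only [List.cons.injEq] at e
  obtain ⟨rfl, rfl⟩ := e
  cases N with
  | nil => exact (Tri.nil b a).triL
  | cons x N => exact h.rot.triL

theorem TriL.rotate {A B : List Pt} (h : TriL (A ++ B)) : TriL (B ++ A) := by
  induction A generalizing B with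
  | nil => simpa using h
  | cons a A ih =>
    have := ih (B := B ++ [a]) (by simpa using TriL.rot1 h)
    simpa using this

theorem TriL.glue {A B N : List Pt} {p q : Pt} (h : TriL (A ++ p :: q :: B)) (hN : Tri p N q) :
    TriL (A ++ p :: (N ++ q :: B)) := by
  have h1 : TriL (p :: q :: (B ++ A)) := by simpa using h.rotate
  have h2 : TriL (p :: (N ++ q :: (B ++ A))) := by
    obtain ⟨a', N', b', e, h⟩ := h1
    simp only [List.cons.injEq] at e
    obtain ⟨rfl, e⟩ := e
    have := h.glue_aux (N := N) [] N' rfl (by cases N' <;> simp_all)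
    refine ⟨p, N ++ N', b', by simp [e], by simpa using this⟩
  have := TriL.rotate (A := p :: (N ++ q :: B)) (B := A) (by simpa using h2)
  simpa using this

/-! ### the list of triangles -/

theorem Tri.exists_list {a b : Pt} {N : List Pt} (h : Tri a N b) :
    ∃ L : List T3, (∀ t ∈ L, List.Sublist [t.1, t.2.1, t.2.2] (a :: (N ++ [b])) ∧
      0 < ori t.1 t.2.1 t.2.2) ∧ (∀ x ∈ N, ∃ t ∈ L, T3.mem x t) ∧
      (N ≠ [] → (∃ t ∈ L, T3.mem a t) ∧ ∃ t ∈ L, T3.mem b t) ∧
      ∀ f, Anti f → (L.map (bd f)).sum = csum f (a :: (N ++ [b])) := by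
  induction h with
  | nil a b => exact ⟨[], by simp, by simp, by simp, fun f hf => by simp [csum_pair hf]⟩
  | @node a c b A B _ _ ho ih1 ih2 =>
    obtain ⟨L1, s1, m1, -, b1⟩ := ih1
    obtain ⟨L2, s2, m2, -, b2⟩ := ih2
    refine ⟨(a, c, b) :: (L1 ++ L2), ?_, ?_, ?_, ?_⟩
    · intro t ht
      rcases List.mem_cons.mp ht with rfl | ht
      · refine ⟨?_, ho⟩
        refine List.Sublist.cons_cons _ ?_
        simp only [List.append_assoc, List.cons_append]
        exact (List.Sublist.cons_cons _ (List.sublist_append_right _ _)).trans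
          (List.sublist_append_right _ _)
      rcases List.mem_append.mp ht with ht | ht
      · refine ⟨(s1 t ht).1.trans ?_, (s1 t ht).2⟩
        refine List.Sublist.cons_cons _ ?_
        simp only [List.append_assoc, List.cons_append]
        exact List.Sublist.append_left (List.Sublist.cons_cons _ (List.nil_sublist _)) _
      · refine ⟨(s2 t ht).1.trans ?_, (s2 t ht).2⟩
        refine List.Sublist.cons _ ?_
        simp only [List.append_assoc, List.cons_append]
        exact List.sublist_append_right _ _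
    · intro x hx
      rcases List.mem_append.mp hx with hx | hx
      · obtain ⟨t, ht, h⟩ := m1 x hx
        exact ⟨t, by simp [ht], h⟩
      rcases List.mem_cons.mp hx with rfl | hx
      · exact ⟨(a, x, b), by simp, Or.inr (Or.inl rfl)⟩
      · obtain ⟨t, ht, h⟩ := m2 x hx
        exact ⟨t, by simp [ht], h⟩
    · intro _
      exact ⟨⟨(a, c, b), by simp, Or.inl rfl⟩, ⟨(a, c, b), by simp, Or.inr (Or.inr rfl)⟩⟩
    · intro f hf
      rw [csum_node hf, ← b1 f hf, ← b2 f hf]
      simp [bd]; ring

theorem tri_of_sorted {a b : Pt} {N : List Pt}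
    (h : ∀ x y z, List.Sublist [x, y, z] (a :: (N ++ [b])) → 0 < ori x y z) : Tri a N b := by
  induction N generalizing a with
  | nil => exact Tri.nil a b
  | cons c N ih =>
    refine Tri.cons (ih fun x y z hs => h x y z (hs.cons _)) (h a c b ?_)
    exact List.Sublist.cons_cons _ (List.Sublist.cons_cons _ (List.sublist_append_right _ _))

/-! ### angle sums of triangulated polygons -/

theorem Tri.cang_nonneg {X : Finset Pt} {y : Pt} (hg : Gen y X) {a b : Pt} {N : List Pt}
    (h : Tri a N b) : (∀ x ∈ a :: (N ++ [b]), x ∈ X) → 0 ≤ cang y (a :: (N ++ [b])) := by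
  induction h with
  | nil a b => intro _; exact (csum_pair (del_anti y) a b).ge
  | @node a c b A B _ _ ho ih1 ih2 =>
    intro hm
    unfold cang at *
    rw [csum_node (del_anti y)]
    have e1 := ih1 fun x hx => hm x (by simp at hx ⊢; tauto)
    have e2 := ih2 fun x hx => hm x (by simp at hx ⊢; tauto)
    have e3 := tri_ang_nonneg hg (hm a (by simp)) (hm c (by simp)) (hm b (by simp)) ho
    linarith

theorem TriL.cang_nonneg {X : Finset Pt} {y : Pt} (hg : Gen y X) {l : List Pt} (h : TriL l)
    (hm : ∀ x ∈ l, x ∈ X) : 0 ≤ cang y l := by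
  obtain ⟨a, N, b, rfl, h⟩ := h
  exact h.cang_nonneg hg hm

theorem cang_node (a : Pt) (A : List Pt) (c : Pt) (B : List Pt) (y : Pt) :
    cang y (a :: ((A ++ c :: B) ++ [y])) =
      cang y (a :: (A ++ [c])) + cang y (c :: (B ++ [y])) + del y a c := by
  unfold cang; rw [csum_node (del_anti y)]; simp

theorem cang_rotate (y : Pt) (A B : List Pt) : cang y (A ++ B) = cang y (B ++ A) :=
  csum_rotate _ A B

theorem cang_glue (y : Pt) (A : List Pt) (p : Pt) (N : List Pt) (q : Pt) (B : List Pt) :
    cang y (A ++ p :: (N ++ q :: B)) = cang y (A ++ p :: q :: B) + cang y (p :: (N ++ [q])) :=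
  csum_glue (del_anti y) A p N q B

/-- lower bound for the angle sum by the angle at one occurrence of the vertex -/
theorem Tri.lb_aux {X : Finset Pt} {a y : Pt} {L : List Pt} (h : Tri a L y) :
    Gen y X → (∀ x ∈ a :: (L ++ [y]), x ∈ X) → ∀ N p, L = N ++ [p] →
      ∃ S, 0 < S ∧ S ≤ cang y (a :: (L ++ [y])) ∧ a ≠ y ∧ ∀ l, Dir y a l → Dir y p (l + S) := by
  induction h with
  | nil a b => intro _ _ N p e; simp at e
  | @node a c b A B h1 h2 ho _ ih2 =>
    intro hg hm N p e
    have ho' : 0 < ori b a c := by rwa [ori_cyc'] at ho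
    obtain ⟨d1, -, d3⟩ := del_pos ho'
    have e1 := h1.cang_nonneg hg fun x hx => hm x (by simp at hx ⊢; tauto)
    have hm2 : ∀ x ∈ c :: (B ++ [b]), x ∈ X := fun x hx => hm x (by simp at hx ⊢; tauto)
    have e2 := h2.cang_nonneg hg hm2
    have hab := (ne_of_ori ho.ne').2.1
    rw [cang_node]
    rcases List.eq_nil_or_concat B with rfl | ⟨B', p', rfl⟩
    · obtain ⟨-, e3⟩ := List.append_inj' e rfl
      simp only [List.cons.injEq, and_true] at e3
      subst e3
      exact ⟨_, d1, by linarith, hab, d3⟩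
    · obtain ⟨S, s1, s2, -, s3⟩ := ih2 hg hm2 B' p' (by simp)
      have e' : (A ++ c :: B') ++ [p'] = N ++ [p] := by simpa using e
      obtain ⟨-, e3⟩ := List.append_inj' e' rfl
      simp only [List.cons.injEq, and_true] at e3
      subst e3
      exact ⟨del b a c + S, by linarith, by linarith, hab,
        fun l hl => (s3 _ (d3 l hl)).congr (by ring)⟩

/-- polygon `q, N, p, y`: the angle at `y` from the successor `q` to the predecessor `p` -/
theorem TriL.lb_last {X : Finset Pt} {y p q : Pt} {N : List Pt} (hg : Gen y X)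
    (h : TriL (q :: (N ++ [p, y]))) (hm : ∀ x ∈ q :: (N ++ [p, y]), x ∈ X) :
    ∃ S, 0 < S ∧ S ≤ cang y (q :: (N ++ [p, y])) ∧ q ≠ y ∧ ∀ l, Dir y q l → Dir y p (l + S) := by
  have e : N ++ [p, y] = (N ++ [p]) ++ [y] := by simp
  rw [e] at h hm ⊢
  exact h.tri.lb_aux hg hm N p rfl

theorem TriL.lb_mid {X : Finset Pt} {y p q : Pt} {A B : List Pt} (hg : Gen y X)
    (h : TriL (A ++ p :: y :: q :: B)) (hm : ∀ x ∈ A ++ p :: y :: q :: B, x ∈ X) :
    ∃ S, 0 < S ∧ S ≤ cang y (A ++ p :: y :: q :: B) ∧ q ≠ y ∧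
      ∀ l, Dir y q l → Dir y p (l + S) := by
  have e : A ++ p :: y :: q :: B = (A ++ [p, y]) ++ (q :: B) := by simp
  have e2 : (q :: B) ++ (A ++ [p, y]) = q :: ((B ++ A) ++ [p, y]) := by simp
  rw [e] at h hm ⊢
  rw [cang_rotate, e2]
  refine TriL.lb_last hg (e2 ▸ h.rotate) fun x hx => hm x ?_
  simp at hx ⊢; tauto

theorem TriL.lb_head {X : Finset Pt} {y p q : Pt} {B : List Pt} (hg : Gen y X)
    (h : TriL (y :: q :: (B ++ [p]))) (hm : ∀ x ∈ y :: q :: (B ++ [p]), x ∈ X) :
    ∃ S, 0 < S ∧ S ≤ cang y (y :: q :: (B ++ [p])) ∧ q ≠ y ∧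
      ∀ l, Dir y q l → Dir y p (l + S) := by
  have e2 : (q :: (B ++ [p])) ++ [y] = q :: (B ++ [p, y]) := by simp
  have := cang_rotate y [y] (q :: (B ++ [p]))
  rw [List.singleton_append, e2] at this
  rw [this]
  refine TriL.lb_last hg (e2 ▸ h.rot1) fun x hx => hm x ?_
  simp at hx ⊢; tauto

theorem TriL.cang_pos {X : Finset Pt} {y : Pt} {l : List Pt} (hg : Gen y X) (h : TriL l)
    (hm : ∀ x ∈ l, x ∈ X) (hy : y ∈ l) (h3 : 3 ≤ l.length) : 0 < cang y l := by
  obtain ⟨A, B, rfl⟩ := List.append_of_mem hy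
  have h1 : TriL (y :: (B ++ A)) := by simpa using h.rotate
  have h2 : cang y (A ++ y :: B) = cang y (y :: (B ++ A)) := by rw [cang_rotate]; simp
  have hm' : ∀ x ∈ y :: (B ++ A), x ∈ X := fun x hx => hm x (by simp at hx ⊢; tauto)
  have h4 : 2 ≤ (B ++ A).length := by simp at h3 ⊢; omega
  rw [h2]
  generalize B ++ A = C at *
  rcases C with _ | ⟨q, C⟩
  · simp at h4
  rcases List.eq_nil_or_concat C with rfl | ⟨C', p, rfl⟩
  · simp at h4
  rw [List.concat_eq_append] at *
  obtain ⟨S, s1, s2, -⟩ := TriL.lb_head hg h1 hm'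
  linarith

/-- at a vertex whose neighbours all lie in a half plane the polygon is convex -/
theorem Tri.convex_aux {a y : Pt} {L : List Pt} (h : Tri a L y) {c0 : ℝ} :
    (∀ x ∈ a :: L, x ≠ y → InW y c0 (c0 + π) x) → ∀ N p, L = N ++ [p] → 0 < ori y a p := by
  induction h with
  | nil a b => intro _ N p e; simp at e
  | @node a c b A B _ _ ho _ ih2 =>
    intro hw N p e
    have ho' : 0 < ori b a c := by rwa [ori_cyc'] at ho
    rcases List.eq_nil_or_concat B with rfl | ⟨B', p', rfl⟩
    · obtain ⟨-, e3⟩ := List.append_inj' e rfl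
      simp only [List.cons.injEq, and_true] at e3
      subst e3; exact ho'
    · have := ih2 (fun x hx => hw x (by simp at hx ⊢; tauto)) B' p' (by simp)
      have e' : (A ++ c :: B') ++ [p'] = N ++ [p] := by simpa using e
      obtain ⟨-, e3⟩ := List.append_inj' e' rfl
      simp only [List.cons.injEq, and_true] at e3
      subst e3
      exact inW_trans (hw a (by simp) (ne_of_ori ho'.ne').1.symm)
        (hw c (by simp) (ne_of_ori ho'.ne').2.1.symm)
        (hw p' (by simp) (ne_of_ori this.ne').2.1.symm) ho' this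

theorem TriL.convex_head {y p q : Pt} {B : List Pt} {c0 : ℝ} (h : TriL (y :: q :: (B ++ [p])))
    (hw : ∀ x ∈ q :: (B ++ [p]), x ≠ y → InW y c0 (c0 + π) x) : 0 < ori y q p :=
  (TriL.tri (a := q) (N := B ++ [p]) (b := y) h.rot1).convex_aux hw B p rfl

/-! ### chains and windows -/

@[simp] theorem chain_nil (U : ℤ → Pt → ℝ) (i : ℤ) : Chain U i [] := trivial
@[simp] theorem chain_single (U : ℤ → Pt → ℝ) (i : ℤ) (a : Pt) : Chain U i [a] := trivial
@[simp] theorem chain_cons2 (U : ℤ → Pt → ℝ) (i : ℤ) (a b : Pt) (l : List Pt) :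
    Chain U i (a :: b :: l) ↔ vlt (U i) a b ∧ Chain U (i + 1) (b :: l) := Iff.rfl

theorem chain_append (U : ℤ → Pt → ℝ) (i : ℤ) (A : List Pt) (a : Pt) (B : List Pt) :
    Chain U i (A ++ a :: B) ↔ Chain U i (A ++ [a]) ∧ Chain U (i + A.length) (a :: B) := by
  induction A generalizing i with
  | nil => simp
  | cons x A ih =>
    cases A with
    | nil => simp
    | cons y A =>
      have := ih (i + 1)
      simp only [List.cons_append, chain_cons2, List.length_cons] at this ⊢
      rw [this, and_assoc]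
      push_cast
      rw [show i + 1 + ((A.length : ℤ) + 1) = i + ((A.length : ℤ) + 1 + 1) by ring]

theorem Chain.congr {U W : ℤ → Pt → ℝ} {i j : ℤ} {l : List Pt} (h : Chain U i l)
    (e : ∀ k : ℕ, k + 1 < l.length → ∀ a b, a ∈ l → vlt (U (i + k)) a b → vlt (W (j + k)) a b) :
    Chain W j l := by
  induction l generalizing i j with
  | nil => trivial
  | cons a l ih =>
    cases l with
    | nil => trivial
    | cons b l =>
      refine ⟨by simpa using e 0 (by simp) a b (by simp) (by simpa using h.1), ih h.2 ?_⟩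
      intro k hk x y hx hv
      have := e (k + 1) (by simpa using hk) x y (List.mem_cons_of_mem _ hx)
        (by push_cast; rwa [show i + ((k : ℤ) + 1) = i + 1 + k by ring])
      push_cast at this
      rwa [show j + ((k : ℤ) + 1) = j + 1 + k by ring] at this

theorem Chain.shift {X : Finset Pt} {K : ℕ} {U : ℤ → Pt → ℝ} (hs : Sys X K U) {i : ℤ}
    {l : List Pt} (h : Chain U i l) (hm : ∀ x ∈ l, x ∈ X) (n : ℤ) : Chain U (i + K * n) l :=
  h.congr fun k _ a b ha hv => by
    have := hs.vlt_per _ n (hm a ha) hv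
    rwa [show i + k + K * n = i + K * n + k by ring] at this

theorem chain_iff_getElem (U : ℤ → Pt → ℝ) (i : ℤ) (l : List Pt) :
    Chain U i l ↔ ∀ (k : ℕ) (h : k + 1 < l.length), vlt (U (i + k)) l[k] l[k + 1] := by
  induction l generalizing i with
  | nil => simp
  | cons a l ih =>
    cases l with
    | nil => simp
    | cons b l =>
      rw [chain_cons2, ih]
      constructor
      · rintro ⟨h1, h2⟩ k hk
        cases k with
        | zero => simpa using h1
        | succ k =>
          have := h2 k (by simpa using hk)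
          push_cast
          rw [show i + ((k : ℤ) + 1) = i + 1 + k by ring]
          simpa using this
      · intro h
        refine ⟨by simpa using h 0 (by simp), fun k hk => ?_⟩
        have := h (k + 1) (by simpa using hk)
        push_cast at this
        rw [show i + ((k : ℤ) + 1) = i + 1 + k by ring] at this
        simpa using this

@[simp] theorem win_zero (v : ℤ → Pt) (s : ℤ) : win v s 0 = [] := rfl

@[simp] theorem length_win (v : ℤ → Pt) (s : ℤ) (n : ℕ) : (win v s n).length = n := by
  simp [win]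

theorem win_succ (v : ℤ → Pt) (s : ℤ) (n : ℕ) : win v s (n + 1) = win v s n ++ [v (s + n)] := by
  simp [win, List.range_succ]

theorem win_add (v : ℤ → Pt) (s : ℤ) (n k : ℕ) :
    win v s (n + k) = win v s n ++ win v (s + n) k := by
  induction k with
  | zero => simp
  | succ k ih =>
    rw [← add_assoc, win_succ, ih, win_succ, List.append_assoc]
    push_cast; rw [add_assoc]

theorem win_succ' (v : ℤ → Pt) (s : ℤ) (n : ℕ) : win v s (n + 1) = v s :: win v (s + 1) n := by
  rw [add_comm n 1, win_add]; simp [win]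

theorem mem_win {v : ℤ → Pt} {s : ℤ} {n : ℕ} {x : Pt} :
    x ∈ win v s n ↔ ∃ j, s ≤ j ∧ j < s + n ∧ v j = x := by
  simp only [win, List.mem_map, List.mem_range]
  constructor
  · rintro ⟨j, h, rfl⟩; exact ⟨s + j, by omega, by omega, rfl⟩
  · rintro ⟨j, h1, h2, rfl⟩
    exact ⟨(j - s).toNat, by omega, by congr 1; omega⟩

theorem getElem_win (v : ℤ → Pt) (s : ℤ) (n k : ℕ) (h : k < (win v s n).length) :
    (win v s n)[k] = v (s + k) := by simp [win]

theorem psum_win (f : Pt → Pt → ℝ) (v : ℤ → Pt) (s : ℤ) (n : ℕ) :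
    psum f (win v s (n + 1)) = ∑ j ∈ Finset.range n, f (v (s + j)) (v (s + j + 1)) := by
  induction n with
  | zero => simp [win]
  | succ n ih =>
    rw [Finset.sum_range_succ, ← ih, win_succ v s (n + 1), win_succ, List.append_assoc,
      List.singleton_append, psum_append]
    simp [add_assoc]

theorem win_close {v : ℤ → Pt} {n : ℕ} (hn : 0 < n) (hp : ∀ i, v (i + n) = v i) (s : ℤ) :
    win v s n ++ (win v s n).take 1 = win v s (n + 1) := by
  rw [win_succ, hp]
  obtain ⟨k, rfl⟩ := Nat.exists_eq_succ_of_ne_zero hn.ne'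
  rw [win_succ']; simp

theorem csum_win (f : Pt → Pt → ℝ) {v : ℤ → Pt} {n : ℕ} (hp : ∀ i, v (i + n) = v i) (s : ℤ) :
    csum f (win v s n) = ∑ j ∈ Finset.range n, f (v (s + j)) (v (s + j + 1)) := by
  rcases Nat.eq_zero_or_pos n with rfl | hn
  · simp [csum]
  · rw [csum, win_close hn hp, psum_win]

theorem chain_win (U : ℤ → Pt → ℝ) (v : ℤ → Pt) (i s : ℤ) (n : ℕ) :
    Chain U i (win v s (n + 1)) ↔
      ∀ k : ℕ, k < n → vlt (U (i + k)) (v (s + k)) (v (s + k + 1)) := by
  rw [chain_iff_getElem]
  simp only [length_win, getElem_win]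
  push_cast
  simp only [add_lt_add_iff_right, add_assoc]

theorem win_rot {v : ℤ → Pt} {n : ℕ} (hp : ∀ i, v (i + n) = v i) (s : ℤ) (k : ℕ) (hk : k ≤ n) :
    ∃ A B, win v s n = A ++ B ∧ win v (s + k) n = B ++ A := by
  obtain ⟨d, rfl⟩ := Nat.exists_eq_add_of_le hk
  refine ⟨win v s k, win v (s + k) d, win_add _ _ _ _, ?_⟩
  rw [add_comm k d, win_add]
  congr 1
  simp only [win]
  refine List.map_congr_left fun j _ => ?_
  rw [← hp (s + j)]; congr 1; push_cast; ring

theorem win_rot_any {v : ℤ → Pt} {n : ℕ} (hp : ∀ i, v (i + n) = v i) (s s' : ℤ) :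
    ∃ A B, win v s n = A ++ B ∧ win v s' n = B ++ A := by
  rcases Nat.eq_zero_or_pos n with rfl | hn
  · exact ⟨[], [], by simp, by simp⟩
  obtain ⟨q, r, e, r0, r1⟩ := exists_divmod (K := n) (by exact_mod_cast hn) (s' - s)
  obtain ⟨A, B, h1, h2⟩ := win_rot hp s r.toNat (by omega)
  refine ⟨A, B, h1, ?_⟩
  rw [← h2]
  simp only [win]
  refine List.map_congr_left fun j _ => ?_
  rw [← per_int hp (s + r.toNat + j) q]; congr 1
  rw [Int.toNat_of_nonneg r0]; linarith

theorem TriL.win_shift {v : ℤ → Pt} {n : ℕ} (hp : ∀ i, v (i + n) = v i) {s : ℤ}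
    (h : TriL (win v s n)) (s' : ℤ) : TriL (win v s' n) := by
  obtain ⟨A, B, h1, h2⟩ := win_rot_any hp s s'
  rw [h2]; rw [h1] at h; exact h.rotate

theorem csum_win_shift (f : Pt → Pt → ℝ) {v : ℤ → Pt} {n : ℕ} (hp : ∀ i, v (i + n) = v i)
    (s s' : ℤ) : csum f (win v s n) = csum f (win v s' n) := by
  obtain ⟨A, B, h1, h2⟩ := win_rot_any hp s s'
  rw [h1, h2, csum_rotate]

/-- the sum over one period does not depend on the starting point -/
theorem sum_period_shift (f : Pt → Pt → ℝ) {v : ℤ → Pt} {n : ℕ} (hp : ∀ i, v (i + n) = v i)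
    (s : ℤ) : ∑ j ∈ Finset.range n, f (v (s + j)) (v (s + j + 1)) =
      ∑ j ∈ Finset.range n, f (v j) (v ((j : ℤ) + 1)) := by
  have := csum_win_shift f hp s 0
  rw [csum_win f hp, csum_win f hp] at this
  simpa using this

end Pool.Agent.CT
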