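import Pool.Agent.Lib.MP_a7588a_co.Hull
import Pool.Agent.Lib.MP_a7588a_co.Tri

/-! Winding estimates for polygons whose edges are seen from a monotone system of views. -/

set_option autoImplicit false

namespace Pool.Agent.CT

open Real

variable {X : Finset Pt}

theorem IsView.ne_pi {V : Pt → ℝ} (hV : IsView X V) {y b : Pt} (hy : y ∈ X) (hb : b ∈ X) {m : ℝ}
    (h : Dir y b m) : m ≠ V y + π := by
  intro e
  exact (hV.ne b hb y hy _ h.rev').2 (by linarith)

theorem IsView.step {V : Pt → ℝ} (hV : IsView X V) {a b y : Pt} (ha : a ∈ X) (hb : b ∈ X)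
    (hy : y ∈ X) (hg : Gen y X) (hab : vlt V a b) (hby : b ≠ y) {l : ℝ} (hl : Dir y a l)
    (h : l < V y + π) : l + del y a b < V y + π := by
  have hd := hg.del_dir ha hb hby hl
  have hlt := del_lt y a b
  by_contra hc
  push Not at hc
  have hc' := lt_of_le_of_ne hc (hV.ne_pi hy hb hd).symm
  have h1 : vlt V b y :=
    (hV.vlt_iff_back hb hy).mpr ⟨_, hd.sub2, by linarith, by linarith⟩
  have h2 : vlt V y a := ⟨l, hl, by linarith, h⟩
  exact hV.asymm ha hb hab (hV.trans b hb y hy a ha h1 h2)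

/-- sum of signed angles at `y` along the steps `s, …, s + d - 1` -/
noncomputable def dsum (y : Pt) (v : ℤ → Pt) (s : ℤ) (d : ℕ) : ℝ :=
  ∑ k ∈ Finset.range d, del y (v (s + k)) (v (s + k + 1))

@[simp] theorem dsum_zero (y : Pt) (v : ℤ → Pt) (s : ℤ) : dsum y v s 0 = 0 := by simp [dsum]

theorem dsum_succ (y : Pt) (v : ℤ → Pt) (s : ℤ) (d : ℕ) :
    dsum y v s (d + 1) = dsum y v s d + del y (v (s + d)) (v (s + d + 1)) :=
  Finset.sum_range_succ _ _

theorem dsum_add (y : Pt) (v : ℤ → Pt) (s : ℤ) (a b : ℕ) :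
    dsum y v s (a + b) = dsum y v s a + dsum y v (s + a) b := by
  induction b with
  | zero => simp
  | succ b ih =>
    rw [← add_assoc, dsum_succ, dsum_succ, ih]
    push_cast
    rw [← add_assoc s, add_assoc]

theorem cang_win {v : ℤ → Pt} {n : ℕ} (hp : ∀ i, v (i + n) = v i) (y : Pt) (s s' : ℤ) :
    cang y (win v s n) = dsum y v s' n := by
  unfold cang
  rw [csum_win_shift _ hp s s', csum_win _ hp]; rfl

namespace FP

variable {n : ℕ} {U : ℤ → Pt → ℝ} {v : ℤ → Pt}

theorem two_le (h : FP X n U v) : 2 ≤ n := by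
  have h1 := (h.step 0).ne
  rcases Nat.lt_or_ge n 2 with hn | hn
  · interval_cases n
    · have := h.sys.per 0 _ (h.mem 0)
      simp at this
    · exact absurd (by simpa using (h.per 0).symm) h1
  · exact hn

theorem ne_of (h : FP X n U v) {i j : ℤ} (h1 : i < j) (h2 : j < i + n) : v j ≠ v i := by
  intro e
  obtain ⟨c, hc⟩ := h.inj _ _ e
  have hn : (0 : ℤ) < n := by omega
  have c1 : 0 < c := by
    by_contra hh
    push Not at hh
    nlinarith
  nlinarith

theorem run (h : FP X n U v) {y : Pt} (hy : y ∈ X) (hg : Gen y X) {s : ℤ} {β : ℝ}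
    (hb : Dir y (v s) β) (hlt : β < U s y + π) (d : ℕ)
    (hne : ∀ j, s < j → j ≤ s + d → v j ≠ y) :
    Dir y (v (s + d)) (β + dsum y v s d) ∧ β + dsum y v s d < U (s + d) y + π ∧
      (0 < d → β + dsum y v s d < U (s + d - 1) y + π) := by
  induction d with
  | zero => simpa using ⟨hb, hlt⟩
  | succ d ih =>
    obtain ⟨i1, i2, -⟩ := ih fun j a b => hne j a (by push_cast; omega)
    have hn := hne (s + d + 1) (by omega) (by push_cast; omega)
    have e1 := hg.del_dir (h.mem _) (h.mem (s + d + 1)) hn i1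
    have e2 := (h.sys.view (s + d)).step (h.mem _) (h.mem _) hy hg (h.step (s + d)) hn i1 i2
    have e3 := h.sys.mono (s + d) y hy
    rw [dsum_succ]
    push_cast
    rw [← add_assoc, ← add_assoc, add_sub_cancel_right]
    exact ⟨e1, by linarith, fun _ => e2⟩

theorem cang_on (h : FP X n U v) (k s : ℤ) {d : ℕ} (hd : n = d + 2) :
    cang (v k) (win v s n) = dsum (v k) v (k + 1) d := by
  rw [cang_win h.per _ s k]
  have e : v (k + 1 + d + 1) = v k := by
    rw [← h.per k]; congr 1; rw [hd]; push_cast; ring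
  have : dsum (v k) v k n = dsum (v k) v k 1 + dsum (v k) v (k + 1) (d + 1) := by
    have := dsum_add (v k) v k 1 (d + 1)
    rw [show 1 + (d + 1) = n by omega] at this
    simpa using this
  rw [this, dsum_succ (v k) v (k + 1) d, e]
  simp [dsum]

theorem finish (h : FP X n U v) {k : ℤ} {β lp : ℝ} (hb : Dir (v k) (v (k + n - 1)) β)
    (h1 : β < U (k + n - 1) (v k) + π) (hp : Dir (v k) (v (k - 1)) lp)
    (h2 : U (k - 1) (v k) - π < lp) : β ≤ lp + 2 * π := by
  have e : k + n - 1 = k - 1 + n := by ring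
  rw [e, h.per] at hb
  rw [e, h.sys.per _ _ (h.mem k)] at h1
  exact hp.add2.le_of hb (by linarith)

theorem exists_succ (h : FP X n U v) (k : ℤ) :
    ∃ lq, Dir (v k) (v (k + 1)) lq ∧ U k (v k) < lq ∧ lq < U k (v k) + π := h.step k

theorem exists_pred (h : FP X n U v) (k : ℤ) :
    ∃ lp, Dir (v k) (v (k - 1)) lp ∧ U (k - 1) (v k) - π < lp ∧ lp < U (k - 1) (v k) := by
  have := h.step (k - 1)
  rw [sub_add_cancel] at this
  exact ((h.sys.view (k - 1)).vlt_iff_back (h.mem _) (h.mem _)).mp this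

/-- upper bound for the angle sum at a vertex -/
theorem fw1 (h : FP X n U v) (hX : GP X) {k : ℤ} (s : ℤ) {lp lq : ℝ}
    (hp : Dir (v k) (v (k - 1)) lp) (hp1 : U (k - 1) (v k) - π < lp)
    (hq : Dir (v k) (v (k + 1)) lq) (hq1 : lq < U k (v k) + π) :
    cang (v k) (win v s n) ≤ lp + 2 * π - lq := by
  obtain ⟨d, hd⟩ := Nat.exists_eq_add_of_le' h.two_le
  rw [h.cang_on k s hd]
  obtain ⟨r1, r2, -⟩ := h.run (h.mem k) (hX.gen (h.mem k)) hq
    (by linarith [h.sys.mono k _ (h.mem k)]) d fun j a b => h.ne_of (by omega) (by omega)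
  have e : k + 1 + d = k + n - 1 := by omega
  rw [e] at r1 r2
  linarith [h.finish r1 r2 hp hp1]

theorem lw (h : FP X n U v) (hX : GP X) (k s : ℤ) : cang (v k) (win v s n) < 2 * π := by
  obtain ⟨lp, p1, p2, p3⟩ := h.exists_pred k
  obtain ⟨lq, q1, q2, q3⟩ := h.exists_succ k
  have := h.fw1 hX s p1 p2 q1 q3
  have := h.sys.le (show k - 1 ≤ k by omega) (h.mem k)
  linarith

/-- if the accumulated direction from the vertex `v k` has fallen behind by a full turn at label
`e`, the angle sum is negative -/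
theorem defect (h : FP X n U v) (hX : GP X) {k : ℤ} (s : ℤ) {a : ℕ} (ha : a + 2 ≤ n) {lq : ℝ}
    (hq : Dir (v k) (v (k + 1 + a)) (lq + dsum (v k) v (k + 1) a)) (hq0 : U k (v k) < lq)
    (hq1 : lq + dsum (v k) v (k + 1) a + 2 * π < U (k + 1 + a) (v k) + π) :
    cang (v k) (win v s n) < 0 := by
  obtain ⟨b, hb⟩ := Nat.exists_eq_add_of_le ha
  rw [h.cang_on k s (d := a + b) (by omega), dsum_add]
  obtain ⟨r1, r2, -⟩ := h.run (h.mem k) (hX.gen (h.mem k)) hq.add2 hq1 b
    fun j a b => h.ne_of (by omega) (by omega)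
  have e : k + 1 + a + b = k + n - 1 := by omega
  rw [e] at r1 r2
  obtain ⟨lp, p1, p2, p3⟩ := h.exists_pred k
  have := h.finish r1 r2 p1 p2
  have := h.sys.le (show k - 1 ≤ k by omega) (h.mem k)
  linarith

theorem on_or_off (h : FP X n U v) (y : Pt) (e : ℤ) :
    (∀ j, v j ≠ y) ∨ ∃ k, v k = y ∧ k ≤ e ∧ e < k + n := by
  by_cases hon : ∃ k, v k = y
  · obtain ⟨k, rfl⟩ := hon
    obtain ⟨q, r, e1, r0, r1⟩ := exists_divmod (K := n) (by have := h.two_le; omega) (e - k)
    exact Or.inr ⟨k + n * q, per_int h.per k q, by omega, by omega⟩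
  · push Not at hon; exact Or.inl hon

/-- no point with positive angle sum lies in front of an edge -/
theorem ffront (h : FP X n U v) (hX : GP X) {y : Pt} (hy : y ∈ X) {s : ℤ}
    (hpos : 0 < cang y (win v s n)) {e : ℤ} (h1 : vlt (U e) (v e) y)
    (h2 : vlt (U e) y (v (e + 1))) : 0 < ori (v e) (v (e + 1)) y := by
  have hg := hX.gen hy
  have hne := hX _ (h.mem e) _ (h.mem (e + 1)) y hy (h.step e).ne h1.ne h2.ne.symm
  by_contra hc
  have ho : ori y (v e) (v (e + 1)) < 0 := by
    rw [← ori_cyc']; exact lt_of_le_of_ne (not_lt.mp hc) hne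
  obtain ⟨le, e1, e2, e3⟩ := ((h.sys.view e).vlt_iff_back (h.mem _) hy).mp h1
  obtain ⟨lf, f1, f2, f3⟩ := h2
  obtain ⟨d1, d2, d3⟩ := del_neg ho
  have key : le + del y (v e) (v (e + 1)) ≤ lf - 2 * π :=
    f1.sub2.le_of (d3 _ e1) (by linarith)
  have hn := h.two_le
  rcases h.on_or_off y e with hoff | ⟨k, rfl, k1, k2⟩
  · obtain ⟨d, hd⟩ : ∃ d, n = d + 1 := ⟨n - 1, by omega⟩
    obtain ⟨r1, -, r3⟩ := h.run hy hg f1 (by linarith [h.sys.mono e _ hy]) d fun j _ _ => hoff j
    have r3 := r3 (by omega)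
    have q1 : e + 1 + d = e + n := by omega
    rw [q1, h.per] at r1
    have q2 := h.sys.le (show e + 1 + d - 1 ≤ e + n by omega) hy
    rw [h.sys.per _ _ hy] at q2
    have q3 := e1.add2.le_of r1 (by linarith)
    rw [cang_win h.per y s (e + 1), hd, dsum_succ, q1, show e + n + 1 = e + 1 + n by ring,
      h.per, h.per] at hpos
    linarith
  · have k3 : k ≠ e := by rintro rfl; exact h1.ne rfl
    have k4 : e + 1 ≠ k + n := by
      intro e'; apply f1.ne; rw [e', h.per]
    obtain ⟨a, ha⟩ : ∃ a : ℕ, e = k + 1 + a := ⟨(e - k - 1).toNat, by omega⟩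
    obtain ⟨lq, q1, q2, q3⟩ := h.exists_succ k
    obtain ⟨r1, r2, -⟩ := h.run hy hg q1 (by linarith [h.sys.mono k _ hy]) a
      fun j a b => h.ne_of (by omega) (by omega)
    rw [← ha] at r1 r2
    have q4 := e1.le_of r1 (by linarith)
    have q5 := h.sys.mono e _ hy
    have := h.defect hX s (a := a + 1) (k := k) (by omega) (lq := lq) (by
      rw [dsum_succ]; push_cast; rw [← add_assoc, ← add_assoc, ← ha]
      exact d3 _ r1) q2 (by
      rw [dsum_succ]; push_cast; rw [← add_assoc, ← add_assoc, ← ha]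
      linarith)
    linarith

/-- no point with positive angle sum lies in the wedge swept at a vertex -/
theorem fwin (h : FP X n U v) (hX : GP X) {y : Pt} (hy : y ∈ X) {s : ℤ}
    (hpos : 0 < cang y (win v s n)) {e : ℤ} {l : ℝ} (hl : Dir (v e) y l)
    (h1 : U (e - 1) y < l) : ¬ l < U e y := by
  intro h2
  have hg := hX.gen hy
  have hn := h.two_le
  rcases h.on_or_off y e with hoff | ⟨k, rfl, k1, k2⟩
  · obtain ⟨r1, -, r3⟩ := h.run hy hg hl.rev (by linarith) n fun j _ _ => hoff j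
    have r3 := r3 (by omega)
    rw [h.per] at r1
    rw [show e + n - 1 = e - 1 + n by ring, h.sys.per _ _ hy] at r3
    have := hl.rev.le_of r1 (by linarith)
    rw [cang_win h.per y s e] at hpos
    linarith
  · have k3 : k ≠ e := by rintro rfl; exact hl.ne rfl
    obtain ⟨a, ha⟩ : ∃ a : ℕ, e = k + 1 + a := ⟨(e - k - 1).toNat, by omega⟩
    obtain ⟨lq, q1, q2, q3⟩ := h.exists_succ k
    obtain ⟨r1, -, r3⟩ := h.run hy hg q1 (by linarith [h.sys.mono k _ hy]) a
      fun j a b => h.ne_of (by omega) (by omega)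
    have r4 : lq + dsum (v k) v (k + 1) a < U (e - 1) (v k) + π := by
      rcases Nat.eq_zero_or_pos a with rfl | hp
      · rw [show e - 1 = k by omega]; simpa using q3
      · rw [ha]; exact r3 hp
    have q4 : lq + dsum (v k) v (k + 1) a ≤ l - π := by
      rw [← ha] at r1
      exact hl.rev'.le_of r1 (by linarith)
    have := h.defect hX s (a := a) (k := k) (by omega) r1 q2 (by rw [← ha]; linarith)
    linarith

/-- at a reflex vertex both edges are visible from both views -/
theorem reflex (h : FP X n U v) (hX : GP X) {k s : ℤ} (hpos : 0 < cang (v k) (win v s n))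
    (ho : ori (v (k - 1)) (v k) (v (k + 1)) < 0) :
    vlt (U (k - 1)) (v k) (v (k + 1)) ∧ vlt (U k) (v (k - 1)) (v k) := by
  obtain ⟨lp, p1, p2, p3⟩ := h.exists_pred k
  obtain ⟨lq, q1, q2, q3⟩ := h.exists_succ k
  have e1 := h.fw1 hX s p1 p2 q1 q3
  have e2 := h.sys.le (show k - 1 ≤ k by omega) (h.mem k)
  have e3 := neg_lo (by rwa [ori_cyc] at ho) q1 p1.add2 (by linarith)
  exact ⟨⟨lq, q1, by linarith, by linarith⟩,
    ((h.sys.view k).vlt_iff_back (h.mem _) (h.mem _)).mpr ⟨lp, p1, by linarith, by linarith⟩⟩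

theorem surj (h : FP X X.card U v) {x : Pt} (hx : x ∈ X) : ∃ i, v i = x := by
  classical
  have hinj : Set.InjOn (fun j : ℕ => v j) (Finset.range X.card : Set ℕ) := by
    intro i hi j hj e
    simp only [Finset.coe_range, Set.mem_Iio] at hi hj
    by_contra hne
    rcases lt_or_gt_of_ne hne with hl | hl
    · exact h.ne_of (i := i) (j := j) (by omega) (by omega) e.symm
    · exact h.ne_of (i := j) (j := i) (by omega) (by omega) e
  have hc : ((Finset.range X.card).image fun j : ℕ => v j).card = X.card := by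
    rw [Finset.card_image_of_injOn hinj, Finset.card_range]
  have hs : ((Finset.range X.card).image fun j : ℕ => v j) ⊆ X := by
    intro x hx
    obtain ⟨j, -, rfl⟩ := Finset.mem_image.mp hx
    exact h.mem _
  rw [← Finset.eq_of_subset_of_card_le hs hc.ge] at hx
  obtain ⟨j, -, rfl⟩ := Finset.mem_image.mp hx
  exact ⟨_, rfl⟩

theorem mem_win (h : FP X n U v) (k s : ℤ) : v k ∈ win v s n := by
  obtain ⟨q, r, e1, r0, r1⟩ := exists_divmod (K := n) (by have := h.two_le; omega) (k - s)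
  refine CT.mem_win.mpr ⟨s + r, by omega, by omega, ?_⟩
  rw [← per_int h.per (s + r) q]; congr 1; omega

theorem win_sub (h : FP X n U v) (s : ℤ) (d : ℕ) : ∀ x ∈ win v s d, x ∈ X := by
  intro x hx
  obtain ⟨j, -, -, rfl⟩ := CT.mem_win.mp hx
  exact h.mem j

theorem cang_pos (h : FP X n U v) (hX : GP X) {s : ℤ} (ht : TriL (win v s n)) (h3 : 3 ≤ n)
    (k : ℤ) : 0 < cang (v k) (win v s n) :=
  ht.cang_pos (hX.gen (h.mem k)) (h.win_sub s n) (h.mem_win k s) (by simpa using h3)

theorem nodup_win (h : FP X n U v) (s : ℤ) {d : ℕ} (hd : d ≤ n) : (win v s d).Nodup := by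
  refine List.Nodup.map_on ?_ List.nodup_range
  intro i hi j hj e
  rw [List.mem_range] at hi hj
  by_contra hne
  rcases lt_or_gt_of_ne hne with hl | hl
  · exact h.ne_of (i := s + i) (j := s + j) (by omega) (by omega) e.symm
  · exact h.ne_of (i := s + j) (j := s + i) (by omega) (by omega) e

end FP

/-! ### from lists to periodic functions -/

theorem l2f {K : ℕ} {U : ℤ → Pt → ℝ} (hs : Sys X K U) {P : List Pt} (hn : 0 < P.length)
    (hm : ∀ x ∈ P, x ∈ X) (hnd : P.Nodup) {t : ℤ → ℤ}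
    (ht : ∀ k : ℤ, 0 ≤ k → k + 1 < P.length → t k ≤ t (k + 1)) (hw : t (P.length - 1) ≤ t 0 + K)
    (hc : Chain (fun j => U (t j)) 0 (P ++ P.take 1)) :
    ∃ (v : ℤ → Pt) (τ : ℤ → ℤ), FP X P.length (fun j => U (τ j)) v ∧ win v 0 P.length = P ∧
      (∀ k : ℤ, 0 ≤ k → k < P.length → τ k = t k) ∧ (∀ j, τ (j + P.length) = τ j + K) ∧
      ∀ j, τ j ≤ τ (j + 1) := by
  set n := P.length with hnP
  have hn' : (0 : ℤ) < n := by exact_mod_cast hn
  set v : ℤ → Pt := fun j => P.getD (j % n).toNat 0 with hv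
  set τ : ℤ → ℤ := fun j => t (j % n) + K * (j / n) with hτ
  have v1 : ∀ (r : ℕ) (hr : r < n) (q : ℤ), v (r + n * q) = P[r] := by
    intro r hr q
    simp only [hv]
    rw [emod_of q (by omega) (by omega)]
    simp [List.getD_eq_getElem?_getD, List.getElem?_eq_getElem hr]
  have τ1 : ∀ r q : ℤ, 0 ≤ r → r < n → τ (r + n * q) = t r + K * q := by
    intro r q r0 r1
    simp only [hτ]
    rw [emod_of q r0 r1, ediv_of q r0 r1]
  have dm : ∀ j : ℤ, ∃ (r : ℕ) (q : ℤ), r < n ∧ j = r + n * q := by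
    intro j
    obtain ⟨q, r, e, r0, r1⟩ := exists_divmod hn' j
    exact ⟨r.toNat, q, by omega, by omega⟩
  have vper : ∀ i, v (i + n) = v i := fun i => by simp [hv]
  have τper : ∀ j, τ (j + n) = τ j + K := by
    intro j
    obtain ⟨r, q, hr, rfl⟩ := dm j
    rw [show (r : ℤ) + n * q + n = r + n * (q + 1) by ring, τ1 _ _ (by omega) (by omega),
      τ1 _ _ (by omega) (by omega)]; ring
  have τmono : ∀ j, τ j ≤ τ (j + 1) := by
    intro j
    obtain ⟨r, q, hr, rfl⟩ := dm j
    rw [τ1 _ _ (by omega) (by omega)]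
    by_cases h1 : r + 1 < n
    · rw [show (r : ℤ) + n * q + 1 = (r + 1) + n * q by ring, τ1 _ _ (by omega) (by omega)]
      linarith [ht r (by omega) (by omega)]
    · have : (r : ℤ) = n - 1 := by omega
      rw [show (r : ℤ) + n * q + 1 = 0 + n * (q + 1) by rw [this]; ring,
        τ1 _ _ le_rfl (by omega), this]
      linarith
  have vwin : win v 0 n = P := by
    refine List.ext_getElem (by simp [hnP]) fun k h1 h2 => ?_
    rw [getElem_win]
    simpa using v1 k h2 0
  have vmem : ∀ i, v i ∈ X := by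
    intro i
    obtain ⟨r, q, hr, rfl⟩ := dm i
    rw [v1 r hr]; exact hm _ (List.getElem_mem _)
  refine ⟨v, τ, ⟨⟨fun i => hs.view _, fun i x hx => hs.le (τmono i) hx, fun i x hx => ?_⟩, vmem,
    vper, ?_, ?_⟩, vwin, fun k k0 k1 => by simpa using τ1 k 0 k0 k1, τper, τmono⟩
  · rw [τper, hs.per _ _ hx]
  · intro i j e
    obtain ⟨r, q, hr, rfl⟩ := dm i
    obtain ⟨r', q', hr', rfl⟩ := dm j
    rw [v1 r hr, v1 r' hr'] at e
    obtain rfl := (hnd.getElem_inj_iff).mp e
    exact ⟨q - q', by ring⟩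
  · intro i
    obtain ⟨r, q, hr, rfl⟩ := dm i
    rw [← vwin, win_close hn vper, chain_win] at hc
    have := hc r hr
    simp only [zero_add] at this
    show vlt (U (τ _)) _ _
    rw [τ1 _ _ (by omega) (by omega), show (r : ℤ) + n * q + 1 = r + 1 + n * q by ring,
      per_int vper, per_int vper]
    exact hs.vlt_per _ q (vmem _) this

theorem LP.toFP {K : ℕ} {U : ℤ → Pt → ℝ} {i : ℤ} {l : List Pt} (h : LP X K U i l)
    (hn : 0 < l.length) :
    ∃ (v : ℤ → Pt) (W : ℤ → Pt → ℝ), FP X l.length W v ∧ win v 0 l.length = l ∧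
      (∀ k : ℤ, 0 ≤ k → k < l.length → W k = U (i + k)) ∧
      (∀ x ∈ X, W (-1) x = U (i + l.length - 1) x - 2 * π) ∧
      ∀ (k : ℕ) (hk : k < l.length), v k = l[k] := by
  obtain ⟨v, τ, h1, h2, h3, h4, -⟩ := l2f h.sys hn h.mem h.nodup (t := fun k => i + k)
    (fun k _ _ => by omega) (by have := h.len; omega)
    (h.chain.congr fun k _ a b _ hv => by simpa using hv)
  refine ⟨v, _, h1, h2, fun k k0 k1 => by simp only [h3 k k0 k1], fun x hx => ?_, fun k hk => ?_⟩
  · have e1 := h4 (-1)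
    rw [h3 _ (by omega) (by omega)] at e1
    have e2 : τ (-1) = i + l.length - 1 - K := by omega
    simp only [e2]
    exact h.sys.per_sub _ hx
  · have := getElem_win v 0 l.length k (by simpa using hk)
    simp only [h2, zero_add] at this
    exact this.symm

end Pool.Agent.CT
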